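import Pool.Agent.DIST.Fin

/-!
# DIST3 module Dom: domination of computable functions passes to larger classes
-/

namespace Pool.Agent.DIST3

open Pool.Agent.DIST

theorem dominates_of_preceq {d d' : ℕ → ℕ} (hd' : Monotone d') (h : Preceq d d')
    (hd : ∀ f : ℕ → ℕ, Computable f → ∃ n0 : ℕ, ∀ n, n0 ≤ n → f n < d n) :
    ∀ f : ℕ → ℕ, Computable f → ∃ n0 : ℕ, ∀ n, n0 ≤ n → f n < d' n := by
  intro f hf
  obtain ⟨C, hC1, hC⟩ := h
  have h1 : Computable (fun n : ℕ => C * n + C) :=
    (Primrec.nat_add.comp (Primrec.nat_mul.comp (Primrec.const C) Primrec.id)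
      (Primrec.const C)).to_comp
  have h2 : Computable (fun n : ℕ => C * n + C + C) :=
    Primrec.nat_add.to_comp.comp h1 (Computable.const C)
  have h3 : Computable (fun n : ℕ =>
      C * (∑ i ∈ Finset.range (C * n + C + C), f i) + (C * n + C)) :=
    Primrec.nat_add.to_comp.comp
      (Primrec.nat_mul.to_comp.comp (Computable.const C) ((computable_sum hf).comp h2)) h1
  obtain ⟨n0, hn0⟩ := hd _ h3
  refine ⟨C * n0 + C, fun m hm => ?_⟩
  have hq : n0 + 1 ≤ m / C := (Nat.le_div_iff_mul_le (by omega)).2 (by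
    rw [mul_comm]
    calc C * (n0 + 1) = C * n0 + C := by ring
      _ ≤ m := hm)
  obtain ⟨n, hn⟩ : ∃ n, m / C = n + 1 := ⟨m / C - 1, by omega⟩
  have hm1 : C * n + C ≤ m := by
    have := Nat.mul_div_le m C
    rw [hn] at this
    linarith
  have hm2 : m < C * n + C + C := by
    have := Nat.lt_mul_div_succ m (show 0 < C by omega)
    rw [hn] at this
    linarith
  have h4 := hn0 n (by omega)
  have h5 := hC n
  have h6 : f m ≤ ∑ i ∈ Finset.range (C * n + C + C), f i :=
    Finset.single_le_sum (f := f) (fun _ _ => Nat.zero_le _) (Finset.mem_range.2 hm2)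
  have h7 : C * f m < C * d' (C * n + C) := by
    have := Nat.mul_le_mul_left C h6
    omega
  have h8 : f m < d' (C * n + C) := lt_of_mul_lt_mul_left h7 (Nat.zero_le _)
  exact h8.trans_le (hd' hm1)

end Pool.Agent.DIST3
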