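import Pool.Agent.FBC.Defs

/-!
# DIST3: partial functions with rudimentary graph
-/

namespace Pool.Agent.DIST3

/-- the partial functions with rudimentary graph -/
structure RF (R : ℕ → ℕ → Prop) : Prop where
  rud : FBC.Rud (fun v : Fin 2 → ℕ => R (v 0) (v 1))
  fn : ∀ N L L', R N L → R N L' → L = L'

end Pool.Agent.DIST3
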