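import Pool.Agent.DIST3.EC
import Pool.Agent.DIST3.RFd

/-!
# DIST3 module RudEC: rudimentary relations have characteristic functions with elementary fuel

Induction on `Rud` with a statement for arbitrary reindexing if needed. Addition, multiplication,
truncated subtraction, bounded search by `EC.prec`.
-/

namespace Pool.Agent.DIST3

open Nat.Partrec (Code)

/-- the tuple coded by `N` -/
def dec : (k : ℕ) → ℕ → Fin k → ℕ
  | 0, _ => fun i => i.elim0
  | k + 1, N => Fin.cons (Nat.unpair N).1 (dec k (Nat.unpair N).2)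

theorem EC.congr {f g : ℕ → ℕ} (hf : EC f) (h : ∀ n, f n = g n) : EC g :=
  (funext h : f = g) ▸ hf

theorem EC.id : EC (fun n => n) :=
  (EC.pair EC.left EC.right).congr fun n => Nat.pair_unpair n

theorem EC.const (c : ℕ) : EC (fun _ => c) := by
  induction c with
  | zero => exact EC.zero
  | succ c ih => exact EC.comp (f := fun n => n + 1) (g := fun _ => c) EC.succ ih

/-- functions of two variables -/
def EC2 (h : ℕ → ℕ → ℕ) : Prop := EC (fun n => h (Nat.unpair n).1 (Nat.unpair n).2)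

theorem EC2.comp {h : ℕ → ℕ → ℕ} (hh : EC2 h) {f g : ℕ → ℕ} (hf : EC f) (hg : EC g) :
    EC (fun n => h (f n) (g n)) :=
  (EC.comp hh (EC.pair hf hg)).congr fun n => by simp

theorem EC2.add : EC2 (fun a y => a + y) :=
  EC.prec EC.id (EC.comp EC.succ (EC.comp EC.right EC.right)) (h := fun a y => a + y)
    (fun a => rfl) (fun a y => by simp [add_assoc]) ⟨0, 0, fun a y => le_rfl⟩

theorem EC.add {f g : ℕ → ℕ} (hf : EC f) (hg : EC g) : EC (fun n => f n + g n) :=
  EC2.add.comp hf hg

theorem EC2.mul : EC2 (fun a y => a * y) := by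
  refine EC.prec EC.zero (EC.add EC.left (EC.comp EC.right EC.right)) (h := fun a y => a * y)
    (fun a => by simp) (fun a y => by simp [mul_add, add_comm]) ?_
  obtain ⟨m, e, hm⟩ := ex_mul_le 0 0 0 0
  refine ⟨m, e, fun a y => ?_⟩
  exact (Nat.mul_le_mul (Nat.le_add_right a y) (Nat.le_add_left y a)).trans (hm (a + y))

theorem EC.mul {f g : ℕ → ℕ} (hf : EC f) (hg : EC g) : EC (fun n => f n * g n) :=
  EC2.mul.comp hf hg

theorem EC2.pred : EC2 (fun _ y => y - 1) :=
  EC.prec EC.zero (EC.comp EC.left EC.right) (h := fun _ y => y - 1)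
    (fun a => rfl) (fun a y => by simp) ⟨0, 0, fun a y => by simp only [ex]; omega⟩

theorem EC.pred {f : ℕ → ℕ} (hf : EC f) : EC (fun n => f n - 1) :=
  EC2.pred.comp EC.zero hf

theorem EC2.sub : EC2 (fun a y => a - y) :=
  EC.prec EC.id (EC.pred (EC.comp EC.right EC.right)) (h := fun a y => a - y)
    (fun a => by simp) (fun a y => by simp [Nat.sub_sub]) ⟨0, 0, fun a y => by simp only [ex]; omega⟩

theorem EC.sub {f g : ℕ → ℕ} (hf : EC f) (hg : EC g) : EC (fun n => f n - g n) :=
  EC2.sub.comp hf hg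

/-- the components of the tuple coded by `N` -/
theorem EC.dec {k : ℕ} (i : Fin k) : EC (fun N => dec k N i) := by
  induction k with
  | zero => exact i.elim0
  | succ k ih =>
    refine Fin.cases ?_ (fun j => ?_) i
    · exact EC.left
    · exact EC.comp (ih j) EC.right

/-- `0` if `f ⟨n, N⟩ = 0` for some `n < y`, and `1` otherwise -/
def srch (f : ℕ → ℕ) (N : ℕ) : ℕ → ℕ
  | 0 => 1
  | y + 1 => 1 - (1 - srch f N y * f (Nat.pair y N))

theorem srch_le (f : ℕ → ℕ) (N y : ℕ) : srch f N y ≤ 1 := by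
  cases y with
  | zero => exact le_rfl
  | succ y =>
    simp only [srch]
    omega

theorem srch_eq_zero (f : ℕ → ℕ) (N y : ℕ) :
    srch f N y = 0 ↔ ∃ n, n < y ∧ f (Nat.pair n N) = 0 := by
  induction y with
  | zero => simp [srch]
  | succ y ih =>
    have h1 : srch f N (y + 1) = 0 ↔ srch f N y * f (Nat.pair y N) = 0 := by
      simp only [srch]
      omega
    rw [h1, mul_eq_zero, ih]
    constructor
    · rintro (⟨n, hn, h⟩ | h)
      · exact ⟨n, by omega, h⟩
      · exact ⟨y, by omega, h⟩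
    · rintro ⟨n, hn, h⟩
      rcases Nat.lt_succ_iff_lt_or_eq.1 hn with hn | rfl
      · exact Or.inl ⟨n, hn, h⟩
      · exact Or.inr h

theorem EC2.srch {f : ℕ → ℕ} (hf : EC f) : EC2 (srch f) := by
  refine EC.prec (EC.const 1) (EC.sub (EC.const 1) (EC.sub (EC.const 1)
    (EC.mul (EC.comp EC.right EC.right)
      (EC.comp hf (EC.pair (EC.comp EC.left EC.right) EC.left))))) (h := DIST3.srch f)
    (fun a => rfl) (fun a y => ?_) ⟨0, 1, fun a y => ?_⟩
  · simp [DIST3.srch]
  · have := srch_le f a y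
    simp only [ex]
    omega

/-- rudimentary relations have characteristic functions in `EC` -/
theorem rud_EC {k : ℕ} {Q : (Fin k → ℕ) → Prop} (hQ : FBC.Rud Q) :
    ∃ f : ℕ → ℕ, EC f ∧ ∀ N, f N = 0 ↔ Q (dec k N) := by
  induction hQ with
  | @add k i j l =>
    refine ⟨_, EC.add (EC.sub (EC.add (EC.dec i) (EC.dec j)) (EC.dec l))
      (EC.sub (EC.dec l) (EC.add (EC.dec i) (EC.dec j))), fun N => ?_⟩
    show (dec k N i + dec k N j - dec k N l) + (dec k N l - (dec k N i + dec k N j)) = 0 ↔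
      dec k N i + dec k N j = dec k N l
    omega
  | @mul k i j l =>
    refine ⟨_, EC.add (EC.sub (EC.mul (EC.dec i) (EC.dec j)) (EC.dec l))
      (EC.sub (EC.dec l) (EC.mul (EC.dec i) (EC.dec j))), fun N => ?_⟩
    show (dec k N i * dec k N j - dec k N l) + (dec k N l - (dec k N i * dec k N j)) = 0 ↔
      dec k N i * dec k N j = dec k N l
    omega
  | @not k Q _ ih =>
    obtain ⟨f, hf, h⟩ := ih
    refine ⟨_, EC.sub (EC.const 1) hf, fun N => ?_⟩
    show 1 - f N = 0 ↔ ¬ Q (dec k N)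
    rw [← h N]
    omega
  | @and k Q Q' _ _ ih1 ih2 =>
    obtain ⟨f, hf, h⟩ := ih1
    obtain ⟨g, hg, h'⟩ := ih2
    refine ⟨_, EC.add hf hg, fun N => ?_⟩
    show f N + g N = 0 ↔ Q (dec k N) ∧ Q' (dec k N)
    rw [← h N, ← h' N]
    omega
  | @bex k Q i _ ih =>
    obtain ⟨f, hf, h⟩ := ih
    refine ⟨_, EC2.comp (EC2.srch hf) EC.id (EC.add (EC.dec i) (EC.const 1)), fun N => ?_⟩
    rw [srch_eq_zero]
    refine exists_congr fun n => and_congr Nat.lt_succ_iff ?_
    rw [h]
    simp only [dec, Nat.unpair_pair]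

end Pool.Agent.DIST3
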