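import Pool.Agent.DIST3.HTime
import Pool.Agent.DIST3.RudEC

/-!
# DIST3 module HT2: from rudimentary graphs to halting times

`c := comp (rfind' cf) (pair id zero)`, `cf` a code with elementary fuel of `⟨N, L⟩ ↦ 0` iff `R N L`
(`rud_EC`). If `R N L` then `c` halts on `N` with fuel `K` as soon as `K ≥ L + 2 + ` the fuel needed by
`cf` on `⟨N, L'⟩`, `L' ≤ L`; if it halts with fuel `K` then `R N L` for some `L < K`
(`evaln_bound`, `evaln_sound`).
-/

namespace Pool.Agent.DIST3

open Nat.Partrec (Code)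
open Pool.Agent.DIST

/-- the search halts if there is enough fuel -/
theorem HT2_up {cf : Code} {g : ℕ → ℕ} {K N L : ℕ} (hL : g (Nat.pair N L) = 0)
    (hmin : ∀ m < L, g (Nat.pair N m) ≠ 0)
    (h : ∀ m ≤ L, ∀ k, K ≤ k → Code.evaln k cf (Nat.pair N m) = some (g (Nat.pair N m)))
    (hK : Nat.pair N L < K) :
    ∀ j m, m + j = L → ∀ k, K + j ≤ k →
      Code.evaln k (Code.rfind' cf) (Nat.pair N m) = some L := by
  intro j
  induction j with
  | zero =>
    intro m hm k hk
    obtain rfl : m = L := by omega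
    obtain ⟨k', rfl⟩ : ∃ k', k = k' + 1 := ⟨k - 1, by omega⟩
    have h1 := h m le_rfl (k' + 1) (by omega)
    have h2 : Nat.pair N m ≤ k' := by omega
    simp [Code.evaln, h1, h2, hL, guard]
  | succ j ih =>
    intro m hm k hk
    obtain ⟨k', rfl⟩ : ∃ k', k = k' + 1 := ⟨k - 1, by omega⟩
    have h1 := h m (by omega) (k' + 1) (by omega)
    have h3 : Nat.pair N m < Nat.pair N L := Nat.pair_lt_pair_right _ (by omega)
    have h2 : Nat.pair N m ≤ k' := by omega
    have h4 := hmin m (by omega)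
    have h5 := ih (m + 1) (by omega) k' (by omega)
    simp [Code.evaln, h1, h2, h4, h5, guard]

/-- what the search finds -/
theorem HT2_down {cf : Code} {g : ℕ → ℕ} (hcf : ∀ n k x, x ∈ Code.evaln k cf n → x = g n) :
    ∀ k N m x, x ∈ Code.evaln k (Code.rfind' cf) (Nat.pair N m) →
      g (Nat.pair N x) = 0 ∧ x < k := by
  intro k
  induction k with
  | zero => intro N m x hx; simp [Code.evaln] at hx
  | succ k ih =>
    intro N m x hx
    have hb := Code.evaln_bound hx
    have h2 : Nat.pair N m ≤ k := by omega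
    cases h1 : Code.evaln (k + 1) cf (Nat.pair N m) with
    | none => simp [Code.evaln, h1, h2, guard] at hx
    | some y =>
      have hy : y = g (Nat.pair N m) := hcf _ _ _ h1
      by_cases h4 : y = 0
      · simp [Code.evaln, h1, h2, h4, guard] at hx
        subst hx
        refine ⟨by rw [← hy, h4], ?_⟩
        have := Nat.right_le_pair N m
        omega
      · simp [Code.evaln, h1, h2, h4, guard] at hx
        obtain ⟨e1, e2⟩ := ih N (m + 1) x hx
        exact ⟨e1, by omega⟩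

theorem HT2_HT (c : Code) (n : ℕ) :
    HT c n = Fm (fun N k => IsLeast {k | Code.evaln k c N ≠ none} k) n := rfl

theorem HT2_fun (c : Code) : ∀ N k k', IsLeast {k | Code.evaln k c N ≠ none} k →
    IsLeast {k | Code.evaln k c N ≠ none} k' → k = k' := fun _ _ _ h h' => h.unique h'

/-- the pairing function is elementary -/
theorem HT2_pair_le (N L : ℕ) : Nat.pair N L ≤ (N + L + 1) * (N + L + 1) := by
  have h := Nat.pair_lt_max_add_one_sq N L
  have h1 : max N L + 1 ≤ N + L + 1 := by omega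
  have h2 : (max N L + 1) ^ 2 ≤ (N + L + 1) ^ 2 := Nat.pow_le_pow_left h1 2
  rw [pow_two (N + L + 1)] at h2
  omega

/-- the composition -/
theorem HT2_comp (cf : Code) {k N : ℕ} (hN : N ≤ k) :
    Code.evaln (k + 1) (Code.comp cf (Code.pair Code.id Code.zero)) N =
      Code.evaln (k + 1) cf (Nat.pair N 0) := by
  have h1 : Code.evaln (k + 1) (Code.pair Code.id Code.zero) N = some (Nat.pair N 0) := by
    simp [Code.evaln, Code.id, hN, guard, Seq.seq]
  simp [Code.evaln, h1, hN, guard]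

/-- the code -/
theorem HT2_code {R : ℕ → ℕ → Prop} (hR : RF R) : ∃ (c : Code) (k0 e : ℕ),
    (∀ N k, Code.evaln k c N ≠ none → ∃ L < k, R N L) ∧
    ∀ N L k, R N L → ex k0 (N + L + e) ≤ k → Code.evaln k c N ≠ none := by
  obtain ⟨f, hf, hfR⟩ := rud_EC hR.rud
  have hg : EC (fun n => f (Nat.pair (Nat.unpair n).1 (Nat.pair (Nat.unpair n).2 0))) :=
    EC.comp hf (EC.pair EC.left (EC.pair EC.right EC.zero))
  obtain ⟨cf, k1, e1, hcf⟩ := hg
  set g : ℕ → ℕ := fun n => f (Nat.pair (Nat.unpair n).1 (Nat.pair (Nat.unpair n).2 0)) with hgdef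
  have hgR : ∀ N L, g (Nat.pair N L) = 0 ↔ R N L := by
    intro N L
    rw [hgdef]
    simp only [Nat.unpair_pair]
    rw [hfR]
    have h0 : dec 2 (Nat.pair N (Nat.pair L 0)) 0 = N := by
      simp [dec]
    have h1 : dec 2 (Nat.pair N (Nat.pair L 0)) 1 = L := by
      simp [dec]
    rw [h0, h1]
  have hcf' : ∀ n k x, x ∈ Code.evaln k cf n → x = g n := by
    intro n k x hx
    have h1 := Code.evaln_mono (le_max_left k (ex k1 (n + e1))) hx
    have h2 := hcf n (max k (ex k1 (n + e1))) (le_max_right _ _)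
    rw [Option.mem_def, h2] at h1
    exact (Option.some.inj h1).symm
  obtain ⟨k2, e2, h2⟩ : ∃ k2 e2, ∀ x, ex k1 ((x + 1) * (x + 1) + e1) + x + 1 ≤ ex k2 (x + e2) := by
    obtain ⟨m1, d1, g1⟩ := ex_mul_le 0 0 1 1
    obtain ⟨m2, d2, g2⟩ := ex_comp_le k1 m1 1 e1 d1
    obtain ⟨m3, d3, g3⟩ := ex_add_le m2 0 d2 1
    refine ⟨m3, d3, fun x => ?_⟩
    have a1 := g1 x
    have a2 := g2 x
    have a3 := g3 x
    have a4 : ex k1 ((x + 1) * (x + 1) + e1) ≤ ex k1 (1 * ex m1 (x + d1) + x + e1) := by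
      apply ex_mono
      have : (x + 1) * (x + 1) ≤ ex m1 (x + d1) := a1
      omega
    have a5 : ex 0 (x + 1) = x + 1 := rfl
    omega
  refine ⟨Code.comp (Code.rfind' cf) (Code.pair Code.id Code.zero), k2, e2, ?_, ?_⟩
  · intro N k hk
    obtain ⟨x, hx⟩ := Option.ne_none_iff_exists'.1 hk
    obtain ⟨k', rfl⟩ : ∃ k', k = k' + 1 := by
      cases k with
      | zero => simp [Code.evaln] at hx
      | succ k => exact ⟨k, rfl⟩
    have hb : N < k' + 1 := Code.evaln_bound (show x ∈ _ from hx)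
    have hN : N ≤ k' := by omega
    rw [HT2_comp _ hN] at hx
    obtain ⟨a1, a2⟩ := HT2_down hcf' _ _ _ _ hx
    exact ⟨x, a2, (hgR _ _).1 a1⟩
  · intro N L k hRL hk
    have a1 := h2 (N + L)
    have a2 := HT2_pair_le N L
    have a3 : ex k1 (Nat.pair N L + e1) ≤ ex k1 ((N + L + 1) * (N + L + 1) + e1) :=
      ex_mono _ (by omega)
    have a4 := le_ex k1 (Nat.pair N L + e1)
    obtain ⟨k', rfl⟩ : ∃ k', k = k' + 1 := ⟨k - 1, by omega⟩
    rw [HT2_comp _ (by omega)]
    rw [HT2_up (K := ex k1 (Nat.pair N L + e1) + 1) ((hgR _ _).2 hRL) ?_ ?_ (by omega) L 0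
      (by omega) (k' + 1) (by omega)]
    · exact Option.some_ne_none _
    · intro m hm h0
      have := hR.fn _ _ _ hRL ((hgR _ _).1 h0)
      omega
    · intro m hm k hk
      apply hcf
      refine le_trans (ex_mono _ ?_) (le_trans (Nat.le_succ _) hk)
      have : Nat.pair N m ≤ Nat.pair N L := by
        rcases hm.eq_or_lt with h | h
        · rw [h]
        · exact (Nat.pair_lt_pair_right _ h).le
      omega

theorem code_of_rf {R : ℕ → ℕ → Prop} (hR : RF R) : ∃ (c : Code) (k C : ℕ),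
    (∀ n, Fm R n ≤ HT c n) ∧ ∀ n, HT c n ≤ ex k (Fm R n + n + C) := by
  obtain ⟨c, k0, e, h1, h2⟩ := HT2_code hR
  obtain ⟨m1, d1, g1⟩ := ex_comp_le k0 1 1 e 0
  refine ⟨c, m1, d1, fun n => ?_, fun n => ?_⟩
  · rcases Fm_spec hR.fn n with h | ⟨N, hN, hRN⟩
    · rw [h]
      exact Nat.zero_le _
    · have hne : {k | Code.evaln k c N ≠ none}.Nonempty := ⟨_, h2 N _ _ hRN le_rfl⟩
      have hl : IsLeast {k | Code.evaln k c N ≠ none} (sInf {k | Code.evaln k c N ≠ none}) :=
        ⟨Nat.sInf_mem hne, fun _ h => Nat.sInf_le h⟩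
      obtain ⟨L, hL, hRL⟩ := h1 N _ hl.1
      have e1 := hR.fn _ _ _ hRN hRL
      have e2 : sInf {k | Code.evaln k c N ≠ none} ≤ HT c n := by
        rw [HT2_HT]
        exact le_Fm (HT2_fun c) hN hl
      omega
  · rw [HT2_HT]
    rcases Fm_spec (HT2_fun c) n with h | ⟨N, hN, hl⟩
    · rw [h]
      exact Nat.zero_le _
    · generalize Fm (fun N k => IsLeast {k | Code.evaln k c N ≠ none} k) n = K at hl ⊢
      obtain ⟨L, hL, hRL⟩ := h1 N _ hl.1
      have e1 : L ≤ Fm R n := le_Fm hR.fn hN hRL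
      have e2 := hl.2 (show _ from h2 N L _ hRL le_rfl)
      refine e2.trans (le_trans (ex_mono _ ?_) (g1 (Fm R n + n)))
      have e3 : ex 1 (Fm R n + n + 0) = 2 ^ (Fm R n + n) := rfl
      have e4 : 2 ^ n ≤ 2 ^ (Fm R n + n) := Nat.pow_le_pow_right (by norm_num) (by omega)
      omega

/-- for functions closed under exponentiation: maxima of partial functions with rudimentary graph
are the same as maximal halting times -/
theorem rf_iff_code {F : ℕ → ℕ} (hF : Monotone F) (hF2 : ∃ C, ∀ n, 2 ^ F n ≤ F (C * n + C)) :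
    (∃ R, RF R ∧ Preceq F (Fm R) ∧ Preceq (Fm R) F) ↔
      ∃ c : Code, Preceq F (HT c) ∧ Preceq (HT c) F := by
  constructor
  · rintro ⟨R, hR, hFA, hAF⟩
    obtain ⟨c, k, C, h1, h2⟩ := code_of_rf hR
    refine ⟨c, equiv_of_el hF hF2 (Fm_mono hR.fn) (HT_mono c) hFA hAF ?_ ?_⟩
    · exact ⟨1, le_rfl, fun n => by
        have := Fm_mono hR.fn (show n ≤ 1 * n + 1 by omega)
        have h3 := HT_mono c (show n ≤ 1 * n + 1 by omega)
        have := h1 n
        omega⟩
    · refine ⟨k, C + 1, fun n => (h2 n).trans (ex_mono k ?_)⟩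
      have := Fm_mono hR.fn (show n ≤ (C + 1) * n + (C + 1) by nlinarith)
      omega
  · rintro ⟨c, hFA, hAF⟩
    obtain ⟨R, k, C, hR, h1, h2⟩ := rf_of_code c
    refine ⟨R, hR, equiv_of_el hF hF2 (HT_mono c) (Fm_mono hR.fn) hFA hAF ?_ ?_⟩
    · exact ⟨1, le_rfl, fun n => by
        have h3 := Fm_mono hR.fn (show n ≤ 1 * n + 1 by omega)
        have := h1 n
        omega⟩
    · refine ⟨k, C + 1, fun n => (h2 n).trans (ex_mono k ?_)⟩
      have := HT_mono c (show n ≤ (C + 1) * n + (C + 1) by nlinarith)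
      omega

end Pool.Agent.DIST3
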