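import Pool.Agent.DIST.Fin
import Pool.Agent.DIST.Grp

/-!
# DIST3 module Poly: the functions `n ^ k`

`r = k`, `φ x_0 = x_0`, `φ x_(i+1) = x_(i+1) x_i`; `H = F_r` (range of `inl`). `|φ ^ m (x_i)| ≤
(|m| + 1) ^ i` for all integers `m`. Upper bound: a word of length `n` in `H` is a product
of at most `n` conjugates `t ^ m x_i^(±1) t ^ (-m) = φ ^ m (x_i)^(±1)`, `|m| ≤ n`. Lower bound:
`t ^ n (x_(k-1)) ^ n t ^ (-n) = φ ^ n (x_(k-1)) ^ n`, a positive word; the number of letters `x_0` in
`φ ^ n (x_(k-1))` is `n.choose (k - 1)` (abelianisation), so the length is at least `n * n.choose (k - 1)`.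
-/

namespace Pool.Agent.DIST3

open Pool.Agent.DIST Pool.Agent.helper12.FD

namespace PolyX

open FreeGroup (of)
open SemidirectProduct

/-- The generators `x_i`, `i ≤ r` (`1` for `i > r`). -/
def X (r i : ℕ) : FreeGroup (Fin (r + 1)) := if h : i < r + 1 then of ⟨i, h⟩ else 1

/-- The images of the generators under the inverse automorphism. -/
def Y (r : ℕ) : ℕ → FreeGroup (Fin (r + 1))
  | 0 => X r 0
  | i + 1 => X r (i + 1) * (Y r i)⁻¹

/-- `x_0 ↦ x_0`, `x_(i+1) ↦ x_(i+1) x_i`. -/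
def phiHom (r : ℕ) : FreeGroup (Fin (r + 1)) →* FreeGroup (Fin (r + 1)) :=
  FreeGroup.lift fun i => if i.1 = 0 then of i else of i * X r (i.1 - 1)

/-- The inverse. -/
def psiHom (r : ℕ) : FreeGroup (Fin (r + 1)) →* FreeGroup (Fin (r + 1)) :=
  FreeGroup.lift fun i => Y r i.1

theorem X_of {r i : ℕ} (h : i < r + 1) : X r i = of ⟨i, h⟩ := dif_pos h

theorem phiHom_zero (r : ℕ) : phiHom r (X r 0) = X r 0 := by
  rw [X_of (Nat.succ_pos r), phiHom, FreeGroup.lift_apply_of]
  rfl

theorem phiHom_succ {r i : ℕ} (h : i + 1 < r + 1) :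
    phiHom r (X r (i + 1)) = X r (i + 1) * X r i := by
  rw [X_of h, phiHom, FreeGroup.lift_apply_of]
  rfl

theorem psiHom_X {r i : ℕ} (h : i < r + 1) : psiHom r (X r i) = Y r i := by
  rw [X_of h, psiHom, FreeGroup.lift_apply_of]

theorem phiHom_Y {r i : ℕ} (h : i < r + 1) : phiHom r (Y r i) = X r i := by
  induction i with
  | zero => exact phiHom_zero r
  | succ i ih =>
    show phiHom r (X r (i + 1) * (Y r i)⁻¹) = _
    rw [map_mul, map_inv, phiHom_succ h, ih (by omega), mul_inv_cancel_right]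

theorem psi_phi (r : ℕ) : (psiHom r).comp (phiHom r) = MonoidHom.id _ := by
  refine FreeGroup.ext_hom _ _ fun i => ?_
  obtain ⟨i, hi⟩ := i
  show psiHom r (phiHom r (of ⟨i, hi⟩)) = of ⟨i, hi⟩
  rw [← X_of hi]
  cases i with
  | zero => rw [phiHom_zero, psiHom_X hi]; rfl
  | succ i =>
    rw [phiHom_succ hi, map_mul, psiHom_X hi, psiHom_X (by omega)]
    exact inv_mul_cancel_right _ _

theorem phi_psi (r : ℕ) : (phiHom r).comp (psiHom r) = MonoidHom.id _ := by
  refine FreeGroup.ext_hom _ _ fun i => ?_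
  obtain ⟨i, hi⟩ := i
  show phiHom r (psiHom r (of ⟨i, hi⟩)) = of ⟨i, hi⟩
  rw [← X_of hi, psiHom_X hi, phiHom_Y hi]

/-- The automorphism `φ`. -/
def phi (r : ℕ) : MulAut (FreeGroup (Fin (r + 1))) :=
  MonoidHom.toMulEquiv (phiHom r) (psiHom r) (psi_phi r) (phi_psi r)

theorem phi_zero (r : ℕ) : phi r (X r 0) = X r 0 := phiHom_zero r

theorem phi_succ {r i : ℕ} (h : i + 1 < r + 1) :
    phi r (X r (i + 1)) = X r (i + 1) * X r i := phiHom_succ h

theorem phi_inv_zero (r : ℕ) : (phi r)⁻¹ (X r 0) = X r 0 := psiHom_X (Nat.succ_pos r)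

theorem phi_inv_succ {r i : ℕ} (h : i + 1 < r + 1) :
    (phi r)⁻¹ (X r (i + 1)) = X r (i + 1) * ((phi r)⁻¹ (X r i))⁻¹ := by
  have h1 : (phi r)⁻¹ (X r i) = Y r i := psiHom_X (by omega)
  rw [h1]
  exact psiHom_X h

/-- The standard generators. -/
def A (r : ℕ) : Set (FreeGroup (Fin (r + 1))) := Set.range of

theorem W_X (r i : ℕ) : W (A r) (X r i) 1 := by
  by_cases h : i < r + 1
  · rw [X_of h]
    exact W_of_mem ⟨_, rfl⟩
  · rw [X, dif_neg h]
    exact W_one 1

theorem grow_pos (r : ℕ) : ∀ i < r + 1, ∀ m : ℕ, W (A r) ((phi r ^ m) (X r i)) ((m + 1) ^ i) := by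
  intro i
  induction i with
  | zero =>
    intro _ m
    have h : (phi r ^ m) (X r 0) = X r 0 := by
      induction m with
      | zero => rfl
      | succ m ih => rw [pow_succ, MulAut.mul_apply, phi_zero, ih]
    rw [h, pow_zero]
    exact W_X r 0
  | succ i ih =>
    intro hi m
    induction m with
    | zero =>
      rw [pow_zero, MulAut.one_apply, Nat.zero_add, one_pow]
      exact W_X r _
    | succ m ihm =>
      rw [pow_succ, MulAut.mul_apply, phi_succ hi, map_mul]
      refine W_mono (W_mul ihm (ih (by omega) m)) ?_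
      have h1 : (m + 1) ^ i ≤ (m + 1 + 1) ^ i := Nat.pow_le_pow_left (by omega) i
      calc (m + 1) ^ (i + 1) + (m + 1) ^ i = (m + 1) ^ i * (m + 1 + 1) := by ring
        _ ≤ (m + 1 + 1) ^ i * (m + 1 + 1) := Nat.mul_le_mul_right _ h1
        _ = (m + 1 + 1) ^ (i + 1) := (pow_succ _ _).symm

theorem grow_neg (r : ℕ) : ∀ i < r + 1, ∀ m : ℕ,
    W (A r) (((phi r)⁻¹ ^ m) (X r i)) ((m + 1) ^ i) := by
  intro i
  induction i with
  | zero =>
    intro _ m
    have h : ((phi r)⁻¹ ^ m) (X r 0) = X r 0 := by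
      induction m with
      | zero => rfl
      | succ m ih => rw [pow_succ, MulAut.mul_apply, phi_inv_zero, ih]
    rw [h, pow_zero]
    exact W_X r 0
  | succ i ih =>
    intro hi m
    induction m with
    | zero =>
      rw [pow_zero, MulAut.one_apply, Nat.zero_add, one_pow]
      exact W_X r _
    | succ m ihm =>
      rw [pow_succ, MulAut.mul_apply, phi_inv_succ hi, map_mul, map_inv, ← MulAut.mul_apply,
        ← pow_succ]
      refine W_mono (W_mul ihm (W_inv (ih (by omega) (m + 1)))) ?_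
      have h1 : (m + 1) ^ i ≤ (m + 1 + 1) ^ i := Nat.pow_le_pow_left (by omega) i
      calc (m + 1) ^ (i + 1) + (m + 1 + 1) ^ i = (m + 1) ^ i * (m + 1) + (m + 1 + 1) ^ i := by ring
        _ ≤ (m + 1 + 1) ^ i * (m + 1) + (m + 1 + 1) ^ i :=
          Nat.add_le_add_right (Nat.mul_le_mul_right _ h1) _
        _ = (m + 1 + 1) ^ (i + 1) := by ring

theorem grow (r : ℕ) (i : Fin (r + 1)) (m : ℤ) :
    W (A r) ((phi r ^ m) (of i)) ((m.natAbs + 1) ^ r) := by
  have h : of i = X r i.1 := (X_of i.2).symm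
  rw [h]
  have hle : (m.natAbs + 1) ^ i.1 ≤ (m.natAbs + 1) ^ r :=
    Nat.pow_le_pow_right (Nat.succ_pos _) (by omega)
  obtain ⟨n, rfl | rfl⟩ := m.eq_nat_or_neg
  · rw [Int.natAbs_natCast] at hle ⊢
    rw [zpow_natCast]
    exact W_mono (grow_pos r i.1 i.2 n) hle
  · rw [Int.natAbs_neg, Int.natAbs_natCast] at hle ⊢
    rw [zpow_neg, zpow_natCast, ← inv_pow]
    exact W_mono (grow_neg r i.1 i.2 n) hle

/-- The group. -/
abbrev Gp (r : ℕ) : Type := FreeByCyclic (r + 1) (phi r)

/-- The letter `t`. -/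
def t (r : ℕ) : Gp r := inr (Multiplicative.ofAdd 1)

/-- The generators of the group. -/
def S0 (r : ℕ) : Set (Gp r) := insert (t r) (Set.range fun i => inl (of i))

theorem inl_inr (r : ℕ) (g : FreeGroup (Fin (r + 1))) (m : ℤ) :
    (inl g * inr (Multiplicative.ofAdd m) : Gp r) =
      inr (Multiplicative.ofAdd m) * inl ((phi r ^ (-m)) g) := by
  refine SemidirectProduct.ext ?_ ?_
  · rw [mul_left, mul_left, left_inl, right_inl, left_inr, right_inr, left_inl, map_one,
      mul_one, one_mul, zpowersHom_apply, toAdd_ofAdd, ← MulAut.mul_apply,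
      ← zpow_add, add_neg_cancel, zpow_zero, MulAut.one_apply]
  · rw [mul_right, mul_right, right_inl, right_inr, right_inl, one_mul, mul_one]

theorem normal (r : ℕ) {g : Gp r} {n : ℕ} (hg : W (S0 r) g n) :
    ∃ (m : ℤ) (u : FreeGroup (Fin (r + 1))), g = inr (Multiplicative.ofAdd m) * inl u ∧
      m.natAbs ≤ n ∧ W (A r) u (n * (n + 1) ^ r) := by
  refine W_induction (P := fun g n => ∃ (m : ℤ) (u : FreeGroup (Fin (r + 1))),
    g = inr (Multiplicative.ofAdd m) * inl u ∧ m.natAbs ≤ n ∧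
      W (A r) u (n * (n + 1) ^ r)) ?_ ?_ ?_ hg
  · refine ⟨0, 1, ?_, Nat.zero_le _, W_one _⟩
    rw [ofAdd_zero, map_one, map_one, one_mul]
  · rintro y g n hy ⟨m, u, rfl, hm, hu⟩
    have hmono : n * (n + 1) ^ r ≤ (n + 1) * (n + 1 + 1) ^ r :=
      Nat.mul_le_mul (Nat.le_succ n) (Nat.pow_le_pow_left (Nat.le_succ _) r)
    have hsum : (m.natAbs + 1) ^ r + n * (n + 1) ^ r ≤ (n + 1) * (n + 1 + 1) ^ r := by
      have h1 : (m.natAbs + 1) ^ r ≤ (n + 1) ^ r := Nat.pow_le_pow_left (by omega) r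
      have h2 : (n + 1) ^ r ≤ (n + 1 + 1) ^ r := Nat.pow_le_pow_left (by omega) r
      calc (m.natAbs + 1) ^ r + n * (n + 1) ^ r ≤ (n + 1) ^ r + n * (n + 1) ^ r :=
            Nat.add_le_add_right h1 _
        _ = (n + 1) * (n + 1) ^ r := by ring
        _ ≤ (n + 1) * (n + 1 + 1) ^ r := Nat.mul_le_mul_left _ h2
    rcases hy with (rfl | ⟨i, rfl⟩) | (h | ⟨i, h⟩)
    · refine ⟨1 + m, u, ?_, by omega, W_mono hu hmono⟩
      rw [t, ← mul_assoc, ← map_mul, ← ofAdd_add]
    · refine ⟨m, (phi r ^ (-m)) (of i) * u, ?_, by omega, ?_⟩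
      · show inl (of i) * (inr (Multiplicative.ofAdd m) * inl u) = _
        rw [← mul_assoc, inl_inr, mul_assoc, ← map_mul]
      · have h1 := grow r i (-m)
        rw [Int.natAbs_neg] at h1
        exact W_mono (W_mul h1 hu) hsum
    · have hy' : y = inr (Multiplicative.ofAdd (-1)) := by
        have h' : y⁻¹ = inr (Multiplicative.ofAdd 1) := h
        rw [← inv_inv y, h', ← map_inv, ofAdd_neg]
      refine ⟨-1 + m, u, ?_, by omega, W_mono hu hmono⟩
      rw [hy', ← mul_assoc, ← map_mul, ← ofAdd_add]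
    · have hy' : y = inl (of i)⁻¹ := by
        have h' : y⁻¹ = inl (of i) := h.symm
        rw [← inv_inv y, h', ← map_inv]
      refine ⟨m, (phi r ^ (-m)) (of i)⁻¹ * u, ?_, by omega, ?_⟩
      · rw [hy', ← mul_assoc, inl_inr, mul_assoc, ← map_mul]
      · have h1 := grow r i (-m)
        rw [Int.natAbs_neg] at h1
        rw [map_inv]
        exact W_mono (W_mul (W_inv h1) hu) hsum
  · rintro g m n hmn ⟨j, u, rfl, hj, hu⟩
    exact ⟨j, u, rfl, hj.trans hmn, W_mono hu (Nat.mul_le_mul hmn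
      (Nat.pow_le_pow_left (by omega) r))⟩

/-- `F_r` inside the group. -/
def H (r : ℕ) : Subgroup (Gp r) := (inl : FreeGroup (Fin (r + 1)) →* Gp r).range

theorem closure_A (r : ℕ) : Subgroup.closure (A r) = ⊤ := FreeGroup.closure_range_of _

theorem closure_inl (r : ℕ) :
    Subgroup.closure ((inl : FreeGroup (Fin (r + 1)) →* Gp r) '' (A r)) = H r := by
  rw [← MonoidHom.map_closure, closure_A, H, MonoidHom.range_eq_map]

theorem H_fg (r : ℕ) : (H r).FG :=
  (Subgroup.fg_iff _).2 ⟨_, closure_inl r, (Set.finite_range _).image _⟩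

theorem S0_finite (r : ℕ) : (S0 r).Finite := (Set.finite_range _).insert _

theorem closure_S0 (r : ℕ) : Subgroup.closure (S0 r) = ⊤ := by
  rw [eq_top_iff]
  intro g _
  have hl : ∀ w : FreeGroup (Fin (r + 1)), (inl w : Gp r) ∈ Subgroup.closure (S0 r) := by
    intro w
    have h1 : (inl w : Gp r) ∈ H r := ⟨w, rfl⟩
    rw [← closure_inl] at h1
    refine Subgroup.closure_mono ?_ h1
    rintro _ ⟨_, ⟨i, rfl⟩, rfl⟩
    exact Or.inr ⟨i, rfl⟩
  have hr : ∀ n : Multiplicative ℤ, (inr n : Gp r) ∈ Subgroup.closure (S0 r) := by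
    intro n
    have : (inr n : Gp r) = (t r) ^ (Multiplicative.toAdd n) := by
      rw [t, ← map_zpow]
      congr 1
      exact (Int.mul_one _).symm
    rw [this]
    exact Subgroup.zpow_mem _ (Subgroup.subset_closure (show t r ∈ S0 r from Or.inl rfl)) _
  have h : (inl g.left * inr g.right : Gp r) ∈ Subgroup.closure (S0 r) :=
    mul_mem (hl g.left) (hr g.right)
  rwa [inl_left_mul_inr_right] at h

/-- The number of letters `x_0`. -/
def chi (r : ℕ) : FreeGroup (Fin (r + 1)) →* Multiplicative ℤ :=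
  FreeGroup.lift fun i => if i.1 = 0 then Multiplicative.ofAdd 1 else 1

theorem chi_zero (r : ℕ) : chi r (X r 0) = Multiplicative.ofAdd 1 := by
  rw [X_of (Nat.succ_pos r), chi, FreeGroup.lift_apply_of]
  rfl

theorem chi_succ {r i : ℕ} (h : i + 1 < r + 1) : chi r (X r (i + 1)) = 1 := by
  rw [X_of h, chi, FreeGroup.lift_apply_of]
  rfl

theorem chi_phi (r : ℕ) : ∀ i < r + 1, ∀ m : ℕ,
    chi r ((phi r ^ m) (X r i)) = Multiplicative.ofAdd ((m.choose i : ℕ) : ℤ) := by
  intro i
  induction i with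
  | zero =>
    intro _ m
    have h : (phi r ^ m) (X r 0) = X r 0 := by
      induction m with
      | zero => rfl
      | succ m ih => rw [pow_succ, MulAut.mul_apply, phi_zero, ih]
    rw [h, chi_zero, Nat.choose_zero_right]
    rfl
  | succ i ih =>
    intro hi m
    induction m with
    | zero =>
      rw [pow_zero, MulAut.one_apply, chi_succ hi, Nat.choose_zero_succ]
      rfl
    | succ m ihm =>
      rw [pow_succ, MulAut.mul_apply, phi_succ hi, map_mul, map_mul, ihm, ih (by omega),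
        Nat.choose_succ_succ, ← ofAdd_add]
      push_cast
      rw [add_comm]

/-- Words in `T ⊆ H`. -/
theorem chi_bound (r : ℕ) {T : Set (Gp r)} (hT : T.Finite) (hT' : Subgroup.closure T = H r) :
    ∃ K : ℕ, ∀ g n, W T g n → ((chi r g.left).toAdd).natAbs ≤ K * n := by
  obtain ⟨K, hK⟩ := (hT.image fun g => ((chi r g.left).toAdd).natAbs).bddAbove
  have hK' : ∀ g ∈ T, ((chi r g.left).toAdd).natAbs ≤ K := fun g hg => hK ⟨g, hg, rfl⟩
  have hTr : ∀ g ∈ T, g.right = 1 := by
    intro g hg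
    have h1 : g ∈ H r := by
      rw [← hT']
      exact Subgroup.subset_closure hg
    obtain ⟨u, rfl⟩ := h1
    rfl
  refine ⟨K, fun g n hg => ?_⟩
  have key : g.right = 1 ∧ ((chi r g.left).toAdd).natAbs ≤ K * n := by
    refine W_induction (P := fun g n => g.right = 1 ∧
      ((chi r g.left).toAdd).natAbs ≤ K * n) ⟨rfl, ?_⟩ ?_ ?_ hg
    · rw [one_left, map_one]
      exact Nat.zero_le _
    · rintro y g n hy ⟨h1, h2⟩
      have hy1 : y.right = 1 ∧ ((chi r y.left).toAdd).natAbs ≤ K := by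
        rcases hy with hy | hy
        · exact ⟨hTr y hy, hK' y hy⟩
        · have h3 := hTr _ hy
          have h4 := hK' _ hy
          have h5 : y.right = 1 := by
            rw [inv_right] at h3
            exact inv_eq_one.1 h3
          refine ⟨h5, ?_⟩
          rw [inv_left, h5, inv_one, map_one, MulAut.one_apply, map_inv, toAdd_inv,
            Int.natAbs_neg] at h4
          exact h4
      refine ⟨by rw [mul_right, hy1.1, h1, one_mul], ?_⟩
      rw [mul_left, hy1.1, map_one, MulAut.one_apply, map_mul, toAdd_mul]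
      have h6 := Int.natAbs_add_le (chi r y.left).toAdd (chi r g.left).toAdd
      have h7 : K * (n + 1) = K + K * n := by ring
      omega
    · rintro g m n hmn ⟨h1, h2⟩
      exact ⟨h1, h2.trans (Nat.mul_le_mul_left _ hmn)⟩
  exact key.2

/-- The test elements. -/
theorem test (r n : ℕ) : W (S0 r) (inl (((phi r ^ n) (X r r)) ^ n) : Gp r) (3 * n) := by
  have h1 : (inl (((phi r ^ n) (X r r)) ^ n) : Gp r) =
      (t r) ^ n * (inl (X r r)) ^ n * ((t r) ^ n)⁻¹ := by
    have h2 : (t r) ^ n = inr (Multiplicative.ofAdd (n : ℤ)) := by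
      rw [t, ← map_pow]
      congr 1
      rw [← ofAdd_nsmul]
      simp
    have h3 := inl_inr r ((phi r ^ (n : ℤ)) ((X r r) ^ n)) n
    rw [← MulAut.mul_apply, ← zpow_add, neg_add_cancel, zpow_zero, MulAut.one_apply, zpow_natCast]
      at h3
    rw [h2, ← map_pow (inl : FreeGroup (Fin (r + 1)) →* Gp r) (X r r), ← h3,
      mul_inv_cancel_right, map_pow (phi r ^ n)]
  rw [h1]
  have h4 : W (S0 r) (t r) 1 := W_of_mem (Or.inl rfl)
  have h5 : W (S0 r) (inl (X r r) : Gp r) 1 := by
    rw [X_of (Nat.lt_succ_self r)]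
    exact W_of_mem (Or.inr ⟨_, rfl⟩)
  refine W_mono (W_mul (W_mul (W_pow h4 n) (W_pow h5 n)) (W_inv (W_pow h4 n))) (by omega)

theorem chi_test (r n : ℕ) :
    ((chi r (((phi r ^ n) (X r r)) ^ n)).toAdd).natAbs = n * n.choose r := by
  rw [map_pow, chi_phi r r (Nat.lt_succ_self r) n, ← ofAdd_nsmul, toAdd_ofAdd, nsmul_eq_mul,
    Int.natAbs_mul, Int.natAbs_natCast, Int.natAbs_natCast]

theorem choose_bound (r n : ℕ) :
    n ^ (r + 1) ≤ r.factorial * ((n + r) * (n + r).choose r) := by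
  have h1 := Nat.pow_sub_le_descFactorial (n + r) r
  rw [Nat.descFactorial_eq_factorial_mul_choose] at h1
  have h2 : n ^ r ≤ (n + r + 1 - r) ^ r := Nat.pow_le_pow_left (by omega) r
  calc n ^ (r + 1) = n * n ^ r := by ring
    _ ≤ (n + r) * (r.factorial * (n + r).choose r) :=
      Nat.mul_le_mul (by omega) (h2.trans h1)
    _ = r.factorial * ((n + r) * (n + r).choose r) := by ring

end PolyX

open PolyX SemidirectProduct in
theorem poly (k : ℕ) (hk : 1 ≤ k) : ∃ (φ : MulAut (FreeGroup (Fin k)))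
    (H : Subgroup (FreeByCyclic k φ)), H.FG ∧
      ∀ S T : Set (FreeByCyclic k φ), S.Finite → Subgroup.closure S = ⊤ → T.Finite →
        Subgroup.closure T = H → Preceq (fun n => n ^ k) (distortion S T H) ∧
          Preceq (distortion S T H) (fun n => n ^ k) := by
  obtain ⟨r, rfl⟩ : ∃ r, k = r + 1 := ⟨k - 1, by omega⟩
  refine ⟨phi r, H r, H_fg r, fun S T hS hS' hT hT' => ⟨?_, ?_⟩⟩
  · -- lower bound
    obtain ⟨K, hK⟩ := exists_bound (S' := S) (S0_finite r) (fun x _ => by rw [hS']; trivial)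
    obtain ⟨K', hK'⟩ := chi_bound r hT hT'
    refine ⟨r.factorial * K' + 3 * K * (r + 1) + 1, by omega, fun n => ?_⟩
    have h1 : W S (inl (((phi r ^ (n + r)) (X r r)) ^ (n + r)) : Gp r) (K * (3 * (n + r))) :=
      W_trans hK (test r (n + r))
    have hmem : (inl (((phi r ^ (n + r)) (X r r)) ^ (n + r)) : Gp r) ∈ H r := ⟨_, rfl⟩
    have h2 := le_distortion (T := T) hS hS' hmem (wordLength_le h1)
    have hmem' : (inl (((phi r ^ (n + r)) (X r r)) ^ (n + r)) : Gp r) ∈ Subgroup.closure T := by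
      rw [hT']
      exact hmem
    have h3 := hK' _ _ (W_wordLength hmem')
    rw [left_inl, chi_test] at h3
    have h4 := choose_bound r n
    set d := distortion S T (H r)
    set l := wordLength T (inl (((phi r ^ (n + r)) (X r r)) ^ (n + r)) : Gp r)
    have h5 : d (K * (3 * (n + r))) ≤
        d ((r.factorial * K' + 3 * K * (r + 1) + 1) * n +
          (r.factorial * K' + 3 * K * (r + 1) + 1)) := by
      apply distortion_mono hS hS'
      have e1 : K * (3 * (n + r)) = 3 * K * n + 3 * K * r := by ring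
      have e2 : 3 * K * (r + 1) = 3 * K * r + 3 * K := by ring
      have e3 : 3 * K * n ≤ (r.factorial * K' + 3 * K * (r + 1) + 1) * n :=
        Nat.mul_le_mul_right _ (by rw [e2]; omega)
      rw [e1]
      refine Nat.add_le_add e3 ?_
      rw [e2]
      omega
    calc n ^ (r + 1) ≤ r.factorial * ((n + r) * (n + r).choose r) := h4
      _ ≤ r.factorial * (K' * l) := Nat.mul_le_mul_left _ h3
      _ ≤ r.factorial * (K' * d ((r.factorial * K' + 3 * K * (r + 1) + 1) * n +
          (r.factorial * K' + 3 * K * (r + 1) + 1))) :=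
        Nat.mul_le_mul_left _ (Nat.mul_le_mul_left _ (h2.trans h5))
      _ = (r.factorial * K') * d ((r.factorial * K' + 3 * K * (r + 1) + 1) * n +
          (r.factorial * K' + 3 * K * (r + 1) + 1)) := by ring
      _ ≤ (r.factorial * K' + 3 * K * (r + 1) + 1) *
          d ((r.factorial * K' + 3 * K * (r + 1) + 1) * n +
          (r.factorial * K' + 3 * K * (r + 1) + 1)) := Nat.mul_le_mul_right _ (by omega)
      _ ≤ _ := by omega
  · -- upper bound
    obtain ⟨K, hK⟩ := exists_bound (S' := S0 r) hS (fun x _ => by rw [closure_S0]; trivial)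
    obtain ⟨K', hK'⟩ := exists_bound (S' := T)
      (((Set.finite_range _).image _ : ((inl : FreeGroup (Fin (r + 1)) →* Gp r) '' (A r)).Finite))
      (fun x hx => by
        rw [hT', ← closure_inl]
        exact Subgroup.subset_closure hx)
    refine ⟨K' + K + 1, by omega, fun n => ?_⟩
    show distortion S T (H r) n ≤ (K' + K + 1) * ((K' + K + 1) * n + (K' + K + 1)) ^ (r + 1) +
      (K' + K + 1) * n + (K' + K + 1)
    refine csSup_le' ?_
    rintro l ⟨h, hh, h1, rfl⟩
    have h2 : W (S0 r) h (K * n) := by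
      refine W_trans hK (W_mono (W_wordLength ?_) h1)
      rw [hS']
      trivial
    obtain ⟨m, u, hmu, hm, hu⟩ := normal r h2
    have hm0 : m = 0 := by
      obtain ⟨v, rfl⟩ := hh
      have h3 := congrArg (fun g : Gp r => g.right) hmu
      simp only [right_inl, mul_right, right_inr, mul_one] at h3
      have h4 := congrArg Multiplicative.toAdd h3
      exact h4.symm
    rw [hm0, ofAdd_zero, map_one, one_mul] at hmu
    have h5 : W T h (K' * (K * n * (K * n + 1) ^ r)) := by
      rw [hmu]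
      exact W_trans hK' (W_map _ hu)
    refine (wordLength_le h5).trans ?_
    have h6 : K * n ≤ (K' + K + 1) * n + (K' + K + 1) := by
      have := Nat.mul_le_mul_right n (show K ≤ K' + K + 1 by omega)
      omega
    have h7 : K * n + 1 ≤ (K' + K + 1) * n + (K' + K + 1) := by
      have := Nat.mul_le_mul_right n (show K ≤ K' + K + 1 by omega)
      omega
    calc K' * (K * n * (K * n + 1) ^ r) ≤
        (K' + K + 1) * (((K' + K + 1) * n + (K' + K + 1)) *
          ((K' + K + 1) * n + (K' + K + 1)) ^ r) :=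
          Nat.mul_le_mul (by omega) (Nat.mul_le_mul h6 (Nat.pow_le_pow_left h7 r))
      _ = (K' + K + 1) * ((K' + K + 1) * n + (K' + K + 1)) ^ (r + 1) := by ring
      _ ≤ _ := by omega

end Pool.Agent.DIST3
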