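import Pool.Agent.DIST3.Lift

/-!
# DIST3 module Unary: the functions `2 ^ g`, `g n = max n (ψ m : m ≤ n)`, for subgroups of `K2`
-/

namespace Pool.Agent.DIST3

open Pool.Agent.helper12.FD Pool.Agent.DIST Pool.Agent.FBC HNNExtension

/-- largest value of a partial function at arguments `≤ m` -/
noncomputable def Mx (R : ℕ → ℕ → Prop) (m : ℕ) : ℕ := sSup {L | ∃ N ≤ m, R N L}

theorem Mx_bdd {R : ℕ → ℕ → Prop} (hfun : ∀ N L L', R N L → R N L' → L = L') (m : ℕ) :
    BddAbove {L | ∃ N ≤ m, R N L} := by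
  have h1 : {L | ∃ N ≤ m, R N L} = ⋃ N ∈ Set.Iic m, {L | R N L} := by
    ext L
    simp
  rw [h1]
  refine ((Set.finite_Iic m).biUnion fun N _ => ?_).bddAbove
  exact Set.Subsingleton.finite fun x hx y hy => hfun N x y hx hy

theorem le_Mx {R : ℕ → ℕ → Prop} (hfun : ∀ N L L', R N L → R N L' → L = L') {m N L : ℕ}
    (hN : N ≤ m) (hL : R N L) : L ≤ Mx R m :=
  le_csSup (Mx_bdd hfun m) ⟨N, hN, hL⟩

theorem Mx_spec {R : ℕ → ℕ → Prop} (hfun : ∀ N L L', R N L → R N L' → L = L') (m : ℕ) :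
    Mx R m = 0 ∨ ∃ N ≤ m, R N (Mx R m) := by
  rcases Set.eq_empty_or_nonempty {L | ∃ N ≤ m, R N L} with h | h
  · left
    show sSup {L | ∃ N ≤ m, R N L} = 0
    rw [h]
    exact csSup_empty
  · right
    exact Nat.sSup_mem h (Mx_bdd hfun m)

theorem Mx_mono {R : ℕ → ℕ → Prop} (hfun : ∀ N L L', R N L → R N L' → L = L') :
    Monotone (Mx R) := by
  intro m m' h
  rcases Mx_spec hfun m with h1 | ⟨N, hN, hL⟩
  · rw [h1]; exact Nat.zero_le _
  · exact le_Mx hfun (hN.trans h) hL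

/-- two-sided bound in `G` -/
theorem unary_G {R : ℕ → ℕ → Prop} (hR : Rud (fun v : Fin 2 → ℕ => R (v 0) (v 1)))
    (hfun : ∀ N L L', R N L → R N L' → L = L') :
    ∃ H : Subgroup G, H.FG ∧ ∀ S T : Set G, S.Finite → Subgroup.closure S = ⊤ → T.Finite →
      Subgroup.closure T = H → ∃ C : ℕ, 1 ≤ C ∧
        (∀ n, 2 ^ (max n (Mx R n)) ≤ C * distortion S T H (C * n + C)) ∧
        (∀ n, distortion S T H n ≤ 2 ^ (C * (max (C * n + C) (Mx R (C * n + C)) + 1))) := by
  obtain ⟨V, hV, M, v0, u, j, mS, Dm, nu, lo, Y, D, htot, hm, hD, h1, h2, h3⟩ := machB R hR hfun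
  have hg : Monotone fun n => max n (Mx R n) := fun a b h => max_le_max h (Mx_mono hfun h)
  obtain ⟨H, hH, h⟩ := machine_two_sided htot hm D hD (fun n => max n (Mx R n)) hg
    (fun n => le_max_left _ _) (fun N n hlo => by
      rcases h3 N with ⟨k1, k2⟩ | ⟨k1, k2⟩
      · exact le_max_of_le_right (le_Mx hfun (by omega) (h1 N k1).1)
      · exact le_max_of_le_left (by omega))
  refine ⟨H, hH, fun S T hS hS' hT hT' => ?_⟩
  obtain ⟨C, hC1, hA, hB, hU⟩ := h S T hS hS' hT hT'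
  have hmono := distortion_mono (T := T) hS hS' H
  refine ⟨C, hC1, fun n => ?_, hU⟩
  rcases le_total (Mx R n) n with h4 | h4
  · rw [max_eq_left h4]
    exact hA n
  · rw [max_eq_right h4]
    rcases Mx_spec hfun n with h5 | ⟨N, hN, hL⟩
    · rw [h5]
      refine le_trans ?_ (hA n)
      exact Nat.pow_le_pow_right (by norm_num) (Nat.zero_le _)
    · obtain ⟨k1, k2⟩ := h2 _ N (hN.trans h4) hL
      refine (hB _ k1).trans (Nat.mul_le_mul_left _ (hmono ?_))
      exact Nat.add_le_add_right (Nat.mul_le_mul_left _ (k2.trans hN)) _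

/-- subgroups of `G` as subgroups of `K2` -/
theorem lift_pair {H : Subgroup G} (hH : H.FG) :
    (H.map (of : G →* K2)).FG ∧ ∃ T₀ : Set G, T₀.Finite ∧ Subgroup.closure T₀ = H ∧
      ∀ S T : Set K2, S.Finite → Subgroup.closure S = ⊤ → T.Finite →
      Subgroup.closure T = H.map (of : G →* K2) →
      Preceq (distortion S T (H.map of)) (distortion SG T₀ H) ∧
      Preceq (distortion SG T₀ H) (distortion S T (H.map of)) := by
  obtain ⟨T₀, hT₀', hT₀⟩ := (Subgroup.fg_iff H).1 hH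
  have hof : Function.Injective (of : G →* K2) := HNNExtension.of_injective _
  have hT1 : Subgroup.closure ((of : G →* K2) '' T₀) = H.map of := by
    rw [← MonoidHom.map_closure, hT₀']
  have e1 : ∀ g : G, wordLength SK (of g : K2) = wordLength SG g := by
    intro g
    have : {n | W SK (of g : K2) n} = {n | W SG g n} := Set.ext fun n => W_of_iff g n
    exact congrArg sInf this
  have e2 : ∀ g : G, wordLength ((of : G →* K2) '' T₀) (of g) = wordLength T₀ g := by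
    intro g
    have : {n | W ((of : G →* K2) '' T₀) (of g) n} = {n | W T₀ g n} :=
      Set.ext fun n => W_map_iff of hof T₀ g n
    exact congrArg sInf this
  have e3 : distortion SK ((of : G →* K2) '' T₀) (H.map of) = distortion SG T₀ H := by
    funext n
    unfold distortion
    congr 1
    ext k
    constructor
    · rintro ⟨_, ⟨g, hg, rfl⟩, h1, h2⟩
      exact ⟨g, hg, by rw [← e1]; exact h1, by rw [← e2]; exact h2⟩
    · rintro ⟨g, hg, h1, h2⟩
      exact ⟨of g, ⟨g, hg, rfl⟩, by rw [e1]; exact h1, by rw [e2]; exact h2⟩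
  refine ⟨(Subgroup.fg_iff _).2 ⟨_, hT1, hT₀.image _⟩, T₀, hT₀, hT₀',
    fun S T hS hS' hT hT' => ⟨?_, ?_⟩⟩
  · rw [← e3]
    exact dist_equiv SK_finite closure_SK (hT₀.image _) hT1 hS hS' hT hT'
  · rw [← e3]
    exact dist_equiv hS hS' hT hT' SK_finite closure_SK (hT₀.image _) hT1

/-- The form of the results for functions `2 ^ g`. -/
def Two (g : ℕ → ℕ) (d : ℕ → ℕ) : Prop :=
  Preceq (fun n => 2 ^ g n) d ∧ (∃ b : ℕ, Preceq d (fun n => b ^ g n)) ∧
    ((∃ C, ∀ n, 2 * g n ≤ g (C * n + C)) → Preceq d (fun n => 2 ^ g n))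

theorem two_of {g d : ℕ → ℕ} (hg : Monotone g) (hg1 : ∀ n, 1 ≤ g (n + 1)) {C : ℕ} (hC1 : 1 ≤ C)
    (h1 : ∀ n, 2 ^ g n ≤ C * d (C * n + C)) (h2 : ∀ n, d n ≤ 2 ^ (C * (g (C * n + C) + 1))) :
    Two g d := by
  have e1 : ∀ n, C * (g (C * n + C) + 1) ≤ 2 * C * g (C * n + C) := by
    intro n
    have h3 : 1 ≤ g (C * n + C) := by
      obtain ⟨m, hm⟩ : ∃ m, C * n + C = m + 1 := ⟨C * n + C - 1, by omega⟩
      rw [hm]
      exact hg1 m
    nlinarith
  refine ⟨⟨C, hC1, fun n => ?_⟩, ⟨2 ^ (2 * C), C, hC1, fun n => ?_⟩, fun hdbl => ?_⟩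
  · have := h1 n
    show 2 ^ g n ≤ _
    omega
  · have h3 : d n ≤ (2 ^ (2 * C)) ^ g (C * n + C) := by
      rw [← pow_mul]
      exact (h2 n).trans (Nat.pow_le_pow_right (by norm_num) (e1 n))
    have h4 : 1 * (2 ^ (2 * C)) ^ g (C * n + C) ≤ C * (2 ^ (2 * C)) ^ g (C * n + C) :=
      Nat.mul_le_mul_right _ hC1
    show d n ≤ C * (2 ^ (2 * C)) ^ g (C * n + C) + C * n + C
    omega
  · obtain ⟨C2, hC2⟩ := mul_le_of_double hg hdbl (2 * C)
    refine ⟨C2 * C + C2 + 1, by omega, fun n => ?_⟩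
    have e3 := hC2 (C * n + C)
    have e4 : g (C2 * (C * n + C) + C2) ≤
        g ((C2 * C + C2 + 1) * n + (C2 * C + C2 + 1)) := hg (by
      have : C2 * (C * n + C) + C2 = C2 * C * n + (C2 * C + C2) := by ring
      rw [this, add_mul, add_mul]
      omega)
    have e5 : d n ≤ 2 ^ g ((C2 * C + C2 + 1) * n + (C2 * C + C2 + 1)) :=
      (h2 n).trans (Nat.pow_le_pow_right (by norm_num) ((e1 n).trans (e3.trans e4)))
    have e6 : 1 * 2 ^ g ((C2 * C + C2 + 1) * n + (C2 * C + C2 + 1)) ≤ (C2 * C + C2 + 1) *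
        2 ^ g ((C2 * C + C2 + 1) * n + (C2 * C + C2 + 1)) := Nat.mul_le_mul_right _ (by omega)
    rw [one_mul] at e6
    show d n ≤ (C2 * C + C2 + 1) *
      2 ^ g ((C2 * C + C2 + 1) * n + (C2 * C + C2 + 1)) + _ + _
    omega

theorem two_congr {g d d' : ℕ → ℕ} (hg : Monotone g) (hd' : Monotone d')
    (h1 : Preceq d d') (h2 : Preceq d' d) (h : Two g d) : Two g d' := by
  obtain ⟨k1, ⟨b, k2⟩, k3⟩ := h
  refine ⟨preceq_trans hd' k1 h1, ⟨b + 1, ?_⟩, fun hdbl => ?_⟩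
  · have hb : Monotone fun n => (b + 1) ^ g n := fun x y hxy =>
      Nat.pow_le_pow_right (by omega) (hg hxy)
    refine preceq_trans hb h2 ?_
    obtain ⟨C, hC1, hC⟩ := k2
    refine ⟨C, hC1, fun n => (hC n).trans ?_⟩
    have : b ^ g (C * n + C) ≤ (b + 1) ^ g (C * n + C) := Nat.pow_le_pow_left (by omega) _
    have := Nat.mul_le_mul_left C this
    show C * b ^ g (C * n + C) + C * n + C ≤ C * (b + 1) ^ g (C * n + C) + C * n + C
    omega
  · have hb : Monotone fun n => 2 ^ g n := fun x y hxy =>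
      Nat.pow_le_pow_right (by omega) (hg hxy)
    exact preceq_trans hb h2 (k3 hdbl)

/-- the unary form for subgroups of `K2` -/
theorem unary_K2 {R : ℕ → ℕ → Prop} (hR : Rud (fun v : Fin 2 → ℕ => R (v 0) (v 1)))
    (hfun : ∀ N L L', R N L → R N L' → L = L') :
    ∃ H : Subgroup K2, H.FG ∧ ∀ S T : Set K2, S.Finite → Subgroup.closure S = ⊤ → T.Finite →
      Subgroup.closure T = H → Two (fun n => max n (Mx R n)) (distortion S T H) := by
  obtain ⟨H, hH, h⟩ := unary_G hR hfun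
  obtain ⟨k1, T₀, k2, k3, k4⟩ := lift_pair hH
  refine ⟨H.map of, k1, fun S T hS hS' hT hT' => ?_⟩
  obtain ⟨h1, h2⟩ := k4 S T hS hS' hT hT'
  obtain ⟨C, hC1, hA, hB⟩ := h SG T₀ SG_finite closure_SG k2 k3
  have hg : Monotone fun n => max n (Mx R n) := fun a b h => max_le_max h (Mx_mono hfun h)
  refine two_congr hg (distortion_mono hS hS' _) h2 h1
    (two_of hg (fun n => le_max_of_le_left (by omega)) hC1 hA hB)

end Pool.Agent.DIST3
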