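import Pool.Agent.DIST3.Larg
import Pool.Agent.DIST3.HT2
import Pool.Agent.DIST3.Unary
import Pool.Agent.DIST3.Poly
import Pool.Agent.DIST3.Dom
import Pool.Agent.DIST.Fin2
import Pool.Agent.FBC.Pow

/-!
# DIST3 module Asm: the statements for one group `F_r ⋊ ℤ` isomorphic to `K2`
-/

namespace Pool.Agent.DIST3

open Pool.Agent.helper12.FD Pool.Agent.DIST Pool.Agent.FBC
open Nat.Partrec (Code)

/-- the exact description of the classes closed under exponentiation -/
theorem tfae_main {r : ℕ} {φ : MulAut (FreeGroup (Fin r))} (hr : 1 ≤ r)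
    (e : K2 ≃* FreeByCyclic r φ) (F : ℕ → ℕ) (hF : Monotone F)
    (hF2 : ∃ C, ∀ n, 2 ^ F n ≤ F (C * n + C)) :
    List.TFAE [∃ (r' : ℕ) (φ' : MulAut (FreeGroup (Fin r'))) (H : Subgroup (FreeByCyclic r' φ')),
        1 ≤ r' ∧ IsDist F H,
      ∃ H : Subgroup (FreeByCyclic r φ), IsDist F H,
      ∃ R, RF R ∧ Preceq F (Fm R) ∧ Preceq (Fm R) F,
      ∃ c : Code, Preceq F (HT c) ∧ Preceq (HT c) F] := by
  tfae_have 1 → 3 := by
    rintro ⟨r', φ', H, -, hH⟩
    exact hnec F hF hF2 r' φ' H hH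
  tfae_have 3 → 2 := hback e F hF hF2
  tfae_have 2 → 1 := by
    rintro ⟨H, hH⟩
    exact ⟨r, φ, H, hr, hH⟩
  tfae_have 3 ↔ 4 := rf_iff_code hF hF2
  tfae_finish

/-- the binary form -/
theorem binary_K2 {R : ℕ → ℕ → Prop} (hR : RF R) :
    ∃ H : Subgroup K2, H.FG ∧ ∀ S T : Set K2, S.Finite → Subgroup.closure S = ⊤ → T.Finite →
      Subgroup.closure T = H → Two (fun n => max (2 ^ n) (Fm R n)) (distortion S T H) := by
  obtain ⟨H, hH, h⟩ := suff2 hR.rud hR.fn
  refine ⟨H, hH, fun S T hS hS' hT hT' => ?_⟩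
  obtain ⟨C, hC1, hA, hB⟩ := h S T hS hS' hT hT'
  have hg : Monotone fun n => max (2 ^ n) (Fm R n) := fun a b h =>
    max_le_max (Nat.pow_le_pow_right (by norm_num) h) (Fm_mono hR.fn h)
  exact two_of hg (fun n => le_max_of_le_left Nat.one_le_two_pow) hC1 hA hB

/-- the largest class, in `K2` -/
theorem largest_K2 : ∃ H : Subgroup K2, H.FG ∧ ∀ S T : Set K2, S.Finite →
    Subgroup.closure S = ⊤ → T.Finite → Subgroup.closure T = H →
      (∀ (r : ℕ) (φ : MulAut (FreeGroup (Fin r))) (H' : Subgroup (FreeByCyclic r φ))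
        (S' T' : Set (FreeByCyclic r φ)), S'.Finite → Subgroup.closure S' = ⊤ → T'.Finite →
        Subgroup.closure T' = H' → Preceq (distortion S' T' H') (distortion S T H)) ∧
      ∀ f : ℕ → ℕ, Computable f → ∃ n0 : ℕ, ∀ n, n0 ≤ n → f n < distortion S T H n := by
  obtain ⟨H, hH, h⟩ := largest
  refine ⟨H, hH, fun S T hS hS' hT hT' => ?_⟩
  have h1 := h S T hS hS' hT hT'
  refine ⟨h1, ?_⟩
  obtain ⟨H₀, hH₀, h₀⟩ := main_of_machine machine
  obtain ⟨S₀, hS₀, hS₀'⟩ := exists_gens phi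
  obtain ⟨T₀, hT₀', hT₀⟩ := (Subgroup.fg_iff H₀).1 hH₀
  exact dominates_of_preceq (distortion_mono hS hS' H)
    (h1 4 phi H₀ S₀ T₀ hS₀ hS₀' hT₀ hT₀') (h₀ S₀ T₀ hS₀ hS₀' hT₀ hT₀')

/-- the functions `2 ^ ⌊n ^ (p / q)⌋` -/
theorem pow_K2 (p q : ℕ) (hqp : q ≤ p) : ∃ H : Subgroup K2, H.FG ∧ ∀ S T : Set K2, S.Finite →
    Subgroup.closure S = ⊤ → T.Finite → Subgroup.closure T = H →
      Preceq (distortion S T H) (fun n => 2 ^ fl p q n) ∧
      Preceq (fun n => 2 ^ fl p q n) (distortion S T H) := by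
  obtain ⟨H, hH, h⟩ := unary_K2 (rud_powR p q) (powR_fun p q)
  have e1 : (fun n => max n (Mx (PowR p q) n)) = gp p q := by
    funext n
    refine IsGreatest.unique ?_ (gp_greatest p q n)
    constructor
    · rcases le_total (Mx (PowR p q) n) n with h1 | h1
      · left
        exact max_eq_left h1
      · show max n (Mx (PowR p q) n) = n ∨ _
        rw [max_eq_right h1]
        rcases Mx_spec (powR_fun p q) n with h2 | h2
        · left; omega
        · exact Or.inr h2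
    · rintro N (rfl | ⟨m, hm, hN⟩)
      · exact le_max_left _ _
      · exact le_max_of_le_right (le_Mx (powR_fun p q) hm hN)
  rw [e1] at h
  refine ⟨H, hH, fun S T hS hS' hT hT' => ?_⟩
  obtain ⟨h1, -, h2⟩ := h S T hS hS' hT hT'
  have hmono := distortion_mono (T := T) hS hS' H
  have h3 := h2 (gp_dbl p q)
  have h4 : Eqv (distortion S T H) (fun n => 2 ^ fl p q n) := by
    have h5 : Eqv (distortion S T H) (fun n => 2 ^ gp p q n) := And.intro (b := Dom _ _) h3 h1
    refine eqv_shift hmono h5 (fun n => ?_) (2 ^ (q + 1)) (fun n => ?_)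
    · exact Nat.pow_le_pow_right (by omega) (gp_le_fl hqp n)
    · exact Nat.pow_le_pow_right (by omega) (fl_le_gp n)
  exact h4

end Pool.Agent.DIST3
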