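import Pool.Agent.DIST3.Asm

/-!
# DIST3 module BB: the largest distortion class is the class of the busy beaver function
-/

namespace Pool.Agent.DIST3

open Nat.Partrec (Code)
open Pool.Agent.DIST Pool.Agent.helper12.FD

/-- the largest halting time (fuel) of all pairs of a program `c` and an input `N` with
`⟨c, N⟩ ≤ 2 ^ n` such that `c` halts on `N` -/
noncomputable def BB (n : ℕ) : ℕ :=
  sSup {k | ∃ (c : Code) (N : ℕ), Nat.pair (Encodable.encode c) N ≤ 2 ^ n ∧
    IsLeast {k | Code.evaln k c N ≠ none} k}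

/-- the halting time of a program-input pair, as a relation -/
def BBrel (M k : ℕ) : Prop :=
  IsLeast {k | Code.evaln k (Denumerable.ofNat Code M.unpair.1) M.unpair.2 ≠ none} k

theorem BB_fun : ∀ M k k', BBrel M k → BBrel M k' → k = k' := fun _ _ _ h h' => h.unique h'

theorem BB_eq (n : ℕ) : BB n = Fm BBrel n := by
  unfold BB Fm
  congr 1
  ext k
  constructor
  · rintro ⟨c, N, h, hk⟩
    refine ⟨_, h, ?_⟩
    unfold BBrel
    rw [Nat.unpair_pair]
    simpa only [Denumerable.ofNat_encode] using hk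
  · rintro ⟨M, hM, hk⟩
    refine ⟨Denumerable.ofNat Code M.unpair.1, M.unpair.2, ?_, hk⟩
    rw [Denumerable.encode_ofNat, Nat.pair_unpair]
    exact hM

theorem BB_mono : Monotone BB := by
  have h := Fm_mono BB_fun
  intro a b hab
  rw [BB_eq, BB_eq]
  exact h hab

theorem HT_le_BB (c : Code) (n : ℕ) : HT c n ≤ BB (2 * (n + Encodable.encode c + 1)) := by
  rcases Fm_spec (HTrel_fun c) n with h | ⟨N, hN, hk⟩
  · rw [HT_eq_Fm, h]
    exact Nat.zero_le _
  · rw [HT_eq_Fm, BB_eq]
    refine le_Fm BB_fun (univ_pair_le (Encodable.encode c) N n hN) ?_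
    unfold BBrel
    rw [Nat.unpair_pair]
    show IsLeast {k | Code.evaln k (Denumerable.ofNat Code (Encodable.encode c)) N ≠ none} _
    rw [Denumerable.ofNat_encode]
    exact hk

theorem HT_preceq_BB (c : Code) : Preceq (HT c) BB := by
  refine ⟨2 * Encodable.encode c + 2, by omega, fun n => (HT_le_BB c n).trans ?_⟩
  have h1 : BB (2 * (n + Encodable.encode c + 1)) ≤
      BB ((2 * Encodable.encode c + 2) * n + (2 * Encodable.encode c + 2)) := by
    apply BB_mono
    have : 2 * n ≤ (2 * Encodable.encode c + 2) * n := Nat.mul_le_mul_right _ (by omega)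
    omega
  have h2 : 1 * BB ((2 * Encodable.encode c + 2) * n + (2 * Encodable.encode c + 2)) ≤
      (2 * Encodable.encode c + 2) *
        BB ((2 * Encodable.encode c + 2) * n + (2 * Encodable.encode c + 2)) :=
    Nat.mul_le_mul_right _ (by omega)
  omega

/-- a code for the partial function `M ↦ ex m k`, `BBrel M k` -/
theorem exists_code_BB (m : ℕ) : ∃ c : Code, ∀ M k, BBrel M k → ex m k ∈ c.eval M := by
  have h0 : Primrec (fun p : ℕ × ℕ =>
      Code.evaln p.2 (Denumerable.ofNat Code p.1.unpair.1) p.1.unpair.2) :=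
    Code.primrec_evaln.comp (Primrec.pair (Primrec.pair Primrec.snd
      ((Primrec.ofNat Code).comp (Primrec.fst.comp (Primrec.unpair.comp Primrec.fst))))
      (Primrec.snd.comp (Primrec.unpair.comp Primrec.fst)))
  have hc : Computable₂ (fun (M k : ℕ) =>
      (Code.evaln k (Denumerable.ofNat Code M.unpair.1) M.unpair.2).isSome) :=
    (Primrec.option_isSome.comp h0).to_comp
  have hf : Partrec (fun M : ℕ => Nat.rfind (fun k => Part.some
      ((Code.evaln k (Denumerable.ofNat Code M.unpair.1) M.unpair.2).isSome))) :=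
    Partrec.rfind hc.partrec₂
  have hg : Partrec (fun M : ℕ => (Nat.rfind (fun k => Part.some
      ((Code.evaln k (Denumerable.ofNat Code M.unpair.1) M.unpair.2).isSome))).map (ex m)) :=
    hf.map ((primrec_ex m).to_comp.comp Computable.snd).to₂
  obtain ⟨c, hc'⟩ := Code.exists_code.1 (Partrec.nat_iff.1 hg)
  refine ⟨c, fun M k hk => ?_⟩
  rw [hc']
  refine Part.mem_map (ex m) (Nat.mem_rfind.2 ⟨?_, fun {k'} hk' => ?_⟩)
  · simp only [Part.mem_some_iff]
    exact (Option.isSome_iff_ne_none.2 hk.1).symm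
  · simp only [Part.mem_some_iff]
    have h1 : Code.evaln k' (Denumerable.ofNat Code M.unpair.1) M.unpair.2 = none := by
      by_contra h
      exact absurd (hk.2 h) (not_le.2 hk')
    rw [h1]
    rfl

/-- there is a code whose maximal halting time function is the largest one -/
theorem BB_preceq_HT : ∃ u : Code, Preceq BB (HT u) := by
  obtain ⟨u, hu⟩ := exists_univ
  refine ⟨u, ?_⟩
  obtain ⟨j, c0, hb⟩ := (sf_evaln u).bd
  obtain ⟨c, hc⟩ := exists_code_BB j
  set e := Encodable.encode c with he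
  have hec : Denumerable.ofNat Code e = c := Denumerable.ofNat_encode c
  refine ⟨2 * e + 2 + c0, by omega, fun n => ?_⟩
  rw [BB_eq]
  rcases Fm_spec BB_fun n with h0 | ⟨M, hM, hk⟩
  · rw [h0]; exact Nat.zero_le _
  set L := Fm BBrel n with hLdef
  have h1 : ex j L ∈ u.eval (Nat.pair e M) := by
    rw [hu, hec]
    exact hc M L hk
  obtain ⟨k1, hk1⟩ := Code.evaln_complete.1 h1
  have hne : {k | Code.evaln k u (Nat.pair e M) ≠ none}.Nonempty :=
    ⟨k1, by
      change Code.evaln k1 u (Nat.pair e M) ≠ none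
      rw [Option.mem_def.1 hk1]
      exact Option.some_ne_none _⟩
  set k0 := sInf {k | Code.evaln k u (Nat.pair e M) ≠ none} with hk0
  have hleast : IsLeast {k | Code.evaln k u (Nat.pair e M) ≠ none} k0 :=
    ⟨Nat.sInf_mem hne, fun x hx => Nat.sInf_le hx⟩
  obtain ⟨x, hx⟩ := Option.ne_none_iff_exists'.1 hleast.1
  have hx' : x ∈ Code.evaln k0 u (Nat.pair e M) := Option.mem_def.2 hx
  have hxe : x = ex j L := Part.mem_unique (Code.evaln_sound hx') h1
  have h2 := hb (fun b => bif b then k0 else Nat.pair e M)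
  simp only [Fintype.sum_bool, cond_true, cond_false] at h2
  rw [hx, hxe] at h2
  have h3 : Nat.pair e M < k0 := Code.evaln_bound hx'
  have h4 : ex j L < ex j (2 * k0 + c0) := by
    have h5 : ex j (k0 + Nat.pair e M + c0) ≤ ex j (2 * k0 + c0) := ex_mono j (by omega)
    have h6 : ov (some (ex j L)) = ex j L + 1 := rfl
    omega
  have h7 : L < 2 * k0 + c0 := by
    by_contra h
    exact absurd (ex_mono j (not_lt.1 h)) (not_le.2 h4)
  have h8 : k0 ≤ HT u ((2 * e + 2 + c0) * n + (2 * e + 2 + c0)) := by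
    refine univ_le_HT u ?_ hleast
    refine le_trans (univ_pair_le e M n hM) (Nat.pow_le_pow_right (by norm_num) ?_)
    have h9 : 2 * n ≤ (2 * e + 2 + c0) * n := Nat.mul_le_mul_right _ (by omega)
    omega
  have h10 : 2 * HT u ((2 * e + 2 + c0) * n + (2 * e + 2 + c0)) ≤
      (2 * e + 2 + c0) * HT u ((2 * e + 2 + c0) * n + (2 * e + 2 + c0)) :=
    Nat.mul_le_mul_right _ (by omega)
  omega

/-- every distortion function is `≼ BB` -/
theorem dist_preceq_BB {r : ℕ} (φ : MulAut (FreeGroup (Fin r))) (H : Subgroup (FreeByCyclic r φ))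
    {S T : Set (FreeByCyclic r φ)} (hS : S.Finite) (hS' : Subgroup.closure S = ⊤) (hT : T.Finite)
    (hT' : Subgroup.closure T = H) : Preceq (distortion S T H) BB := by
  obtain ⟨R, k, C, hR1, hR2, h3, -⟩ := nec φ H hS hS' hT hT'
  obtain ⟨c, k', C', h4, -⟩ := code_of_rf (R := R) ⟨hR1, hR2⟩
  have h5 : Preceq (distortion S T H) (HT c) := by
    refine ⟨C + 1, by omega, fun n => ((h3 n).trans (h4 _)).trans ?_⟩
    have h6 : HT c (C * n + C) ≤ HT c ((C + 1) * n + (C + 1)) :=
      HT_mono c (Nat.add_le_add (Nat.mul_le_mul_right _ (by omega)) (by omega))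
    have h7 : 1 * HT c ((C + 1) * n + (C + 1)) ≤ (C + 1) * HT c ((C + 1) * n + (C + 1)) :=
      Nat.mul_le_mul_right _ (by omega)
    omega
  exact preceq_trans BB_mono h5 (HT_preceq_BB c)

/-- some distortion function in `K2` is `≽ BB` -/
theorem BB_preceq_dist : ∃ H : Subgroup K2, H.FG ∧ ∀ S T : Set K2, S.Finite →
    Subgroup.closure S = ⊤ → T.Finite → Subgroup.closure T = H → Preceq BB (distortion S T H) := by
  obtain ⟨u, hu⟩ := BB_preceq_HT
  obtain ⟨R, k, C, hR, h1, -⟩ := rf_of_code u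
  obtain ⟨H, hH, h⟩ := hsuff_K2 hR
  refine ⟨H, hH, fun S T hS hS' hT hT' => ?_⟩
  have h2 : Preceq (HT u) (Fm R) := ⟨1, le_rfl, fun n => by
    have := Fm_mono hR.fn (show n ≤ 1 * n + 1 by omega)
    have := h1 n
    omega⟩
  exact preceq_trans (distortion_mono hS hS' H) (preceq_trans (Fm_mono hR.fn) hu h2)
    (h S T hS hS' hT hT').1

/-- the largest class, for a group isomorphic to `K2` -/
theorem largest_BB {r : ℕ} {φ : MulAut (FreeGroup (Fin r))} (e : K2 ≃* FreeByCyclic r φ) :
    ∃ H : Subgroup (FreeByCyclic r φ), H.FG ∧ ∀ S T : Set (FreeByCyclic r φ), S.Finite →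
    Subgroup.closure S = ⊤ → T.Finite → Subgroup.closure T = H →
      (Preceq BB (distortion S T H) ∧ Preceq (distortion S T H) BB) ∧
      (∀ (r : ℕ) (φ : MulAut (FreeGroup (Fin r))) (H' : Subgroup (FreeByCyclic r φ))
        (S' T' : Set (FreeByCyclic r φ)), S'.Finite → Subgroup.closure S' = ⊤ → T'.Finite →
        Subgroup.closure T' = H' → Preceq (distortion S' T' H') (distortion S T H)) ∧
      ∀ f : ℕ → ℕ, Computable f → ∃ n0 : ℕ, ∀ n, n0 ≤ n → f n < distortion S T H n := by
  obtain ⟨H, hH, h⟩ := transport e (P := fun d =>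
    (∀ (r : ℕ) (φ : MulAut (FreeGroup (Fin r))) (H' : Subgroup (FreeByCyclic r φ))
        (S' T' : Set (FreeByCyclic r φ)), S'.Finite → Subgroup.closure S' = ⊤ → T'.Finite →
        Subgroup.closure T' = H' → Preceq (distortion S' T' H') d) ∧
      ∀ f : ℕ → ℕ, Computable f → ∃ n0 : ℕ, ∀ n, n0 ≤ n → f n < d n) largest_K2
  obtain ⟨H2, hH2, h2⟩ := transport e (P := fun d => Preceq BB d) BB_preceq_dist
  refine ⟨H, hH, fun S T hS hS' hT hT' => ?_⟩
  obtain ⟨h3, h4⟩ := h S T hS hS' hT hT'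
  obtain ⟨T2, hT2', hT2⟩ := (Subgroup.fg_iff H2).1 hH2
  refine ⟨⟨?_, dist_preceq_BB φ H hS hS' hT hT'⟩, h3, h4⟩
  exact preceq_trans (distortion_mono hS hS' H) (h2 S T2 hS hS' hT2 hT2')
    (h3 r φ H2 S T2 hS hS' hT2 hT2')

end Pool.Agent.DIST3
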