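import Pool.Agent.DIST3.Ex

/-!
# Bounds for Gödel's beta function (project DIST, version 3, helper69)
-/

set_option autoImplicit false

namespace Pool.Agent.DIST3

open Nat

theorem beta_crt (m M : ℕ) (a : ℕ → ℕ) (ha : ∀ i < m, a i ≤ M) :
    ∃ c d : ℕ, c < ((m + M + 1) * (m + M + 1)! + 1) ^ (m + M + 1) ∧ d = (m + M + 1)! ∧
      ∀ i < m, c % ((i + 1) * d + 1) = a i := by
  set K := m + M + 1 with hK
  have hco : Set.Pairwise (↑(Finset.range m)) (Function.onFun Nat.Coprime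
      (fun i : ℕ => (i + 1) * K ! + 1)) := by
    intro i hi j hj hij
    have hi' : i < m := by simpa using hi
    have hj' : j < m := by simpa using hj
    change Nat.Coprime ((i + 1) * K ! + 1) ((j + 1) * K ! + 1)
    rcases Nat.lt_or_gt_of_ne hij with h | h
    · exact Nat.coprime_mul_succ (Nat.dvd_factorial (by omega) (by omega))
    · exact (Nat.coprime_mul_succ (Nat.dvd_factorial (by omega) (by omega))).symm
  have hne : ∀ i ∈ Finset.range m, (fun i : ℕ => (i + 1) * K ! + 1) i ≠ 0 := by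
    intro i _
    exact Nat.succ_ne_zero _
  refine ⟨(Nat.chineseRemainderOfFinset a (fun i : ℕ => (i + 1) * K ! + 1) (Finset.range m)
    hne hco : ℕ), K !, ?_, rfl, ?_⟩
  · refine lt_of_lt_of_le (Nat.chineseRemainderOfFinset_lt_prod a _ hne hco) ?_
    refine le_trans (Finset.prod_le_pow_card (Finset.range m) _ (K * K ! + 1) ?_) ?_
    · intro i hi
      have hi' : i < m := by simpa using hi
      have : (i + 1) * K ! ≤ K * K ! := Nat.mul_le_mul_right _ (by omega)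
      omega
    · rw [Finset.card_range]
      exact Nat.pow_le_pow_right (Nat.succ_pos _) (by omega)
  · intro i hi
    have h := (Nat.chineseRemainderOfFinset a (fun i : ℕ => (i + 1) * K ! + 1)
      (Finset.range m) hne hco).2 i (by simpa using hi)
    have h2 : a i < (i + 1) * K ! + 1 := by
      have h3 : K ≤ K ! := Nat.self_le_factorial K
      have h4 := ha i hi
      have h5 : 1 * K ! ≤ (i + 1) * K ! := Nat.mul_le_mul_right _ (by omega)
      omega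
    have h6 := h
    unfold Nat.ModEq at h6
    rw [Nat.mod_eq_of_lt h2] at h6
    exact h6

theorem bt_two_mul_le_pow (x : ℕ) : 2 * x ≤ 2 ^ x := by
  rcases Nat.eq_zero_or_pos x with rfl | h
  · simp
  · have h1 : x - 1 < 2 ^ (x - 1) := Nat.lt_two_pow_self
    obtain ⟨y, rfl⟩ : ∃ y, x = y + 1 := ⟨x - 1, by omega⟩
    rw [pow_succ]
    simp only [Nat.add_sub_cancel] at h1
    omega

theorem three_mul_le (x : ℕ) : 3 * x + 1 ≤ 2 ^ (2 * x) := by
  induction x with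
  | zero => simp
  | succ n ih =>
    rw [show 2 * (n + 1) = 2 * n + 1 + 1 by ring, pow_succ, pow_succ]
    omega

theorem beta_bound (x : ℕ) : ((x + 1) * (x + 1)! + 1) ^ (x + 1) ≤ ex 4 x := by
  have h0 : x + 1 ≤ 2 ^ x := Nat.lt_two_pow_self
  have h1 : (x + 1)! ≤ 2 ^ (x * (x + 1)) :=
    calc (x + 1)! ≤ (x + 1) ^ (x + 1) := Nat.factorial_le_pow _
      _ ≤ (2 ^ x) ^ (x + 1) := Nat.pow_le_pow_left h0 _
      _ = 2 ^ (x * (x + 1)) := by rw [← pow_mul]
  have h2 : (x + 1) * (x + 1)! + 1 ≤ 2 ^ (x + 1 + x * (x + 1)) := by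
    have h3 : (x + 1) * (x + 1)! ≤ 2 ^ x * 2 ^ (x * (x + 1)) := Nat.mul_le_mul h0 h1
    have h4 : 2 ^ (x + 1 + x * (x + 1)) = 2 * (2 ^ x * 2 ^ (x * (x + 1))) := by
      rw [pow_add, pow_add]; ring
    have h5 : 1 ≤ 2 ^ x * 2 ^ (x * (x + 1)) := Nat.one_le_iff_ne_zero.2 (by positivity)
    omega
  have h6 : (x + 1 + x * (x + 1)) * (x + 1) ≤ 2 ^ (3 * x + 1) := by
    have e : (x + 1 + x * (x + 1)) * (x + 1) = (x + 1) * (x + 1) * (x + 1) := by ring
    rw [e]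
    calc (x + 1) * (x + 1) * (x + 1) ≤ 2 ^ x * 2 ^ x * 2 ^ x :=
          Nat.mul_le_mul (Nat.mul_le_mul h0 h0) h0
      _ = 2 ^ (3 * x) := by rw [← pow_add, ← pow_add]; congr 1; ring
      _ ≤ 2 ^ (3 * x + 1) := Nat.pow_le_pow_right (by norm_num) (by omega)
  calc ((x + 1) * (x + 1)! + 1) ^ (x + 1) ≤ (2 ^ (x + 1 + x * (x + 1))) ^ (x + 1) :=
        Nat.pow_le_pow_left h2 _
    _ = 2 ^ ((x + 1 + x * (x + 1)) * (x + 1)) := by rw [← pow_mul]
    _ ≤ 2 ^ (2 ^ (3 * x + 1)) := Nat.pow_le_pow_right (by norm_num) h6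
    _ ≤ 2 ^ (2 ^ (2 ^ (2 * x))) := Nat.pow_le_pow_right (by norm_num)
        (Nat.pow_le_pow_right (by norm_num) (three_mul_le x))
    _ ≤ 2 ^ (2 ^ (2 ^ (2 ^ x))) := Nat.pow_le_pow_right (by norm_num)
        (Nat.pow_le_pow_right (by norm_num) (Nat.pow_le_pow_right (by norm_num)
          (bt_two_mul_le_pow x)))
    _ = ex 4 x := rfl

theorem beta_exists0 : ∃ k0 : ℕ, ∀ (m M : ℕ) (a : ℕ → ℕ), (∀ i < m, a i ≤ M) →
    ∃ c d : ℕ, c ≤ ex k0 (m + M) ∧ d ≤ ex k0 (m + M) ∧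
      ∀ i < m, c % ((i + 1) * d + 1) = a i := by
  refine ⟨4, fun m M a ha => ?_⟩
  obtain ⟨c, d, hc, hd, h⟩ := beta_crt m M a ha
  have hb := beta_bound (m + M)
  refine ⟨c, d, le_trans (le_of_lt hc) hb, ?_, h⟩
  refine le_trans ?_ hb
  rw [hd]
  have h1 : (m + M + 1)! ≤ (m + M + 1) * (m + M + 1)! + 1 := by
    have : 1 * (m + M + 1)! ≤ (m + M + 1) * (m + M + 1)! := Nat.mul_le_mul_right _ (by omega)
    omega
  exact le_trans h1 (Nat.le_self_pow (by omega) _)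

theorem beta_exists : ∃ k0 e0 : ℕ, ∀ (m M : ℕ) (a : ℕ → ℕ), (∀ i < m, a i ≤ M) →
    ∃ c d : ℕ, c ≤ ex k0 (m + M + e0) ∧ d ≤ ex k0 (m + M + e0) ∧
      ∀ i < m, c % ((i + 1) * d + 1) = a i := by
  obtain ⟨k0, h⟩ := beta_exists0
  exact ⟨k0, 0, h⟩

end Pool.Agent.DIST3
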