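import Pool.Agent.DIST3.ExL

/-!
# DIST3 module EC: codes with elementary fuel

`evaln_mono` makes everything monotone in the fuel. `prec`: `evaln K (prec cf cg) ⟨a, m⟩` uses the
fuel `K - m + y` for `⟨a, y⟩`, so it is enough that `K` is at least `m` plus the fuel which `cf` and
`cg` need on all arguments `a`, `⟨a, ⟨y, f ⟨a, y⟩⟩⟩`, `y < m`. `dec k N`: the first `k` components of
the list coded by `N` (iterated `unpair`).
-/

namespace Pool.Agent.DIST3

open Nat.Partrec (Code)

/-- `f` has a code which needs only elementary fuel -/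
def EC (f : ℕ → ℕ) : Prop :=
  ∃ (c : Code) (k0 e : ℕ), ∀ N k, ex k0 (N + e) ≤ k → Code.evaln k c N = some (f N)

/-! ### Elementary bounds of functions of one variable -/

/-- bounded by an elementary function -/
def EB (f : ℕ → ℕ) : Prop := ∃ k c, ∀ n, f n ≤ ex k (n + c)

theorem EB.mono {f g : ℕ → ℕ} (hg : EB g) (h : ∀ n, f n ≤ g n) : EB f := by
  obtain ⟨k, c, hk⟩ := hg
  exact ⟨k, c, fun n => (h n).trans (hk n)⟩

theorem EB.id : EB (fun n => n) := ⟨0, 0, fun _ => le_rfl⟩

theorem EB.const (c : ℕ) : EB (fun _ => c) := ⟨0, c, fun n => Nat.le_add_left c n⟩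

theorem EB.add {f g : ℕ → ℕ} (hf : EB f) (hg : EB g) : EB (fun n => f n + g n) := by
  obtain ⟨k, c, hk⟩ := hf
  obtain ⟨l, d, hl⟩ := hg
  obtain ⟨m, e, hm⟩ := ex_add_le k l c d
  exact ⟨m, e, fun n => (Nat.add_le_add (hk n) (hl n)).trans (hm n)⟩

theorem EB.mul {f g : ℕ → ℕ} (hf : EB f) (hg : EB g) : EB (fun n => f n * g n) := by
  obtain ⟨k, c, hk⟩ := hf
  obtain ⟨l, d, hl⟩ := hg
  obtain ⟨m, e, hm⟩ := ex_mul_le k l c d
  exact ⟨m, e, fun n => (Nat.mul_le_mul (hk n) (hl n)).trans (hm n)⟩

theorem EB.ex {g : ℕ → ℕ} (hg : EB g) (k c : ℕ) : EB (fun n => ex k (g n + c)) := by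
  obtain ⟨l, d, hl⟩ := hg
  refine ⟨k + l, d + c, fun n => ?_⟩
  rw [← ex_ex, ← add_assoc]
  exact ex_mono k ((Nat.add_le_add_right (hl n) c).trans (add_ex_le _ _ _))

theorem EB.comp {f g : ℕ → ℕ} (hf : EB f) (hg : EB g) : EB (fun n => f (g n)) := by
  obtain ⟨k, c, hk⟩ := hf
  exact (hg.ex k c).mono fun n => hk (g n)

theorem pair_le_sq (a b : ℕ) : Nat.pair a b ≤ (a + b + 1) * (a + b + 1) := by
  have h := Nat.pair_lt_max_add_one_sq a b
  rw [pow_two] at h
  have h1 : max a b + 1 ≤ a + b + 1 := by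
    rcases le_total a b with h | h <;> simp [h]
  exact h.le.trans (Nat.mul_le_mul h1 h1)

theorem EB.pair {f g : ℕ → ℕ} (hf : EB f) (hg : EB g) : EB (fun n => Nat.pair (f n) (g n)) :=
  (((hf.add hg).add (EB.const 1)).mul ((hf.add hg).add (EB.const 1))).mono fun _ => pair_le_sq _ _

theorem pair_le_pair {a b a' b' : ℕ} (h : a ≤ a') (h' : b ≤ b') : Nat.pair a b ≤ Nat.pair a' b' := by
  have h1 : Nat.pair a b ≤ Nat.pair a' b := by
    rcases h.lt_or_eq with h | h
    · exact (Nat.pair_lt_pair_left b h).le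
    · rw [h]
  have h2 : Nat.pair a' b ≤ Nat.pair a' b' := by
    rcases h'.lt_or_eq with h | h
    · exact (Nat.pair_lt_pair_right a' h).le
    · rw [h]
  exact h1.trans h2

/-! ### The fuel -/

/-- it is enough to bound the fuel by a function which is elementary -/
theorem EC.mk' {f : ℕ → ℕ} (c : Code) (B : ℕ → ℕ) (hB : EB B)
    (h : ∀ N k, B N ≤ k → Code.evaln k c N = some (f N)) : EC f := by
  obtain ⟨k0, e, hk⟩ := hB
  exact ⟨c, k0, e, fun N k hN => h N k ((hk N).trans hN)⟩

theorem EC.get {f : ℕ → ℕ} (hf : EC f) : ∃ (c : Code) (B : ℕ → ℕ), EB B ∧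
    (∀ N, N < B N) ∧ ∀ N k, B N ≤ k → Code.evaln k c N = some (f N) := by
  obtain ⟨c, k0, e, h⟩ := hf
  refine ⟨c, fun N => ex k0 (N + e), ⟨k0, e, fun n => le_rfl⟩, fun N => ?_, h⟩
  exact Code.evaln_bound (h N _ le_rfl)

theorem EC.zero : EC (fun _ => 0) := by
  refine EC.mk' Code.zero (fun N => N + 1) (EB.id.add (EB.const 1)) fun N k hk => ?_
  obtain ⟨k, rfl⟩ : ∃ j, k = j + 1 := ⟨k - 1, by omega⟩
  have h : N ≤ k := by omega
  simp [Code.evaln, h]

theorem EC.succ : EC (fun n => n + 1) := by
  refine EC.mk' Code.succ (fun N => N + 1) (EB.id.add (EB.const 1)) fun N k hk => ?_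
  obtain ⟨k, rfl⟩ : ∃ j, k = j + 1 := ⟨k - 1, by omega⟩
  have h : N ≤ k := by omega
  simp [Code.evaln, h]

theorem EC.left : EC (fun n => (Nat.unpair n).1) := by
  refine EC.mk' Code.left (fun N => N + 1) (EB.id.add (EB.const 1)) fun N k hk => ?_
  obtain ⟨k, rfl⟩ : ∃ j, k = j + 1 := ⟨k - 1, by omega⟩
  have h : N ≤ k := by omega
  simp [Code.evaln, h]

theorem EC.right : EC (fun n => (Nat.unpair n).2) := by
  refine EC.mk' Code.right (fun N => N + 1) (EB.id.add (EB.const 1)) fun N k hk => ?_
  obtain ⟨k, rfl⟩ : ∃ j, k = j + 1 := ⟨k - 1, by omega⟩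
  have h : N ≤ k := by omega
  simp [Code.evaln, h]

theorem EC.pair {f g : ℕ → ℕ} (hf : EC f) (hg : EC g) : EC (fun n => Nat.pair (f n) (g n)) := by
  obtain ⟨cf, Bf, hBf, hf1, hf2⟩ := hf.get
  obtain ⟨cg, Bg, hBg, _, hg2⟩ := hg.get
  refine EC.mk' (Code.pair cf cg) (fun N => Bf N + Bg N) (hBf.add hBg) fun N k hk => ?_
  have h0 := hf1 N
  obtain ⟨k, rfl⟩ : ∃ j, k = j + 1 := ⟨k - 1, by omega⟩
  have h : N ≤ k := by omega
  simp [Code.evaln, h, hf2 N (k + 1) (by omega), hg2 N (k + 1) (by omega), Seq.seq]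

/-- the values are bounded by an elementary function of the fuel -/
theorem evaln_value (c : Code) : ∃ B : ℕ → ℕ, EB B ∧ ∀ k n x, x ∈ Code.evaln k c n → x ≤ B k := by
  induction c with
  | zero =>
      refine ⟨fun k => k, EB.id, fun k n x h => ?_⟩
      cases k with
      | zero => simp [Code.evaln] at h
      | succ k =>
          simp only [Code.evaln, Option.mem_def, Option.bind_eq_bind, Option.bind_eq_some_iff] at h
          obtain ⟨_, _, h⟩ := h
          have h' := Option.some.inj h
          show x ≤ k + 1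
          omega
  | succ =>
      refine ⟨fun k => k + 1, EB.id.add (EB.const 1), fun k n x h => ?_⟩
      have hb := Code.evaln_bound h
      cases k with
      | zero => simp [Code.evaln] at h
      | succ k =>
          simp only [Code.evaln, Option.mem_def, Option.bind_eq_bind, Option.bind_eq_some_iff] at h
          obtain ⟨_, _, h⟩ := h
          have h' := Option.some.inj h
          show x ≤ k + 1 + 1
          omega
  | left =>
      refine ⟨fun k => k, EB.id, fun k n x h => ?_⟩
      have hb := Code.evaln_bound h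
      cases k with
      | zero => simp [Code.evaln] at h
      | succ k =>
          simp only [Code.evaln, Option.mem_def, Option.bind_eq_bind, Option.bind_eq_some_iff] at h
          obtain ⟨_, _, h⟩ := h
          have h' := Option.some.inj h
          have := Nat.unpair_left_le n
          show x ≤ k + 1
          omega
  | right =>
      refine ⟨fun k => k, EB.id, fun k n x h => ?_⟩
      have hb := Code.evaln_bound h
      cases k with
      | zero => simp [Code.evaln] at h
      | succ k =>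
          simp only [Code.evaln, Option.mem_def, Option.bind_eq_bind, Option.bind_eq_some_iff] at h
          obtain ⟨_, _, h⟩ := h
          have h' := Option.some.inj h
          have := Nat.unpair_right_le n
          show x ≤ k + 1
          omega
  | pair cf cg hf hg =>
      obtain ⟨Bf, hBf, hf⟩ := hf
      obtain ⟨Bg, hBg, hg⟩ := hg
      refine ⟨fun k => Nat.pair (Bf k) (Bg k), hBf.pair hBg, fun k n x h => ?_⟩
      cases k with
      | zero => simp [Code.evaln] at h
      | succ k =>
          simp [Code.evaln, Option.bind_eq_some_iff, Seq.seq] at h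
          obtain ⟨_, y, hy, z, hz, h⟩ := h
          rw [← h]
          exact pair_le_pair (hf _ _ _ hy) (hg _ _ _ hz)
  | comp cf cg hf hg =>
      obtain ⟨Bf, hBf, hf⟩ := hf
      refine ⟨Bf, hBf, fun k n x h => ?_⟩
      cases k with
      | zero => simp [Code.evaln] at h
      | succ k =>
          simp [Code.evaln, Option.bind_eq_some_iff] at h
          obtain ⟨_, y, hy, h⟩ := h
          exact hf _ _ _ h
  | prec cf cg hf hg =>
      obtain ⟨Bf, hBf, hf⟩ := hf
      obtain ⟨Bg, hBg, hg⟩ := hg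
      refine ⟨fun k => Bf k + Bg k, hBf.add hBg, fun k n x h => ?_⟩
      cases k with
      | zero => simp [Code.evaln] at h
      | succ k =>
          simp [Code.evaln, Option.bind_eq_some_iff] at h
          obtain ⟨_, h⟩ := h
          revert h
          induction (Nat.unpair n).2 with
          | zero =>
              intro h
              exact (hf _ _ _ h).trans (Nat.le_add_right _ _)
          | succ m _ =>
              intro h
              simp [Option.bind_eq_some_iff] at h
              obtain ⟨y, hy, h⟩ := h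
              exact (hg _ _ _ h).trans (Nat.le_add_left _ _)
  | rfind' cf hf =>
      refine ⟨fun k => k, EB.id, fun k => ?_⟩
      induction k with
      | zero =>
          intro n x h
          simp [Code.evaln] at h
      | succ k ih =>
          intro n x h
          have hb := Code.evaln_bound h
          simp [Code.evaln, Option.bind_eq_some_iff] at h
          obtain ⟨_, y, hy, h⟩ := h
          by_cases hy0 : y = 0
          · simp [hy0] at h
            have := Nat.unpair_right_le n
            show x ≤ k + 1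
            omega
          · simp [hy0] at h
            have h2 : x ≤ k := ih _ _ h
            show x ≤ k + 1
            omega

theorem EC.eb {f : ℕ → ℕ} (hf : EC f) : EB f := by
  obtain ⟨c, B, hB, _, h⟩ := hf.get
  obtain ⟨V, hV, hv⟩ := evaln_value c
  exact (hV.comp hB).mono fun n => hv _ _ _ (h n _ le_rfl)

theorem EC.comp {f g : ℕ → ℕ} (hf : EC f) (hg : EC g) : EC (fun n => f (g n)) := by
  obtain ⟨cf, Bf, hBf, _, hf2⟩ := hf.get
  obtain ⟨cg, Bg, hBg, hg1, hg2⟩ := hg.get
  refine EC.mk' (Code.comp cf cg) (fun N => Bf (g N) + Bg N) ((hBf.comp hg.eb).add hBg)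
    fun N k hk => ?_
  have h0 := hg1 N
  obtain ⟨k, rfl⟩ : ∃ j, k = j + 1 := ⟨k - 1, by omega⟩
  have h : N ≤ k := by omega
  simp [Code.evaln, h, hf2 (g N) (k + 1) (by omega), hg2 N (k + 1) (by omega)]

theorem EC.bound {f : ℕ → ℕ} (hf : EC f) : ∃ k c, ∀ n, f n ≤ ex k (n + c) := hf.eb

/-- the fuel of a primitive recursion -/
theorem evaln_prec {cf cg : Code} {f g : ℕ → ℕ} {h : ℕ → ℕ → ℕ} {a B m : ℕ}
    (h0 : h a 0 = f a) (h1 : ∀ y, h a (y + 1) = g (Nat.pair a (Nat.pair y (h a y))))
    (hf : ∀ k, B ≤ k → Code.evaln k cf a = some (f a))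
    (hg : ∀ y < m, ∀ k, B ≤ k → Code.evaln k cg (Nat.pair a (Nat.pair y (h a y))) =
      some (g (Nat.pair a (Nat.pair y (h a y)))))
    (hB : Nat.pair a m < B) :
    ∀ n ≤ m, ∀ k, B + n ≤ k → Code.evaln k (Code.prec cf cg) (Nat.pair a n) = some (h a n) := by
  intro n
  induction n with
  | zero =>
      intro _ k hk
      have hp : Nat.pair a 0 ≤ Nat.pair a m := pair_le_pair le_rfl (Nat.zero_le m)
      obtain ⟨k, rfl⟩ : ∃ j, k = j + 1 := ⟨k - 1, by omega⟩
      have hle : Nat.pair a 0 ≤ k := by omega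
      simp [Code.evaln, hle, hf (k + 1) (by omega), h0]
  | succ n ih =>
      intro hn k hk
      have hp : Nat.pair a (n + 1) ≤ Nat.pair a m := pair_le_pair le_rfl hn
      obtain ⟨k, rfl⟩ : ∃ j, k = j + 1 := ⟨k - 1, by omega⟩
      have hle : Nat.pair a (n + 1) ≤ k := by omega
      have e1 := ih (by omega) k (by omega)
      have e2 := hg n (by omega) (k + 1) (by omega)
      simp [Code.evaln, hle, e1, e2, h1 n]

theorem EC.prec {f g : ℕ → ℕ} (hf : EC f) (hg : EC g) {h : ℕ → ℕ → ℕ}
    (h0 : ∀ a, h a 0 = f a) (h1 : ∀ a y, h a (y + 1) = g (Nat.pair a (Nat.pair y (h a y))))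
    (hb : ∃ k c, ∀ a y, h a y ≤ ex k (a + y + c)) :
    EC (fun n => h (Nat.unpair n).1 (Nat.unpair n).2) := by
  obtain ⟨cf, kf, ef, hf2⟩ := hf
  obtain ⟨cg, kg, eg, hg2⟩ := hg
  obtain ⟨kh, eh, hh⟩ := hb
  have hH : EB (fun N => ex kh (N + N + eh)) := (EB.id.add EB.id).ex kh eh
  refine EC.mk' (Code.prec cf cg)
    (fun N => ex kf (N + ef) + ex kg (Nat.pair N (Nat.pair N (ex kh (N + N + eh))) + eg) +
      (N + 1) + N)
    ((((EB.id.ex kf ef).add ((EB.id.pair (EB.id.pair hH)).ex kg eg)).add
      (EB.id.add (EB.const 1))).add EB.id) fun N k hk => ?_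
  set a := (Nat.unpair N).1 with ha
  set m := (Nat.unpair N).2 with hm
  have haN : a ≤ N := Nat.unpair_left_le N
  have hmN : m ≤ N := Nat.unpair_right_le N
  have hN : Nat.pair a m = N := Nat.pair_unpair N
  set B := ex kf (N + ef) + ex kg (Nat.pair N (Nat.pair N (ex kh (N + N + eh))) + eg) + (N + 1)
    with hBdef
  have key := evaln_prec (cf := cf) (cg := cg) (f := f) (g := g) (h := h) (a := a) (B := B) (m := m)
    (h0 a) (h1 a) (fun k hk => hf2 a k (le_trans (ex_mono kf (by omega)) (by omega : ex kf (N + ef) ≤ k)))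
    (fun y hy k hk => by
      apply hg2
      have e1 : h a y ≤ ex kh (N + N + eh) := (hh a y).trans (ex_mono kh (by omega))
      have e2 : Nat.pair a (Nat.pair y (h a y)) ≤ Nat.pair N (Nat.pair N (ex kh (N + N + eh))) :=
        pair_le_pair haN (pair_le_pair (by omega) e1)
      have e3 := ex_mono kg (Nat.add_le_add_right e2 eg)
      omega)
    (by rw [hN]; omega) m le_rfl k (by omega)
  rw [hN] at key
  exact key

end Pool.Agent.DIST3
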