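import Mathlib

/-!
# Free groups act faithfully by integer matrices (project DIST, version 3, helper69)

`ppM p`: the parabolic matrix with fixed point `p`, translation `5` in the coordinate `1 / (z - p)`;
the matrices `ppM p`, `p : ℕ`, generate a free group (ping-pong).
-/

set_option autoImplicit false

namespace Pool.Agent.DIST3

open Matrix Pointwise

/-- The matrix `[[1 + 5 p, -5 p ^ 2], [5, 1 - 5 p]]`. -/
def ppM (p : ℕ) : Matrix (Fin 2) (Fin 2) ℤ :=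
  !![1 + 5 * (p : ℤ), -(5 * (p : ℤ) ^ 2); 5, 1 - 5 * (p : ℤ)]

/-- The matrix `[[1 - 5 p, 5 p ^ 2], [-5, 1 + 5 p]]`, inverse of `ppM p`. -/
def ppI (p : ℕ) : Matrix (Fin 2) (Fin 2) ℤ :=
  !![1 - 5 * (p : ℤ), 5 * (p : ℤ) ^ 2; -5, 1 + 5 * (p : ℤ)]

theorem ppM_mul (p : ℕ) : ppM p * ppI p = 1 := by
  ext i j
  fin_cases i <;> fin_cases j <;> simp [ppM, ppI, Matrix.mul_apply, Fin.sum_univ_two] <;> ring

theorem ppI_mul (p : ℕ) : ppI p * ppM p = 1 := by
  ext i j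
  fin_cases i <;> fin_cases j <;> simp [ppM, ppI, Matrix.mul_apply, Fin.sum_univ_two] <;> ring

/-- `ppM p` as an invertible matrix. -/
def ppB (p : ℕ) : (Matrix (Fin 2) (Fin 2) ℤ)ˣ := ⟨ppM p, ppI p, ppM_mul p, ppI_mul p⟩

theorem ppB_val (p : ℕ) : (ppB p).val = ppM p := rfl

theorem ppB_inv (p : ℕ) : ((ppB p)⁻¹).val = ppI p := rfl

/-- Nonzero integer vectors. -/
abbrev NZ : Type := {v : Fin 2 → ℤ // v ≠ 0}

instance : MulAction (Matrix (Fin 2) (Fin 2) ℤ)ˣ NZ where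
  smul g v := ⟨g.val *ᵥ v.1, by
    intro h
    apply v.2
    have : (g⁻¹).val *ᵥ (g.val *ᵥ v.1) = v.1 := by
      rw [Matrix.mulVec_mulVec, Units.inv_mul, Matrix.one_mulVec]
    rw [← this, h, Matrix.mulVec_zero]⟩
  one_smul v := by
    apply Subtype.ext
    change (1 : (Matrix (Fin 2) (Fin 2) ℤ)ˣ).val *ᵥ v.1 = v.1
    rw [Units.val_one, Matrix.one_mulVec]
  mul_smul g h v := by
    apply Subtype.ext
    change (g * h).val *ᵥ v.1 = g.val *ᵥ (h.val *ᵥ v.1)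
    rw [Units.val_mul, Matrix.mulVec_mulVec]

theorem smul_val (g : (Matrix (Fin 2) (Fin 2) ℤ)ˣ) (v : NZ) :
    (g • v).1 = g.val *ᵥ v.1 := rfl

/-- `u = x - p y` -/
def pu (p : ℕ) (v : NZ) : ℤ := v.1 0 - p * v.1 1

/-- near `p`, first half: `u = 0`, or `2 y / u ≥ 5` -/
def pX (p : ℕ) : Set NZ :=
  {v | pu p v = 0 ∨ (0 < pu p v ∧ 5 * pu p v ≤ 2 * v.1 1) ∨
    (pu p v < 0 ∧ 2 * v.1 1 ≤ 5 * pu p v)}

/-- near `p`, second half: `2 y / u < - 5` -/
def pY (p : ℕ) : Set NZ :=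
  {v | (0 < pu p v ∧ 2 * v.1 1 < - (5 * pu p v)) ∨ (pu p v < 0 ∧ - (5 * pu p v) < 2 * v.1 1)}

theorem nz (v : NZ) : v.1 0 ≠ 0 ∨ v.1 1 ≠ 0 := by
  by_contra h
  push Not at h
  apply v.2
  funext i
  fin_cases i
  · exact h.1
  · exact h.2

theorem near (p : ℕ) (v : NZ) (h : v ∈ pX p ∪ pY p) :
    5 * |pu p v| ≤ 2 * |v.1 1| := by
  rcases h with (h | ⟨h1, h2⟩ | ⟨h1, h2⟩) | (⟨h1, h2⟩ | ⟨h1, h2⟩)
  · rw [h]; simp
  · rw [abs_of_pos h1, abs_of_pos (by omega)]; exact h2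
  · rw [abs_of_neg h1, abs_of_neg (by omega)]; omega
  · rw [abs_of_pos h1, abs_of_neg (by omega)]; omega
  · rw [abs_of_neg h1, abs_of_pos (by omega)]; omega

theorem near_disj {p q : ℕ} (hpq : p ≠ q) (v : NZ) (h : v ∈ pX p ∪ pY p)
    (h' : v ∈ pX q ∪ pY q) : False := by
  have h1 := near p v h
  have h2 := near q v h'
  have hy : v.1 1 ≠ 0 := by
    intro hy
    have : pu p v = 0 := by
      rw [hy, abs_zero, mul_zero] at h1
      have h0 := abs_nonneg (pu p v)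
      exact abs_eq_zero.1 (by omega)
    unfold pu at this
    rw [hy] at this
    simp at this
    rcases nz v with h | h
    · exact h this
    · exact h hy
  have h3 : |((q : ℤ) - p) * v.1 1| ≤ |pu p v| + |pu q v| := by
    have : ((q : ℤ) - p) * v.1 1 = pu p v - pu q v := by unfold pu; ring
    rw [this]
    exact abs_sub _ _
  rw [abs_mul] at h3
  have h4 : 1 ≤ |(q : ℤ) - p| := by
    apply Int.one_le_abs
    intro h
    apply hpq
    omega
  have h5 : 0 < |v.1 1| := abs_pos.2 hy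
  nlinarith

open scoped Function in
theorem pp_inj : Function.Injective (FreeGroup.lift ppB) := by
  apply FreeGroup.injective_lift_of_ping_pong ppB pX pY
  · intro p
    refine ⟨⟨![p, 1], fun h => ?_⟩, Or.inl ?_⟩
    · have := congrFun h 1
      simp at this
    · simp [pu]
  · intro p q hpq
    exact Set.disjoint_left.2 fun v h h' => near_disj hpq v (Or.inl h) (Or.inl h')
  · intro p q hpq
    exact Set.disjoint_left.2 fun v h h' => near_disj hpq v (Or.inr h) (Or.inr h')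
  · intro p q
    by_cases hpq : p = q
    · subst hpq
      refine Set.disjoint_left.2 fun v h h' => ?_
      rcases h with h | ⟨h1, h2⟩ | ⟨h1, h2⟩ <;> rcases h' with ⟨h3, h4⟩ | ⟨h3, h4⟩ <;> omega
    · exact Set.disjoint_left.2 fun v h h' => near_disj hpq v (Or.inl h) (Or.inr h')
  · intro p
    rintro _ ⟨v, hv, rfl⟩
    have e0 : (ppB p • v).1 0 = (1 + 5 * (p : ℤ)) * v.1 0 - 5 * (p : ℤ) ^ 2 * v.1 1 := by
      rw [smul_val]
      simp [ppB_val, ppM, Matrix.mulVec, dotProduct, Fin.sum_univ_two]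
      ring
    have e1 : (ppB p • v).1 1 = 5 * v.1 0 + (1 - 5 * (p : ℤ)) * v.1 1 := by
      rw [smul_val]
      simp [ppB_val, ppM, Matrix.mulVec, dotProduct, Fin.sum_univ_two]
    have e2 : pu p (ppB p • v) = pu p v := by
      unfold pu
      rw [e0, e1]
      ring
    have e3 : (ppB p • v).1 1 = 5 * pu p v + v.1 1 := by
      rw [e1]; unfold pu; ring
    change ppB p • v ∈ pX p
    have hv' : ¬ ((0 < pu p v ∧ 2 * v.1 1 < - (5 * pu p v)) ∨
      (pu p v < 0 ∧ - (5 * pu p v) < 2 * v.1 1)) := hv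
    change pu p (ppB p • v) = 0 ∨ (0 < pu p (ppB p • v) ∧
      5 * pu p (ppB p • v) ≤ 2 * (ppB p • v).1 1) ∨
      (pu p (ppB p • v) < 0 ∧ 2 * (ppB p • v).1 1 ≤ 5 * pu p (ppB p • v))
    rw [e2, e3]
    omega
  · intro p
    rintro _ ⟨v, hv, rfl⟩
    have e0 : ((ppB p)⁻¹ • v).1 0 = (1 - 5 * (p : ℤ)) * v.1 0 + 5 * (p : ℤ) ^ 2 * v.1 1 := by
      rw [smul_val, ppB_inv]
      simp [ppI, Matrix.mulVec, dotProduct, Fin.sum_univ_two]
    have e1 : ((ppB p)⁻¹ • v).1 1 = - 5 * v.1 0 + (1 + 5 * (p : ℤ)) * v.1 1 := by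
      rw [smul_val, ppB_inv]
      simp [ppI, Matrix.mulVec, dotProduct, Fin.sum_univ_two]
    have e2 : pu p ((ppB p)⁻¹ • v) = pu p v := by
      unfold pu
      rw [e0, e1]
      ring
    have e3 : ((ppB p)⁻¹ • v).1 1 = - 5 * pu p v + v.1 1 := by
      rw [e1]; unfold pu; ring
    change (ppB p)⁻¹ • v ∈ pY p
    have hv' : ¬ (pu p v = 0 ∨ (0 < pu p v ∧ 5 * pu p v ≤ 2 * v.1 1) ∨
    (pu p v < 0 ∧ 2 * v.1 1 ≤ 5 * pu p v)) := hv
    change (0 < pu p ((ppB p)⁻¹ • v) ∧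
      2 * ((ppB p)⁻¹ • v).1 1 < - (5 * pu p ((ppB p)⁻¹ • v))) ∨
      (pu p ((ppB p)⁻¹ • v) < 0 ∧ - (5 * pu p ((ppB p)⁻¹ • v)) < 2 * ((ppB p)⁻¹ • v).1 1)
    rw [e2, e3]
    omega

/-- For every `r`: the matrices `ppB 0, …, ppB (r - 1)` generate a free group of rank `r`. -/
theorem ppGL (r : ℕ) : Function.Injective (FreeGroup.lift fun i : Fin r => ppB i) := by
  have h : (FreeGroup.lift fun i : Fin r => ppB i) =
      (FreeGroup.lift ppB).comp (FreeGroup.map (fun i : Fin r => (i : ℕ))) := by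
    ext1 i
    simp
  rw [h, MonoidHom.coe_comp]
  exact pp_inj.comp (FreeGroup.map_injective Fin.val_injective)

theorem ppM_det (p : ℕ) : (ppM p).det = 1 := by
  simp only [ppM, Matrix.det_fin_two_of]; ring

/-- The matrix `ppM p` in `SL(2, ℤ)`. -/
def ppS (p : ℕ) : SpecialLinearGroup (Fin 2) ℤ := ⟨ppM p, ppM_det p⟩

theorem ppS_val (p : ℕ) : ((ppS p : SpecialLinearGroup (Fin 2) ℤ) : Matrix (Fin 2) (Fin 2) ℤ) =
    ppM p := rfl

/-- For every `r`: there are `r` matrices in `SL(2, ℤ)` which generate a free group of rank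
`r`. -/
theorem pp (r : ℕ) : ∃ B : Fin r → SpecialLinearGroup (Fin 2) ℤ,
    Function.Injective (FreeGroup.lift B) := by
  refine ⟨fun i => ppS i, ?_⟩
  have h : (SpecialLinearGroup.toGL (n := Fin 2) (R := ℤ)).comp
      (FreeGroup.lift fun i : Fin r => ppS i) =
      FreeGroup.lift fun i : Fin r => ppB i := by
    ext1 i
    simp only [MonoidHom.coe_comp, Function.comp_apply, FreeGroup.lift_apply_of]
    apply Units.ext
    rfl
  have h2 := ppGL r
  rw [← h, MonoidHom.coe_comp] at h2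
  exact h2.of_comp

end Pool.Agent.DIST3
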