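import Pool.Agent.DIST3.Ex
import Pool.Agent.DIST.Grp

/-!
# DIST3 module Step: words in a free-by-cyclic group, coded by numbers

`G = F_r ⋊ ℤ`, `ρ : F_r → SL₂(ℤ)` injective. The element `g = f t ^ k` is represented by the
matrices `ρ f`, `ρ (φ ^ k x_i)` (entries are differences of two natural numbers) and by `k` (a
difference of two natural numbers). Multiplication on the right by `x_j ^ (±1)`, `t ^ (±1)` is a
polynomial map with coefficients in `ℕ`.
-/

namespace Pool.Agent.DIST3

open Pool.Agent.DIST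

/-- index set for the states: `inl (none, i, j, β)`: entries of `ρ f`; `inl (some l, i, j, β)`:
entries of `ρ (φ ^ k x_l)`; `inr β`: the exponent. `β = true` positive part, `false` negative. -/
abbrev Ix (r : ℕ) : Type := (Option (Fin r) × Fin 2 × Fin 2 × Bool) ⊕ Bool

/-- the matrix in the state `s` with name `o` -/
def mat {r : ℕ} (s : Ix r → ℕ) (o : Option (Fin r)) : Matrix (Fin 2) (Fin 2) ℤ :=
  fun i j => (s (Sum.inl (o, i, j, true)) : ℤ) - s (Sum.inl (o, i, j, false))

/-- the exponent in the state `s` -/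
def kv {r : ℕ} (s : Ix r → ℕ) : ℤ := (s (Sum.inr true) : ℤ) - s (Sum.inr false)

variable {r : ℕ} (φ : MulAut (FreeGroup (Fin r)))
  (ρ : FreeGroup (Fin r) →* Matrix.SpecialLinearGroup (Fin 2) ℤ)

/-- `s` represents `g` -/
structure Rep (s : Ix r → ℕ) (g : FreeByCyclic r φ) : Prop where
  f : mat s none = (ρ g.left : Matrix (Fin 2) (Fin 2) ℤ)
  b : ∀ i, mat s (some i) =
    (ρ ((φ ^ (Multiplicative.toAdd g.right)) (FreeGroup.of i)) : Matrix (Fin 2) (Fin 2) ℤ)
  k : kv s = Multiplicative.toAdd g.right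

/-- the states represent the same element -/
def EqS (s s' : Ix r → ℕ) : Prop :=
  (∀ i j, s (Sum.inl (none, i, j, true)) + s' (Sum.inl (none, i, j, false)) =
    s' (Sum.inl (none, i, j, true)) + s (Sum.inl (none, i, j, false))) ∧
  s (Sum.inr true) + s' (Sum.inr false) = s' (Sum.inr true) + s (Sum.inr false)

/-- nonnegative numbers with difference `z` -/
def sg (z : ℤ) (b : Bool) : ℕ := if b then z.toNat else (-z).toNat

theorem sg_sub (z : ℤ) : (sg z true : ℤ) - sg z false = z := by
  simp only [sg, if_true, if_false, Bool.false_eq_true]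
  omega

theorem rep_one : ∃ s : Ix r → ℕ, Rep φ ρ s 1 := by
  refine ⟨Sum.elim (fun x => match x with
    | (none, i, j, b) => sg ((ρ (1 : FreeByCyclic r φ).left : Matrix (Fin 2) (Fin 2) ℤ) i j) b
    | (some l, i, j, b) => sg ((ρ ((φ ^ (Multiplicative.toAdd (1 : FreeByCyclic r φ).right))
        (FreeGroup.of l)) : Matrix (Fin 2) (Fin 2) ℤ) i j) b)
    (fun b => sg (Multiplicative.toAdd (1 : FreeByCyclic r φ).right) b), ?_, ?_, ?_⟩
  · ext i j
    exact sg_sub _
  · intro l
    ext i j
    exact sg_sub _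
  · exact sg_sub _

theorem rep_eq (hρ : Function.Injective ρ) {s s' : Ix r → ℕ} {g g' : FreeByCyclic r φ}
    (h : Rep φ ρ s g) (h' : Rep φ ρ s' g') : EqS s s' ↔ g = g' := by
  constructor
  · rintro ⟨h1, h2⟩
    have e1 : mat s none = mat s' none := by
      ext i j
      have := h1 i j
      simp only [mat]
      omega
    have e2 : kv s = kv s' := by
      simp only [kv]
      omega
    rw [h.f, h'.f] at e1
    rw [h.k, h'.k] at e2
    apply SemidirectProduct.ext
    · exact hρ (Subtype.ext e1)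
    · exact Multiplicative.toAdd.injective e2
  · rintro rfl
    have e1 : mat s none = mat s' none := by rw [h.f, h'.f]
    have e2 : kv s = kv s' := by rw [h.k, h'.k]
    refine ⟨fun i j => ?_, ?_⟩
    · have := congrFun (congrFun e1 i) j
      simp only [mat] at this
      omega
    · simp only [kv] at e2
      omega

/-- the matrix with the entries `M i j true - M i j false` -/
def vl (M : Fin 2 → Fin 2 → Bool → ℕ) : Matrix (Fin 2) (Fin 2) ℤ :=
  fun i j => (M i j true : ℤ) - M i j false

/-- `X h` is a polynomial function of the state which represents `h` -/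
def PW (X : FreeByCyclic r φ → Matrix (Fin 2) (Fin 2) ℤ) : Prop :=
  ∃ M : (Ix r → ℕ) → Fin 2 → Fin 2 → Bool → ℕ, (∀ i j b, PF (fun s => M s i j b)) ∧
    ∀ s h, Rep φ ρ s h → vl (M s) = X h

theorem pw_mul {X Y : FreeByCyclic r φ → Matrix (Fin 2) (Fin 2) ℤ} (hX : PW φ ρ X)
    (hY : PW φ ρ Y) : PW φ ρ (fun h => X h * Y h) := by
  obtain ⟨M, hM, hM'⟩ := hX
  obtain ⟨N, hN, hN'⟩ := hY
  refine ⟨fun s i j b => (M s i 0 true * N s 0 j b + M s i 0 false * N s 0 j (!b)) +
    (M s i 1 true * N s 1 j b + M s i 1 false * N s 1 j (!b)), ?_, ?_⟩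
  · intro i j b
    exact (((hM _ _ _).mul (hN _ _ _)).add ((hM _ _ _).mul (hN _ _ _))).add
      (((hM _ _ _).mul (hN _ _ _)).add ((hM _ _ _).mul (hN _ _ _)))
  · intro s h hs
    beta_reduce
    rw [← hM' s h hs, ← hN' s h hs]
    ext i j
    rw [Matrix.mul_apply, Fin.sum_univ_two]
    simp only [vl, Bool.not_true, Bool.not_false]
    push_cast
    ring

theorem pw_adj {X : FreeByCyclic r φ → Matrix (Fin 2) (Fin 2) ℤ} (hX : PW φ ρ X) :
    PW φ ρ (fun h => (X h).adjugate) := by
  obtain ⟨M, hM, hM'⟩ := hX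
  refine ⟨fun s i j b => if i = j then M s (1 - i) (1 - j) b else M s i j (!b), ?_, ?_⟩
  · intro i j b
    by_cases hij : i = j
    · simp only [hij, if_true]
      exact hM _ _ _
    · simp only [hij, if_false]
      exact hM _ _ _
  · intro s h hs
    beta_reduce
    rw [← hM' s h hs, Matrix.adjugate_fin_two]
    ext i j
    fin_cases i <;> fin_cases j <;> simp [vl]

theorem pw_const (A : Matrix (Fin 2) (Fin 2) ℤ) : PW φ ρ (fun _ => A) := by
  refine ⟨fun _ i j b => sg (A i j) b, fun i j b => PF.const _, ?_⟩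
  intro s h _
  ext i j
  exact sg_sub _

theorem pw_left : PW φ ρ (fun h => (ρ h.left : Matrix (Fin 2) (Fin 2) ℤ)) :=
  ⟨fun s i j b => s (Sum.inl (none, i, j, b)), fun _ _ _ => PF.proj _, fun _ _ hs => hs.f⟩

theorem pw_word (w : FreeGroup (Fin r)) :
    PW φ ρ (fun h => (ρ ((φ ^ (Multiplicative.toAdd h.right)) w) :
      Matrix (Fin 2) (Fin 2) ℤ)) := by
  induction w using FreeGroup.induction_on with
  | C1 =>
    have : (fun h : FreeByCyclic r φ => (ρ ((φ ^ (Multiplicative.toAdd h.right)) 1) :
        Matrix (Fin 2) (Fin 2) ℤ)) = fun _ => 1 := by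
      funext h
      rw [map_one, map_one]
      rfl
    rw [this]
    exact pw_const φ ρ 1
  | of i =>
    exact ⟨fun s a b c => s (Sum.inl (some i, a, b, c)), fun _ _ _ => PF.proj _,
      fun _ _ hs => hs.b i⟩
  | inv_of i hi =>
    have : (fun h : FreeByCyclic r φ => (ρ ((φ ^ (Multiplicative.toAdd h.right))
        (FreeGroup.of i)⁻¹) : Matrix (Fin 2) (Fin 2) ℤ)) =
        fun h => (ρ ((φ ^ (Multiplicative.toAdd h.right))
        (FreeGroup.of i)) : Matrix (Fin 2) (Fin 2) ℤ).adjugate := by
      funext h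
      rw [map_inv, map_inv]
      exact Matrix.SpecialLinearGroup.coe_inv _
    rw [this]
    exact pw_adj φ ρ hi
  | mul x y hx hy =>
    have : (fun h : FreeByCyclic r φ => (ρ ((φ ^ (Multiplicative.toAdd h.right)) (x * y)) :
        Matrix (Fin 2) (Fin 2) ℤ)) =
        fun h => (ρ ((φ ^ (Multiplicative.toAdd h.right)) x) : Matrix (Fin 2) (Fin 2) ℤ) *
          (ρ ((φ ^ (Multiplicative.toAdd h.right)) y) : Matrix (Fin 2) (Fin 2) ℤ) := by
      funext h
      rw [map_mul, map_mul]
      rfl
    rw [this]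
    exact pw_mul φ ρ hx hy

/-- Multiplication by a fixed element on the right. First `g = inl (of j) ^ (±1)` (use
`f φ ^ k (x_j)`), `g = inr (ofAdd (±1))` (the new matrices are the words `φ^(±1) (x_i)` in the old
ones: induction on the word), then products. -/
theorem exists_step (g : FreeByCyclic r φ) : ∃ F : (Ix r → ℕ) → Ix r → ℕ,
    (∀ i, PF (fun s => F s i)) ∧ ∀ s h, Rep φ ρ s h → Rep φ ρ (F s) (h * g) := by
  obtain ⟨M, hM, hM'⟩ := pw_mul φ ρ (pw_left φ ρ) (pw_word φ ρ g.left)
  choose N hN hN' using fun i : Fin r =>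
    pw_word φ ρ ((φ ^ (Multiplicative.toAdd g.right)) (FreeGroup.of i))
  refine ⟨fun s => Sum.elim (fun x => match x with
    | (none, i, j, b) => M s i j b
    | (some l, i, j, b) => N l s i j b)
    (fun b => s (Sum.inr b) + sg (Multiplicative.toAdd g.right) b), ?_, ?_⟩
  · intro x
    rcases x with ⟨_ | l, i, j, b⟩ | b
    · exact hM i j b
    · exact hN l i j b
    · exact (PF.proj _).add (PF.const _)
  · intro s h hs
    have hr : Multiplicative.toAdd (h * g).right =
        Multiplicative.toAdd h.right + Multiplicative.toAdd g.right := rfl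
    refine ⟨?_, ?_, ?_⟩
    · refine (hM' s h hs).trans ?_
      have : ρ (h * g).left = ρ h.left * ρ ((φ ^ (Multiplicative.toAdd h.right)) g.left) := by
        rw [← map_mul]
        rfl
      rw [this]
      rfl
    · intro l
      refine (hN' l s h hs).trans ?_
      rw [hr, zpow_add]
      rfl
    · have h1 := hs.k
      have h2 := sg_sub (Multiplicative.toAdd g.right)
      rw [hr]
      simp only [kv, Sum.elim_inr] at h1 ⊢
      push_cast
      omega

end Pool.Agent.DIST3
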