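import Pool.Agent.DIST3.Iter
import Pool.Agent.DIST3.Ping
import Pool.Agent.DIST3.Step

/-!
# DIST3 module Ev: evaluation of words coded by numbers
-/

namespace Pool.Agent.DIST3

open Pool.Agent.DIST

variable {r : ℕ} (φ : MulAut (FreeGroup (Fin r)))
  (ρ : FreeGroup (Fin r) →* Matrix.SpecialLinearGroup (Fin 2) ℤ)

/-- The element coded by the number `N`: product of the letters `lt d` over the digits of `N` in
base `b` (least significant digit first). -/
def ev {r : ℕ} (φ : MulAut (FreeGroup (Fin r))) (lt : ℕ → FreeByCyclic r φ) (b N : ℕ) :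
    FreeByCyclic r φ := ((Nat.digits b N).map lt).prod

theorem ev_step (lt : ℕ → FreeByCyclic r φ) (b : ℕ) (hb : 2 ≤ b) (h0 : lt 0 = 1) (N : ℕ) :
    ev φ lt b N = lt (N % b) * ev φ lt b (N / b) := by
  rcases Nat.eq_zero_or_pos N with rfl | hN
  · simp [ev, h0]
  · unfold ev
    rw [Nat.digits_def' (by omega) hN]
    simp

theorem PF.reindex {ι κ : Type} {f : (ι → ℕ) → ℕ} (hf : PF f) (e : ι → κ) :
    PF (fun v : κ → ℕ => f (fun i => v (e i))) := by
  induction hf with
  | proj i => exact PF.proj (e i)
  | const c => exact PF.const c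
  | add _ _ h1 h2 => exact h1.add h2
  | mul _ _ h1 h2 => exact h1.mul h2

theorem PF.sum {ι α : Type} (s : Finset α) {f : α → (ι → ℕ) → ℕ} (hf : ∀ a, PF (f a)) :
    PF (fun v : ι → ℕ => ∑ a ∈ s, f a v) := by
  classical
  induction s using Finset.induction_on with
  | empty =>
    simp only [Finset.sum_empty]
    exact PF.const 0
  | insert a s ha ih =>
    simp only [Finset.sum_insert ha]
    exact (hf a).add ih

/-- the machine: `(N, s) ↦ (N / b, Step_{N % b} s)` -/
def mach {ι : Type} (b : ℕ) (G : ℕ → (ι → ℕ) → ι → ℕ) (v : Option ι → ℕ) : Option ι → ℕ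
  | none => v none / b
  | some i => if v none % b < b then G (v none % b) (fun j => v (some j)) i else 0

theorem mach_oc {ι : Type} (b : ℕ) (hb : 2 ≤ b) (G : ℕ → (ι → ℕ) → ι → ℕ) (N : ℕ) (s : ι → ℕ) :
    mach b G (oc N s) = oc (N / b) (G (N % b) s) := by
  funext o
  cases o with
  | none => rfl
  | some i =>
    simp only [mach, oc_none, oc_some]
    rw [if_pos (Nat.mod_lt _ (by omega))]

theorem mach_sf {ι : Type} [Fintype ι] (b : ℕ) {G : ℕ → (ι → ℕ) → ι → ℕ}
    (hG : ∀ d i, PF (fun s => G d s i)) (o : Option ι) : SF (fun v => mach b G v o) := by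
  cases o with
  | none => exact SF.div (SF.proj none) (SF.const b)
  | some i =>
    exact SF.cases b (g := fun v : Option ι → ℕ => v none % b)
      (F := fun d v => G d (fun j => v (some j)) i)
      (SF.mod (SF.proj none) (SF.const b)) fun d _ => ((hG d i).reindex some).sf

theorem mach_growth {ι : Type} [Fintype ι] (b : ℕ) {G : ℕ → (ι → ℕ) → ι → ℕ}
    (hG : ∀ d i, PF (fun s => G d s i)) :
    ∃ d : ℕ, ∀ v, ∑ i, mach b G v i ≤ (∑ i, v i + d) ^ d := by
  have hP : PF (fun v : Option ι → ℕ => v none +
      ∑ i : ι, ∑ d ∈ Finset.range b, G d (fun j => v (some j)) i) :=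
    (PF.proj none).add (PF.sum _ fun i => PF.sum _ fun d => (hG d i).reindex some)
  obtain ⟨d, hd⟩ := hP.growth
  refine ⟨d, fun v => le_trans ?_ (hd v)⟩
  rw [Fintype.sum_option]
  refine Nat.add_le_add (Nat.div_le_self _ _) (Finset.sum_le_sum fun i _ => ?_)
  simp only [mach]
  split_ifs with h
  · exact Finset.single_le_sum (f := fun d => G d (fun j => v (some j)) i)
      (fun _ _ => Nat.zero_le _) (Finset.mem_range.2 h)
  · exact Nat.zero_le _

/-- `ev N` is represented by the state after `N` steps `(N, s) ↦ (N / b, Step_{N % b} s)`. Index set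
of the machine `Option (Ix r)`; `SF.iter`, `iter_growth`, `PF.growth`, `SF.cases`, `SF.comp` with
`l = N`. `lt 0 = 1` makes the steps after the last digit harmless. -/
theorem exists_ev (lt : ℕ → FreeByCyclic r φ) (b : ℕ) (hb : 2 ≤ b) (h0 : lt 0 = 1) :
    ∃ E : Ix r → ℕ → ℕ, (∀ i, SF (fun v : Unit → ℕ => E i (v ()))) ∧
      ∀ N, Rep φ ρ (fun i => E i N) (ev φ lt b N) := by
  choose G hG hG' using fun d : ℕ => exists_step φ ρ (lt d)
  obtain ⟨s0, hs0⟩ := rep_one φ ρ
  obtain ⟨d, hd⟩ := mach_growth b hG
  have hit := fun i : Ix r => SF.iter (fun o => mach_sf b hG o) (iter_growth _ d hd) (some i)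
  refine ⟨fun i N => (mach b G)^[N] (oc N s0) (some i), fun i => ?_, fun N => ?_⟩
  · have h := SF.comp (hit i) (ι := Unit)
      (g := fun (o : Option (Option (Ix r))) (v : Unit → ℕ) => match o with
        | none => v ()
        | some none => v ()
        | some (some j) => s0 j) (by
      intro o
      match o with
      | none => exact SF.proj ()
      | some none => exact SF.proj ()
      | some (some j) => exact SF.const _)
    refine h.congr fun v => ?_
    have : (fun o : Option (Ix r) => (match (some o : Option (Option (Ix r))) with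
        | none => v ()
        | some none => v ()
        | some (some j) => s0 j)) = oc (v ()) s0 := by
      funext o
      cases o <;> rfl
    exact congrArg (fun w => (mach b G)^[v ()] w (some i)) this
  · have key : ∀ n N s h, N ≤ n → Rep φ ρ s h →
        Rep φ ρ (fun i => (mach b G)^[n] (oc N s) (some i)) (h * ev φ lt b N) := by
      intro n
      induction n with
      | zero =>
        intro N s h hN hs
        obtain rfl : N = 0 := by omega
        have : ev φ lt b 0 = 1 := by simp [ev]
        rw [this, mul_one]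
        exact hs
      | succ n ih =>
        intro N s h hN hs
        rw [Function.iterate_succ_apply, mach_oc b hb, ev_step φ lt b hb h0 N, ← mul_assoc]
        refine ih (N / b) _ _ ?_ (hG' _ _ _ hs)
        rcases Nat.eq_zero_or_pos N with rfl | hN0
        · simp
        · have := Nat.div_lt_self hN0 (by omega : 1 < b)
          omega
    have := key N N s0 1 le_rfl hs0
    rwa [one_mul] at this

/-- equality of two elements coded by numbers -/
theorem sr_ev (lt lt' : ℕ → FreeByCyclic r φ) (b b' : ℕ) (hb : 2 ≤ b) (hb' : 2 ≤ b')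
    (h0 : lt 0 = 1) (h0' : lt' 0 = 1) :
    SR (fun v : Bool → ℕ => ev φ lt b (v true) = ev φ lt' b' (v false)) := by
  obtain ⟨B, hB⟩ := pp r
  obtain ⟨E, hE, hE'⟩ := exists_ev φ (FreeGroup.lift B) lt b hb h0
  obtain ⟨D, hD, hD'⟩ := exists_ev φ (FreeGroup.lift B) lt' b' hb' h0'
  have h1 : ∀ i, SF (fun v : Bool → ℕ => E i (v true)) := fun i =>
    SF.comp (hE i) (g := fun _ (v : Bool → ℕ) => v true) fun _ => SF.proj true
  have h2 : ∀ i, SF (fun v : Bool → ℕ => D i (v false)) := fun i =>
    SF.comp (hD i) (g := fun _ (v : Bool → ℕ) => v false) fun _ => SF.proj false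
  refine SR.congr (A := fun v : Bool → ℕ => EqS (fun i => E i (v true)) (fun i => D i (v false)))
    ?_ fun v => rep_eq φ (FreeGroup.lift B) hB (hE' _) (hD' _)
  unfold EqS
  exact SR.and (SR.all fun i => SR.all fun j => SR.eq (SF.add (h1 _) (h2 _))
    (SF.add (h2 _) (h1 _))) (SR.eq (SF.add (h1 _) (h2 _)) (SF.add (h2 _) (h1 _)))

end Pool.Agent.DIST3
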