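import Pool.Agent.DIST3.Iter
import Pool.Agent.DIST3.EC

/-!
# DIST3 module EvN: evaluation of a fixed code with fuel is an `SF` function

Induction on the code. First `SF.pair`, `SF.unpair1`, `SF.unpair2` (`Nat.pair`, `Nat.unpair`: search
for the pair below). `prec`: `evaln k (prec cf cg) ⟨a, m⟩` uses the fuel `k - m + y` at `⟨a, y⟩`;
iterate `m` times the step `(y, val) ↦ (y + 1, …)` starting from `evaln (k - m) cf a` (`none`, coded
`0`, is absorbing; mind the guards `⟨a, y⟩ < fuel`). `rfind'`: iterate `k` times the step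
`(fuel, m, result) ↦ …`. Values of `evaln k c n`: bounded by `SF.bd` of the parts; for the iteration
bound note that all arguments which pass a guard are below `k`.
-/

namespace Pool.Agent.DIST3

open Nat.Partrec (Code)

variable {ι : Type} [Fintype ι] {f g : (ι → ℕ) → ℕ}

/-- `0` for `none`, `x + 1` for `some x` -/
def ov : Option ℕ → ℕ
  | none => 0
  | some x => x + 1

/-! ### Tools -/

theorem evn_some (hf : SF f) : SF (fun v : Option ι → ℕ => f (fun i => v (some i))) :=
  SF.comp hf (g := fun i v => v (some i)) (fun i => SF.proj (some i))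

theorem evn_some2 (hf : SF f) :
    SF (fun v : Option (Option ι) → ℕ => f (fun i => v (some (some i)))) :=
  SF.comp hf (g := fun i v => v (some (some i))) (fun i => SF.proj (some (some i)))

theorem evn_ifz (hf : SF f) (hg : SF g) : SF (fun v => if f v = 0 then 0 else g v) := by
  refine (SF.ite (SR.eq hf (SF.const 0)) (SR.ne hf (SF.const 0)) (SF.const 0) hg).congr
    fun v => ?_
  by_cases h : f v = 0 <;> simp [h]

theorem evn_ifz' {h : (ι → ℕ) → ℕ} (hf : SF f) (hg : SF g) (hh : SF h) :
    SF (fun v => if f v = 0 then g v else h v) := by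
  refine (SF.ite (SR.eq hf (SF.const 0)) (SR.ne hf (SF.const 0)) hg hh).congr
    fun v => ?_
  by_cases h : f v = 0 <;> simp [h]

theorem evn_iflt {h h' : (ι → ℕ) → ℕ} (hf : SF f) (hg : SF g) (hh : SF h) (hh' : SF h') :
    SF (fun v => if f v < g v then h v else h' v) := by
  refine (SF.ite (SR.lt hf hg) ((SR.le hg hf).congr fun v => not_lt.symm) hh hh').congr
    fun v => ?_
  by_cases h : f v < g v <;> simp [h]

theorem SF.sub (hf : SF f) (hg : SF g) : SF (fun v => f v - g v) := by
  constructor
  · have hF := evn_some hf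
    have hG := evn_some hg
    refine (((SR.le hF hG).and (SR.eq (SF.proj none) (SF.const 0))).or
      ((SR.le hG hF).and (SR.eq ((SF.proj none).add hG) hF))).congr fun v => ?_
    constructor
    · rintro (⟨h1, h2⟩ | ⟨h1, h2⟩)
      · omega
      · omega
    · intro h
      rcases le_total (f fun i => v (some i)) (g fun i => v (some i)) with h1 | h1
      · exact Or.inl ⟨h1, by omega⟩
      · exact Or.inr ⟨h1, by omega⟩
  · obtain ⟨k, c, hk⟩ := hf.bd
    exact ⟨k, c, fun v => (Nat.sub_le _ _).trans (hk v)⟩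

theorem SF.pair (hf : SF f) (hg : SF g) : SF (fun v => Nat.pair (f v) (g v)) := by
  refine (evn_iflt hf hg ((hg.mul hg).add hf) (((hf.mul hf).add hf).add hg)).congr fun v => ?_
  rfl

theorem SF.unpair1 (hf : SF f) : SF (fun v => (Nat.unpair (f v)).1) := by
  obtain ⟨k, c, hk⟩ := hf.bd
  constructor
  · have h1 : SR (fun v : Option (Option ι) → ℕ =>
        Nat.pair (v (some none)) (v none) = f (fun i => v (some (some i)))) :=
      SR.eq (SF.pair (SF.proj (some none)) (SF.proj none)) (evn_some2 hf)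
    refine (SR.ex h1 ⟨k, c, ?_⟩).congr fun v => ?_
    · rintro v ⟨n, hn⟩
      refine ⟨n, ?_, hn⟩
      have h2 : Nat.pair (v none) n = f (fun i => v (some i)) := hn
      have h3 := Nat.right_le_pair (v none) n
      have h4 := hk (fun i => v (some i))
      have h5 : ex k (∑ i, v (some i) + c) ≤ ex k (∑ i, v i + c) := by
        rw [Fintype.sum_option]
        exact ex_mono k (by omega)
      omega
    · constructor
      · rintro ⟨n, hn⟩
        have h2 : Nat.pair (v none) n = f (fun i => v (some i)) := hn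
        rw [← h2, Nat.unpair_pair]
      · intro h
        refine ⟨(Nat.unpair (f fun i => v (some i))).2, ?_⟩
        show Nat.pair (v none) (Nat.unpair (f fun i => v (some i))).2 = f (fun i => v (some i))
        rw [h, Nat.pair_unpair]
  · exact ⟨k, c, fun v => (Nat.unpair_left_le _).trans (hk v)⟩

theorem SF.unpair2 (hf : SF f) : SF (fun v => (Nat.unpair (f v)).2) := by
  obtain ⟨k, c, hk⟩ := hf.bd
  constructor
  · have h1 : SR (fun v : Option (Option ι) → ℕ =>
        Nat.pair (v none) (v (some none)) = f (fun i => v (some (some i)))) :=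
      SR.eq (SF.pair (SF.proj none) (SF.proj (some none))) (evn_some2 hf)
    refine (SR.ex h1 ⟨k, c, ?_⟩).congr fun v => ?_
    · rintro v ⟨n, hn⟩
      refine ⟨n, ?_, hn⟩
      have h2 : Nat.pair n (v none) = f (fun i => v (some i)) := hn
      have h3 := Nat.left_le_pair n (v none)
      have h4 := hk (fun i => v (some i))
      have h5 : ex k (∑ i, v (some i) + c) ≤ ex k (∑ i, v i + c) := by
        rw [Fintype.sum_option]
        exact ex_mono k (by omega)
      omega
    · constructor
      · rintro ⟨n, hn⟩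
        have h2 : Nat.pair n (v none) = f (fun i => v (some i)) := hn
        rw [← h2, Nat.unpair_pair]
      · intro h
        refine ⟨(Nat.unpair (f fun i => v (some i))).1, ?_⟩
        show Nat.pair (Nat.unpair (f fun i => v (some i))).1 (v none) = f (fun i => v (some i))
        rw [h, Nat.pair_unpair]
  · exact ⟨k, c, fun v => (Nat.unpair_right_le _).trans (hk v)⟩

/-- evaluation with fuel `v true` at the input `v false` -/
def evf (c : Code) (v : Bool → ℕ) : ℕ := ov (Code.evaln (v true) c (v false))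

theorem evf_app {c : Code} (h : SF (evf c)) (hf : SF f) (hg : SF g) :
    SF (fun v => ov (Code.evaln (f v) c (g v))) :=
  SF.comp h (g := fun (b : Bool) (v : ι → ℕ) => match b with
    | true => f v
    | false => g v) (by
    intro b
    match b with
    | true => exact hf
    | false => exact hg)

/-! ### The values of `evaln` -/

theorem ov_zero (n K : ℕ) : ov (Code.evaln K Code.zero n) = if n < K then 1 else 0 := by
  cases K with
  | zero => simp [Code.evaln, ov]
  | succ k =>
    by_cases h : n ≤ k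
    · simp [Code.evaln, ov, h, Nat.lt_succ_of_le h]
    · simp [Code.evaln, ov, h]

theorem ov_succ (n K : ℕ) : ov (Code.evaln K Code.succ n) = if n < K then n + 2 else 0 := by
  cases K with
  | zero => simp [Code.evaln, ov]
  | succ k =>
    by_cases h : n ≤ k
    · simp [Code.evaln, ov, h]
    · simp [Code.evaln, ov, h]

theorem ov_left (n K : ℕ) :
    ov (Code.evaln K Code.left n) = if n < K then (Nat.unpair n).1 + 1 else 0 := by
  cases K with
  | zero => simp [Code.evaln, ov]
  | succ k =>
    by_cases h : n ≤ k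
    · simp [Code.evaln, ov, h]
    · simp [Code.evaln, ov, h]

theorem ov_right (n K : ℕ) :
    ov (Code.evaln K Code.right n) = if n < K then (Nat.unpair n).2 + 1 else 0 := by
  cases K with
  | zero => simp [Code.evaln, ov]
  | succ k =>
    by_cases h : n ≤ k
    · simp [Code.evaln, ov, h]
    · simp [Code.evaln, ov, h]

theorem ov_pair (cf cg : Code) (n K : ℕ) :
    ov (Code.evaln K (Code.pair cf cg) n) = if n < K then
      (if ov (Code.evaln K cf n) = 0 then 0 else (if ov (Code.evaln K cg n) = 0 then 0 else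
        Nat.pair (ov (Code.evaln K cf n) - 1) (ov (Code.evaln K cg n) - 1) + 1)) else 0 := by
  cases K with
  | zero => simp [Code.evaln, ov]
  | succ k =>
    by_cases h : n ≤ k
    · rcases h1 : Code.evaln (k + 1) cf n with _ | x <;>
        rcases h2 : Code.evaln (k + 1) cg n with _ | y <;>
        simp [Code.evaln, ov, h, h1, h2, Seq.seq]
    · simp [Code.evaln, ov, h]

theorem ov_comp (cf cg : Code) (n K : ℕ) :
    ov (Code.evaln K (Code.comp cf cg) n) = if n < K then
      (if ov (Code.evaln K cg n) = 0 then 0 else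
        ov (Code.evaln K cf (ov (Code.evaln K cg n) - 1))) else 0 := by
  cases K with
  | zero => simp [Code.evaln, ov]
  | succ k =>
    by_cases h : n ≤ k
    · rcases h2 : Code.evaln (k + 1) cg n with _ | y <;>
        simp [Code.evaln, ov, h, h2]
    · simp [Code.evaln, ov, h]

/-! ### Primitive recursion -/

/-- the value after `y` steps of a primitive recursion with fuel `K` at the start -/
def pv (cf cg : Code) (K a : ℕ) : ℕ → ℕ
  | 0 => ov (Code.evaln K cf a)
  | y + 1 => if pv cf cg K a y = 0 then 0 else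
      ov (Code.evaln (K + y + 1) cg (Nat.pair a (Nat.pair y (pv cf cg K a y - 1))))

theorem ov_prec_aux (cf cg : Code) (K a y : ℕ) (h : Nat.pair a y < K + y) :
    ov (Code.evaln (K + y) (Code.prec cf cg) (Nat.pair a y)) = pv cf cg K a y := by
  induction y with
  | zero =>
    obtain ⟨k, rfl⟩ : ∃ j, K = j + 1 := ⟨K - 1, by omega⟩
    have h' : Nat.pair a 0 ≤ k := by omega
    simp [Code.evaln, pv, h']
  | succ y ih =>
    have h1 : Nat.pair a y < Nat.pair a (y + 1) := Nat.pair_lt_pair_right a (Nat.lt_succ_self y)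
    have ih' := ih (by omega)
    have h2 : Nat.pair a (y + 1) ≤ K + y := by omega
    rw [show K + (y + 1) = (K + y) + 1 by omega]
    simp only [pv]
    rw [← ih']
    rcases h3 : Code.evaln (K + y) (Code.prec cf cg) (Nat.pair a y) with _ | x <;>
      simp [Code.evaln, h2, h3, ov]

theorem ov_prec (cf cg : Code) (n K : ℕ) :
    ov (Code.evaln K (Code.prec cf cg) n) = if n < K then
      pv cf cg (K - (Nat.unpair n).2) (Nat.unpair n).1 (Nat.unpair n).2 else 0 := by
  by_cases h : n < K
  · have h1 := Nat.unpair_right_le n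
    have h2 := ov_prec_aux cf cg (K - (Nat.unpair n).2) (Nat.unpair n).1 (Nat.unpair n).2
      (by rw [Nat.pair_unpair]; omega)
    rw [Nat.pair_unpair, show K - (Nat.unpair n).2 + (Nat.unpair n).2 = K by omega] at h2
    rw [if_pos h, h2]
  · rw [if_neg h]
    rcases h1 : Code.evaln K (Code.prec cf cg) n with _ | x
    · rfl
    · exact absurd (Code.evaln_bound h1) h

/-- one step; the variables are the fuel at the start, the parameter, the number of the step and
the value -/
def pstep (cg : Code) (w : Fin 4 → ℕ) : Fin 4 → ℕ :=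
  ![w 0, w 1, w 2 + 1, if w 3 = 0 then 0 else
    ov (Code.evaln (w 0 + w 2 + 1) cg (Nat.pair (w 1) (Nat.pair (w 2) (w 3 - 1))))]

theorem pstep_iter (cf cg : Code) (K a l : ℕ) :
    (pstep cg)^[l] ![K, a, 0, ov (Code.evaln K cf a)] = ![K, a, l, pv cf cg K a l] := by
  induction l with
  | zero => rfl
  | succ l ih =>
    rw [Function.iterate_succ_apply', ih]
    rfl

theorem ov_le {c : Code} {B : ℕ → ℕ} (h : ∀ k n x, x ∈ Code.evaln k c n → x ≤ B k) (k n : ℕ) :
    ov (Code.evaln k c n) ≤ B k + 1 := by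
  rcases h1 : Code.evaln k c n with _ | x
  · exact Nat.zero_le _
  · exact Nat.succ_le_succ (h k n x h1)

theorem pstep_bound (cg : Code) :
    ∃ k c : ℕ, ∀ l (w : Fin 4 → ℕ), ∑ i, ((pstep cg)^[l] w) i ≤ ex k (l + ∑ i, w i + c) := by
  obtain ⟨B, ⟨k1, c1, hB⟩, hv⟩ := evaln_value cg
  obtain ⟨m1, e1, h1⟩ := ex_lin_le 0 2 1
  obtain ⟨m2, e2, h2⟩ := ex_add_le m1 k1 e1 c1
  refine ⟨m2, e2, fun l w => ?_⟩
  have key : ((pstep cg)^[l] w) 0 = w 0 ∧ ((pstep cg)^[l] w) 1 = w 1 ∧
      ((pstep cg)^[l] w) 2 = w 2 + l ∧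
      ((pstep cg)^[l] w) 3 ≤ w 3 + (ex k1 (w 0 + w 2 + l + c1) + 1) := by
    induction l with
    | zero => exact ⟨rfl, rfl, rfl, Nat.le_add_right _ _⟩
    | succ l ih =>
      obtain ⟨i0, i1, i2, i3⟩ := ih
      rw [Function.iterate_succ_apply']
      set u := (pstep cg)^[l] w with hu
      refine ⟨i0, i1, ?_, ?_⟩
      · show u 2 + 1 = w 2 + (l + 1)
        omega
      · show (if u 3 = 0 then 0 else
          ov (Code.evaln (u 0 + u 2 + 1) cg (Nat.pair (u 1) (Nat.pair (u 2) (u 3 - 1))))) ≤ _
        split_ifs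
        · exact Nat.zero_le _
        · have h3 := ov_le hv (u 0 + u 2 + 1) (Nat.pair (u 1) (Nat.pair (u 2) (u 3 - 1)))
          have h4 := hB (u 0 + u 2 + 1)
          have h5 : ex k1 (u 0 + u 2 + 1 + c1) ≤ ex k1 (w 0 + w 2 + (l + 1) + c1) :=
            ex_mono k1 (by omega)
          omega
  obtain ⟨i0, i1, i2, i3⟩ := key
  have hs : ∑ i, w i = w 0 + w 1 + w 2 + w 3 := by
    rw [Fin.sum_univ_four]
  rw [Fin.sum_univ_four, i0, i1, i2]
  have h3 := h1 (l + ∑ i, w i)
  have h4 := h2 (l + ∑ i, w i)
  have h5 : ex k1 (w 0 + w 2 + l + c1) ≤ ex k1 (l + ∑ i, w i + c1) := ex_mono k1 (by omega)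
  have h6 : ex 0 (2 * (l + ∑ i, w i) + 1) = 2 * (l + ∑ i, w i) + 1 := rfl
  omega

theorem sf_pstep {cg : Code} (hg : SF (evf cg)) (i : Fin 4) :
    SF (fun w : Fin 4 → ℕ => pstep cg w i) := by
  fin_cases i
  · exact SF.proj 0
  · exact SF.proj 1
  · exact (SF.proj 2).add (SF.const 1)
  · exact evn_ifz (SF.proj 3) (evf_app hg (((SF.proj 0).add (SF.proj 2)).add (SF.const 1))
      (SF.pair (SF.proj 1) (SF.pair (SF.proj 2) ((SF.proj 3).sub (SF.const 1)))))

/-- the iteration with four functions at the start -/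
theorem iter_app {F : (Fin 4 → ℕ) → Fin 4 → ℕ} (hF : ∀ i, SF (fun v => F v i))
    (hb : ∃ k c : ℕ, ∀ l v, ∑ i, (F^[l] v) i ≤ ex k (l + ∑ i, v i + c)) (j : Fin 4)
    {l a b c d : (ι → ℕ) → ℕ} (hl : SF l) (h0 : SF a) (h1 : SF b) (h2 : SF c) (h3 : SF d) :
    SF (fun v => (F^[l v] ![a v, b v, c v, d v]) j) := by
  have h := SF.comp (SF.iter hF hb j) (g := fun (o : Option (Fin 4)) (v : ι → ℕ) => match o with
    | none => l v
    | some i => (![a v, b v, c v, d v] : Fin 4 → ℕ) i) (by
    intro o
    match o with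
    | none => exact hl
    | some 0 => exact h0
    | some 1 => exact h1
    | some 2 => exact h2
    | some 3 => exact h3)
  exact h

theorem sf_prec {cf cg : Code} (hf : SF (evf cf)) (hg : SF (evf cg)) :
    SF (evf (Code.prec cf cg)) := by
  have hn : SF (fun v : Bool → ℕ => v false) := SF.proj false
  have hK : SF (fun v : Bool → ℕ => v true) := SF.proj true
  have h1 := iter_app (sf_pstep hg) (pstep_bound cg) 3 (SF.unpair2 hn)
    (hK.sub (SF.unpair2 hn)) (SF.unpair1 hn) (SF.const 0)
    (evf_app hf (hK.sub (SF.unpair2 hn)) (SF.unpair1 hn))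
  refine (evn_iflt hn hK h1 (SF.const 0)).congr fun v => ?_
  unfold evf
  rw [ov_prec]
  simp only [pstep_iter]
  rfl

/-! ### Search -/

/-- one step of the search; the variables are the fuel, the parameter, the argument and the result
(`0` if still running, `1` if it failed, `x + 2` for the result `x`) -/
def rstep (cf : Code) (w : Fin 4 → ℕ) : Fin 4 → ℕ :=
  ![w 0 - 1, w 1, w 2 + 1, if w 3 = 0 then
    (if Nat.pair (w 1) (w 2) < w 0 then
      (if ov (Code.evaln (w 0) cf (Nat.pair (w 1) (w 2))) = 0 then 1 else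
        (if ov (Code.evaln (w 0) cf (Nat.pair (w 1) (w 2))) - 1 = 0 then w 2 + 2 else 0))
      else 1) else w 3]

theorem rstep_stop (cf : Code) (l : ℕ) (w : Fin 4 → ℕ) (h : w 3 ≠ 0) :
    ((rstep cf)^[l] w) 3 = w 3 := by
  induction l with
  | zero => rfl
  | succ l ih =>
    rw [Function.iterate_succ_apply']
    set u := (rstep cf)^[l] w
    show (if u 3 = 0 then _ else u 3) = w 3
    rw [if_neg (by omega), ih]

theorem rstep_iter (cf : Code) (K : ℕ) : ∀ a m : ℕ,
    ((rstep cf)^[K + 1] ![K, a, m, 0]) 3 =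
      ov (Code.evaln K (Code.rfind' cf) (Nat.pair a m)) + 1 := by
  induction K with
  | zero =>
    intro a m
    simp [rstep, Code.evaln, ov]
  | succ K ih =>
    intro a m
    rw [Function.iterate_succ_apply]
    by_cases h : Nat.pair a m ≤ K
    · have h' : Nat.pair a m < K + 1 := by omega
      rcases h1 : Code.evaln (K + 1) cf (Nat.pair a m) with _ | x
      · have h2 : rstep cf ![K + 1, a, m, 0] = ![K, a, m + 1, 1] := by
          simp [rstep, h', h1, ov]
        rw [h2, rstep_stop _ _ _ (by simp)]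
        simp [Code.evaln, h, h1, ov]
      · rcases Nat.eq_zero_or_pos x with rfl | hx
        · have h2 : rstep cf ![K + 1, a, m, 0] = ![K, a, m + 1, m + 2] := by
            simp [rstep, h', h1, ov]
          rw [h2, rstep_stop _ _ _ (by simp)]
          simp [Code.evaln, h, h1, ov]
        · have hx' : x ≠ 0 := by omega
          have h2 : rstep cf ![K + 1, a, m, 0] = ![K, a, m + 1, 0] := by
            simp [rstep, h', h1, ov, hx']
          rw [h2, ih]
          simp [Code.evaln, h, h1, hx']
    · have h' : ¬ Nat.pair a m < K + 1 := by omega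
      have h2 : rstep cf ![K + 1, a, m, 0] = ![K, a, m + 1, 1] := by
        simp [rstep, h']
      rw [h2, rstep_stop _ _ _ (by simp)]
      simp [Code.evaln, h, ov]

theorem rstep_bound (cf : Code) :
    ∃ k c : ℕ, ∀ l (w : Fin 4 → ℕ), ∑ i, ((rstep cf)^[l] w) i ≤ ex k (l + ∑ i, w i + c) := by
  obtain ⟨m1, e1, h1⟩ := ex_lin_le 0 2 2
  refine ⟨m1, e1, fun l w => ?_⟩
  have key : ((rstep cf)^[l] w) 0 ≤ w 0 ∧ ((rstep cf)^[l] w) 1 = w 1 ∧
      ((rstep cf)^[l] w) 2 = w 2 + l ∧
      ((rstep cf)^[l] w) 3 ≤ w 3 + w 2 + l + 2 := by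
    induction l with
    | zero => exact ⟨le_rfl, rfl, rfl, by show w 3 ≤ w 3 + w 2 + 0 + 2; omega⟩
    | succ l ih =>
      obtain ⟨i0, i1, i2, i3⟩ := ih
      rw [Function.iterate_succ_apply']
      set u := (rstep cf)^[l] w with hu
      refine ⟨?_, i1, ?_, ?_⟩
      · show u 0 - 1 ≤ w 0
        omega
      · show u 2 + 1 = w 2 + (l + 1)
        omega
      · show (if u 3 = 0 then
          (if Nat.pair (u 1) (u 2) < u 0 then
            (if ov (Code.evaln (u 0) cf (Nat.pair (u 1) (u 2))) = 0 then 1 else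
              (if ov (Code.evaln (u 0) cf (Nat.pair (u 1) (u 2))) - 1 = 0 then u 2 + 2 else 0))
            else 1) else u 3) ≤ _
        split_ifs <;> omega
  obtain ⟨i0, i1, i2, i3⟩ := key
  have hs : ∑ i, w i = w 0 + w 1 + w 2 + w 3 := by
    rw [Fin.sum_univ_four]
  rw [Fin.sum_univ_four]
  have h3 := h1 (l + ∑ i, w i)
  have h6 : ex 0 (2 * (l + ∑ i, w i) + 2) = 2 * (l + ∑ i, w i) + 2 := rfl
  omega

theorem sf_rstep {cf : Code} (hf : SF (evf cf)) (i : Fin 4) :
    SF (fun w : Fin 4 → ℕ => rstep cf w i) := by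
  have hE : SF (fun w : Fin 4 → ℕ => ov (Code.evaln (w 0) cf (Nat.pair (w 1) (w 2)))) :=
    evf_app hf (SF.proj 0) (SF.pair (SF.proj 1) (SF.proj 2))
  fin_cases i
  · exact (SF.proj 0).sub (SF.const 1)
  · exact SF.proj 1
  · exact (SF.proj 2).add (SF.const 1)
  · exact evn_ifz' (SF.proj 3) (evn_iflt (SF.pair (SF.proj 1) (SF.proj 2)) (SF.proj 0)
      (evn_ifz' hE (SF.const 1) (evn_ifz' (hE.sub (SF.const 1)) ((SF.proj 2).add (SF.const 2))
        (SF.const 0))) (SF.const 1)) (SF.proj 3)

theorem sf_rfind {cf : Code} (hf : SF (evf cf)) : SF (evf (Code.rfind' cf)) := by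
  have hn : SF (fun v : Bool → ℕ => v false) := SF.proj false
  have hK : SF (fun v : Bool → ℕ => v true) := SF.proj true
  have h1 := iter_app (sf_rstep hf) (rstep_bound cf) 3 (hK.add (SF.const 1)) hK
    (SF.unpair1 hn) (SF.unpair2 hn) (SF.const 0)
  refine (h1.sub (SF.const 1)).congr fun v => ?_
  rw [rstep_iter, Nat.pair_unpair]
  rfl

/-- evaluation with fuel `v true` at the input `v false` -/
theorem sf_evaln (c : Code) : SF (fun v : Bool → ℕ => ov (Code.evaln (v true) c (v false))) := by
  have hn : SF (fun v : Bool → ℕ => v false) := SF.proj false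
  have hK : SF (fun v : Bool → ℕ => v true) := SF.proj true
  show SF (evf c)
  induction c with
  | zero =>
    exact (evn_iflt hn hK (SF.const 1) (SF.const 0)).congr fun v => (ov_zero _ _).symm
  | succ =>
    exact (evn_iflt hn hK (hn.add (SF.const 2)) (SF.const 0)).congr fun v => (ov_succ _ _).symm
  | left =>
    exact (evn_iflt hn hK ((SF.unpair1 hn).add (SF.const 1)) (SF.const 0)).congr
      fun v => (ov_left _ _).symm
  | right =>
    exact (evn_iflt hn hK ((SF.unpair2 hn).add (SF.const 1)) (SF.const 0)).congr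
      fun v => (ov_right _ _).symm
  | pair cf cg hf hg =>
    exact (evn_iflt hn hK (evn_ifz hf (evn_ifz hg
      ((SF.pair (hf.sub (SF.const 1)) (hg.sub (SF.const 1))).add (SF.const 1))))
      (SF.const 0)).congr fun v => (ov_pair _ _ _ _).symm
  | comp cf cg hf hg =>
    exact (evn_iflt hn hK (evn_ifz hg (evf_app hf hK (hg.sub (SF.const 1)))) (SF.const 0)).congr
      fun v => (ov_comp _ _ _ _).symm
  | prec cf cg hf hg => exact sf_prec hf hg
  | rfind' cf hf => exact sf_rfind hf

end Pool.Agent.DIST3
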