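import Mathlib

/-!
# DIST version 3: definitions for the arithmetic part

`RudI`: rudimentary (`Δ₀`) relations with variables named by an arbitrary type `ι`.
`SR A`: the relation `A` has rudimentary yes-certificates of elementary size.
`SF f`: functions whose graph is `SR` and which are bounded by an elementary function.
`PF f`: polynomials with coefficients in `ℕ`.
-/

namespace Pool.Agent.DIST3

/-- Iterated exponentials: `ex 0 x = x`, `ex (k + 1) x = 2 ^ ex k x`. -/
def ex : ℕ → ℕ → ℕ
  | 0, x => x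
  | k + 1, x => 2 ^ ex k x

/-- one more variable -/
def oc {ι : Type} (n : ℕ) (v : ι → ℕ) : Option ι → ℕ
  | none => n
  | some i => v i

@[simp] theorem oc_none {ι : Type} (n : ℕ) (v : ι → ℕ) : oc n v none = n := rfl
@[simp] theorem oc_some {ι : Type} (n : ℕ) (v : ι → ℕ) (i : ι) : oc n v (some i) = v i := rfl

/-- Rudimentary relations, variables named by elements of `ι`. -/
inductive RudI : ∀ {ι : Type}, ((ι → ℕ) → Prop) → Prop
  | add {ι : Type} (i j l : ι) : RudI (fun v : ι → ℕ => v i + v j = v l)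
  | mul {ι : Type} (i j l : ι) : RudI (fun v : ι → ℕ => v i * v j = v l)
  | not {ι : Type} {Q : (ι → ℕ) → Prop} : RudI Q → RudI (fun v => ¬ Q v)
  | and {ι : Type} {Q Q' : (ι → ℕ) → Prop} : RudI Q → RudI Q' → RudI (fun v => Q v ∧ Q' v)
  | bex {ι : Type} {Q : (Option ι → ℕ) → Prop} (i : ι) : RudI Q →
      RudI (fun v : ι → ℕ => ∃ n, n ≤ v i ∧ Q (oc n v))

/-- `A` has rudimentary certificates: `R (L, v) → A v`, and `A v → R (L, v)` for all `L` which are
at least an elementary function of `v`. -/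
def SR {ι : Type} [Fintype ι] (A : (ι → ℕ) → Prop) : Prop :=
  ∃ R : (Option ι → ℕ) → Prop, RudI R ∧ (∀ L v, R (oc L v) → A v) ∧
    ∃ k c : ℕ, ∀ L v, A v → ex k (∑ i, v i + c) ≤ L → R (oc L v)

/-- Functions with `SR` graph and elementary bound. -/
structure SF {ι : Type} [Fintype ι] (f : (ι → ℕ) → ℕ) : Prop where
  gr : SR (fun v : Option ι → ℕ => v none = f (fun i => v (some i)))
  bd : ∃ k c : ℕ, ∀ v, f v ≤ ex k (∑ i, v i + c)

/-- Polynomials with coefficients in `ℕ`. -/
inductive PF {ι : Type} : ((ι → ℕ) → ℕ) → Prop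
  | proj (i : ι) : PF (fun v => v i)
  | const (c : ℕ) : PF (fun _ => c)
  | add {f g : (ι → ℕ) → ℕ} : PF f → PF g → PF (fun v => f v + g v)
  | mul {f g : (ι → ℕ) → ℕ} : PF f → PF g → PF (fun v => f v * g v)

end Pool.Agent.DIST3
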