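import Pool.Agent.DIST3.Ex

/-!
# DIST3 module ExL: elementary bounds

Everything by induction on `k`; `2 ^ x ≥ x + 1`. For `ex_add`, `ex_mul`, `ex_pow`: first
`ex k x + ex k y ≤ ex k (x + y + 2)` etc. (crude constants are fine).
-/

namespace Pool.Agent.DIST3

theorem ex_mono (k : ℕ) : Monotone (ex k) := by
  induction k with
  | zero => exact monotone_id
  | succ k ih =>
    intro x y hxy
    exact Nat.pow_le_pow_right (by norm_num) (ih hxy)

theorem le_ex (k x : ℕ) : x ≤ ex k x := by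
  induction k with
  | zero => exact le_rfl
  | succ k ih => exact ih.trans (Nat.lt_two_pow_self).le

theorem ex_le_succ (k x : ℕ) : ex k x ≤ ex (k + 1) x := (Nat.lt_two_pow_self).le

theorem ex_le_ex {k l : ℕ} (h : k ≤ l) (x : ℕ) : ex k x ≤ ex l x :=
  monotone_nat_of_le_succ (f := fun k => ex k x) (fun k => ex_le_succ k x) h

theorem ex_ex (k l x : ℕ) : ex k (ex l x) = ex (k + l) x := by
  induction k with
  | zero => rw [Nat.zero_add]; rfl
  | succ k ih =>
    rw [Nat.succ_add]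
    show 2 ^ ex k (ex l x) = 2 ^ ex (k + l) x
    rw [ih]

theorem two_pow_add_le (a c : ℕ) : 2 ^ a + c ≤ 2 ^ (a + c) := by
  have h1 : c + 1 ≤ 2 ^ c := Nat.lt_two_pow_self
  have h2 : 1 ≤ 2 ^ a := Nat.one_le_two_pow
  calc 2 ^ a + c ≤ 2 ^ a + 2 ^ a * c := Nat.add_le_add_left (Nat.le_mul_of_pos_left c (by omega)) _
    _ = 2 ^ a * (c + 1) := by ring
    _ ≤ 2 ^ a * 2 ^ c := Nat.mul_le_mul_left _ h1
    _ = 2 ^ (a + c) := (pow_add 2 a c).symm

theorem add_ex_le (k x c : ℕ) : ex k x + c ≤ ex k (x + c) := by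
  induction k with
  | zero => exact le_rfl
  | succ k ih => exact (two_pow_add_le _ _).trans (Nat.pow_le_pow_right (by norm_num) ih)

theorem two_mul_le_two_pow (y : ℕ) : 2 * y ≤ 2 ^ y := by
  induction y with
  | zero => norm_num
  | succ y ih =>
    rcases Nat.eq_zero_or_pos y with h | h
    · subst h; norm_num
    · rw [pow_succ]; omega

theorem mul_self_le_two_pow (y : ℕ) : y * y ≤ 2 ^ (2 ^ y) := by
  have h1 : y ≤ 2 ^ y := (Nat.lt_two_pow_self).le
  calc y * y ≤ 2 ^ y * 2 ^ y := Nat.mul_le_mul h1 h1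
    _ = 2 ^ (2 * y) := by rw [two_mul, pow_add]
    _ ≤ 2 ^ (2 ^ y) := Nat.pow_le_pow_right (by norm_num) (two_mul_le_two_pow y)

/-- both bounds are below one bound -/
theorem ex_le_max_left (k l c d x e : ℕ) : ex k (x + c) ≤ ex (max k l) (x + (c + d + e)) :=
  (ex_le_ex (le_max_left k l) _).trans (ex_mono _ (by omega))

theorem ex_le_max_right (k l c d x e : ℕ) : ex l (x + d) ≤ ex (max k l) (x + (c + d + e)) :=
  (ex_le_ex (le_max_right k l) _).trans (ex_mono _ (by omega))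

/-- sums, products, powers of elementary bounds are bounded by one elementary bound with the same
argument -/
theorem ex_add_le (k l c d : ℕ) : ∃ m e, ∀ x, ex k (x + c) + ex l (x + d) ≤ ex m (x + e) := by
  refine ⟨max k l + 1, c + d + 0, fun x => ?_⟩
  have h1 := ex_le_max_left k l c d x 0
  have h2 := ex_le_max_right k l c d x 0
  exact (by omega : ex k (x + c) + ex l (x + d) ≤ 2 * ex (max k l) (x + (c + d + 0))).trans
    (two_mul_le_two_pow _)

theorem ex_mul_le (k l c d : ℕ) : ∃ m e, ∀ x, ex k (x + c) * ex l (x + d) ≤ ex m (x + e) := by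
  refine ⟨max k l + 1 + 1, c + d + 0, fun x => ?_⟩
  exact (Nat.mul_le_mul (ex_le_max_left k l c d x 0) (ex_le_max_right k l c d x 0)).trans
    (mul_self_le_two_pow _)

theorem ex_pow_le (k l c d : ℕ) : ∃ m e, ∀ x, ex k (x + c) ^ ex l (x + d) ≤ ex m (x + e) := by
  refine ⟨max k l + 1 + 1 + 1, c + d + 1, fun x => ?_⟩
  have h1 := ex_le_max_left k l c d x 1
  have h2 := ex_le_max_right k l c d x 1
  have h3 : 1 ≤ ex (max k l) (x + (c + d + 1)) := (by omega : 1 ≤ x + (c + d + 1)).trans (le_ex _ _)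
  have h6 : ex (max k l + 1 + 1 + 1) (x + (c + d + 1)) =
      2 ^ (2 ^ (2 ^ ex (max k l) (x + (c + d + 1)))) := rfl
  rw [h6]
  generalize ex (max k l) (x + (c + d + 1)) = Y at h1 h2 h3 ⊢
  have h4 : (ex k (x + c)) ^ ex l (x + d) ≤ Y ^ Y :=
    (Nat.pow_le_pow_left h1 _).trans (Nat.pow_le_pow_right h3 h2)
  have h5 : Y ^ Y ≤ 2 ^ (Y * Y) := by
    rw [pow_mul]
    exact Nat.pow_le_pow_left (Nat.lt_two_pow_self).le _
  exact h4.trans (h5.trans (Nat.pow_le_pow_right (by norm_num) (mul_self_le_two_pow Y)))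

/-- composition: `q * ex l (x + d) + x + c` plugged into `ex k` -/
theorem ex_comp_le (k l q c d : ℕ) : ∃ m e, ∀ x, ex k (q * ex l (x + d) + x + c) ≤ ex m (x + e) := by
  obtain ⟨m1, e1, h1⟩ := ex_mul_le 0 l q d
  obtain ⟨m2, e2, h2⟩ := ex_add_le m1 0 e1 c
  refine ⟨k + m2, e2, fun x => ?_⟩
  rw [← ex_ex]
  apply ex_mono
  refine le_trans ?_ (h2 x)
  have h3 : q * ex l (x + d) ≤ ex m1 (x + e1) :=
    (Nat.mul_le_mul_right _ (Nat.le_add_left q x)).trans (h1 x)
  have h4 : ex 0 (x + c) = x + c := rfl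
  rw [h4]
  omega

/-- linear changes of the argument -/
theorem ex_lin_le (k q c : ℕ) : ∃ m e, ∀ x, ex k (q * x + c) ≤ ex m (x + e) := by
  obtain ⟨m, e, h⟩ := ex_comp_le k 0 q c 0
  refine ⟨m, e, fun x => le_trans (ex_mono k ?_) (h x)⟩
  have h4 : ex 0 (x + 0) = x := rfl
  rw [h4]
  omega

/-- finitely many elementary bounds -/
theorem ex_fin {κ : Type} [Finite κ] {α : Type*} (s : α → ℕ) (f : κ → α → ℕ)
    (h : ∀ j, ∃ k c, ∀ v, f j v ≤ ex k (s v + c)) : ∃ k c, ∀ j v, f j v ≤ ex k (s v + c) := by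
  cases nonempty_fintype κ
  choose k c hk using h
  refine ⟨Finset.univ.sup k, Finset.univ.sup c, fun j v => (hk j v).trans ?_⟩
  have h1 : k j ≤ Finset.univ.sup k := Finset.le_sup (Finset.mem_univ j)
  have h2 : c j ≤ Finset.univ.sup c := Finset.le_sup (Finset.mem_univ j)
  exact (ex_le_ex h1 _).trans (ex_mono _ (Nat.add_le_add_left h2 _))

/-- one step of the growth estimate -/
theorem growth_step (s d : ℕ) : (s + d) ^ d + (d + 2) ≤ (s + (d + 2)) ^ (d + 2) := by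
  set b := s + (d + 2) with hb
  have h1 : (s + d) ^ d ≤ b ^ d := Nat.pow_le_pow_left (by omega) d
  have hb2 : 2 ≤ b := by omega
  have h2 : b ^ d ≤ b ^ (d + 1) := Nat.pow_le_pow_right (by omega) (by omega)
  have h3 : b ≤ b ^ (d + 1) := Nat.le_self_pow (by omega) b
  have h4 : b ^ (d + 2) = b ^ (d + 1) * b := pow_succ b (d + 1)
  have h5 : b ^ (d + 1) * 2 ≤ b ^ (d + 1) * b := Nat.mul_le_mul_left _ hb2
  omega

/-- iteration of a function of polynomial growth has elementary growth -/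
theorem iter_growth {ι : Type} [Fintype ι] (F : (ι → ℕ) → ι → ℕ) (d : ℕ)
    (hF : ∀ v, ∑ i, F v i ≤ (∑ i, v i + d) ^ d) :
    ∃ k c : ℕ, ∀ l v, ∑ i, (F^[l] v) i ≤ ex k (l + ∑ i, v i + c) := by
  obtain ⟨m1, e1, h1⟩ := ex_pow_le 0 0 (d + 2) 0
  obtain ⟨m2, e2, h2⟩ := ex_pow_le 0 m1 (d + 2) e1
  refine ⟨m2, e2, fun l v => ?_⟩
  have key : ∀ l, ∑ i, (F^[l] v) i + (d + 2) ≤ (∑ i, v i + (d + 2)) ^ ((d + 2) ^ l) := by
    intro l
    induction l with
    | zero => simp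
    | succ l ih =>
      rw [Function.iterate_succ_apply']
      calc ∑ i, F (F^[l] v) i + (d + 2) ≤ (∑ i, (F^[l] v) i + d) ^ d + (d + 2) :=
            Nat.add_le_add_right (hF _) _
        _ ≤ (∑ i, (F^[l] v) i + (d + 2)) ^ (d + 2) := growth_step _ _
        _ ≤ ((∑ i, v i + (d + 2)) ^ ((d + 2) ^ l)) ^ (d + 2) := Nat.pow_le_pow_left ih _
        _ = (∑ i, v i + (d + 2)) ^ ((d + 2) ^ (l + 1)) := by rw [← pow_mul, ← pow_succ]
  set x := l + ∑ i, v i with hx
  have e0 : ∀ y, ex 0 y = y := fun _ => rfl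
  have a1 : (d + 2) ^ l ≤ ex m1 (x + e1) := by
    refine le_trans ?_ (h1 x)
    rw [e0, e0]
    exact (Nat.pow_le_pow_left (by omega) l).trans (Nat.pow_le_pow_right (by omega) (by omega))
  have a2 : (∑ i, v i + (d + 2)) ^ ((d + 2) ^ l) ≤ ex m2 (x + e2) := by
    refine le_trans ?_ (h2 x)
    rw [e0]
    exact (Nat.pow_le_pow_left (by omega) _).trans (Nat.pow_le_pow_right (by omega) a1)
  have := key l
  omega

/-- polynomials have polynomial growth -/
theorem PF.growth {ι : Type} [Fintype ι] {f : (ι → ℕ) → ℕ} (hf : PF f) :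
    ∃ d : ℕ, ∀ v, f v ≤ (∑ i, v i + d) ^ d := by
  induction hf with
  | proj i =>
    refine ⟨1, fun v => ?_⟩
    rw [pow_one]
    exact (Finset.single_le_sum (f := v) (fun _ _ => Nat.zero_le _) (Finset.mem_univ i)).trans
      (Nat.le_add_right _ _)
  | const c =>
    refine ⟨c + 1, fun v => ?_⟩
    exact (by omega : c ≤ ∑ i, v i + (c + 1)).trans (Nat.le_self_pow (by omega) _)
  | add _ _ ih1 ih2 =>
    obtain ⟨d1, h1⟩ := ih1
    obtain ⟨d2, h2⟩ := ih2
    refine ⟨d1 + d2 + 2, fun v => ?_⟩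
    have g1 := h1 v
    have g2 := h2 v
    set b := ∑ i, v i + (d1 + d2 + 2) with hb
    have a1 : (∑ i, v i + d1) ^ d1 ≤ b ^ (d1 + d2 + 1) :=
      (Nat.pow_le_pow_left (by omega) _).trans (Nat.pow_le_pow_right (by omega) (by omega))
    have a2 : (∑ i, v i + d2) ^ d2 ≤ b ^ (d1 + d2 + 1) :=
      (Nat.pow_le_pow_left (by omega) _).trans (Nat.pow_le_pow_right (by omega) (by omega))
    have a3 : b ^ (d1 + d2 + 2) = b ^ (d1 + d2 + 1) * b := pow_succ b (d1 + d2 + 1)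
    have a4 : b ^ (d1 + d2 + 1) * 2 ≤ b ^ (d1 + d2 + 1) * b := Nat.mul_le_mul_left _ (by omega)
    show _ + _ ≤ _
    rw [a3]
    omega
  | mul _ _ ih1 ih2 =>
    obtain ⟨d1, h1⟩ := ih1
    obtain ⟨d2, h2⟩ := ih2
    refine ⟨d1 + d2 + 1, fun v => ?_⟩
    have g1 := h1 v
    have g2 := h2 v
    set b := ∑ i, v i + (d1 + d2 + 1) with hb
    have a1 : (∑ i, v i + d1) ^ d1 ≤ b ^ d1 := Nat.pow_le_pow_left (by omega) _
    have a2 : (∑ i, v i + d2) ^ d2 ≤ b ^ d2 := Nat.pow_le_pow_left (by omega) _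
    calc _ ≤ b ^ d1 * b ^ d2 := Nat.mul_le_mul (g1.trans a1) (g2.trans a2)
      _ = b ^ (d1 + d2) := (pow_add b d1 d2).symm
      _ ≤ b ^ (d1 + d2 + 1) := Nat.pow_le_pow_right (by omega) (by omega)

end Pool.Agent.DIST3
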