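import Pool.Agent.DIST3.SF
import Pool.Agent.DIST3.RFd

/-!
# DIST3 module Expo: from `SR` graphs to rudimentary graphs

`A := T` with certificates `R_A (L, N, t)`; `Q (N, L) := ∃ t ≤ L, R_A (L, N, t)`;
`R N L := Q (N, L) ∧ ∀ L' < L, ¬ Q (N, L')` (as in module Nec).
-/

namespace Pool.Agent.DIST3

theorem expo {T : ℕ → ℕ → Prop} (hT : SR (fun v : Bool → ℕ => T (v true) (v false)))
    (hfun : ∀ N t t', T N t → T N t' → t = t') :
    ∃ (R : ℕ → ℕ → Prop) (k c : ℕ), RF R ∧
      (∀ N L, R N L → ∃ t ≤ L, T N t ∧ L ≤ ex k (N + t + c)) ∧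
      (∀ N t, T N t → ∃ L, R N L) := by
  obtain ⟨RA, hRA, hsound, k, c, hcompl⟩ := hT
  let pr : ℕ → ℕ → Bool → ℕ := fun N M => fun x => if x then N else M
  have hev : ∀ L N M, RA (oc L (pr N M)) → T N M := fun L N M h => hsound L (pr N M) h
  have hev' : ∀ L N M, T N M → ex k (N + M + c) ≤ L → RA (oc L (pr N M)) := by
    intro L N M h hL
    refine hcompl L (pr N M) h ?_
    rw [Fintype.sum_bool]
    exact hL
  let Q : ℕ → ℕ → Prop := fun N L => ∃ M ≤ L, RA (oc L (pr N M))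
  let R : ℕ → ℕ → Prop := fun N L => Q N L ∧ ∀ L' < L, ¬ Q N L'
  have hQ : RudI (fun v : Fin 2 → ℕ => Q (v 0) (v 1)) := by
    let ρ : Option Bool → Option (Fin 2) := fun x =>
      match x with
      | none => some 1
      | some true => some 0
      | some false => none
    have h1 : RudI (fun v : Option (Fin 2) → ℕ => RA (fun i => v (ρ i))) := hRA.reindex ρ
    have h2 := RudI.bex (1 : Fin 2) h1
    refine h2.congr fun v => ?_
    have h3 : ∀ M, (fun i => oc M v (ρ i)) = oc (v 1) (pr (v 0) M) := by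
      intro M
      funext i
      rcases i with _ | _ | _ <;> rfl
    simp only [h3]
    rfl
  have hR : RudI (fun v : Fin 2 → ℕ => R (v 0) (v 1)) := by
    let σ : Fin 2 → Option (Fin 2) := fun x => if x = 0 then some 0 else none
    have h1 : RudI (fun v : Option (Fin 2) → ℕ => Q (v (some 0)) (v none)) :=
      (hQ.reindex σ).congr fun v => Iff.rfl
    have h2 : RudI (fun v : Option (Fin 2) → ℕ =>
        v none = v (some 1) ∨ ¬ Q (v (some 0)) (v none)) := (RudI.eq none (some 1)).or (RudI.not h1)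
    have h3 := RudI.ball (1 : Fin 2) h2
    refine (RudI.and hQ h3).congr fun v => ?_
    show (Q (v 0) (v 1) ∧ ∀ n, n ≤ v 1 → (n = v 1 ∨ ¬ Q (v 0) n)) ↔ _
    constructor
    · rintro ⟨h4, h5⟩
      refine ⟨h4, fun L' hL' => ?_⟩
      rcases h5 L' hL'.le with h6 | h6
      · omega
      · exact h6
    · rintro ⟨h4, h5⟩
      refine ⟨h4, fun n hn => ?_⟩
      rcases Nat.lt_or_ge n (v 1) with h6 | h6
      · exact Or.inr (h5 n h6)
      · exact Or.inl (by omega)
  have hQT : ∀ N M, T N M → Q N (ex k (N + M + c)) := fun N M h =>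
    ⟨M, (show M ≤ N + M + c by omega).trans (le_ex k _), hev' _ N M h le_rfl⟩
  refine ⟨R, k, c, ⟨hR.toRud, fun N L L' h h' => ?_⟩, fun N L h => ?_, fun N t h => ?_⟩
  · rcases lt_trichotomy L L' with h1 | h1 | h1
    · exact absurd h.1 (h'.2 L h1)
    · exact h1
    · exact absurd h'.1 (h.2 L' h1)
  · obtain ⟨⟨M, hM, hM'⟩, hmin⟩ := h
    have hT := hev _ N M hM'
    refine ⟨M, hM, hT, ?_⟩
    by_contra hlt
    exact hmin _ (not_le.1 hlt) (hQT N M hT)
  · classical
    have h2 : ∃ L, Q N L := ⟨_, hQT N t h⟩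
    exact ⟨Nat.find h2, Nat.find_spec h2, fun L' hL' => Nat.find_min h2 hL'⟩

end Pool.Agent.DIST3
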