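import Pool.Agent.DIST3.ExL
import Pool.Agent.DIST.Fin

/-!
# DIST3 module Fn: functions

`exp_closed`: if `2 ^ F n ≤ F (C * n + C)` and `F` is monotone then `F` grows so fast that
`ex k (a * F (a * n + a) + a * n + a) ≤ F (C' * n + C')`. First `F` is unbounded; then
`n ≤ F n` for large `n`: with `u (j + 1) = C * u j + C` the quotient `F (u j) / u (j + 1)`
doubles at each step as soon as `F (u j)` is large. Call `g` absorbed if `g n ≤ F (C' * n + C')`;
the absorbed functions are closed under sums, `2 ^ g`, and contain `n` and the constants.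
-/

namespace Pool.Agent.DIST3

open Pool.Agent.DIST

/-- `Fm R n = max {L : R N L, N ≤ 2 ^ n}` (`0` if there is none) -/
noncomputable def Fm (R : ℕ → ℕ → Prop) (n : ℕ) : ℕ := sSup {L | ∃ N ≤ 2 ^ n, R N L}

theorem Fm_bdd {R : ℕ → ℕ → Prop} (hfun : ∀ N L L', R N L → R N L' → L = L') (n : ℕ) :
    BddAbove {L | ∃ N ≤ 2 ^ n, R N L} := by
  have h : {L | ∃ N ≤ 2 ^ n, R N L} ⊆ ⋃ N ∈ Set.Iic (2 ^ n), {L | R N L} := by
    rintro L ⟨N, hN, hL⟩
    exact Set.mem_biUnion (Set.mem_Iic.2 hN) hL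
  refine Set.Finite.bddAbove (Set.Finite.subset ?_ h)
  refine Set.Finite.biUnion (Set.finite_Iic _) fun N _ => ?_
  exact Set.Subsingleton.finite fun L hL L' hL' => hfun N L L' hL hL'

theorem le_Fm {R : ℕ → ℕ → Prop} (hfun : ∀ N L L', R N L → R N L' → L = L') {n N L : ℕ}
    (hN : N ≤ 2 ^ n) (hL : R N L) : L ≤ Fm R n :=
  le_csSup (Fm_bdd hfun n) ⟨N, hN, hL⟩

/-- the maximum is attained -/
theorem Fm_spec {R : ℕ → ℕ → Prop} (hfun : ∀ N L L', R N L → R N L' → L = L') (n : ℕ) :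
    Fm R n = 0 ∨ ∃ N ≤ 2 ^ n, R N (Fm R n) := by
  rcases Set.eq_empty_or_nonempty {L | ∃ N ≤ 2 ^ n, R N L} with h | h
  · left
    unfold Fm
    rw [h]
    exact csSup_empty
  · right
    exact Nat.sSup_mem h (Fm_bdd hfun n)

theorem Fm_mono {R : ℕ → ℕ → Prop} (hfun : ∀ N L L', R N L → R N L' → L = L') :
    Monotone (Fm R) := by
  intro m n hmn
  rcases Fm_spec hfun m with h | ⟨N, hN, hL⟩
  · rw [h]
    exact Nat.zero_le _
  · exact le_Fm hfun (hN.trans (Nat.pow_le_pow_right (by norm_num) hmn)) hL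

theorem preceq_trans {f g h : ℕ → ℕ} (hh : Monotone h) (h1 : Preceq f g) (h2 : Preceq g h) :
    Preceq f h := by
  obtain ⟨C, hC, hf⟩ := h1
  obtain ⟨D, hD, hg⟩ := h2
  refine ⟨C * C * D + C * D + C * D + C + D, by omega, fun n => ?_⟩
  have e1 := hf n
  have e2 := hg (C * n + C)
  have e3 : h (D * (C * n + C) + D) ≤
      h ((C * C * D + C * D + C * D + C + D) * n + (C * C * D + C * D + C * D + C + D)) := by
    apply hh
    have h4 : D * (C * n + C) + D = (C * D) * n + (C * D + D) := by ring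
    rw [h4]
    exact Nat.add_le_add (Nat.mul_le_mul_right _ (by omega)) (by omega)
  generalize h (D * (C * n + C) + D) = X at e2 e3
  generalize h ((C * C * D + C * D + C * D + C + D) * n + (C * C * D + C * D + C * D + C + D)) = Y
    at e3 ⊢
  have e4 : f n ≤ C * (D * X + D * (C * n + C) + D) + C * n + C := by
    refine e1.trans ?_
    have := Nat.mul_le_mul_left C e2
    omega
  have e5 : C * (D * X + D * (C * n + C) + D) + C * n + C =
      (C * D) * X + (C * C * D + C) * n + (C * C * D + C * D + C) := by ring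
  rw [e5] at e4
  have e6 : (C * D) * X ≤ (C * C * D + C * D + C * D + C + D) * Y :=
    Nat.mul_le_mul (by omega) e3
  have e7 : (C * C * D + C) * n ≤ (C * C * D + C * D + C * D + C + D) * n :=
    Nat.mul_le_mul_right _ (by omega)
  omega

namespace FnX

/-- `g` is absorbed by `F`. -/
def Abs (F g : ℕ → ℕ) : Prop := ∃ C, ∀ n, g n ≤ F (C * n + C)

theorem exists_big (B : ℕ) : ∃ x₀, ∀ x, x₀ ≤ x → B * x ≤ 2 ^ x := by
  have h1 : ∀ x : ℕ, x * x ≤ 2 * 2 ^ x := by
    intro x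
    induction x with
    | zero => norm_num
    | succ x ih =>
      have h2 : x < 2 ^ x := Nat.lt_two_pow_self
      rw [pow_succ]
      nlinarith
  refine ⟨2 * B, fun x hx => ?_⟩
  have h3 := h1 x
  have h4 : 2 * (B * x) ≤ x * x := by
    calc 2 * (B * x) = (2 * B) * x := by ring
      _ ≤ x * x := Nat.mul_le_mul_right _ hx
  omega

/-- The sequence `u 0 = 1`, `u (j + 1) = C * u j + C`. -/
def u (C : ℕ) : ℕ → ℕ
  | 0 => 1
  | j + 1 => C * u C j + C

theorem u_pos {C : ℕ} (hC : 1 ≤ C) (j : ℕ) : 1 ≤ u C j := by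
  cases j with
  | zero => exact le_refl _
  | succ j =>
    show 1 ≤ C * u C j + C
    omega

theorem u_lt {C : ℕ} (hC : 1 ≤ C) (j : ℕ) : u C j < u C (j + 1) := by
  show u C j < C * u C j + C
  have : 1 * u C j ≤ C * u C j := Nat.mul_le_mul_right _ hC
  omega

theorem u_strict {C : ℕ} (hC : 1 ≤ C) : StrictMono (u C) := strictMono_nat_of_lt_succ (u_lt hC)

theorem u_le {C : ℕ} (hC : 1 ≤ C) (j : ℕ) : u C (j + 1) ≤ 2 * C * u C j := by
  show C * u C j + C ≤ 2 * C * u C j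
  have h1 := u_pos hC j
  have h2 : C * 1 ≤ C * u C j := Nat.mul_le_mul_left _ h1
  have h3 : 2 * C * u C j = C * u C j + C * u C j := by ring
  omega

section

variable {F : ℕ → ℕ} (hF : Monotone F) {C : ℕ} (hC : ∀ n, 2 ^ F n ≤ F (C * n + C))

include hC in
theorem C_pos : 1 ≤ C := by
  rcases Nat.eq_zero_or_pos C with h | h
  · have h1 := hC 0
    rw [h] at h1
    simp only [mul_zero, add_zero] at h1
    have h2 : F 0 < 2 ^ F 0 := Nat.lt_two_pow_self
    omega
  · exact h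

include hC in
theorem F_u (j : ℕ) : j ≤ F (u C j) := by
  induction j with
  | zero => exact Nat.zero_le _
  | succ j ih =>
    have h1 := hC (u C j)
    have h2 : F (u C j) < 2 ^ F (u C j) := Nat.lt_two_pow_self
    show j + 1 ≤ F (C * u C j + C)
    omega

include hF hC in
/-- `n ≤ F n` for large `n`. -/
theorem le_F : ∃ n₀, ∀ n, n₀ ≤ n → n ≤ F n := by
  have hC1 := C_pos hC
  obtain ⟨x₀, hx₀⟩ := exists_big (4 * C)
  have hbig : ∀ j, x₀ + 1 ≤ j → 4 * C * F (u C j) ≤ F (u C (j + 1)) := by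
    intro j hj
    have h1 := F_u hC j
    exact (hx₀ (F (u C j)) (by omega)).trans (hC (u C j))
  have hstep : ∀ i, 2 ^ i * u C (x₀ + 1 + i + 1) ≤ F (u C (x₀ + 1 + i)) * u C (x₀ + 1 + 1) := by
    intro i
    induction i with
    | zero =>
      have h1 := F_u hC (x₀ + 1)
      have h2 : 1 * u C (x₀ + 1 + 1) ≤ F (u C (x₀ + 1)) * u C (x₀ + 1 + 1) :=
        Nat.mul_le_mul_right _ (by omega)
      simpa using h2
    | succ i ih =>
      have h1 := hbig (x₀ + 1 + i) (by omega)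
      have h2 := u_le hC1 (x₀ + 1 + i + 1)
      calc 2 ^ (i + 1) * u C (x₀ + 1 + (i + 1) + 1) ≤ 2 ^ (i + 1) * (2 * C * u C (x₀ + 1 + i + 1)) :=
            Nat.mul_le_mul_left _ h2
        _ = 4 * C * (2 ^ i * u C (x₀ + 1 + i + 1)) := by ring
        _ ≤ 4 * C * (F (u C (x₀ + 1 + i)) * u C (x₀ + 1 + 1)) := Nat.mul_le_mul_left _ ih
        _ = (4 * C * F (u C (x₀ + 1 + i))) * u C (x₀ + 1 + 1) := by ring
        _ ≤ F (u C (x₀ + 1 + i + 1)) * u C (x₀ + 1 + 1) := Nat.mul_le_mul_right _ h1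
  have hlarge : ∀ j, x₀ + 1 + u C (x₀ + 1 + 1) ≤ j → u C (j + 1) ≤ F (u C j) := by
    intro j hj
    obtain ⟨i, rfl⟩ := Nat.exists_eq_add_of_le (show x₀ + 1 ≤ j by omega)
    have h1 := hstep i
    have h2 : u C (x₀ + 1 + 1) ≤ 2 ^ i := by
      have h3 : i < 2 ^ i := Nat.lt_two_pow_self
      omega
    have h4 : u C (x₀ + 1 + 1) * u C (x₀ + 1 + i + 1) ≤
        F (u C (x₀ + 1 + i)) * u C (x₀ + 1 + 1) := (Nat.mul_le_mul_right _ h2).trans h1
    rw [mul_comm] at h4
    exact Nat.le_of_mul_le_mul_right h4 (u_pos hC1 _)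
  refine ⟨u C (x₀ + 1 + u C (x₀ + 1 + 1)), fun n hn => ?_⟩
  obtain ⟨m, hm⟩ : ∃ m, n < u C (x₀ + 1 + u C (x₀ + 1 + 1) + m) := by
    refine ⟨n + 1, ?_⟩
    have h1 := (u_strict hC1).id_le (x₀ + 1 + u C (x₀ + 1 + 1) + (n + 1))
    simp only [id] at h1
    omega
  induction m with
  | zero =>
    rw [add_zero] at hm
    omega
  | succ m ih =>
    rcases Nat.lt_or_ge n (u C (x₀ + 1 + u C (x₀ + 1 + 1) + m)) with h | h
    · exact ih h
    · have h1 := hlarge (x₀ + 1 + u C (x₀ + 1 + 1) + m) (by omega)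
      have h2 : F (u C (x₀ + 1 + u C (x₀ + 1 + 1) + m)) ≤ F n := hF h
      have h3 : n < u C (x₀ + 1 + u C (x₀ + 1 + 1) + m + 1) := hm
      omega

include hF in
theorem Abs.mono_const {g : ℕ → ℕ} {A B : ℕ} (hAB : A ≤ B) (h : ∀ n, g n ≤ F (A * n + A)) (n : ℕ) :
    g n ≤ F (B * n + B) :=
  (h n).trans (hF (Nat.add_le_add (Nat.mul_le_mul_right _ hAB) hAB))

include hC in
theorem Abs.two_pow {g : ℕ → ℕ} (hF : Monotone F) (h : Abs F g) : Abs F (fun n => 2 ^ g n) := by
  obtain ⟨A, hA⟩ := h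
  refine ⟨C * A + C, fun n => ?_⟩
  have h1 : 2 ^ g n ≤ 2 ^ F (A * n + A) := Nat.pow_le_pow_right (by norm_num) (hA n)
  refine h1.trans ((hC _).trans (hF ?_))
  have h2 : C * (A * n + A) + C = (C * A) * n + (C * A + C) := by ring
  rw [h2]
  exact Nat.add_le_add (Nat.mul_le_mul_right _ (by omega)) (le_refl _)

theorem Abs.of_le {g h : ℕ → ℕ} (hgh : ∀ n, g n ≤ h n) (hh : Abs F h) : Abs F g := by
  obtain ⟨A, hA⟩ := hh
  exact ⟨A, fun n => (hgh n).trans (hA n)⟩

theorem two_mul_le_two_pow (x : ℕ) : 2 * x ≤ 2 ^ x := by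
  induction x with
  | zero => norm_num
  | succ x ih =>
    rcases Nat.eq_zero_or_pos x with h | h
    · subst h
      norm_num
    · have h2 : 2 ^ 1 ≤ 2 ^ x := Nat.pow_le_pow_right (by norm_num) h
      rw [pow_succ]
      omega

include hC in
theorem Abs.add {g h : ℕ → ℕ} (hF : Monotone F) (hg : Abs F g) (hh : Abs F h) :
    Abs F (fun n => g n + h n) := by
  obtain ⟨A, hA⟩ := hg
  obtain ⟨B, hB⟩ := hh
  have h1 : Abs F (fun n => F (max A B * n + max A B)) := ⟨max A B, fun n => le_refl _⟩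
  refine Abs.of_le (fun n => ?_) (Abs.two_pow hC hF h1)
  have h2 := Abs.mono_const hF (le_max_left A B) hA n
  have h3 := Abs.mono_const hF (le_max_right A B) hB n
  have h4 := two_mul_le_two_pow (F (max A B * n + max A B))
  show g n + h n ≤ 2 ^ F (max A B * n + max A B)
  omega

include hC in
theorem Abs.const (hF : Monotone F) (c : ℕ) : Abs F (fun _ => c) := by
  refine ⟨u C c, fun n => ?_⟩
  exact (F_u hC c).trans (hF (Nat.le_add_left _ _))

include hC in
theorem Abs.self (hF : Monotone F) : Abs F (fun n => n) := by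
  obtain ⟨n₀, hn₀⟩ := le_F hF hC
  refine ⟨n₀ + 1, fun n => ?_⟩
  have h1 := hn₀ ((n₀ + 1) * n + (n₀ + 1)) (by omega)
  have h2 : 1 * n ≤ (n₀ + 1) * n := Nat.mul_le_mul_right _ (by omega)
  show n ≤ F ((n₀ + 1) * n + (n₀ + 1))
  omega

include hC in
theorem Abs.mul_left (hF : Monotone F) {g : ℕ → ℕ} (hg : Abs F g) (a : ℕ) :
    Abs F (fun n => a * g n) := by
  induction a with
  | zero =>
    refine Abs.of_le (fun n => ?_) hg
    show 0 * g n ≤ g n
    omega
  | succ a ih =>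
    refine Abs.of_le (fun n => ?_) (Abs.add hC hF ih hg)
    show (a + 1) * g n ≤ a * g n + g n
    rw [Nat.succ_mul]

include hC in
theorem Abs.ex (hF : Monotone F) {g : ℕ → ℕ} (hg : Abs F g) (k : ℕ) :
    Abs F (fun n => Pool.Agent.DIST3.ex k (g n)) := by
  induction k with
  | zero => exact hg
  | succ k ih => exact Abs.two_pow hC hF ih

end

end FnX

theorem exp_closed {F : ℕ → ℕ} (hF : Monotone F) (hF2 : ∃ C, ∀ n, 2 ^ F n ≤ F (C * n + C))
    (k a : ℕ) : ∃ C, ∀ n, ex k (a * F (a * n + a) + a * n + a) ≤ F (C * n + C) := by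
  obtain ⟨C, hC⟩ := hF2
  have h1 : FnX.Abs F (fun n => F (a * n + a)) := ⟨a, fun n => le_refl _⟩
  exact FnX.Abs.ex hC hF (FnX.Abs.add hC hF (FnX.Abs.add hC hF (FnX.Abs.mul_left hC hF h1 a)
    (FnX.Abs.mul_left hC hF (FnX.Abs.self hC hF) a)) (FnX.Abs.const hC hF a)) k

/-- `≃` from elementary bounds -/
theorem equiv_of_el {F A B : ℕ → ℕ} (hF : Monotone F)
    (hF2 : ∃ C, ∀ n, 2 ^ F n ≤ F (C * n + C)) (hA : Monotone A) (hB : Monotone B)
    (hFA : Preceq F A) (hAF : Preceq A F) (h1 : Preceq A B)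
    (h2 : ∃ k C : ℕ, ∀ n, B n ≤ ex k (A (C * n + C) + n + C)) :
    Preceq F B ∧ Preceq B F := by
  refine ⟨preceq_trans hB hFA h1, ?_⟩
  obtain ⟨k, C, h2⟩ := h2
  obtain ⟨D, hD, h3⟩ := hAF
  obtain ⟨E, hE⟩ := exp_closed hF hF2 k (D * C + D + C + 1)
  refine ⟨E + 1, by omega, fun n => ?_⟩
  have e1 := h3 (C * n + C)
  have e2 : F (D * (C * n + C) + D) ≤
      F ((D * C + D + C + 1) * n + (D * C + D + C + 1)) := by
    apply hF
    have h4 : D * (C * n + C) + D = (D * C) * n + (D * C + D) := by ring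
    rw [h4]
    exact Nat.add_le_add (Nat.mul_le_mul_right _ (by omega)) (by omega)
  have e3 : A (C * n + C) + n + C ≤ (D * C + D + C + 1) *
      F ((D * C + D + C + 1) * n + (D * C + D + C + 1)) + (D * C + D + C + 1) * n +
      (D * C + D + C + 1) := by
    generalize F (D * (C * n + C) + D) = X at e1 e2
    generalize F ((D * C + D + C + 1) * n + (D * C + D + C + 1)) = Y at e2 ⊢
    have e4 : D * X ≤ (D * C + D + C + 1) * Y := Nat.mul_le_mul (by omega) e2
    have e5 : D * (C * n + C) + D = (D * C) * n + (D * C + D) := by ring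
    have e6 : (D * C) * n + n ≤ (D * C + D + C + 1) * n := by
      calc (D * C) * n + n = (D * C + 1) * n := by ring
        _ ≤ _ := Nat.mul_le_mul_right _ (by omega)
    omega
  have e7 : F (E * n + E) ≤ F ((E + 1) * n + (E + 1)) :=
    hF (Nat.add_le_add (Nat.mul_le_mul_right _ (by omega)) (by omega))
  have e8 := (h2 n).trans ((ex_mono k e3).trans ((hE n).trans e7))
  generalize F ((E + 1) * n + (E + 1)) = Y at e8 ⊢
  have e9 : 1 * Y ≤ (E + 1) * Y := Nat.mul_le_mul_right _ (by omega)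
  omega

end Pool.Agent.DIST3
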