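import Pool.Agent.DIST3.Ev
import Pool.Agent.DIST3.Fn

/-!
# DIST3 module Nec: necessity

`digits_code`: letters `lt : ℕ → G`, `lt 0 = 1`, `lt 1, …, lt (b - 1)` = all letters of `S ∪ S⁻¹`.
`W S g n → ∃ N < b ^ n, ev lt b N = g` and `W S (ev lt b N) n` for `N < b ^ n`
(`Nat.digits_lt_base_pow_iff`, `Nat.ofDigits`; a word without letter `0` has no trailing zeros).
`nec`: `S₀` = the given `S` itself (or any finite generating set). Let
`A (N, M) := ev_S N = ev_T M` (`sr_ev`), `R_A` its certificate relation,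
`Q (N, L) := ∃ M ≤ L, R_A (L, N, M)`, `R N L := Q (N, L) ∧ ∀ L' < L, ¬ Q (N, L')`.
`R N L` implies `ev_S N = ev_T M` with `M ≤ L`, so `|ev_S N|_T ≤ M ≤ L` (`M < b' ^ M`).
If `h = ev_S N` is in `H` with `|h|_T = l`, then `h = ev_T M` with `M < b' ^ l`, so `Q (N, L)` for
`L = ex k (N + M + c)`.
-/

namespace Pool.Agent.DIST3

open Pool.Agent.DIST Pool.Agent.helper12.FD

theorem nec_prod {E : Type*} [Group E] {S : Set E} {lt : ℕ → E} (h : ∀ d, W S (lt d) 1)
    (l : List ℕ) : W S (l.map lt).prod l.length := by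
  induction l with
  | nil => exact W_one 0
  | cons d l ih =>
    rw [List.map_cons, List.prod_cons, List.length_cons, Nat.add_comm]
    exact W_mul (h d) ih

theorem digits_code {r : ℕ} (φ : MulAut (FreeGroup (Fin r))) {S : Set (FreeByCyclic r φ)}
    (hS : S.Finite) : ∃ (b : ℕ) (lt : ℕ → FreeByCyclic r φ), 2 ≤ b ∧ lt 0 = 1 ∧
      (∀ g n, W S g n → ∃ N < b ^ n, ev φ lt b N = g) ∧
      ∀ N n, N < b ^ n → W S (ev φ lt b N) n := by
  classical
  have hK : (S ∪ S⁻¹).Finite := hS.union hS.inv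
  obtain ⟨K, hKl⟩ : ∃ K : List (FreeByCyclic r φ), ∀ x, x ∈ K ↔ (x ∈ S ∨ x⁻¹ ∈ S) := by
    refine ⟨hK.toFinset.toList, fun x => ?_⟩
    rw [Finset.mem_toList, Set.Finite.mem_toFinset]
    rfl
  let lt : ℕ → FreeByCyclic r φ := fun d => if d = 0 then 1 else K.getD (d - 1) 1
  have hlt : ∀ d, W S (lt d) 1 := by
    intro d
    by_cases hd : d = 0
    · have : lt d = 1 := if_pos hd
      rw [this]
      exact W_one 1
    · have h1 : lt d = K.getD (d - 1) 1 := if_neg hd
      rw [h1]
      by_cases h2 : d - 1 < K.length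
      · rw [List.getD_eq_getElem _ _ h2]
        rcases (hKl _).1 (List.getElem_mem h2) with h3 | h3
        · exact W_of_mem h3
        · exact W_of_inv_mem h3
      · rw [List.getD_eq_default _ _ (not_lt.1 h2)]
        exact W_one 1
  have hdig : ∀ x, x ∈ S ∨ x⁻¹ ∈ S → ∃ d, 0 < d ∧ d < K.length + 2 ∧ lt d = x := by
    intro x hx
    obtain ⟨i, hi, hix⟩ := List.getElem_of_mem ((hKl x).2 hx)
    refine ⟨i + 1, Nat.succ_pos i, by omega, ?_⟩
    show (if i + 1 = 0 then 1 else K.getD (i + 1 - 1) 1) = x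
    rw [if_neg (Nat.succ_ne_zero i), Nat.add_sub_cancel, List.getD_eq_getElem _ _ hi, hix]
  refine ⟨K.length + 2, lt, by omega, if_pos rfl, ?_, ?_⟩
  · rintro g n ⟨w, h1, h2, rfl⟩
    choose! f hf using hdig
    let L : List ℕ := w.map f
    have hL1 : ∀ d ∈ L, d < K.length + 2 := by
      intro d hd
      obtain ⟨x, hx, rfl⟩ := List.mem_map.1 hd
      exact (hf x (h2 x hx)).2.1
    have hL2 : ∀ d ∈ L, d ≠ 0 := by
      intro d hd
      obtain ⟨x, hx, rfl⟩ := List.mem_map.1 hd
      exact (hf x (h2 x hx)).1.ne'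
    refine ⟨Nat.ofDigits (K.length + 2) L, ?_, ?_⟩
    · refine (Nat.ofDigits_lt_base_pow_length (by omega) hL1).trans_le ?_
      refine Nat.pow_le_pow_right (by omega) ?_
      simpa [L] using h1
    · unfold ev
      rw [Nat.digits_ofDigits _ (by omega) L hL1 (fun h => hL2 _ (List.getLast_mem h))]
      have h3 : L.map lt = w := by
        rw [List.map_map]
        conv_rhs => rw [← List.map_id w]
        exact List.map_congr_left fun x hx => (hf x (h2 x hx)).2.2
      rw [h3]
  · intro N n hN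
    have h1 := (Nat.digits_length_le_iff (show 1 < K.length + 2 by omega) N (k := n)).2 hN
    exact W_mono (nec_prod hlt _) h1

theorem nec {r : ℕ} (φ : MulAut (FreeGroup (Fin r))) (H : Subgroup (FreeByCyclic r φ))
    {S T : Set (FreeByCyclic r φ)} (hS : S.Finite) (hS' : Subgroup.closure S = ⊤) (hT : T.Finite)
    (hT' : Subgroup.closure T = H) :
    ∃ (R : ℕ → ℕ → Prop) (k C : ℕ), FBC.Rud (fun v : Fin 2 → ℕ => R (v 0) (v 1)) ∧
      (∀ N L L', R N L → R N L' → L = L') ∧
      (∀ n, distortion S T H n ≤ Fm R (C * n + C)) ∧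
      (∀ n, Fm R n ≤ ex k (distortion S T H (C * n + C) + n + C)) := by
  obtain ⟨b, lt, hb, h0, hcode, hdec⟩ := digits_code φ hS
  obtain ⟨b', lt', hb', h0', hcode', hdec'⟩ := digits_code φ hT
  obtain ⟨RA, hRA, hsound, k, c, hcompl⟩ := sr_ev φ lt lt' b b' hb hb' h0 h0'
  -- the certificate
  let pr : ℕ → ℕ → Bool → ℕ := fun N M => fun x => if x then N else M
  have hev : ∀ L N M, RA (oc L (pr N M)) → ev φ lt b N = ev φ lt' b' M := fun L N M h =>
    hsound L (pr N M) h
  have hev' : ∀ L N M, ev φ lt b N = ev φ lt' b' M → ex k (M + N + c) ≤ L →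
      RA (oc L (pr N M)) := by
    intro L N M h hL
    refine hcompl L (pr N M) h ?_
    rw [Fintype.sum_bool]
    show ex k (N + M + c) ≤ L
    rwa [Nat.add_comm N M]
  let Q : ℕ → ℕ → Prop := fun N L => ∃ M ≤ L, RA (oc L (pr N M))
  let R : ℕ → ℕ → Prop := fun N L => Q N L ∧ ∀ L' < L, ¬ Q N L'
  have hQ : RudI (fun v : Fin 2 → ℕ => Q (v 0) (v 1)) := by
    let ρ : Option Bool → Option (Fin 2) := fun x =>
      match x with
      | none => some 1
      | some true => some 0
      | some false => none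
    have h1 : RudI (fun v : Option (Fin 2) → ℕ => RA (fun i => v (ρ i))) := hRA.reindex ρ
    have h2 := RudI.bex (1 : Fin 2) h1
    refine h2.congr fun v => ?_
    have h3 : ∀ M, (fun i => oc M v (ρ i)) = oc (v 1) (pr (v 0) M) := by
      intro M
      funext i
      rcases i with _ | _ | _ <;> rfl
    simp only [h3]
    rfl
  have hR : RudI (fun v : Fin 2 → ℕ => R (v 0) (v 1)) := by
    let σ : Fin 2 → Option (Fin 2) := fun x => if x = 0 then some 0 else none
    have h1 : RudI (fun v : Option (Fin 2) → ℕ => Q (v (some 0)) (v none)) :=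
      (hQ.reindex σ).congr fun v => Iff.rfl
    have h2 : RudI (fun v : Option (Fin 2) → ℕ =>
        v none = v (some 1) ∨ ¬ Q (v (some 0)) (v none)) := (RudI.eq none (some 1)).or (RudI.not h1)
    have h3 := RudI.ball (1 : Fin 2) h2
    refine (RudI.and hQ h3).congr fun v => ?_
    show (Q (v 0) (v 1) ∧ ∀ n, n ≤ v 1 → (n = v 1 ∨ ¬ Q (v 0) n)) ↔ _
    constructor
    · rintro ⟨h4, h5⟩
      refine ⟨h4, fun L' hL' => ?_⟩
      rcases h5 L' hL'.le with h6 | h6
      · omega
      · exact h6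
    · rintro ⟨h4, h5⟩
      refine ⟨h4, fun n hn => ?_⟩
      rcases Nat.lt_or_ge n (v 1) with h6 | h6
      · exact Or.inr (h5 n h6)
      · exact Or.inl (by omega)
  have hfun : ∀ N L L', R N L → R N L' → L = L' := by
    intro N L L' h h'
    rcases lt_trichotomy L L' with h1 | h1 | h1
    · exact absurd h.1 (h'.2 L h1)
    · exact h1
    · exact absurd h'.1 (h.2 L' h1)
  -- existence
  have hex : ∀ N M, ev φ lt b N = ev φ lt' b' M → ∃ L ≤ ex k (M + N + c), R N L := by
    classical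
    intro N M h
    have h1 : Q N (ex k (M + N + c)) := by
      refine ⟨M, ?_, hev' _ N M h le_rfl⟩
      exact (show M ≤ M + N + c by omega).trans (le_ex k _)
    have h2 : ∃ L, Q N L := ⟨_, h1⟩
    exact ⟨Nat.find h2, Nat.find_min' h2 h1, Nat.find_spec h2, fun L' hL' => Nat.find_min h2 hL'⟩
  have hmem : ∀ {g : FreeByCyclic r φ} {n : ℕ}, W T g n → g ∈ H := fun h => by
    rw [← hT']
    exact W_mem_closure h
  have hpow : ∀ a n : ℕ, a ^ n ≤ 2 ^ (a * n) := fun a n => by
    rw [pow_mul]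
    exact Nat.pow_le_pow_left Nat.lt_two_pow_self.le _
  -- the elementary bound
  obtain ⟨k', c', hel⟩ : ∃ k' c' : ℕ, ∀ n l, ex k (b' ^ l + 2 ^ n + c) ≤ ex k' (l + n + c') := by
    obtain ⟨m, e, h1⟩ := ex_comp_le k 1 2 c b'
    obtain ⟨m', e', h2⟩ := ex_lin_le m (b' + 1) e
    refine ⟨m', e', fun n l => ?_⟩
    have h3 : b' ^ l + 2 ^ n + c ≤ 2 * ex 1 ((b' + 1) * (l + n) + b') + (b' + 1) * (l + n) + c := by
      have e1 : b' ^ l ≤ ex 1 ((b' + 1) * (l + n) + b') := by
        show b' ^ l ≤ 2 ^ ((b' + 1) * (l + n) + b')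
        refine (hpow b' l).trans (Nat.pow_le_pow_right (by norm_num) ?_)
        nlinarith [Nat.zero_le (b' * n)]
      have e2 : 2 ^ n ≤ ex 1 ((b' + 1) * (l + n) + b') := by
        show 2 ^ n ≤ 2 ^ ((b' + 1) * (l + n) + b')
        refine Nat.pow_le_pow_right (by norm_num) ?_
        nlinarith [Nat.zero_le (b' * n), Nat.zero_le (b' * l)]
      omega
    exact (ex_mono k h3).trans ((h1 _).trans (h2 _))
  refine ⟨R, k', b + 1 + c', hR.toRud, hfun, fun n => ?_, fun n => ?_⟩
  · -- distortion ≤ Fm R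
    refine csSup_le' ?_
    rintro l ⟨h, hh, hn, rfl⟩
    have hWS : W S h n := W_mono (W_wordLength (by rw [hS']; trivial)) hn
    have hWT : W T h (wordLength T h) := W_wordLength (by rw [hT']; exact hh)
    obtain ⟨N, hN, hNh⟩ := hcode h n hWS
    obtain ⟨M, hM, hMh⟩ := hcode' h _ hWT
    obtain ⟨L, -, hL⟩ := hex N M (hNh.trans hMh.symm)
    obtain ⟨⟨M', hM'L, hM'⟩, -⟩ := id hL
    have h1 : h = ev φ lt' b' M' := hNh.symm.trans (hev L N M' hM')
    have h2 : W T h M' := by
      rw [h1]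
      exact hdec' M' M' (Nat.lt_pow_self (by omega))
    have h3 : wordLength T h ≤ L := (wordLength_le h2).trans hM'L
    refine h3.trans (le_Fm hfun ?_ hL)
    refine hN.le.trans ((hpow b n).trans (Nat.pow_le_pow_right (by norm_num) ?_))
    nlinarith [Nat.zero_le ((1 + c') * n)]
  · -- Fm R ≤ elementary
    rcases Fm_spec hfun n with h0 | ⟨N, hN, hNL⟩
    · rw [h0]
      exact Nat.zero_le _
    · obtain ⟨⟨M', hM'L, hM'⟩, -⟩ := id hNL
      have h1 : ev φ lt b N = ev φ lt' b' M' := hev _ N M' hM'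
      have hNn : N < b ^ (n + 1) := by
        calc N ≤ 2 ^ n := hN
          _ < 2 ^ (n + 1) := Nat.pow_lt_pow_right (by norm_num) (Nat.lt_succ_self n)
          _ ≤ b ^ (n + 1) := Nat.pow_le_pow_left hb _
      have hWS : W S (ev φ lt b N) (n + 1) := hdec N (n + 1) hNn
      have hH : ev φ lt b N ∈ H := by
        rw [h1]
        exact hmem (hdec' M' M' (Nat.lt_pow_self (by omega)))
      have hl := le_distortion (T := T) hS hS' hH (wordLength_le hWS)
      have hWT : W T (ev φ lt b N) (wordLength T (ev φ lt b N)) :=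
        W_wordLength (by rw [hT']; exact hH)
      obtain ⟨M, hM, hMh⟩ := hcode' _ _ hWT
      obtain ⟨L, hL1, hL2⟩ := hex N M hMh.symm
      have h2 : Fm R n = L := hfun N _ _ hNL hL2
      rw [h2]
      refine hL1.trans ?_
      have h3 : M + N + c ≤ b' ^ (distortion S T H (n + 1)) + 2 ^ n + c := by
        have : M ≤ b' ^ (distortion S T H (n + 1)) :=
          hM.le.trans (Nat.pow_le_pow_right (by omega) hl)
        omega
      refine (ex_mono k h3).trans ((hel n _).trans (ex_mono k' ?_))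
      have h4 : distortion S T H (n + 1) ≤ distortion S T H ((b + 1 + c') * n + (b + 1 + c')) :=
        distortion_mono hS hS' H (by nlinarith [Nat.zero_le ((b + c') * n)])
      omega

end Pool.Agent.DIST3
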