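import Pool.Agent.DIST3.Suff
import Pool.Agent.DIST3.Nec
import Pool.Agent.DIST3.RFd

/-!
# DIST3 module Final: transport along an isomorphism and the final theorem
-/

namespace Pool.Agent.DIST3

open Pool.Agent.helper12.FD Pool.Agent.DIST Pool.Agent.FBC

theorem W_equiv {E E' : Type*} [Group E] [Group E'] (e : E ≃* E') (S : Set E') (g : E) (n : ℕ) :
    W S (e g) n ↔ W (e ⁻¹' S) g n := by
  constructor
  · intro h
    have h1 := W_map e.symm.toMonoidHom h
    have h2 : e.symm.toMonoidHom '' S = e ⁻¹' S := by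
      ext x
      constructor
      · rintro ⟨y, hy, rfl⟩
        show e (e.symm y) ∈ S
        rwa [e.apply_symm_apply]
      · intro hx
        exact ⟨e x, hx, e.symm_apply_apply x⟩
    rw [h2] at h1
    have h3 : e.symm.toMonoidHom (e g) = g := e.symm_apply_apply g
    rwa [h3] at h1
  · intro h
    have h1 := W_map e.toMonoidHom h
    exact W_subset (by rintro _ ⟨x, hx, rfl⟩; exact hx) h1

theorem wordLength_equiv {E E' : Type*} [Group E] [Group E'] (e : E ≃* E') (S : Set E') (g : E) :
    wordLength S (e g) = wordLength (e ⁻¹' S) g := by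
  have h : {n | W S (e g) n} = {n | W (e ⁻¹' S) g n} := Set.ext fun n => W_equiv e S g n
  exact congrArg sInf h

/-- transport along an isomorphism -/
theorem distortion_map {E E' : Type*} [Group E] [Group E'] (e : E ≃* E') (S T : Set E')
    (H : Subgroup E) :
    distortion S T (H.map e.toMonoidHom) = distortion (e ⁻¹' S) (e ⁻¹' T) H := by
  funext n
  unfold distortion
  congr 1
  ext k
  constructor
  · rintro ⟨_, ⟨h, hh, rfl⟩, h1, h2⟩
    refine ⟨h, hh, ?_, ?_⟩
    · rw [← wordLength_equiv]; exact h1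
    · rw [← wordLength_equiv]; exact h2
  · rintro ⟨h, hh, h1, h2⟩
    refine ⟨e h, ⟨h, hh, rfl⟩, ?_, ?_⟩
    · rw [wordLength_equiv]; exact h1
    · rw [wordLength_equiv]; exact h2

theorem closure_preimage {E E' : Type*} [Group E] [Group E'] (e : E ≃* E') (S : Set E') :
    Subgroup.closure (e ⁻¹' S) = (Subgroup.closure S).comap e.toMonoidHom := by
  have h1 : (Subgroup.closure S).comap e.toMonoidHom =
      (Subgroup.closure S).map e.symm.toMonoidHom := by
    ext x
    constructor
    · intro hx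
      exact ⟨e x, hx, e.symm_apply_apply x⟩
    · rintro ⟨y, hy, rfl⟩
      show e (e.symm y) ∈ Subgroup.closure S
      rwa [e.apply_symm_apply]
  rw [h1, MonoidHom.map_closure]
  congr 1
  ext x
  constructor
  · intro hx
    exact ⟨e x, hx, e.symm_apply_apply x⟩
  · rintro ⟨y, hy, rfl⟩
    show e (e.symm y) ∈ S
    rwa [e.apply_symm_apply]

/-- transport of a statement about the distortion functions of some finitely generated subgroup -/
theorem transport {E E' : Type*} [Group E] [Group E'] (e : E ≃* E') {P : (ℕ → ℕ) → Prop}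
    (h : ∃ H : Subgroup E, H.FG ∧ ∀ S T : Set E, S.Finite → Subgroup.closure S = ⊤ → T.Finite →
      Subgroup.closure T = H → P (distortion S T H)) :
    ∃ H : Subgroup E', H.FG ∧ ∀ S T : Set E', S.Finite → Subgroup.closure S = ⊤ → T.Finite →
      Subgroup.closure T = H → P (distortion S T H) := by
  obtain ⟨H, hH, h⟩ := h
  refine ⟨H.map e.toMonoidHom, ?_, fun S T hS hS' hT hT' => ?_⟩
  · obtain ⟨T, hT, hT'⟩ := (Subgroup.fg_iff H).1 hH
    exact (Subgroup.fg_iff _).2 ⟨e.toMonoidHom '' T, by rw [← MonoidHom.map_closure, hT],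
      hT'.image _⟩
  · rw [distortion_map]
    refine h _ _ (hS.preimage e.injective.injOn) ?_ (hT.preimage e.injective.injOn) ?_
    · rw [closure_preimage, hS', Subgroup.comap_top]
    · rw [closure_preimage, hT', Subgroup.comap_map_eq_self_of_injective e.injective]

/-- `F` is (equivalent to) the distortion function of `H` -/
def IsDist {r : ℕ} {φ : MulAut (FreeGroup (Fin r))} (F : ℕ → ℕ)
    (H : Subgroup (FreeByCyclic r φ)) : Prop :=
  H.FG ∧ ∀ S T : Set (FreeByCyclic r φ), S.Finite → Subgroup.closure S = ⊤ → T.Finite →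
    Subgroup.closure T = H → Preceq F (distortion S T H) ∧ Preceq (distortion S T H) F

/-- `G` has a finite generating set -/
theorem exists_gens {r : ℕ} (φ : MulAut (FreeGroup (Fin r))) :
    ∃ S : Set (FreeByCyclic r φ), S.Finite ∧ Subgroup.closure S = ⊤ := by
  refine ⟨insert (SemidirectProduct.inr (Multiplicative.ofAdd 1))
    (Set.range fun i : Fin r => SemidirectProduct.inl (FreeGroup.of i)),
    (Set.finite_range _).insert _, ?_⟩
  rw [eq_top_iff]
  intro g _
  set C : Subgroup (FreeByCyclic r φ) :=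
    Subgroup.closure (insert (SemidirectProduct.inr (Multiplicative.ofAdd 1))
    (Set.range fun i : Fin r => (SemidirectProduct.inl (FreeGroup.of i) : FreeByCyclic r φ)))
  have hl : ∀ w : FreeGroup (Fin r), (SemidirectProduct.inl w : FreeByCyclic r φ) ∈ C := by
    intro w
    induction w using FreeGroup.induction_on with
    | C1 => rw [map_one]; exact one_mem _
    | of i => exact Subgroup.subset_closure (Or.inr ⟨i, rfl⟩)
    | inv_of i ih => rw [map_inv]; exact inv_mem ih
    | mul x y hx hy => rw [map_mul]; exact mul_mem hx hy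
  have hr : ∀ n : Multiplicative ℤ, (SemidirectProduct.inr n : FreeByCyclic r φ) ∈ C := by
    intro n
    have : (SemidirectProduct.inr n : FreeByCyclic r φ) =
        (SemidirectProduct.inr (Multiplicative.ofAdd 1) : FreeByCyclic r φ) ^
          (Multiplicative.toAdd n) := by
      rw [← map_zpow]
      congr 1
      exact (Int.mul_one _).symm
    rw [this]
    exact C.zpow_mem (show (SemidirectProduct.inr (Multiplicative.ofAdd 1) :
      FreeByCyclic r φ) ∈ C from Subgroup.subset_closure (Or.inl rfl)) _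
  have h : (SemidirectProduct.inl g.left * SemidirectProduct.inr g.right : FreeByCyclic r φ) ∈ C :=
    C.mul_mem (hl g.left) (hr g.right)
  rwa [SemidirectProduct.inl_left_mul_inr_right] at h

/-- sufficiency in `K2` -/
theorem hsuff_K2 {R : ℕ → ℕ → Prop} (hR : RF R) : ∃ H : Subgroup K2, H.FG ∧ ∀ S T : Set K2,
    S.Finite → Subgroup.closure S = ⊤ → T.Finite → Subgroup.closure T = H →
      Preceq (Fm R) (distortion S T H) ∧
        ∃ k C : ℕ, ∀ n, distortion S T H n ≤ ex k (Fm R (C * n + C) + n + C) :=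
  suff hR.rud hR.fn

/-- necessity for a class which is closed under exponentiation -/
theorem hnec (F : ℕ → ℕ) (hF : Monotone F) (hF2 : ∃ C, ∀ n, 2 ^ F n ≤ F (C * n + C))
    (r' : ℕ) (φ' : MulAut (FreeGroup (Fin r'))) (H : Subgroup (FreeByCyclic r' φ'))
    (hd : IsDist F H) : ∃ R, RF R ∧ Preceq F (Fm R) ∧ Preceq (Fm R) F := by
  obtain ⟨hH, h⟩ := hd
  obtain ⟨S, hS, hS'⟩ := exists_gens φ'
  obtain ⟨T, hT', hT⟩ := (Subgroup.fg_iff H).1 hH
  obtain ⟨h1, h2⟩ := h S T hS hS' hT hT'
  obtain ⟨R, k, C, hR1, hR2, h3, h4⟩ := nec φ' H hS hS' hT hT'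
  refine ⟨R, ⟨hR1, hR2⟩, equiv_of_el hF hF2 (distortion_mono hS hS' H) (Fm_mono hR2) h1 h2
    ⟨C + 1, by omega, fun n => (h3 n).trans ?_⟩ ⟨k, C, h4⟩⟩
  have h5 : Fm R (C * n + C) ≤ Fm R ((C + 1) * n + (C + 1)) :=
    Fm_mono hR2 (Nat.add_le_add (Nat.mul_le_mul_right _ (by omega)) (by omega))
  have h6 : 1 * Fm R ((C + 1) * n + (C + 1)) ≤ (C + 1) * Fm R ((C + 1) * n + (C + 1)) :=
    Nat.mul_le_mul_right _ (by omega)
  omega

/-- sufficiency for a class which is closed under exponentiation -/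
theorem hback {r : ℕ} {φ : MulAut (FreeGroup (Fin r))} (e : K2 ≃* FreeByCyclic r φ)
    (F : ℕ → ℕ) (hF : Monotone F) (hF2 : ∃ C, ∀ n, 2 ^ F n ≤ F (C * n + C))
    (h : ∃ R, RF R ∧ Preceq F (Fm R) ∧ Preceq (Fm R) F) :
    ∃ H : Subgroup (FreeByCyclic r φ), IsDist F H := by
  obtain ⟨R, hR, h1, h2⟩ := h
  obtain ⟨H, hH, h⟩ := transport e (P := fun d => Preceq (Fm R) d ∧
    ∃ k C : ℕ, ∀ n, d n ≤ ex k (Fm R (C * n + C) + n + C)) (hsuff_K2 hR)
  refine ⟨H, hH, fun S T hS hS' hT hT' => ?_⟩
  obtain ⟨h3, h4⟩ := h S T hS hS' hT hT'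
  exact equiv_of_el hF hF2 (Fm_mono hR.fn) (distortion_mono hS hS' H) h1 h2 h3 h4

end Pool.Agent.DIST3
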