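import Pool.Agent.DIST3.K2

/-!
# DIST3 module H2: the subgroup `H2 = ⟨HH P0, r⁻¹ κ (HH xM) κ⁻¹ r⟩`

Two copies of the same network: base point `P0` in the first copy; `κ = rep xM P0` maps `xM` to
`P0`.
-/

namespace Pool.Agent.DIST3

open Pool.Agent.helper12.FD Pool.Agent.DIST HNNExtension

variable (N : Net) (P0 xM : N.X)

/-- generators of `HH x` -/
noncomputable def ZY (x : N.X) : Set G := insert G.z (N.Y1 x)

/-- conjugation by `κ⁻¹` and `r` -/
noncomputable def cj (g : G) : K2 := rr⁻¹ * of (N.rep xM P0 * g * (N.rep xM P0)⁻¹) * rr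

/-- generators of `H2` -/
noncomputable def TT : Set K2 := ((of : G →* K2) '' (ZY N P0)) ∪ (cj N P0 xM '' (ZY N xM))

/-- the subgroup -/
noncomputable def H2 : Subgroup K2 := Subgroup.closure (TT N P0 xM)

theorem TT_finite : (TT N P0 xM).Finite :=
  (((N.Y1_finite P0).insert G.z).image _).union (((N.Y1_finite xM).insert G.z).image _)

theorem H2_fg : (H2 N P0 xM).FG := by
  rw [Subgroup.fg_iff]
  exact ⟨_, rfl, TT_finite N P0 xM⟩

theorem cj_mul (g h : G) : cj N P0 xM (g * h) = cj N P0 xM g * cj N P0 xM h := by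
  have e : N.rep xM P0 * (g * h) * (N.rep xM P0)⁻¹ =
      (N.rep xM P0 * g * (N.rep xM P0)⁻¹) * (N.rep xM P0 * h * (N.rep xM P0)⁻¹) := by group
  rw [cj, cj, cj, e, map_mul]
  group

namespace H2X

theorem cj_one : cj N P0 xM 1 = 1 := by
  rw [cj, mul_one, mul_inv_cancel, map_one, mul_one, inv_mul_cancel]

theorem cj_inv (g : G) : cj N P0 xM g⁻¹ = (cj N P0 xM g)⁻¹ := by
  rw [eq_inv_iff_mul_eq_one, ← cj_mul, inv_mul_cancel, cj_one]

end H2X

open H2X

/-- elements of `HH x` fix `x` -/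
theorem HH_fix {x : N.X} {g : G} (hg : g ∈ N.HH x) : (N.act g).1 x = x := by
  refine Subgroup.closure_induction (p := fun g _ => (N.act g).1 x = x) ?_ ?_ ?_ ?_ hg
  · intro g hg
    rcases hg with rfl | hg
    · rw [N.act_z]
      rfl
    · exact N.act_Y1_fst x hg
  · rw [map_one]
    rfl
  · intro g h _ _ ihg ihh
    rw [map_mul, Prod.fst_mul, Equiv.Perm.mul_apply, ihh, ihg]
  · intro g _ ihg
    rw [N.act_inv_fst, Equiv.Perm.inv_eq_iff_eq, ihg]

theorem of_mem {g : G} (hg : g ∈ N.HH P0) : of g ∈ H2 N P0 xM := by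
  refine Subgroup.closure_induction (p := fun g _ => (of g : K2) ∈ H2 N P0 xM) ?_ ?_ ?_ ?_ hg
  · intro g hg
    exact Subgroup.subset_closure (Or.inl ⟨g, hg, rfl⟩)
  · rw [map_one]
    exact one_mem _
  · intro g h _ _ ihg ihh
    rw [map_mul]
    exact mul_mem ihg ihh
  · intro g _ ihg
    rw [map_inv]
    exact inv_mem ihg

theorem cj_mem {g : G} (hg : g ∈ N.HH xM) : cj N P0 xM g ∈ H2 N P0 xM := by
  refine Subgroup.closure_induction (p := fun g _ => cj N P0 xM g ∈ H2 N P0 xM) ?_ ?_ ?_ ?_ hg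
  · intro g hg
    exact Subgroup.subset_closure (Or.inr ⟨g, hg, rfl⟩)
  · rw [cj_one]
    exact one_mem _
  · intro g h _ _ ihg ihh
    rw [cj_mul]
    exact mul_mem ihg ihh
  · intro g _ ihg
    rw [cj_inv]
    exact inv_mem ihg

/-- the word `h ∏ (r⁻¹ m r h')` over the list of the pairs `(m, h')` -/
noncomputable def alt (h : G) (l : List (G × G)) : K2 :=
  wp h (l.flatMap (fun x => [(-1, x.1), (1, x.2)]))

namespace H2X

theorem alt_nil (h : G) : alt h [] = of h := wp_nil h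

end H2X

open H2X

theorem alt_cons (h : G) (x : G × G) (l : List (G × G)) :
    alt h (x :: l) = of h * (rr⁻¹ * of x.1 * rr) * alt x.2 l := by
  have e : (x :: l).flatMap (fun x : G × G => [((-1 : ℤˣ), x.1), ((1 : ℤˣ), x.2)]) =
      (-1, x.1) :: (1, x.2) :: l.flatMap (fun x : G × G => [((-1 : ℤˣ), x.1), ((1 : ℤˣ), x.2)]) :=
    rfl
  rw [alt, e, wp_cons, wp_cons]
  have h1 : (((-1 : ℤˣ)) : ℤ) = -1 := rfl
  have h2 : (((1 : ℤˣ)) : ℤ) = 1 := rfl
  simp only [h1, h2, zpow_one, zpow_neg, alt]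
  simp only [mul_assoc]

namespace H2X

theorem of_mul_alt (g h : G) (l : List (G × G)) : of g * alt h l = alt (g * h) l :=
  of_mul_wp g h _

/-- the non-degeneracy of a list -/
def Gd : List (G × G) → Prop
  | [] => True
  | x :: l => x.1 ≠ 1 ∧ (l ≠ [] → x.2 ≠ 1) ∧ Gd l

/-- the entries of the lists -/
def En (x : G × G) : Prop :=
  (N.rep xM P0)⁻¹ * x.1 * N.rep xM P0 ∈ N.HH xM ∧ x.2 ∈ N.HH P0

/-- the normal forms -/
def NF (g : K2) : Prop :=
  ∃ (h : G) (l : List (G × G)), alt h l = g ∧ h ∈ N.HH P0 ∧ (∀ x ∈ l, En N P0 xM x) ∧ Gd l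

theorem NF_one : NF N P0 xM 1 := by
  refine ⟨1, [], ?_, one_mem _, by simp, trivial⟩
  rw [alt_nil, map_one]

theorem NF_of {g : K2} {h0 : G} (h0m : h0 ∈ N.HH P0) (hg : NF N P0 xM g) :
    NF N P0 xM (of h0 * g) := by
  obtain ⟨h, l, rfl, h1, h2, h3⟩ := hg
  exact ⟨h0 * h, l, (of_mul_alt h0 h l).symm, mul_mem h0m h1, h2, h3⟩

theorem NF_cj {g : K2} {m0 : G} (hm0 : m0 ∈ N.HH xM) (hg : NF N P0 xM g) :
    NF N P0 xM (cj N P0 xM m0 * g) := by
  obtain ⟨h, l, rfl, h1, h2, h3⟩ := hg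
  have hm : (N.rep xM P0)⁻¹ * (N.rep xM P0 * m0 * (N.rep xM P0)⁻¹) * N.rep xM P0 ∈ N.HH xM := by
    have e : (N.rep xM P0)⁻¹ * (N.rep xM P0 * m0 * (N.rep xM P0)⁻¹) * N.rep xM P0 = m0 := by
      group
    rw [e]
    exact hm0
  rw [cj]
  generalize N.rep xM P0 * m0 * (N.rep xM P0)⁻¹ = m at hm
  by_cases m1 : m = 1
  · subst m1
    have e : rr⁻¹ * (of (1 : G) : K2) * rr * alt h l = alt h l := by
      rw [map_one, mul_one, inv_mul_cancel, one_mul]
    rw [e]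
    exact ⟨h, l, rfl, h1, h2, h3⟩
  by_cases hh : l = [] ∨ h ≠ 1
  · refine ⟨1, (m, h) :: l, ?_, one_mem _, ?_, ?_⟩
    · rw [alt_cons, map_one, one_mul]
    · intro x hx
      rcases List.mem_cons.1 hx with rfl | hx
      · exact ⟨hm, h1⟩
      · exact h2 x hx
    · refine ⟨m1, fun hl => ?_, h3⟩
      rcases hh with hh | hh
      · exact absurd hh hl
      · exact hh
  · push Not at hh
    obtain ⟨hl, rfl⟩ := hh
    obtain ⟨y, l', rfl⟩ := List.exists_cons_of_ne_nil hl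
    obtain ⟨g1, g2, g3⟩ := h3
    have hy := h2 y List.mem_cons_self
    have h2' : ∀ x ∈ l', En N P0 xM x := fun x hx => h2 x (List.mem_cons_of_mem _ hx)
    have e : rr⁻¹ * (of m : K2) * rr * alt 1 (y :: l') = rr⁻¹ * of (m * y.1) * rr * alt y.2 l' := by
      rw [alt_cons, map_one, one_mul, map_mul]
      group
    rw [e]
    by_cases m2 : m * y.1 = 1
    · rw [m2, map_one, mul_one, inv_mul_cancel, one_mul]
      exact ⟨y.2, l', rfl, hy.2, h2', g3⟩
    · refine ⟨1, (m * y.1, y.2) :: l', ?_, one_mem _, ?_, ?_⟩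
      · rw [alt_cons, map_one, one_mul]
      · intro x hx
        rcases List.mem_cons.1 hx with rfl | hx
        · refine ⟨?_, hy.2⟩
          have e2 : (N.rep xM P0)⁻¹ * (m * y.1) * N.rep xM P0 =
              ((N.rep xM P0)⁻¹ * m * N.rep xM P0) * ((N.rep xM P0)⁻¹ * y.1 * N.rep xM P0) := by
            group
          show (N.rep xM P0)⁻¹ * (m * y.1) * N.rep xM P0 ∈ N.HH xM
          rw [e2]
          exact mul_mem hm hy.1
        · exact h2' x hx
      · exact ⟨m2, g2, g3⟩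

theorem NF_all {g : K2} (hg : g ∈ H2 N P0 xM) : NF N P0 xM g := by
  refine Subgroup.closure_induction_left (p := fun g _ => NF N P0 xM g) (NF_one N P0 xM) ?_ ?_ hg
  · rintro x (⟨y, hy, rfl⟩ | ⟨y, hy, rfl⟩) g _ ih
    · exact NF_of N P0 xM (Subgroup.subset_closure hy) ih
    · exact NF_cj N P0 xM (Subgroup.subset_closure hy) ih
  · rintro x (⟨y, hy, rfl⟩ | ⟨y, hy, rfl⟩) g _ ih
    · rw [← map_inv]
      exact NF_of N P0 xM (inv_mem (Subgroup.subset_closure hy)) ih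
    · rw [← cj_inv]
      exact NF_cj N P0 xM (inv_mem (Subgroup.subset_closure hy)) ih

theorem eq_one_of_s (hS : ∀ k : ℤ, k ≠ 0 → (N.S ^ k) P0 ≠ P0) {m : G}
    (hm : (N.rep xM P0)⁻¹ * m * N.rep xM P0 ∈ N.HH xM)
    (h : m ∈ toSubgroup (Subgroup.zpowers G.t) (Subgroup.zpowers G.s) (-1)) : m = 1 := by
  obtain ⟨k, rfl⟩ := (mem_toSub_neg m).1 h
  have h1 := HH_fix N hm
  rw [map_mul, map_mul, Prod.fst_mul, Prod.fst_mul, Equiv.Perm.mul_apply, Equiv.Perm.mul_apply,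
    N.act_rep_fst, N.act_s_zpow, N.act_inv_fst, Equiv.Perm.inv_eq_iff_eq, N.act_rep_fst] at h1
  by_contra hne
  refine hS k (fun hk => hne ?_) h1
  rw [hk, zpow_zero]

theorem eq_one_of_t {h : G} (hm : h ∈ N.HH P0)
    (h0 : h ∈ toSubgroup (Subgroup.zpowers G.t) (Subgroup.zpowers G.s) 1) : h = 1 := by
  obtain ⟨k, rfl⟩ := (mem_toSub_one h).1 h0
  have h1 := HH_fix N hm
  rw [N.act_t_zpow] at h1
  have h2 := N.cq_T_zpow k P0
  rw [h1] at h2
  have h3 := congrArg Prod.snd h2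
  simp only at h3
  have hk : k = 0 := by linarith
  rw [hk, zpow_zero]

theorem Rd_of_Gd (hS : ∀ k : ℤ, k ≠ 0 → (N.S ^ k) P0 ≠ P0) (l : List (G × G))
    (h1 : ∀ x ∈ l, En N P0 xM x) (h2 : Gd l) :
    Rd (l.flatMap (fun x => [((-1 : ℤˣ), x.1), (1, x.2)])) := by
  induction l with
  | nil => exact List.isChain_nil
  | cons x l ih =>
    have ih' := ih (fun y hy => h1 y (List.mem_cons_of_mem _ hy)) h2.2.2
    have hx := h1 x List.mem_cons_self
    have e : (x :: l).flatMap (fun x : G × G => [((-1 : ℤˣ), x.1), ((1 : ℤˣ), x.2)]) =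
      (-1, x.1) :: (1, x.2) ::
        l.flatMap (fun x : G × G => [((-1 : ℤˣ), x.1), ((1 : ℤˣ), x.2)]) := rfl
    rw [e]
    refine List.isChain_cons_cons.2 ⟨fun h => ?_, ?_⟩
    · exact absurd (eq_one_of_s N P0 xM hS hx.1 h) h2.1
    · cases l with
      | nil => exact List.isChain_singleton _
      | cons y l =>
        refine List.isChain_cons_cons.2 ⟨fun h => ?_, ih'⟩
        exact absurd (eq_one_of_t N P0 hx.2 h) (h2.2.1 (by simp))

end H2X

open H2X

/-- Reduced form of the elements of `H2`: `m` in `κ (HH xM) κ⁻¹ ∖ {1}`, `h` in `HH P0`, and the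
interior `h` are not `1`. By induction on the length of a word in the generators. It is a reduced
word because `S ^ k P0 ≠ P0`, `T ^ k P0 ≠ P0` for `k ≠ 0`. -/
theorem normal_form (hS : ∀ k : ℤ, k ≠ 0 → (N.S ^ k) P0 ≠ P0) {g : K2}
    (hg : g ∈ H2 N P0 xM) :
    ∃ (h : G) (l : List (G × G)), alt h l = g ∧ h ∈ N.HH P0 ∧
      (∀ x ∈ l, (N.rep xM P0)⁻¹ * x.1 * N.rep xM P0 ∈ N.HH xM ∧ x.2 ∈ N.HH P0) ∧
      Rd (l.flatMap (fun x => [((-1 : ℤˣ), x.1), (1, x.2)])) := by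
  obtain ⟨h, l, e, h1, h2, h3⟩ := NF_all N P0 xM hg
  exact ⟨h, l, e, h1, h2, Rd_of_Gd N P0 xM hS l h2 h3⟩

end Pool.Agent.DIST3
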