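import Pool.Agent.DIST3.EvN
import Pool.Agent.DIST3.Expo
import Pool.Agent.DIST3.Fn

/-!
# DIST3 module HTime: halting times of codes

`T N k` := `k` is the least fuel for which `c` halts on `N`: `SR` by `sf_evaln`, `SR.ball`, `SR.eq`,
`SR.ne`; then `expo`. `N < k` by `evaln_bound`.
-/

namespace Pool.Agent.DIST3

open Nat.Partrec (Code)
open Pool.Agent.DIST

/-- the maximal halting time (fuel in the sense of `Nat.Partrec.Code.evaln`) of the code `c` on those
inputs `N ≤ 2 ^ n` on which it halts -/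
noncomputable def HT (c : Code) (n : ℕ) : ℕ :=
  sSup {k | ∃ N ≤ 2 ^ n, IsLeast {k | Code.evaln k c N ≠ none} k}

/-- the halting time, as a relation -/
def HTrel (c : Code) (N k : ℕ) : Prop := IsLeast {k | Code.evaln k c N ≠ none} k

theorem HTrel_fun (c : Code) (N k k' : ℕ) (h : HTrel c N k) (h' : HTrel c N k') : k = k' :=
  h.unique h'

theorem HT_eq_Fm (c : Code) (n : ℕ) : HT c n = Fm (HTrel c) n := rfl

theorem HT_mono (c : Code) : Monotone (HT c) := Fm_mono (HTrel_fun c)

theorem HTrel_iff (c : Code) (N k : ℕ) : HTrel c N k ↔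
    (ov (Code.evaln k c N) ≠ 0 ∧ ∀ k' < k, ov (Code.evaln k' c N) = 0) := by
  have h0 : ∀ k, ov (Code.evaln k c N) = 0 ↔ Code.evaln k c N = none := by
    intro k
    cases Code.evaln k c N with
    | none => exact ⟨fun _ => rfl, fun _ => rfl⟩
    | some x => exact ⟨fun h => absurd h (Nat.succ_ne_zero x), fun h => by cases h⟩
  constructor
  · rintro ⟨h1, h2⟩
    refine ⟨fun h => h1 ((h0 k).1 h), fun k' hk' => ?_⟩
    by_contra h
    exact absurd (h2 (fun h3 => h ((h0 k').2 h3))) (not_le.2 hk')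
  · rintro ⟨h1, h2⟩
    refine ⟨fun h => h1 ((h0 k).2 h), fun k' hk' => ?_⟩
    by_contra h
    exact hk' ((h0 k').1 (h2 k' (not_le.1 h)))

theorem HTrel_sr (c : Code) : SR (fun v : Bool → ℕ => HTrel c (v true) (v false)) := by
  have hf : ∀ {ι : Type} [Fintype ι] (i j : ι), SF (fun v : ι → ℕ => ov (Code.evaln (v i) c (v j))) := by
    intro ι _ i j
    exact SF.comp (sf_evaln c) (g := fun (b : Bool) (v : ι → ℕ) => v (if b then i else j))
      fun b => SF.proj _
  have h1 : SR (fun v : Bool → ℕ => ov (Code.evaln (v false) c (v true)) ≠ 0) :=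
    SR.ne (hf false true) (SF.const 0)
  have h2 : SR (fun w : Option Bool → ℕ => ov (Code.evaln (w none) c (w (some true))) = 0) :=
    SR.eq (hf none (some true)) (SF.const 0)
  have h3 := SR.ball h2 false
  exact (SR.and h1 h3).congr fun v => (HTrel_iff c (v true) (v false)).symm

theorem rf_of_code (c : Code) : ∃ (R : ℕ → ℕ → Prop) (k C : ℕ), RF R ∧ (∀ n, HT c n ≤ Fm R n) ∧
    ∀ n, Fm R n ≤ ex k (HT c n + n + C) := by
  obtain ⟨R, k, C, hR, h1, h2⟩ := expo (HTrel_sr c) (HTrel_fun c)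
  obtain ⟨m, e, hme⟩ := ex_lin_le k 2 C
  refine ⟨R, m, e, hR, fun n => ?_, fun n => ?_⟩
  · rcases Fm_spec (HTrel_fun c) n with h0 | ⟨N, hN, hT⟩
    · rw [HT_eq_Fm, h0]
      exact Nat.zero_le _
    · rw [HT_eq_Fm]
      obtain ⟨L, hL⟩ := h2 N _ hT
      obtain ⟨t, htL, hTt, -⟩ := h1 N L hL
      rw [HTrel_fun c N _ _ hT hTt]
      exact htL.trans (le_Fm hR.fn hN hL)
  · rcases Fm_spec hR.fn n with h0 | ⟨N, hN, hL⟩
    · rw [h0]
      exact Nat.zero_le _
    · obtain ⟨t, -, hTt, hle⟩ := h1 N _ hL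
      have h3 : t ≤ HT c n := le_Fm (HTrel_fun c) hN hTt
      have h4 : N < t := by
        obtain ⟨x, hx⟩ := Option.ne_none_iff_exists'.1 hTt.1
        exact Code.evaln_bound (Option.mem_def.2 hx)
      refine hle.trans ((ex_mono k ?_).trans ((hme (HT c n)).trans (ex_mono m ?_)))
      · omega
      · omega

end Pool.Agent.DIST3
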