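import Pool.Agent.DIST3.SF
import Pool.Agent.DIST3.Beta

/-!
# DIST3 module Iter: iteration

`F^[l] v` is coded by two families of numbers `c j, d j`, `j : ι`, with
`c j % ((i + 1) * d j + 1) = (F^[i] v) j` for `i ≤ l`. The graph of `(l, v) ↦ (F^[l] v) j` is
`∃ c d, (∀ j, β (c j) (d j) 0 = v j) ∧ (∀ i < l, ∀ j, β (c j) (d j) (i + 1) =
F (fun j' => β (c j') (d j') i) j) ∧ y = β (c j) (d j) l`; `SR.exs`, `SR.ball`, `SR.all`,
`SR.eq`, `SF.mod`; bound for the witnesses from `beta_exists` and `hb`.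
-/

namespace Pool.Agent.DIST3

/-- the value of the beta function at three functions -/
theorem SF.beta {α : Type} [Fintype α] {c d n : (α → ℕ) → ℕ} (hc : SF c) (hd : SF d) (hn : SF n) :
    SF (fun u => c u % ((n u + 1) * d u + 1)) :=
  SF.mod hc (SF.add (SF.mul (SF.add hn (SF.const 1)) hd) (SF.const 1))

section

variable {ι : Type} [Fintype ι]

/-- the coding relation; variables: `inl none` the value, `inl (some none)` the number of steps,
`inl (some (some i))` the start, `inr (inl i)`, `inr (inr i)` the codes -/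
def IterRel (F : (ι → ℕ) → ι → ℕ) (j : ι) (u : Option (Option ι) ⊕ (ι ⊕ ι) → ℕ) : Prop :=
  (∀ i : ι, u (Sum.inr (Sum.inl i)) % ((0 + 1) * u (Sum.inr (Sum.inr i)) + 1) =
      u (Sum.inl (some (some i)))) ∧
  (∀ n, n < u (Sum.inl (some none)) → ∀ i : ι,
    u (Sum.inr (Sum.inl i)) % (((n + 1) + 1) * u (Sum.inr (Sum.inr i)) + 1) =
      F (fun i' => u (Sum.inr (Sum.inl i')) % ((n + 1) * u (Sum.inr (Sum.inr i')) + 1)) i) ∧
  u (Sum.inl none) = u (Sum.inr (Sum.inl j)) %
    ((u (Sum.inl (some none)) + 1) * u (Sum.inr (Sum.inr j)) + 1)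

theorem iterRel_sr {F : (ι → ℕ) → ι → ℕ} (hF : ∀ i, SF (fun v => F v i)) (j : ι) :
    SR (IterRel F j) := by
  unfold IterRel
  refine SR.and (SR.all fun i => ?_) (SR.and ?_ ?_)
  · exact SR.eq (SF.beta (SF.proj _) (SF.proj _) (SF.const 0)) (SF.proj _)
  · refine SR.ball (A := fun x : Option (Option (Option ι) ⊕ (ι ⊕ ι)) → ℕ => ∀ i : ι,
      x (some (Sum.inr (Sum.inl i))) % (((x none + 1) + 1) * x (some (Sum.inr (Sum.inr i))) + 1) =
      F (fun i' => x (some (Sum.inr (Sum.inl i'))) % ((x none + 1) * x (some (Sum.inr (Sum.inr i'))) + 1)) i)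
      ?_ (Sum.inl (some none))
    refine SR.all fun i => ?_
    refine SR.eq (SF.beta (SF.proj _) (SF.proj _) (SF.add (SF.proj none) (SF.const 1))) ?_
    exact SF.comp (hF i) (g := fun i' (x : Option (Option (Option ι) ⊕ (ι ⊕ ι)) → ℕ) =>
      x (some (Sum.inr (Sum.inl i'))) % ((x none + 1) * x (some (Sum.inr (Sum.inr i'))) + 1))
      fun i' => SF.beta (SF.proj _) (SF.proj _) (SF.proj none)
  · exact SR.eq (SF.proj _) (SF.beta (SF.proj _) (SF.proj _) (SF.proj _))

omit [Fintype ι] in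
theorem iterRel_sound {F : (ι → ℕ) → ι → ℕ} {j : ι} {w : Option (Option ι) → ℕ} {y : ι ⊕ ι → ℕ}
    (h : IterRel F j (Sum.elim w y)) :
    w none = (F^[w (some none)] (fun i => w (some (some i)))) j := by
  obtain ⟨h0, h1, h2⟩ := h
  simp only [Sum.elim_inl, Sum.elim_inr] at h0 h1 h2
  have key : ∀ n, n ≤ w (some none) → ∀ i, y (Sum.inl i) % ((n + 1) * y (Sum.inr i) + 1) =
      (F^[n] (fun i => w (some (some i)))) i := by
    intro n
    induction n with
    | zero => intro _ i; exact h0 i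
    | succ n ih =>
      intro hn i
      rw [h1 n (by omega) i, Function.iterate_succ_apply']
      congr 1
      funext i'
      exact ih (by omega) i'
  rw [h2]
  exact key _ le_rfl j

/-- bound for all the values up to the time `l` -/
theorem iter_le {F : (ι → ℕ) → ι → ℕ} {k c : ℕ}
    (hb : ∀ l v, ∑ i, (F^[l] v) i ≤ ex k (l + ∑ i, v i + c)) (l n : ℕ) (hn : n ≤ l) (v : ι → ℕ) (i : ι) :
    (F^[n] v) i ≤ ex k (l + ∑ i, v i + c) :=
  (Finset.single_le_sum (f := fun i => (F^[n] v) i) (fun _ _ => Nat.zero_le _) (Finset.mem_univ i)).trans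
    ((hb n v).trans (ex_mono k (by omega)))

end

theorem SF.iter {ι : Type} [Fintype ι] {F : (ι → ℕ) → ι → ℕ} (hF : ∀ i, SF (fun v => F v i))
    (hb : ∃ k c : ℕ, ∀ l v, ∑ i, (F^[l] v) i ≤ ex k (l + ∑ i, v i + c)) (j : ι) :
    SF (fun v : Option ι → ℕ => (F^[v none] (fun i => v (some i))) j) := by
  obtain ⟨k, c, hb⟩ := hb
  obtain ⟨k0, e0, hbeta⟩ := beta_exists
  obtain ⟨m, e, hme⟩ := ex_comp_le k0 k 1 (1 + e0) c
  have hex : ∀ w : Option (Option ι) → ℕ, w none = (F^[w (some none)] (fun i => w (some (some i)))) j →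
      ∃ y : ι ⊕ ι → ℕ, (∀ i, y i ≤ ex m (∑ i, w i + e)) ∧ IterRel F j (Sum.elim w y) := by
    intro w hw
    set l := w (some none) with hl
    set v : ι → ℕ := fun i => w (some (some i)) with hv
    have hcd : ∀ i : ι, ∃ c' d' : ℕ, c' ≤ ex k0 (l + 1 + ex k (l + ∑ i, v i + c) + e0) ∧
        d' ≤ ex k0 (l + 1 + ex k (l + ∑ i, v i + c) + e0) ∧
        ∀ n < l + 1, c' % ((n + 1) * d' + 1) = (F^[n] v) i := fun i =>
      hbeta (l + 1) (ex k (l + ∑ i, v i + c)) (fun n => (F^[n] v) i)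
        (fun n hn => iter_le hb l n (by omega) v i)
    choose C D hC hD hCD using hcd
    have hle : ex k0 (l + 1 + ex k (l + ∑ i, v i + c) + e0) ≤ ex m (∑ i, w i + e) := by
      have h1 := hme (l + ∑ i, v i)
      have h3 : ex k0 (l + 1 + ex k (l + ∑ i, v i + c) + e0) ≤
          ex k0 (1 * ex k (l + ∑ i, v i + c) + (l + ∑ i, v i) + (1 + e0)) := ex_mono k0 (by omega)
      refine h3.trans (h1.trans (ex_mono m ?_))
      rw [Fintype.sum_option, Fintype.sum_option]
      change l + ∑ i, v i + e ≤ w none + (l + ∑ i, v i) + e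
      omega
    refine ⟨Sum.elim C D, ?_, ?_, ?_, ?_⟩
    · rintro (i | i)
      · exact (hC i).trans hle
      · exact (hD i).trans hle
    · intro i
      simp only [Sum.elim_inl, Sum.elim_inr]
      exact hCD i 0 (by omega)
    · intro n hn i
      simp only [Sum.elim_inl, Sum.elim_inr] at hn ⊢
      rw [hCD i (n + 1) (by omega), Function.iterate_succ_apply']
      congr 1
      funext i'
      exact (hCD i' n (by omega)).symm
    · simp only [Sum.elim_inl, Sum.elim_inr]
      rw [hw]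
      exact (hCD j l (by omega)).symm
  refine ⟨?_, k, c, fun v => ?_⟩
  · refine SR.congr (SR.exs (iterRel_sr hF j) ⟨m, e, ?_⟩) fun w => ⟨?_, ?_⟩
    · rintro w ⟨y, hy⟩
      exact hex w (iterRel_sound hy)
    · rintro ⟨y, hy⟩
      exact iterRel_sound hy
    · intro hw
      obtain ⟨y, -, hy⟩ := hex w hw
      exact ⟨y, hy⟩
  · refine (iter_le hb (v none) (v none) le_rfl (fun i => v (some i)) j).trans (ex_mono k ?_)
    rw [Fintype.sum_option]

end Pool.Agent.DIST3
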