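import Pool.Agent.DIST.UpDist
import Pool.Agent.helper12.FD.Fbc

/-!
# DIST3 module K2: the group `K2 = ⟨G, r | r t r⁻¹ = s⟩`

Free-by-cyclic by `fbc_hnn` (`FBC G pG` is witnessed by the identity). Britton's lemma: as
`britton` in `DIST/UpHNN.lean` (`ReducedWord.map_fst_eq_and_of_prod_eq`). `red2`: as `red_gen`
there; a pinch `r t ^ k r⁻¹ = s ^ k` does not increase the cost because `k.natAbs ≤ wlG (t ^ k)`
(apply `pG`) and `wlG (s ^ k) ≤ k.natAbs`.
-/

namespace Pool.Agent.DIST3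

open Pool.Agent.helper12.FD Pool.Agent.DIST HNNExtension

/-- the exponent of `t` -/
def pG : G →* Multiplicative ℤ := SemidirectProduct.rightHom

theorem pG_t : pG G.t = Multiplicative.ofAdd 1 := SemidirectProduct.rightHom_inr _

theorem pG_z : pG G.z = 1 := SemidirectProduct.rightHom_inl _

theorem pG_a : pG G.a = 1 := SemidirectProduct.rightHom_inl _

theorem pG_s : pG G.s = Multiplicative.ofAdd 1 := by
  have h : pG G.w = 1 := SemidirectProduct.rightHom_inl _
  rw [G.s, map_mul, pG_t, h, mul_one]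

theorem exists_phi2 : ∃ φ : Subgroup.zpowers G.t ≃* Subgroup.zpowers G.s, Ph G.t G.s φ :=
  exists_phi pG_t pG_s

/-- the isomorphism `t ↦ s` -/
noncomputable def phi2 : Subgroup.zpowers G.t ≃* Subgroup.zpowers G.s := exists_phi2.choose

theorem phi2_spec : Ph G.t G.s phi2 := exists_phi2.choose_spec

/-- `⟨G, r | r t r⁻¹ = s⟩` -/
abbrev K2 : Type := HNNExtension G (Subgroup.zpowers G.t) (Subgroup.zpowers G.s) phi2

theorem fbc_G : FBC G pG := ⟨4, phi, MulEquiv.refl _, by norm_num, fun _ => rfl⟩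

theorem fbc_K2 : FBC K2 (pe pG pG_t pG_s phi2_spec) := fbc_hnn fbc_G pG_t pG_s phi2_spec

/-- the stable letter -/
noncomputable def rr : K2 := HNNExtension.t

theorem rr_t (j : ℤ) : rr * (of (G.t ^ j) : K2) = of (G.s ^ j) * rr := by
  have h := t_mul_of (φ := phi2) ⟨G.t ^ j, ⟨j, rfl⟩⟩
  rw [phi_zpow phi2_spec j] at h
  exact h

/-- the letters of `G` -/
def SG : Set G := insert G.z Net.S1

/-- the letters of `K2` -/
noncomputable def SK : Set K2 := insert rr ((of : G →* K2) '' SG)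

theorem SG_finite : SG.Finite := by
  unfold SG Net.S1
  exact (Set.toFinite _)

theorem closure_SG : Subgroup.closure SG = (⊤ : Subgroup G) := Net.closure_gen

theorem SK_finite : SK.Finite := (SG_finite.image _).insert _

theorem of_mem_closure_SK (g : G) : (of g : K2) ∈ Subgroup.closure SK := by
  have h : Subgroup.map (of : G →* K2) (Subgroup.closure SG) ≤ Subgroup.closure SK := by
    rw [MonoidHom.map_closure]
    exact Subgroup.closure_mono (Set.subset_insert _ _)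
  rw [closure_SG] at h
  exact h ⟨g, Subgroup.mem_top g, rfl⟩

theorem closure_SK : Subgroup.closure SK = (⊤ : Subgroup K2) := by
  rw [eq_top_iff]
  intro g _
  induction g using HNNExtension.induction_on with
  | of g => exact of_mem_closure_SK g
  | t => exact Subgroup.subset_closure (Or.inl rfl)
  | mul x y hx hy => exact mul_mem (hx (Subgroup.mem_top _)) (hy (Subgroup.mem_top _))
  | inv x hx => exact inv_mem (hx (Subgroup.mem_top _))

/-- the word `g r^(e_1) g_1 … r^(e_n) g_n` -/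
noncomputable def wp (g : G) (l : List (ℤˣ × G)) : K2 :=
  of g * (l.map (fun x => rr ^ ((x.1 : ℤˣ) : ℤ) * (of x.2 : K2))).prod

theorem wp_nil (g : G) : wp g [] = of g := by
  simp [wp]

theorem wp_cons (g : G) (x : ℤˣ × G) (l : List (ℤˣ × G)) :
    wp g (x :: l) = of g * (rr ^ ((x.1 : ℤˣ) : ℤ) * wp x.2 l) := by
  simp only [wp, List.map_cons, List.prod_cons, mul_assoc]

theorem of_mul_wp (g h : G) (l : List (ℤˣ × G)) : of g * wp h l = wp (g * h) l := by
  simp only [wp, map_mul, mul_assoc]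

/-- reduced words: no `r t ^ k r⁻¹`, no `r⁻¹ s ^ k r` -/
def Rd (l : List (ℤˣ × G)) : Prop :=
  l.IsChain (fun a b => a.2 ∈ toSubgroup (Subgroup.zpowers G.t) (Subgroup.zpowers G.s) a.1 →
    a.1 = b.1)

theorem mem_toSub_one (g : G) :
    g ∈ toSubgroup (Subgroup.zpowers G.t) (Subgroup.zpowers G.s) 1 ↔ ∃ k : ℤ, g = G.t ^ k := by
  rw [toSubgroup_one, Subgroup.mem_zpowers_iff]
  exact ⟨fun ⟨k, h⟩ => ⟨k, h.symm⟩, fun ⟨k, h⟩ => ⟨k, h.symm⟩⟩

theorem mem_toSub_neg (g : G) :
    g ∈ toSubgroup (Subgroup.zpowers G.t) (Subgroup.zpowers G.s) (-1) ↔ ∃ k : ℤ, g = G.s ^ k := by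
  rw [toSubgroup_neg_one, Subgroup.mem_zpowers_iff]
  exact ⟨fun ⟨k, h⟩ => ⟨k, h.symm⟩, fun ⟨k, h⟩ => ⟨k, h.symm⟩⟩

/-- a reduced word of Mathlib -/
def rwd (g : G) (l : List (ℤˣ × G)) (hl : Rd l) :
    NormalWord.ReducedWord G (Subgroup.zpowers G.t) (Subgroup.zpowers G.s) where
  head := g
  toList := l
  chain := hl

theorem rwd_prod (g : G) (l : List (ℤˣ × G)) (hl : Rd l) :
    NormalWord.ReducedWord.prod phi2 (rwd g l hl) = wp g l := rfl

theorem britton2 {g h : G} {l m : List (ℤˣ × G)} (hl : Rd l) (hm : Rd m)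
    (e : wp g l = wp h m) :
    l.map Prod.fst = m.map Prod.fst ∧
      (∀ u ∈ (l.head?.map Prod.fst), g⁻¹ * h ∈
        toSubgroup (Subgroup.zpowers G.t) (Subgroup.zpowers G.s) (-u)) ∧ (l = [] → g = h) := by
  have h1 : NormalWord.ReducedWord.prod phi2 (rwd g l hl) =
      NormalWord.ReducedWord.prod phi2 (rwd h m hm) := by
    rw [rwd_prod, rwd_prod, e]
  obtain ⟨h2, h3⟩ := HNNExtension.ReducedWord.map_fst_eq_and_of_prod_eq phi2 h1
  refine ⟨h2, h3, ?_⟩
  rintro rfl
  have h4 : m = [] := by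
    have : m.map Prod.fst = [] := h2.symm
    exact List.map_eq_nil_iff.1 this
  subst h4
  rw [wp_nil, wp_nil] at e
  exact of_injective (φ := phi2) e

/-- word length in `G` -/
noncomputable def wlG (g : G) : ℕ := sInf {n | W SG g n}

theorem W_wlG (g : G) : W SG g (wlG g) := by
  have h : g ∈ Subgroup.closure SG := by rw [closure_SG]; exact Subgroup.mem_top g
  exact Nat.sInf_mem (exists_W h)

theorem wlG_le {g : G} {n : ℕ} (h : W SG g n) : wlG g ≤ n := Nat.sInf_le h

theorem wlG_mul (g h : G) : wlG (g * h) ≤ wlG g + wlG h := wlG_le (W_mul (W_wlG g) (W_wlG h))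

theorem wlG_one : wlG 1 = 0 := Nat.le_zero.1 (wlG_le (W_one 0))

theorem pG_le (g : G) : (Multiplicative.toAdd (pG g)).natAbs ≤ wlG g := by
  have h := W_p (K := 1) (p := pG) (S := SG) (by
    rintro x (rfl | rfl | rfl | rfl)
    · rw [pG_z]; simp
    · rw [pG_t]; simp
    · rw [pG_s]; simp
    · rw [pG_a]; simp) (W_wlG g)
  simpa using h

theorem wlG_t (k : ℤ) : wlG (G.t ^ k) ≤ k.natAbs := by
  have h1 : W SG G.t 1 := W_of_mem (Or.inr (Or.inl rfl))
  have h : W SG (G.t ^ k) (1 * k.natAbs) := W_zpow h1 k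
  rw [one_mul] at h
  exact wlG_le h

theorem wlG_s (k : ℤ) : wlG (G.s ^ k) ≤ k.natAbs := by
  have h1 : W SG G.s 1 := W_of_mem (Or.inr (Or.inr (Or.inl rfl)))
  have h : W SG (G.s ^ k) (1 * k.natAbs) := W_zpow h1 k
  rw [one_mul] at h
  exact wlG_le h

theorem le_wlG_t (k : ℤ) : k.natAbs ≤ wlG (G.t ^ k) := by
  have h := pG_le (G.t ^ k)
  rw [map_zpow, pG_t] at h
  simpa using h

theorem le_wlG_s (k : ℤ) : k.natAbs ≤ wlG (G.s ^ k) := by
  have h := pG_le (G.s ^ k)
  rw [map_zpow, pG_s] at h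
  simpa using h

/-- a pinch -/
theorem pinch (e : ℤˣ) {g : G}
    (hg : g ∈ toSubgroup (Subgroup.zpowers G.t) (Subgroup.zpowers G.s) e) :
    ∃ g' : G, rr ^ ((e : ℤˣ) : ℤ) * (of g : K2) = of g' * rr ^ ((e : ℤˣ) : ℤ) ∧
      wlG g' ≤ wlG g := by
  rcases Int.units_eq_one_or e with rfl | rfl
  · obtain ⟨k, rfl⟩ := (mem_toSub_one g).1 hg
    refine ⟨G.s ^ k, ?_, (wlG_s k).trans (le_wlG_t k)⟩
    simpa using rr_t k
  · obtain ⟨k, rfl⟩ := (mem_toSub_neg g).1 hg
    refine ⟨G.t ^ k, ?_, (wlG_t k).trans (le_wlG_s k)⟩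
    have h := rr_t k
    have h2 : rr⁻¹ * (of (G.s ^ k) : K2) = of (G.t ^ k) * rr⁻¹ := by
      rw [inv_mul_eq_iff_eq_mul, ← mul_assoc, h, mul_assoc, mul_inv_cancel, mul_one]
    simpa using h2

/-- every element has a reduced word which is not longer -/
theorem red2 {g : K2} {n : ℕ} (hg : W SK g n) : ∃ (g0 : G) (l : List (ℤˣ × G)), Rd l ∧
    wp g0 l = g ∧ wlG g0 + (l.map (fun x => wlG x.2 + 1)).sum ≤ n := by
  refine W_induction (P := fun g n => ∃ (g0 : G) (l : List (ℤˣ × G)), Rd l ∧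
    wp g0 l = g ∧ wlG g0 + (l.map (fun x => wlG x.2 + 1)).sum ≤ n) ?_ ?_ ?_ hg
  · exact ⟨1, [], List.isChain_nil, by rw [wp_nil, map_one], by simp [wlG_one]⟩
  · rintro y g n hy ⟨g0, l, h1, h2, h3⟩
    have hy' : (∃ y' : G, y = of y' ∧ W SG y' 1) ∨ ∃ e : ℤˣ, y = rr ^ ((e : ℤˣ) : ℤ) := by
      rcases hy with (hy | ⟨y', hy', rfl⟩) | (hy | ⟨y', hy', hy⟩)
      · exact Or.inr ⟨1, by simp [hy]⟩
      · exact Or.inl ⟨y', rfl, W_of_mem hy'⟩
      · exact Or.inr ⟨-1, by simp [← hy]⟩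
      · refine Or.inl ⟨y'⁻¹, ?_, W_inv (W_of_mem hy')⟩
        rw [map_inv, hy, inv_inv]
    rcases hy' with ⟨y', rfl, hy'⟩ | ⟨e, rfl⟩
    · refine ⟨y' * g0, l, h1, ?_, ?_⟩
      · rw [← of_mul_wp, h2]
      · have := wlG_mul y' g0
        have := wlG_le hy'
        omega
    · by_cases hcase : ∃ (g1 : G) (r : List (ℤˣ × G)), l = (-e, g1) :: r ∧
          g0 ∈ toSubgroup (Subgroup.zpowers G.t) (Subgroup.zpowers G.s) e
      · obtain ⟨g1, r, rfl, hg0⟩ := hcase
        obtain ⟨g', h4, h5⟩ := pinch e hg0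
        refine ⟨g' * g1, r, List.IsChain.tail h1, ?_, ?_⟩
        · have h7 : rr ^ ((e : ℤˣ) : ℤ) * rr ^ (((-e : ℤˣ) : ℤˣ) : ℤ) = 1 := by
            rw [← zpow_add]; simp
          rw [← h2, wp_cons, ← mul_assoc (rr ^ ((e : ℤˣ) : ℤ)), h4, mul_assoc (of g'),
            ← mul_assoc (rr ^ ((e : ℤˣ) : ℤ)), h7, one_mul, of_mul_wp]
        · simp only [List.map_cons, List.sum_cons] at h3
          have := wlG_mul g' g1
          omega
      · refine ⟨1, (e, g0) :: l, ?_, ?_, ?_⟩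
        · rw [Rd, List.isChain_cons]
          refine ⟨?_, h1⟩
          intro b hb hg0
          simp only at hg0 ⊢
          by_contra hne
          apply hcase
          obtain ⟨r, hr⟩ : ∃ r, l = b :: r := by
            cases l with
            | nil => simp at hb
            | cons x r =>
              simp only [List.head?_cons, Option.mem_def, Option.some.injEq] at hb
              exact ⟨r, by rw [hb]⟩
          refine ⟨b.2, r, ?_, hg0⟩
          rw [hr]
          congr 1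
          refine Prod.ext ?_ rfl
          simp only
          rcases Int.units_eq_one_or e with h | h <;> rcases Int.units_eq_one_or b.1 with h' | h' <;>
            rw [h, h'] at hne <;> rw [h, h'] <;> simp at hne ⊢
        · rw [wp_cons, h2, map_one, one_mul]
        · simp only [List.map_cons, List.sum_cons, wlG_one]
          omega
  · rintro g m n hmn ⟨g0, l, h1, h2, h3⟩
    exact ⟨g0, l, h1, h2, h3.trans hmn⟩

end Pool.Agent.DIST3
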