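import Pool.Agent.DIST3.H2

/-!
# DIST3 module L2: the lower bound in `K2`

`Ω₀ = (N.Cn × Bool) ⊕ (N.Cn × Bool)`, `Ω = Ω₀ × ℤ`. `G` acts on the first summand by
`g (x, n, b) = ((act g).1 x, n, b)`, on the second by `lampw xM`, on the last factor `ℤ` by
translation by `pG g`. `β : Ω₀ ≃ Ω₀` extends the injection `inl (T ^ j P0, n, b) ↦
inr (lampw (s ^ j) ((P0, n), b))` (the complements of the domain and of the range are countably
infinite), `r (ω, m) = (s ^ m (β (t ^ (-m) ω)), m)`; then `r t = s r`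
(`HNNExtension.lift`), and `r (inl (T ^ j P0, n, b), m) = (inr (s ^ j ((P0, n), b)), m)` for all `m`.
Start at `(inl (P0, n, false), 0)`: the generators of `HH P0` change only the last coordinate;
`cj y`, `y ∈ Y1 xM`, changes `n` by `wt y xM`, at most `1` (`wt_Y1`), `cj z` changes the boolean iff
`n = 0`. `x` changes the boolean if `n` is the difference of the weights in the statement. Compare
`low_aux_w`, `lowW` in `DIST/UpLow.lean`.
Membership: `x = (v⁻¹ t ^ J) (r⁻¹ (s ^ (-J) c⁻¹ z c s ^ J) r) (t ^ (-J) v)`, `mem_of_fix`,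
`lamp_mem`.
-/

namespace Pool.Agent.DIST3

open Pool.Agent.helper12.FD Pool.Agent.DIST HNNExtension

variable (N : Net) (P0 xM : N.X)

/-- the distorted element -/
noncomputable def xel (v c : G) : K2 :=
  (of v)⁻¹ * rr⁻¹ * (of c)⁻¹ * of G.z * of c * rr * of v

theorem xel_mem {v c : G} (hv : v ∈ G1) (hc : c ∈ G1) (J K : ℤ)
    (hvJ : (N.act v).1 P0 = (N.T ^ J) P0) (hcK : (N.act c).1 ((N.S ^ J) P0) = (N.S ^ K) xM) :
    xel v c ∈ H2 N P0 xM := by
  have h1 : G.t ^ (-J) * v ∈ N.HH P0 := by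
    refine Subgroup.closure_mono (Set.subset_insert _ _) (N.mem_of_fix P0
      (mul_mem (zpow_mem t_mem _) hv) ?_)
    rw [map_mul]
    show (N.act (G.t ^ (-J))).1 ((N.act v).1 P0) = P0
    rw [N.act_t_zpow, hvJ, ← Equiv.Perm.mul_apply, ← zpow_add, neg_add_cancel, zpow_zero]
    rfl
  set c' : G := c * G.s ^ J * N.rep xM P0 with hc'
  have h2 : c'⁻¹ * G.z * c' ∈ N.HH xM := by
    refine N.lamp_mem xM (mul_mem (mul_mem hc (zpow_mem s_mem _)) (N.rep_mem xM P0)) K ?_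
    rw [hc', map_mul, map_mul]
    show (N.act c).1 ((N.act (G.s ^ J)).1 ((N.act (N.rep xM P0)).1 xM)) = (N.S ^ K) xM
    rw [N.act_rep_fst, N.act_s_zpow, hcK]
  have h3 := mul_mem (mul_mem (inv_mem (of_mem N P0 xM h1)) (cj_mem N P0 xM h2))
    (of_mem N P0 xM h1)
  have h4 : xel v c = (of (G.t ^ (-J) * v))⁻¹ * cj N P0 xM (c'⁻¹ * G.z * c') *
      of (G.t ^ (-J) * v) := by
    have e1 : N.rep xM P0 * (c'⁻¹ * G.z * c') * (N.rep xM P0)⁻¹ =
        G.s ^ (-J) * (c⁻¹ * G.z * c) * G.s ^ J := by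
      rw [hc']
      group
    have e2 : rr * (of (G.t ^ (-J)) : K2) = of (G.s ^ (-J)) * rr := rr_t (-J)
    unfold cj
    rw [e1]
    simp only [map_mul, map_inv, mul_inv_rev]
    have e3 : (of (G.t ^ (-J)) : K2)⁻¹ * rr⁻¹ = rr⁻¹ * (of (G.s ^ (-J)))⁻¹ := by
      rw [← mul_inv_rev, ← mul_inv_rev, e2]
    have e4 : (of (G.s ^ (-J)) : K2)⁻¹ * of (G.s ^ (-J)) = 1 := inv_mul_cancel _
    have e5 : (of (G.s ^ J) : K2) * of (G.s ^ (-J)) = 1 := by
      rw [← map_mul, ← zpow_add, add_neg_cancel, zpow_zero, map_one]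
    unfold xel
    calc (of v)⁻¹ * rr⁻¹ * (of c)⁻¹ * of G.z * of c * rr * of v
        = (of v)⁻¹ * (rr⁻¹ * ((of (G.s ^ (-J)))⁻¹ * of (G.s ^ (-J)))) * (of c)⁻¹ * of G.z *
          of c * (of (G.s ^ J) * of (G.s ^ (-J))) * rr * of v := by
          rw [e4, e5, mul_one, mul_one]
      _ = (of v)⁻¹ * ((rr⁻¹ * (of (G.s ^ (-J)))⁻¹) * of (G.s ^ (-J))) * (of c)⁻¹ * of G.z *
          of c * of (G.s ^ J) * (of (G.s ^ (-J)) * rr) * of v := by
          simp only [mul_assoc]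
      _ = (of v)⁻¹ * (((of (G.t ^ (-J)))⁻¹ * rr⁻¹) * of (G.s ^ (-J))) * (of c)⁻¹ * of G.z *
          of c * of (G.s ^ J) * (rr * of (G.t ^ (-J))) * of v := by
          rw [e3, e2]
      _ = _ := by simp only [mul_assoc]
  rw [h4]
  exact h3

/-! ### the action -/

/-- two copies of the points with a counter and a lamp -/
abbrev O0 : Type := (N.Cn × Bool) ⊕ (N.Cn × Bool)

/-- permutations of the points act on points with a counter and a lamp -/
def lx : Equiv.Perm N.X →* Equiv.Perm (N.Cn × Bool) where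
  toFun g := Equiv.prodCongr (Equiv.prodCongr g (Equiv.refl ℤ)) (Equiv.refl Bool)
  map_one' := rfl
  map_mul' _ _ := rfl

/-- the action of `G` on the two copies -/
noncomputable def A0 : G →* Equiv.Perm (O0 N) :=
  (Equiv.Perm.sumCongrHom (N.Cn × Bool) (N.Cn × Bool)).comp
    (((lx N).comp ((MonoidHom.fst _ _).comp N.act)).prod (N.lampw xM))

theorem A0_inl (g : G) (x : N.X) (n : ℤ) (b : Bool) :
    A0 N xM g (Sum.inl ((x, n), b)) = Sum.inl (((N.act g).1 x, n), b) := rfl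

theorem A0_inr (g : G) (u : N.Cn × Bool) : A0 N xM g (Sum.inr u) = Sum.inr (N.lampw xM g u) := rfl

theorem A0_mul (g h : G) (u : O0 N) : A0 N xM (g * h) u = A0 N xM g (A0 N xM h u) := by
  rw [map_mul]; rfl

theorem A0_one (u : O0 N) : A0 N xM 1 u = u := by
  rw [map_one]; rfl

/-- the action of `G` with one more counter -/
noncomputable def A1 : G →* Equiv.Perm (O0 N × ℤ) where
  toFun g := Equiv.prodCongr (A0 N xM g) (Equiv.addRight (Multiplicative.toAdd (pG g)))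
  map_one' := by
    refine Equiv.ext fun u => ?_
    refine Prod.ext ?_ ?_
    · exact A0_one N xM u.1
    · show u.2 + Multiplicative.toAdd (pG 1) = u.2
      rw [map_one]
      simp
  map_mul' g h := by
    refine Equiv.ext fun u => ?_
    refine Prod.ext ?_ ?_
    · exact A0_mul N xM g h u.1
    · show u.2 + Multiplicative.toAdd (pG (g * h)) =
        u.2 + Multiplicative.toAdd (pG h) + Multiplicative.toAdd (pG g)
      rw [map_mul, toAdd_mul]
      ring

theorem A1_apply (g : G) (ω : O0 N) (m : ℤ) :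
    A1 N xM g (ω, m) = (A0 N xM g ω, m + Multiplicative.toAdd (pG g)) := rfl

/-- the action of `r` -/
noncomputable def R1 (β : O0 N ≃ O0 N) : Equiv.Perm (O0 N × ℤ) where
  toFun u := (A0 N xM (G.s ^ u.2) (β (A0 N xM (G.t ^ (-u.2)) u.1)), u.2)
  invFun u := (A0 N xM (G.t ^ u.2) (β.symm (A0 N xM (G.s ^ (-u.2)) u.1)), u.2)
  left_inv u := by
    refine Prod.ext ?_ rfl
    simp only
    rw [← A0_mul, ← zpow_add, neg_add_cancel, zpow_zero, A0_one, Equiv.symm_apply_apply,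
      ← A0_mul, ← zpow_add, add_neg_cancel, zpow_zero, A0_one]
  right_inv u := by
    refine Prod.ext ?_ rfl
    simp only
    rw [← A0_mul, ← zpow_add, neg_add_cancel, zpow_zero, A0_one, Equiv.apply_symm_apply,
      ← A0_mul, ← zpow_add, add_neg_cancel, zpow_zero, A0_one]

theorem R1_apply (β : O0 N ≃ O0 N) (ω : O0 N) (m : ℤ) :
    R1 N xM β (ω, m) = (A0 N xM (G.s ^ m) (β (A0 N xM (G.t ^ (-m)) ω)), m) := rfl

theorem R1_rel (β : O0 N ≃ O0 N) (j : ℤ) :
    R1 N xM β * A1 N xM (G.t ^ j) = A1 N xM (G.s ^ j) * R1 N xM β := by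
  refine Equiv.ext fun u => ?_
  obtain ⟨ω, m⟩ := u
  have ht : Multiplicative.toAdd (pG (G.t ^ j)) = j := by
    rw [map_zpow, pG_t]; simp
  have hs : Multiplicative.toAdd (pG (G.s ^ j)) = j := by
    rw [map_zpow, pG_s]; simp
  rw [Equiv.Perm.mul_apply, Equiv.Perm.mul_apply, A1_apply, R1_apply, R1_apply, A1_apply, ht, hs]
  refine Prod.ext ?_ rfl
  simp only
  rw [← A0_mul, ← A0_mul, ← zpow_add, ← zpow_add, add_comm m j,
    show -(j + m) + j = -m by ring]

/-- the action of `K2` -/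
noncomputable def FK (β : O0 N ≃ O0 N) : K2 →* Equiv.Perm (O0 N × ℤ) :=
  HNNExtension.lift (A1 N xM) (R1 N xM β) (by
    rintro ⟨_, j, rfl⟩
    have h := phi_zpow phi2_spec j
    show R1 N xM β * A1 N xM (G.t ^ j) = A1 N xM (phi2 ⟨G.t ^ j, ⟨j, rfl⟩⟩ : G) * R1 N xM β
    rw [h]
    exact R1_rel N xM β j)

theorem FK_of (β : O0 N ≃ O0 N) (g : G) : FK N xM β (of g) = A1 N xM g := by
  simp [FK]

theorem FK_rr (β : O0 N ≃ O0 N) : FK N xM β rr = R1 N xM β := by
  simp [FK, rr]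

theorem T_zpow_ne (x : N.X) {j k : ℤ} (h : (N.T ^ j) x = (N.T ^ k) x) : j = k := by
  have key : ∀ j : ℤ, (N.T ^ j) x = (x.1, x.2 + N.q x.1 * j) := by
    intro j
    induction j using Int.induction_on with
    | zero => simp
    | succ n ih =>
      rw [zpow_add_one, Equiv.Perm.mul_apply]
      have e : (N.T ^ (n : ℤ)) (N.T x) = N.T ((N.T ^ (n : ℤ)) x) := by
        rw [← Equiv.Perm.mul_apply, ← Equiv.Perm.mul_apply, ← zpow_add_one, ← zpow_one_add,
          add_comm]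
      rw [e, ih, N.T_apply]
      refine Prod.ext rfl ?_
      simp only
      ring
    | pred n ih =>
      rw [zpow_sub_one, Equiv.Perm.mul_apply]
      have e : (N.T ^ (-(n : ℤ))) (N.T⁻¹ x) = N.T⁻¹ ((N.T ^ (-(n : ℤ))) x) := by
        rw [← Equiv.Perm.mul_apply, ← Equiv.Perm.mul_apply, ← zpow_sub_one, ← zpow_neg_one,
          ← zpow_add, sub_eq_add_neg, add_comm]
      rw [e, ih, Equiv.Perm.inv_eq_iff_eq, N.T_apply]
      refine Prod.ext rfl ?_
      simp only
      ring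
  rw [key, key] at h
  have h2 := (Prod.mk.inj h).2
  have hq : (N.q x.1 : ℤ) ≠ 0 := by have := N.hq x.1; omega
  have h3 : (N.q x.1 : ℤ) * j = N.q x.1 * k := by linarith
  exact mul_left_cancel₀ hq h3

theorem exists_beta (hS : ∀ k : ℤ, k ≠ 0 → (N.S ^ k) P0 ≠ P0) :
    ∃ β : O0 N ≃ O0 N, ∀ (j n : ℤ) (b : Bool),
      β (Sum.inl (((N.T ^ j) P0, n), b)) = Sum.inr ((N.sw ^ j) (P0, n), b) := by
  classical
  let i1 : ℤ × ℤ × Bool → O0 N := fun u => Sum.inl (((N.T ^ u.1) P0, u.2.1), u.2.2)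
  let i2 : ℤ × ℤ × Bool → O0 N := fun u => Sum.inr ((N.sw ^ u.1) (P0, u.2.1), u.2.2)
  have h1 : Function.Injective i1 := by
    rintro ⟨j, n, b⟩ ⟨j', n', b'⟩ h
    have h3 := Sum.inl.inj h
    obtain ⟨h4, h5⟩ := Prod.mk.inj h3
    obtain ⟨h6, h7⟩ := Prod.mk.inj h4
    have h8 : j = j' := T_zpow_ne N P0 h6
    simp only at h5 h7
    rw [h8, h7, h5]
  have h2 : Function.Injective i2 := by
    rintro ⟨j, n, b⟩ ⟨j', n', b'⟩ h
    have h3 := Sum.inr.inj h
    obtain ⟨h4, h5⟩ := Prod.mk.inj h3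
    simp only at h4 h5
    have h6 := h4
    rw [N.sw_zpow, N.sw_zpow] at h6
    obtain ⟨h7, -⟩ := Prod.mk.inj h6
    have h8 : (N.S ^ (j' - j)) P0 = P0 := by
      have : (N.S ^ (j' - j)) P0 = (N.S ^ (-j)) ((N.S ^ j') P0) := by
        rw [← Equiv.Perm.mul_apply, ← zpow_add]
        congr 2
        ring
      rw [this, ← h7, ← Equiv.Perm.mul_apply, ← zpow_add, neg_add_cancel, zpow_zero]
      rfl
    have h9 : j' = j := by
      by_contra hne
      exact hS (j' - j) (sub_ne_zero.2 hne) h8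
    subst h9
    have h10 := (N.sw ^ j').injective h4
    have h11 := (Prod.mk.inj h10).2
    rw [h11, h5]
  have inf1 : Infinite ((Set.range i1)ᶜ : Set (O0 N)) := by
    refine Infinite.of_injective (fun k : ℤ => (⟨Sum.inr ((P0, k), false), ?_⟩ :
      ((Set.range i1)ᶜ : Set (O0 N)))) ?_
    · rintro ⟨u, hu⟩
      exact Sum.inl_ne_inr hu
    · intro k k' h
      have := Sum.inr.inj (congrArg Subtype.val h)
      simpa using this
  have inf2 : Infinite ((Set.range i2)ᶜ : Set (O0 N)) := by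
    refine Infinite.of_injective (fun k : ℤ => (⟨Sum.inl ((P0, k), false), ?_⟩ :
      ((Set.range i2)ᶜ : Set (O0 N)))) ?_
    · rintro ⟨u, hu⟩
      exact Sum.inr_ne_inl hu
    · intro k k' h
      have := Sum.inl.inj (congrArg Subtype.val h)
      simpa using this
  let f : Set.range i1 ↪ O0 N := (Equiv.ofInjective i1 h1).symm.toEmbedding.trans ⟨i2, h2⟩
  have hf : Set.range f = Set.range i2 := by
    ext y
    constructor
    · rintro ⟨x, rfl⟩
      exact ⟨(Equiv.ofInjective i1 h1).symm x, rfl⟩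
    · rintro ⟨x, rfl⟩
      refine ⟨Equiv.ofInjective i1 h1 x, ?_⟩
      show i2 ((Equiv.ofInjective i1 h1).symm (Equiv.ofInjective i1 h1 x)) = i2 x
      rw [Equiv.symm_apply_apply]
  obtain ⟨β, hβ⟩ := Cardinal.extend_function f (by
    rw [hf]
    exact nonempty_equiv_of_countable)
  refine ⟨β, fun j n b => ?_⟩
  have h3 := hβ (Equiv.ofInjective i1 h1 (j, n, b))
  have h4 : f (Equiv.ofInjective i1 h1 (j, n, b)) = i2 (j, n, b) := by
    show i2 ((Equiv.ofInjective i1 h1).symm (Equiv.ofInjective i1 h1 (j, n, b))) = _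
    rw [Equiv.symm_apply_apply]
  rw [h4] at h3
  exact h3

section main

variable {β : O0 N ≃ O0 N} (hβ : ∀ (j n : ℤ) (b : Bool),
  β (Sum.inl (((N.T ^ j) P0, n), b)) = Sum.inr ((N.sw ^ j) (P0, n), b))

include hβ in
theorem R1_door (j n m : ℤ) (b : Bool) :
    R1 N xM β (Sum.inl (((N.T ^ j) P0, n), b), m) = (Sum.inr ((N.sw ^ j) (P0, n), b), m) := by
  rw [R1_apply]
  refine Prod.ext ?_ rfl
  simp only
  have e1 : (N.T ^ (-m)) ((N.T ^ j) P0) = (N.T ^ (-m + j)) P0 := by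
    rw [zpow_add]; rfl
  have e2 : (N.sw ^ m) ((N.sw ^ (-m + j)) (P0, n)) = (N.sw ^ j) (P0, n) := by
    rw [← Equiv.Perm.mul_apply, ← zpow_add, add_neg_cancel_left]
  rw [A0_inl, N.act_t_zpow, e1, hβ, A0_inr, N.lampw_G1 xM (zpow_mem s_mem _), N.lw_apply,
    map_zpow, N.actw_s]
  simp only
  rw [e2]

include hβ in
theorem R1_door_inv (j n m : ℤ) (b : Bool) :
    (R1 N xM β)⁻¹ (Sum.inr ((N.sw ^ j) (P0, n), b), m) =
      (Sum.inl (((N.T ^ j) P0, n), b), m) := by
  rw [Equiv.Perm.inv_eq_iff_eq, R1_door N P0 xM hβ]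

theorem lamp_rep (n m : ℤ) (b : Bool) (g : G) (hg : g = N.rep xM P0) :
    A1 N xM g (Sum.inr ((xM, n), b), m) =
      (Sum.inr ((P0, n), b), m + Multiplicative.toAdd (pG g)) := by
  rw [A1_apply, A0_inr, hg, N.lampw_G1 xM (N.rep_mem xM P0), N.lw_apply]
  simp only
  rw [N.actw_eq, N.wt_rep, add_zero, N.act_rep_fst]

/-- the states during the word -/
def Ok (n : ℤ) (L : ℕ) (u : O0 N × ℤ) : Prop :=
  ∃ (k : ℤ) (b : Bool), u.1 = Sum.inl ((P0, k), b) ∧ (k - n).natAbs ≤ L ∧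
    (b = true → n.natAbs ≤ L)

theorem FK_inv_of (β : O0 N ≃ O0 N) (g : G) (u : O0 N × ℤ) :
    FK N xM β (of g)⁻¹ u = A1 N xM g⁻¹ u := by
  rw [← map_inv, FK_of]

include hβ in
theorem cj_act (g : G) (k m : ℤ) (b : Bool) (k' : ℤ) (b' : Bool)
    (h : N.lampw xM g ((xM, k), b) = ((xM, k'), b')) :
    ∃ m' : ℤ, FK N xM β (cj N P0 xM g) (Sum.inl ((P0, k), b), m) =
      (Sum.inl ((P0, k'), b'), m') := by
  have e0 : (Sum.inl ((P0, k), b) : O0 N) = Sum.inl (((N.T ^ (0 : ℤ)) P0, k), b) := by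
    rw [zpow_zero]; rfl
  have e1 : ∀ (k : ℤ) (b : Bool), (Sum.inr ((P0, k), b) : O0 N) =
      Sum.inr ((N.sw ^ (0 : ℤ)) (P0, k), b) := by
    intro k b
    rw [zpow_zero]; rfl
  unfold cj
  rw [map_mul, map_mul, map_inv, FK_rr, FK_of, map_mul, map_mul]
  simp only [Equiv.Perm.mul_apply]
  rw [e0, R1_door N P0 xM hβ, ← e1]
  have e2 : A1 N xM (N.rep xM P0)⁻¹ (Sum.inr ((P0, k), b), m) =
      (Sum.inr ((xM, k), b), m - Multiplicative.toAdd (pG (N.rep xM P0))) := by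
    rw [map_inv, Equiv.Perm.inv_eq_iff_eq, lamp_rep N P0 xM _ _ _ _ rfl, sub_add_cancel]
  have e3 : A1 N xM g (Sum.inr ((xM, k), b), m - Multiplicative.toAdd (pG (N.rep xM P0))) =
      (Sum.inr ((xM, k'), b'), m - Multiplicative.toAdd (pG (N.rep xM P0)) +
        Multiplicative.toAdd (pG g)) := by
    rw [A1_apply, A0_inr, h]
  rw [e2, e3, lamp_rep N P0 xM _ _ _ _ rfl, e1, R1_door_inv N P0 xM hβ]
  exact ⟨_, rfl⟩

include hβ in
theorem low2_aux (hinf : ∀ k : ℤ, k ≠ 0 → (N.S ^ k) xM ≠ xM) (n m : ℤ) {g : K2} {L : ℕ}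
    (hg : W (TT N P0 xM) g L) :
    Ok N P0 n L (FK N xM β g (Sum.inl ((P0, n), false), m)) := by
  classical
  refine W_induction (P := fun g L => Ok N P0 n L
    (FK N xM β g (Sum.inl ((P0, n), false), m))) ?_ ?_ ?_ hg
  · rw [map_one]
    exact ⟨n, false, rfl, by simp, by simp⟩
  · intro y g L hy hP
    rw [map_mul, Equiv.Perm.mul_apply]
    generalize FK N xM β g (Sum.inl ((P0, n), false), m) = st at hP ⊢
    obtain ⟨ω, m'⟩ := st
    obtain ⟨k, b, h1, h2, h3⟩ := hP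
    simp only at h1
    subst h1
    have hsheet1 : ∀ g : G, (N.act g).1 P0 = P0 →
        Ok N P0 n (L + 1) (FK N xM β (of g) (Sum.inl ((P0, k), b), m')) := by
      intro g hg
      rw [FK_of, A1_apply, A0_inl, hg]
      exact ⟨k, b, rfl, by omega, fun h => (h3 h).trans (Nat.le_succ _)⟩
    have hY : ∀ y : G, y ∈ G1 → (N.act y).1 xM = xM → (N.wt y xM).natAbs ≤ 1 →
        Ok N P0 n (L + 1) (FK N xM β (cj N P0 xM y) (Sum.inl ((P0, k), b), m')) := by
      intro y e1 e2 e3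
      have e4 : N.lampw xM y ((xM, k), b) = ((xM, k + N.wt y xM), b) := by
        rw [N.lampw_G1 xM e1, N.lw_apply]
        simp only
        rw [N.actw_eq, e2]
      obtain ⟨m2, hm2⟩ := cj_act N P0 xM hβ y k m' b _ _ e4
      rw [hm2]
      exact ⟨_, _, rfl, by omega, fun h => (h3 h).trans (Nat.le_succ _)⟩
    have hz' : Ok N P0 n (L + 1) (FK N xM β (cj N P0 xM G.z) (Sum.inl ((P0, k), b), m')) := by
      have hz : N.lampw xM G.z ((xM, k), b) = ((xM, k), xor b (decide ((xM, k) ∈ N.orb xM))) := by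
        rw [N.lampw_z, N.zw_apply]
      obtain ⟨m2, hm2⟩ := cj_act N P0 xM hβ G.z k m' b _ _ hz
      rw [hm2]
      refine ⟨_, _, rfl, by omega, fun h => ?_⟩
      by_cases hb : b = true
      · exact (h3 hb).trans (Nat.le_succ _)
      · have hx : (xM, k) ∈ N.orb xM := by simpa [hb] using h
        obtain ⟨i, hi⟩ := hx
        rw [N.sw_zpow] at hi
        obtain ⟨e1, e2⟩ := Prod.mk.inj hi
        have hi0 : i = 0 := by
          by_contra hne
          exact hinf i hne e1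
        subst hi0
        have e3 : N.wt (G.s ^ (0 : ℤ)) xM = 0 := by
          rw [zpow_zero, Net.wt, map_one]; rfl
        rw [e3] at e2
        omega
    have hfix : ∀ y ∈ ZY N P0, (N.act y).1 P0 = P0 := fun y hy =>
      HH_fix N (Subgroup.subset_closure hy)
    rcases hy with (⟨y', hy', rfl⟩ | ⟨y', hy', rfl⟩) | (⟨y', hy', hyy⟩ | ⟨y', hy', hyy⟩)
    · exact hsheet1 y' (hfix y' hy')
    · rcases hy' with rfl | hy'
      · exact hz'
      · exact hY y' (N.Y1_subset xM hy') (N.act_Y1_fst xM hy') (N.wt_Y1 xM hy')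
    · have e1 : y = of y'⁻¹ := by rw [map_inv, hyy, inv_inv]
      rw [e1]
      refine hsheet1 _ ?_
      rw [N.act_inv_fst, Equiv.Perm.inv_eq_iff_eq]
      exact (hfix y' hy').symm
    · have e1 : y = cj N P0 xM y'⁻¹ := by rw [H2X.cj_inv, hyy, inv_inv]
      rw [e1]
      rcases hy' with rfl | hy'
      · -- the inverse of `z`
        have hz : N.lampw xM (G.z)⁻¹ = N.lampw xM G.z := by
          rw [map_inv, N.lampw_z]
          rfl
        have hz2 : N.lampw xM G.z ((xM, k), b) =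
            ((xM, k), xor b (decide ((xM, k) ∈ N.orb xM))) := by
          rw [N.lampw_z, N.zw_apply]
        obtain ⟨m2, hm2⟩ := cj_act N P0 xM hβ G.z k m' b _ _ hz2
        obtain ⟨m3, hm3⟩ := cj_act N P0 xM hβ (G.z)⁻¹ k m' b _ _ (by rw [hz]; exact hz2)
        rw [hm2] at hz'
        rw [hm3]
        exact hz'
      · have e4 : (N.act y'⁻¹).1 xM = xM := by
          rw [N.act_inv_fst, Equiv.Perm.inv_eq_iff_eq]
          exact (N.act_Y1_fst xM hy').symm
        refine hY _ (inv_mem (N.Y1_subset xM hy')) e4 ?_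
        rw [N.wt_inv, e4, Int.natAbs_neg]
        exact N.wt_Y1 xM hy'
  · intro g m k hmk ⟨k', b, h1, h2, h3⟩
    exact ⟨k', b, h1, h2.trans hmk, fun h => (h3 h).trans hmk⟩

end main

theorem lower2 (hinf : ∀ k : ℤ, k ≠ 0 → (N.S ^ k) xM ≠ xM)
    (hS : ∀ k : ℤ, k ≠ 0 → (N.S ^ k) P0 ≠ P0) {v c : G} (hv : v ∈ G1) (hc : c ∈ G1) (J K : ℤ)
    (hvJ : (N.act v).1 P0 = (N.T ^ J) P0) (hcK : (N.act c).1 ((N.S ^ J) P0) = (N.S ^ K) xM)
    {L : ℕ} (hL : W (TT N P0 xM) (xel v c) L) :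
    (N.wt (G.s ^ K) xM - N.wt (G.s ^ J) P0 - N.wt c ((N.S ^ J) P0)).natAbs ≤ L := by
  classical
  obtain ⟨β, hβ⟩ := exists_beta N P0 hS
  set n : ℤ := N.wt (G.s ^ K) xM - N.wt (G.s ^ J) P0 - N.wt c ((N.S ^ J) P0) with hn
  have h := low2_aux N P0 xM hβ hinf n 0 hL
  have hst : FK N xM β (xel v c) (Sum.inl ((P0, n), false), 0) =
      (Sum.inl ((P0, n), true), 0) := by
    -- forward part
    have f1 : ∀ b : Bool, FK N xM β (of c * rr * of v) (Sum.inl ((P0, n), b), 0) =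
        (Sum.inr (((N.S ^ K) xM, N.wt (G.s ^ K) xM), b),
          Multiplicative.toAdd (pG v) + Multiplicative.toAdd (pG c)) := by
      intro b
      rw [map_mul, map_mul, FK_of, FK_of, FK_rr]
      simp only [Equiv.Perm.mul_apply]
      have g1 : A1 N xM v (Sum.inl ((P0, n), b), 0) =
          (Sum.inl (((N.T ^ J) P0, n), b), Multiplicative.toAdd (pG v)) := by
        rw [A1_apply, A0_inl, hvJ, zero_add]
      rw [g1, R1_door N P0 xM hβ, A1_apply, A0_inr, N.lampw_G1 xM hc, N.lw_apply]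
      simp only
      rw [N.sw_zpow, N.actw_eq, hcK]
      refine Prod.ext ?_ rfl
      simp only
      congr 3
      rw [hn]
      ring
    have f2 : FK N xM β (of G.z) (Sum.inr (((N.S ^ K) xM, N.wt (G.s ^ K) xM), false),
          Multiplicative.toAdd (pG v) + Multiplicative.toAdd (pG c)) =
        (Sum.inr (((N.S ^ K) xM, N.wt (G.s ^ K) xM), true),
          Multiplicative.toAdd (pG v) + Multiplicative.toAdd (pG c)) := by
      rw [FK_of, A1_apply, A0_inr, N.lampw_z, N.zw_apply, pG_z]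
      have h1 : ((N.S ^ K) xM, N.wt (G.s ^ K) xM) ∈ N.orb xM := by
        refine ⟨K, ?_⟩
        rw [N.sw_zpow]
        refine Prod.ext rfl ?_
        simp
      simp only
      rw [decide_eq_true h1]
      refine Prod.ext rfl ?_
      simp
    have e : xel v c = (of c * rr * of v)⁻¹ * (of G.z * (of c * rr * of v)) := by
      unfold xel
      simp only [mul_inv_rev, mul_assoc]
    rw [e, map_mul, map_mul, map_inv]
    simp only [Equiv.Perm.mul_apply]
    rw [f1 false, f2, Equiv.Perm.inv_eq_iff_eq, f1 true]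
  rw [hst] at h
  obtain ⟨k, b, h1, -, h3⟩ := h
  have h4 := Sum.inl.inj h1
  have h5 : true = b := (Prod.mk.inj h4).2
  exact h3 h5.symm

end Pool.Agent.DIST3
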