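import Pool.Agent.DIST3.HTime

/-!
# DIST3 module Univ: a largest partial function with rudimentary graph

`universal`: `u` = code of
`fun n => eval (Denumerable.ofNat Code n.unpair.1) n.unpair.2` (`Code.eval_part`, `exists_code`);
`RU` from `expo` for the halting time of `u`. For `RF R`: the partial function
`N ↦ ex m L` (`R N L`) is partial recursive (`Rud` relations are primitive recursive, `Nat.rfind`),
let `e` be the number of a code, then `u` on `Nat.pair e N` halts with value `ex m L`; with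
`SF.bd` for `sf_evaln u` the fuel `k₀` satisfies `ex m L + 1 ≤ ex j (k₀ + Nat.pair e N + c)`,
`Nat.pair e N < k₀`; take `m = j + 2`.
-/

namespace Pool.Agent.DIST3

open Nat.Partrec (Code)
open Pool.Agent.DIST

/-- rudimentary relations are primitive recursive -/
theorem univ_primrecPred {k : ℕ} {Q : (Fin k → ℕ) → Prop} (h : FBC.Rud Q) : PrimrecPred Q := by
  have app : ∀ {k : ℕ} (i : Fin k), Primrec (fun v : Fin k → ℕ => v i) := fun i =>
    Primrec.fin_app.comp Primrec.id (Primrec.const i)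
  induction h with
  | add i j l => exact Primrec.eq.comp (Primrec.nat_add.comp (app i) (app j)) (app l)
  | mul i j l => exact Primrec.eq.comp (Primrec.nat_mul.comp (app i) (app j)) (app l)
  | not _ ih => exact PrimrecPred.not ih
  | and _ _ ih ih' => exact PrimrecPred.and ih ih'
  | @bex k Q i _ ih =>
    have hcons : Primrec (fun p : ℕ × (Fin k → ℕ) => (Fin.cons p.1 p.2 : Fin (k + 1) → ℕ)) := by
      refine Primrec.fin_curry.2 ?_
      have h1 : Primrec₂ (fun (i : Fin (k + 1)) (p : ℕ × (Fin k → ℕ)) =>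
          (Fin.cons p.1 p.2 : Fin (k + 1) → ℕ) i) := by
        refine Primrec.fin_curry₁.2 fun i => ?_
        refine Fin.cases ?_ (fun j => ?_) i
        · exact Primrec.fst
        · exact (app j).comp Primrec.snd
      exact h1.comp Primrec.snd Primrec.fst
    have hR : PrimrecRel (fun (n : ℕ) (v : Fin k → ℕ) => Q (Fin.cons n v)) := ih.comp hcons
    have h2 := (hR.exists_mem_list.comp
      (Primrec.list_range.comp (Primrec.succ.comp (app i))) Primrec.id)
    refine h2.of_eq fun v => ?_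
    simp only [List.mem_range, id, Nat.succ_eq_add_one]
    exact exists_congr fun n => and_congr Nat.lt_succ_iff Iff.rfl

theorem rud_primrec {R : ℕ → ℕ → Prop} (hR : RF R) : PrimrecRel R := by
  have h := univ_primrecPred hR.rud
  have h2 : Primrec (fun p : ℕ × ℕ => (![p.1, p.2] : Fin 2 → ℕ)) := by
    refine Primrec.fin_curry.2 ?_
    have h1 : Primrec₂ (fun (i : Fin 2) (p : ℕ × ℕ) => (![p.1, p.2] : Fin 2 → ℕ) i) := by
      refine Primrec.fin_curry₁.2 fun i => ?_
      fin_cases i
      · exact Primrec.fst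
      · exact Primrec.snd
    exact h1.comp Primrec.snd Primrec.fst
  exact h.comp h2

theorem primrec_ex (k : ℕ) : Primrec (ex k) := by
  induction k with
  | zero => exact Primrec.id
  | succ k ih =>
    have hpow : Primrec (fun n : ℕ => 2 ^ n) := by
      refine (Primrec.nat_rec₁ 1 (f := fun _ x => x * 2) ?_).of_eq fun n => ?_
      · exact Primrec.nat_mul.comp Primrec.snd (Primrec.const 2)
      · induction n with
        | zero => rfl
        | succ n ihn => rw [pow_succ, ← ihn]
    exact hpow.comp ih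

theorem exists_univ : ∃ u : Code, ∀ e N, u.eval (Nat.pair e N) =
    (Denumerable.ofNat Code e).eval N := by
  have h : Partrec (fun n : ℕ => (Denumerable.ofNat Code n.unpair.1).eval n.unpair.2) :=
    Code.eval_part.comp ((Computable.ofNat Code).comp (Computable.fst.comp Computable.unpair))
      (Computable.snd.comp Computable.unpair)
  obtain ⟨u, hu⟩ := Code.exists_code.1 (Partrec.nat_iff.1 h)
  refine ⟨u, fun e N => ?_⟩
  rw [hu]
  simp only [Nat.unpair_pair]

/-- a code for the partial function `N ↦ ex m L`, `R N L` -/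
theorem exists_code_ex {R : ℕ → ℕ → Prop} (hR : RF R) (m : ℕ) :
    ∃ c : Code, ∀ N L, R N L → ex m L ∈ c.eval N := by
  obtain ⟨hd, hp⟩ := rud_primrec hR
  have hc : Computable₂ (fun (N L : ℕ) => @decide (R N L) (hd (N, L))) := by
    exact hp.to_comp
  have hf : Partrec (fun N : ℕ => Nat.rfind (fun L => Part.some
      (@decide (R N L) (hd (N, L))))) := Partrec.rfind hc.partrec₂
  have hg : Partrec (fun N : ℕ => (Nat.rfind (fun L => Part.some
      (@decide (R N L) (hd (N, L))))).map (ex m)) :=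
    hf.map ((primrec_ex m).to_comp.comp Computable.snd).to₂
  obtain ⟨c, hc'⟩ := Code.exists_code.1 (Partrec.nat_iff.1 hg)
  refine ⟨c, fun N L hL => ?_⟩
  rw [hc']
  refine Part.mem_map (ex m) (Nat.mem_rfind.2 ⟨?_, fun {L'} hL' => ?_⟩)
  · simp only [Part.mem_some_iff]
    exact (@decide_eq_true _ (hd (N, L)) hL).symm
  · simp only [Part.mem_some_iff]
    refine (@decide_eq_false _ (hd (N, L')) fun h => ?_).symm
    have := hR.fn N L L' hL h
    omega

theorem univ_le_HT (c : Code) {n N k : ℕ} (hN : N ≤ 2 ^ n)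
    (hk : IsLeast {k | Code.evaln k c N ≠ none} k) : k ≤ HT c n := by
  refine le_csSup ?_ ⟨N, hN, hk⟩
  refine Set.Finite.bddAbove (((Set.finite_Iic (2 ^ n)).image
    (fun N => sInf {k | Code.evaln k c N ≠ none})).subset ?_)
  rintro x ⟨M, hM, hx⟩
  exact ⟨M, hM, hx.csInf_eq⟩

theorem univ_pair_le (e N n : ℕ) (hN : N ≤ 2 ^ n) : Nat.pair e N ≤ 2 ^ (2 * (n + e + 1)) := by
  have h1 : Nat.pair e N < (max e N + 1) ^ 2 := Nat.pair_lt_max_add_one_sq e N
  have h2 : e + 1 ≤ 2 ^ e := Nat.lt_two_pow_self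
  have h3 : max e N + 1 ≤ 2 ^ (n + e + 1) := by
    have h4 : max e N ≤ e + N := by omega
    have h5 : 2 ^ e ≤ 2 ^ (n + e) := Nat.pow_le_pow_right (by norm_num) (by omega)
    have h6 : 2 ^ n ≤ 2 ^ (n + e) := Nat.pow_le_pow_right (by norm_num) (by omega)
    have h7 : 2 ^ (n + e + 1) = 2 ^ (n + e) + 2 ^ (n + e) := by ring
    omega
  calc Nat.pair e N ≤ (max e N + 1) ^ 2 := h1.le
    _ ≤ (2 ^ (n + e + 1)) ^ 2 := Nat.pow_le_pow_left h3 2
    _ = 2 ^ (2 * (n + e + 1)) := by rw [← pow_mul, Nat.mul_comm]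

theorem universal : ∃ RU : ℕ → ℕ → Prop, RF RU ∧ ∀ R, RF R → Preceq (Fm R) (Fm RU) := by
  obtain ⟨u, hu⟩ := exists_univ
  obtain ⟨RU, -, -, hRU, hle, -⟩ := rf_of_code u
  refine ⟨RU, hRU, fun R hR => ?_⟩
  obtain ⟨j, c0, hb⟩ := (sf_evaln u).bd
  obtain ⟨c, hc⟩ := exists_code_ex hR j
  set e := Encodable.encode c with he
  have hec : Denumerable.ofNat Code e = c := Denumerable.ofNat_encode c
  refine ⟨2 * e + 2 + c0, by omega, fun n => ?_⟩
  rcases Fm_spec hR.fn n with h0 | ⟨N, hN, hL⟩
  · rw [h0]; exact Nat.zero_le _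
  set L := Fm R n with hLdef
  have h1 : ex j L ∈ u.eval (Nat.pair e N) := by
    rw [hu, hec]
    exact hc N L hL
  obtain ⟨k1, hk1⟩ := Code.evaln_complete.1 h1
  have hne : {k | Code.evaln k u (Nat.pair e N) ≠ none}.Nonempty :=
    ⟨k1, by
      change Code.evaln k1 u (Nat.pair e N) ≠ none
      rw [Option.mem_def.1 hk1]
      exact Option.some_ne_none _⟩
  set k0 := sInf {k | Code.evaln k u (Nat.pair e N) ≠ none} with hk0
  have hleast : IsLeast {k | Code.evaln k u (Nat.pair e N) ≠ none} k0 :=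
    ⟨Nat.sInf_mem hne, fun x hx => Nat.sInf_le hx⟩
  obtain ⟨x, hx⟩ := Option.ne_none_iff_exists'.1 hleast.1
  have hx' : x ∈ Code.evaln k0 u (Nat.pair e N) := Option.mem_def.2 hx
  have hxe : x = ex j L := Part.mem_unique (Code.evaln_sound hx') h1
  have h2 := hb (fun b => bif b then k0 else Nat.pair e N)
  simp only [Fintype.sum_bool, cond_true, cond_false] at h2
  rw [hx, hxe] at h2
  have h3 : Nat.pair e N < k0 := Code.evaln_bound hx'
  have h4 : ex j L < ex j (2 * k0 + c0) := by
    have h5 : ex j (k0 + Nat.pair e N + c0) ≤ ex j (2 * k0 + c0) := ex_mono j (by omega)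
    have h6 : ov (some (ex j L)) = ex j L + 1 := rfl
    omega
  have h7 : L < 2 * k0 + c0 := by
    by_contra h
    exact absurd (ex_mono j (not_lt.1 h)) (not_le.2 h4)
  have h8 : k0 ≤ Fm RU ((2 * e + 2 + c0) * n + (2 * e + 2 + c0)) := by
    refine le_trans (univ_le_HT u ?_ hleast) (hle _)
    refine le_trans (univ_pair_le e N n hN) (Nat.pow_le_pow_right (by norm_num) ?_)
    have h9 : 2 * n ≤ (2 * e + 2 + c0) * n := Nat.mul_le_mul_right _ (by omega)
    omega
  have h10 : 2 * Fm RU ((2 * e + 2 + c0) * n + (2 * e + 2 + c0)) ≤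
      (2 * e + 2 + c0) * Fm RU ((2 * e + 2 + c0) * n + (2 * e + 2 + c0)) :=
    Nat.mul_le_mul_right _ (by omega)
  omega

end Pool.Agent.DIST3
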