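import Pool.Agent.DIST3.Final
import Pool.Agent.DIST3.Univ

/-!
# DIST3 module Larg: there is a largest distortion function
-/

namespace Pool.Agent.DIST3

open Pool.Agent.DIST Pool.Agent.helper12.FD

theorem largest : ∃ H : Subgroup K2, H.FG ∧ ∀ S T : Set K2, S.Finite → Subgroup.closure S = ⊤ →
    T.Finite → Subgroup.closure T = H →
      ∀ (r : ℕ) (φ : MulAut (FreeGroup (Fin r))) (H' : Subgroup (FreeByCyclic r φ))
        (S' T' : Set (FreeByCyclic r φ)), S'.Finite → Subgroup.closure S' = ⊤ → T'.Finite →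
        Subgroup.closure T' = H' → Preceq (distortion S' T' H') (distortion S T H) := by
  obtain ⟨RU, hRU, hU⟩ := universal
  obtain ⟨H, hH, h⟩ := suff hRU.rud hRU.fn
  refine ⟨H, hH, fun S T hS hS' hT hT' r φ H' S' T' hs hs' ht ht' => ?_⟩
  obtain ⟨h1, -⟩ := h S T hS hS' hT hT'
  obtain ⟨R, k, C, hR1, hR2, h3, -⟩ := nec φ H' hs hs' ht ht'
  have h4 : Preceq (distortion S' T' H') (Fm R) := by
    refine ⟨C + 1, by omega, fun n => (h3 n).trans ?_⟩
    have h5 : Fm R (C * n + C) ≤ Fm R ((C + 1) * n + (C + 1)) :=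
      Fm_mono hR2 (Nat.add_le_add (Nat.mul_le_mul_right _ (by omega)) (by omega))
    have h6 : 1 * Fm R ((C + 1) * n + (C + 1)) ≤ (C + 1) * Fm R ((C + 1) * n + (C + 1)) :=
      Nat.mul_le_mul_right _ (by omega)
    omega
  exact preceq_trans (distortion_mono hS hS' H) (preceq_trans (Fm_mono hRU.fn) h4
    (hU R ⟨hR1, hR2⟩)) h1

end Pool.Agent.DIST3
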