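import Pool.Agent.DIST3.Suff

/-!
# DIST3 module Lift: `G` is isometrically embedded in `K2`
-/

namespace Pool.Agent.DIST3

open Pool.Agent.helper12.FD Pool.Agent.DIST HNNExtension

/-- `G` is isometrically embedded in `K2` -/
theorem W_of_iff (h : G) (n : ℕ) : W SK (of h : K2) n ↔ W SG h n := by
  constructor
  · intro hw
    obtain ⟨g0, l, hl, h1, h2⟩ := red2 hw
    have h3 := britton2 hl (m := []) (h := h) List.isChain_nil (by rw [h1, wp_nil])
    have h4 : l = [] := by simpa using h3.1
    have h5 : g0 = h := h3.2.2 h4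
    subst h4
    subst h5
    refine W_mono (W_wlG g0) ?_
    simpa using h2
  · intro hw
    exact W_subset (Set.subset_insert _ _) (W_map of hw)

theorem W_map_iff {E E' : Type*} [Group E] [Group E'] (f : E →* E') (hf : Function.Injective f)
    (T : Set E) (g : E) (n : ℕ) : W (f '' T) (f g) n ↔ W T g n := by
  constructor
  · rintro ⟨l, h1, h2, h3⟩
    have key : ∀ l : List E', (∀ x ∈ l, x ∈ f '' T ∨ x⁻¹ ∈ f '' T) →
        ∃ l' : List E, l'.length = l.length ∧ (∀ x ∈ l', x ∈ T ∨ x⁻¹ ∈ T) ∧
          f l'.prod = l.prod := by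
      intro l
      induction l with
      | nil => intro _; exact ⟨[], rfl, by simp, by simp⟩
      | cons x l ih =>
        intro hx
        obtain ⟨l', k1, k2, k3⟩ := ih (fun y hy => hx y (List.mem_cons_of_mem _ hy))
        have hx' := hx x (List.mem_cons_self ..)
        obtain ⟨y, hy, hyx⟩ : ∃ y : E, (y ∈ T ∨ y⁻¹ ∈ T) ∧ f y = x := by
          rcases hx' with ⟨y, hy, rfl⟩ | ⟨y, hy, hyx⟩
          · exact ⟨y, Or.inl hy, rfl⟩
          · exact ⟨y⁻¹, Or.inr (by simpa using hy), by rw [map_inv, hyx, inv_inv]⟩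
        refine ⟨y :: l', by simp [k1], ?_, ?_⟩
        · intro z hz
          rcases List.mem_cons.1 hz with rfl | hz
          · exact hy
          · exact k2 z hz
        · rw [List.prod_cons, List.prod_cons, map_mul, k3, hyx]
    obtain ⟨l', k1, k2, k3⟩ := key l h2
    exact ⟨l', by omega, k2, hf (by rw [k3, h3])⟩
  · exact W_map f

/-- change of the generating sets -/
theorem dist_equiv {E : Type*} [Group E] {S T S₀ T₀ : Set E} {H : Subgroup E} (hS : S.Finite)
    (hS' : Subgroup.closure S = ⊤) (hT : T.Finite) (hT' : Subgroup.closure T = H)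
    (hS₀ : S₀.Finite) (hS₀' : Subgroup.closure S₀ = ⊤) (hT₀ : T₀.Finite)
    (hT₀' : Subgroup.closure T₀ = H) : Preceq (distortion S₀ T₀ H) (distortion S T H) := by
  obtain ⟨C, hC1, hC, -⟩ := dist_change hS hS' hT hT' hS₀ hS₀' hT₀ hT₀'
  refine ⟨C, hC1, fun n => ?_⟩
  have hmono := distortion_mono (T := T) hS hS' H
  have key : distortion S₀ T₀ H n ≤ C * distortion S T H (C * n) := by
    refine csSup_le' ?_
    rintro k ⟨h, h1, h2, rfl⟩
    refine hC h n _ h1 (W_mono (W_wordLength (by rw [hS₀']; trivial)) h2) fun L hL => ?_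
    exact wordLength_le hL
  have h2 : C * distortion S T H (C * n) ≤ C * distortion S T H (C * n + C) :=
    Nat.mul_le_mul_left _ (hmono (by omega))
  omega

/-- distortion functions of subgroups of `G` are distortion functions of subgroups of `K2` -/
theorem lift_dist {F : ℕ → ℕ} (hF : Monotone F) {H : Subgroup G} (hH : H.FG)
    (h : ∀ S T : Set G, S.Finite → Subgroup.closure S = ⊤ → T.Finite → Subgroup.closure T = H →
      Preceq F (distortion S T H) ∧ Preceq (distortion S T H) F) :
    (H.map (of : G →* K2)).FG ∧ ∀ S T : Set K2, S.Finite → Subgroup.closure S = ⊤ → T.Finite →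
      Subgroup.closure T = H.map (of : G →* K2) →
      Preceq F (distortion S T (H.map of)) ∧ Preceq (distortion S T (H.map of)) F := by
  obtain ⟨T₀, hT₀', hT₀⟩ := (Subgroup.fg_iff H).1 hH
  have hof : Function.Injective (of : G →* K2) := HNNExtension.of_injective _
  have hT1 : Subgroup.closure ((of : G →* K2) '' T₀) = H.map of := by
    rw [← MonoidHom.map_closure, hT₀']
  have hSG : SG.Finite := Net.gens_finite
  have hSG' : Subgroup.closure SG = ⊤ := closure_SG
  have e1 : ∀ g : G, wordLength SK (of g : K2) = wordLength SG g := by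
    intro g
    have : {n | W SK (of g : K2) n} = {n | W SG g n} := Set.ext fun n => W_of_iff g n
    exact congrArg sInf this
  have e2 : ∀ g : G, wordLength ((of : G →* K2) '' T₀) (of g) = wordLength T₀ g := by
    intro g
    have : {n | W ((of : G →* K2) '' T₀) (of g) n} = {n | W T₀ g n} :=
      Set.ext fun n => W_map_iff of hof T₀ g n
    exact congrArg sInf this
  have e3 : distortion SK ((of : G →* K2) '' T₀) (H.map of) = distortion SG T₀ H := by
    funext n
    unfold distortion
    congr 1
    ext k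
    constructor
    · rintro ⟨_, ⟨g, hg, rfl⟩, h1, h2⟩
      exact ⟨g, hg, by rw [← e1]; exact h1, by rw [← e2]; exact h2⟩
    · rintro ⟨g, hg, h1, h2⟩
      exact ⟨of g, ⟨g, hg, rfl⟩, by rw [e1]; exact h1, by rw [e2]; exact h2⟩
  obtain ⟨h1, h2⟩ := h SG T₀ hSG hSG' hT₀ hT₀'
  rw [← e3] at h1 h2
  refine ⟨(Subgroup.fg_iff _).2 ⟨_, hT1, hT₀.image _⟩, fun S T hS hS' hT hT' => ⟨?_, ?_⟩⟩
  · exact preceq_trans (distortion_mono hS hS' _) h1
      (dist_equiv hS hS' hT hT' SK_finite closure_SK (hT₀.image _) hT1)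
  · exact preceq_trans hF (dist_equiv SK_finite closure_SK (hT₀.image _) hT1 hS hS' hT hT') h2

end Pool.Agent.DIST3
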