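import Pool.Agent.DIST3.L2
import Pool.Agent.DIST.Spec

/-!
# DIST3 module M2L (low2): from machines to subgroups of `K2`

`net_of_total`, `run_pow` (DIST/Spec.lean). `xM = (ε v0, 1)`, `P0 = (ε u, 1)`; `S ^ i P0 = (ε u, 3 ^ i)`,
`S ^ (-(i + 1)) P0 = (ε w, 2 ^ i)` (field `ld` of `Mach`), `T ^ j P0 = (ε u, 1 + 3 j)`.
`low2`: `J = nu L + 1`, `v` from `short` (base point `P0`, `w0 = mS`), `c = a ^ i` (`exists_move`: from
`(ε u, 3 ^ (nu L + 1))`, `cq = ((u, 0), 3 ^ nu L)`, to `(ε j, 3 ^ nu L)`); `wt (a ^ i) = 0`;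
`wt (s ^ K) xM ≤ - 2 ^ L` (`wt_s_pow`; the orbit is nonnegative; the visit of `(mS, 2 ^ L)`),
`wt (s ^ J) P0 ≥ - 3 ^ J`. So `2 ^ L ≤ m + 3 ^ (nu L + 1)`.
`upp2`: `upper2` with `hE1`, `hE2` from the formulas above (`2 ^ (|k| - 1) ≤ sz (S ^ k P0) ≤
2 * 3 ^ |k|`), `hK` and `hM` from `Net.upper`; the cost of the orbit of `P0` is at most
`C * Q ^ 2` when `sz (S ^ k P0) ≤ Q`, the cost of the orbit of `xM` as `hcost` in
`machine_two_sided` (DIST/Spec.lean).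
-/

namespace Pool.Agent.DIST3

open Pool.Agent.helper12.FD Pool.Agent.DIST Pool.Agent.FBC

namespace M2LX

/-- no periodicity from positive powers -/
theorem zpow_ne_of_pos {X : Type*} (S : Equiv.Perm X) (x : X)
    (key : ∀ l : ℕ, 0 < l → (S ^ l) x ≠ x) (k : ℤ) (hk : k ≠ 0) : (S ^ k) x ≠ x := by
  intro h
  obtain ⟨l, rfl | rfl⟩ := k.eq_nat_or_neg
  · exact key l (by omega) (by rw [← zpow_natCast]; exact h)
  · refine key l (by omega) ?_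
    rw [zpow_neg, Equiv.Perm.inv_eq_iff_eq] at h
    rw [← zpow_natCast]
    exact h.symm

/-- no periodicity from positive powers of the inverse -/
theorem zpow_ne_of_neg {X : Type*} (S : Equiv.Perm X) (x : X)
    (key : ∀ l : ℕ, 0 < l → (S⁻¹ ^ l) x ≠ x) (k : ℤ) (hk : k ≠ 0) : (S ^ k) x ≠ x := by
  have h := zpow_ne_of_pos S⁻¹ x key (-k) (by omega)
  rwa [inv_zpow, zpow_neg, inv_inv] at h

end M2LX

theorem low2 {V : Type} [Finite V] {M : RM V} (htot : M.Total) {v0 u j mS : V}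
    {Dm : ℕ → Prop} {nu lo Y : ℕ → ℕ} (hm : Mach M v0 u j mS Dm nu lo Y)
    {N : Net} {ε : V ≃ Fin N.m} (hp : ∀ v, N.p (ε v) = M.p v) (hq : ∀ v, N.q (ε v) = M.q v)
    (hst : ∀ a b : V × ℤ, M.Step a b → N.S (ε a.1, a.2) = (ε b.1, b.2)) :
    ∃ C : ℕ, ∀ L, Dm L → ∃ x ∈ H2 N (ε u, 1) (ε v0, 1),
      W SK x (C * Nat.log 2 (nu L + 1) + C) ∧
      ∀ m, W (TT N (ε u, 1) (ε v0, 1)) x m → 2 ^ L ≤ m + 3 ^ (nu L + 1) := by
  classical
  have hrun : ∀ {n : ℕ} {b : V × ℤ}, M.Run n (v0, 1) b → (N.S ^ n) (ε v0, 1) = (ε b.1, b.2) :=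
    fun h => run_pow (a := (v0, 1)) hst h
  -- the backward orbit of `xM`
  have hback1 : ∀ l : ℕ, N.S (ε v0, 2 ^ (l + 1)) = (ε v0, 2 ^ l) := by
    intro l
    refine hst (v0, 2 ^ (l + 1)) (v0, 2 ^ l) ⟨2 ^ l, 0, 0, hm.e0, ?_, ?_⟩
    · rw [hm.p0, pow_succ]; push_cast; ring
    · rw [hm.q0]; simp
  have hback : ∀ l : ℕ, (N.S⁻¹ ^ l) (ε v0, 1) = (ε v0, 2 ^ l) := by
    intro l
    induction l with
    | zero => simp
    | succ l ih =>
      rw [pow_succ', Equiv.Perm.mul_apply, ih, Equiv.Perm.inv_eq_iff_eq, hback1]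
  have hinf : ∀ k : ℤ, k ≠ 0 → (N.S ^ k) (ε v0, 1) ≠ (ε v0, 1) := by
    refine M2LX.zpow_ne_of_neg N.S (ε v0, 1) ?_
    intro l hl h
    rw [hback l] at h
    have h1 : (2 : ℤ) ^ l = 1 := (Prod.mk.inj h).2
    have h2 : (1 : ℤ) < 2 ^ l := one_lt_pow₀ (by norm_num) (by omega)
    omega
  -- the forward orbit of `P0`
  have hfor1 : ∀ l : ℕ, N.S (ε u, 3 ^ l) = (ε u, 3 ^ (l + 1)) := by
    intro l
    refine hst (u, 3 ^ l) (u, 3 ^ (l + 1)) ⟨3 ^ l, 0, 0, hm.eu, ?_, ?_⟩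
    · rw [hm.pu]; simp
    · rw [hm.qu, pow_succ]; push_cast; ring
  have hfor : ∀ l : ℕ, (N.S ^ l) (ε u, 1) = (ε u, 3 ^ l) := by
    intro l
    induction l with
    | zero => simp
    | succ l ih => rw [pow_succ', Equiv.Perm.mul_apply, ih, hfor1]
  have hS : ∀ k : ℤ, k ≠ 0 → (N.S ^ k) (ε u, 1) ≠ (ε u, 1) := by
    refine M2LX.zpow_ne_of_pos N.S (ε u, 1) ?_
    intro l hl h
    rw [hfor l] at h
    have h1 : (3 : ℤ) ^ l = 1 := (Prod.mk.inj h).2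
    have h2 : (1 : ℤ) < 3 ^ l := one_lt_pow₀ (by norm_num) (by omega)
    omega
  -- control
  have hpos : ∀ i : ℕ, 0 ≤ ((N.S ^ i) (ε v0, 1)).2 := by
    intro i
    obtain ⟨b, n, -, -, h3⟩ := hm.ctl i
    obtain ⟨b', h4, h5, -⟩ := h3 i le_rfl
    rw [hrun h4]
    show (0 : ℤ) ≤ b'.2
    omega
  have hkap : ∀ x : N.X, 0 ≤ x.2 → 0 ≤ N.kap x := by
    intro x hx
    have h1 : (0 : ℤ) < N.p x.1 := by have := N.hp x.1; omega
    exact Int.ediv_nonneg hx h1.le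
  have hTP : ∀ k : ℕ, (N.T ^ (k : ℤ)) (ε u, 1) = (ε u, 1 + 3 * (k : ℤ)) := by
    intro k
    induction k with
    | zero => simp
    | succ k ih =>
      rw [Nat.cast_succ, add_comm (k : ℤ) 1, zpow_add, zpow_one, Equiv.Perm.mul_apply, ih,
        N.T_apply]
      refine Prod.ext rfl ?_
      show 1 + 3 * (k : ℤ) + (N.q (ε u) : ℤ) = 1 + 3 * (1 + (k : ℤ))
      rw [hq, hm.qu]
      push_cast
      ring
  obtain ⟨C1, hC1⟩ := N.short (ε u, 1) (ε mS) (by rw [hp, hm.pm]) (by rw [hq, hm.qm])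
  obtain ⟨M1, hM1⟩ := N.exists_move
  refine ⟨2 * C1 * 5 + 2 * M1 + 3 + 2 * C1, fun L hL => ?_⟩
  set J : ℕ := nu L + 1 with hJ
  set lg : ℕ := Nat.log 2 (nu L + 1) with hlg
  -- the element `v`
  have hszT : N.sz (ε u, 1 + 3 * (J : ℤ)) ≤ 2 ^ (lg + 4) := by
    have h1 : nu L + 1 < 2 ^ (lg + 1) := Nat.lt_pow_succ_log_self (by norm_num) _
    have h2 : N.sz (ε u, 1 + 3 * (J : ℤ)) = 3 * J + 2 := by
      unfold Net.sz
      simp only
      omega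
    rw [h2]
    have h3 : 2 ^ (lg + 4) = 8 * 2 ^ (lg + 1) := by ring
    omega
  obtain ⟨v, hv1, hv2⟩ := hC1 (lg + 4) _ hszT
  have hv : v ∈ G1 := W_mem_closure hv1
  -- the element `c`
  obtain ⟨i1, i2, hr1, hr2⟩ := hm.hit L hL
  have e1 := hrun hr1
  have e2 : (N.S ^ (i2 + i1)) (ε v0, 1) = (ε j, 3 ^ (nu L)) := by
    rw [pow_add, Equiv.Perm.mul_apply, e1]
    exact run_pow (a := (mS, 2 ^ L)) hst hr2
  have hi2 : 0 < i2 := by
    rcases Nat.eq_zero_or_pos i2 with rfl | h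
    · exfalso
      have h2' := run_zero hr2 rfl
      have h2'' : mS = j := (Prod.mk.inj h2').1
      have := hm.qm
      rw [h2''] at this
      rw [hm.qj] at this
      omega
    · exact h
  have hj0 : 0 < N.q (ε j) := N.hq _
  have hu0 : 0 < N.q (ε u) := N.hq _
  obtain ⟨i, hi, hi'⟩ := hM1 (ε u, 3 ^ (nu L + 1)) ⟨ε j, ⟨0, hj0⟩⟩
  have hcqu : (N.cq (ε u, 3 ^ (nu L + 1))).2 = 3 ^ (nu L) := by
    have h := coord_apply N.q N.hq (ε u) ⟨0, hu0⟩ (3 ^ (nu L))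
    have h3 : (N.q (ε u) : ℤ) * 3 ^ (nu L) + (((⟨0, hu0⟩ : Fin (N.q (ε u))) : ℕ) : ℤ) =
        3 ^ (nu L + 1) := by
      have h9 : (N.q (ε u) : ℤ) = 3 := by rw [hq, hm.qu]; rfl
      rw [h9, pow_succ]
      simp only [Nat.cast_zero]
      ring
    rw [h3] at h
    show (coord N.q N.hq _).2 = _
    rw [h]
  have hcqj : N.cq (ε j, 3 ^ (nu L)) = (⟨ε j, ⟨0, hj0⟩⟩, 3 ^ (nu L)) := by
    have h := coord_apply N.q N.hq (ε j) ⟨0, hj0⟩ (3 ^ (nu L))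
    have h3 : (N.q (ε j) : ℤ) * 3 ^ (nu L) + (((⟨0, hj0⟩ : Fin (N.q (ε j))) : ℕ) : ℤ) =
        3 ^ (nu L) := by
      have h9 : (N.q (ε j) : ℤ) = 1 := by rw [hq, hm.qj]; rfl
      rw [h9]
      simp only [Nat.cast_zero]
      ring
    rw [h3] at h
    exact h
  have hA : (N.A ^ i) (ε u, 3 ^ (nu L + 1)) = (ε j, 3 ^ (nu L)) := by
    apply N.cq_inj
    rw [hi', hcqu, hcqj]
  have hc : G.a ^ i ∈ G1 := pow_mem a_mem i
  have hSJ : (N.S ^ (J : ℤ)) (ε u, 1) = (ε u, 3 ^ (nu L + 1)) := by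
    rw [zpow_natCast, hfor]
  have hvJ : (N.act v).1 (ε u, 1) = (N.T ^ (J : ℤ)) (ε u, 1) := by
    rw [hv2, hTP]
  have hcK : (N.act (G.a ^ i)).1 ((N.S ^ (J : ℤ)) (ε u, 1)) =
      (N.S ^ ((i2 + i1 : ℕ) : ℤ)) (ε v0, 1) := by
    rw [hSJ, Net.act_a_pow, hA, zpow_natCast, e2]
  refine ⟨xel v (G.a ^ i), xel_mem N _ _ hv hc (J : ℤ) _ hvJ hcK, ?_, fun m hmW => ?_⟩
  · -- the length
    have hG : ∀ {g : G} {n : ℕ}, W SG g n → W SK (HNNExtension.of g : K2) n := fun h =>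
      W_subset (Set.subset_insert _ _) (W_map (HNNExtension.of : G →* K2) h)
    have hS1 : ∀ {g : G} {n : ℕ}, W Net.S1 g n → W SG g n := fun h =>
      W_subset (Set.subset_insert _ _) h
    have w1 : W SK (HNNExtension.of v : K2) (C1 * (lg + 4 + 1)) := hG (hS1 hv1)
    have w2 : W SK (HNNExtension.of (G.a ^ i) : K2) (1 * i) := hG (hS1 (W_pow Net.W_S1_a i))
    have w3 : W SK (HNNExtension.of G.z : K2) 1 := hG (W_of_mem (Set.mem_insert _ _))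
    have w4 : W SK rr 1 := W_of_mem (Set.mem_insert _ _)
    have w5 := W_mul (W_mul (W_mul (W_mul (W_mul (W_mul (W_inv w1) (W_inv w4)) (W_inv w2)) w3)
      w2) w4) w1
    refine W_mono w5 ?_
    have k1 : (2 * C1 * 5 + 2 * M1 + 3 + 2 * C1) * lg =
      (2 * C1 * 5 + 2 * M1 + 3) * lg + 2 * (C1 * lg) := by ring
    have k2 : C1 * (lg + 4 + 1) = C1 * lg + C1 * 5 := by ring
    rw [k1, k2]
    omega
  · have h := lower2 N (ε u, 1) (ε v0, 1) hinf hS hv hc (J : ℤ) _ hvJ hcK hmW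
    -- the weight of `c`
    have hwc : N.wt (G.a ^ i) ((N.S ^ (J : ℤ)) (ε u, 1)) = 0 := by
      have ha : G.a ∈ N.Wz := fun y => N.wt_a y
      exact (pow_mem ha i : G.a ^ i ∈ N.Wz) _
    -- the weight of the loader orbit
    have hkapu : ∀ l : ℕ, N.kap ((N.S ^ l) (ε u, 1)) = 3 ^ l := by
      intro l
      rw [hfor l]
      have hpu0 : 0 < N.p (ε u) := N.hp _
      have h4 := coord_apply N.p N.hp (ε u) ⟨0, hpu0⟩ (3 ^ l)
      have h3 : (N.p (ε u) : ℤ) * 3 ^ l + (((⟨0, hpu0⟩ : Fin (N.p (ε u))) : ℕ) : ℤ) =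
          3 ^ l := by
        have h9 : (N.p (ε u) : ℤ) = 1 := by rw [hp, hm.pu]; rfl
        rw [h9]
        simp only [Nat.cast_zero]
        ring
      rw [h3] at h4
      show (coord N.p N.hp _).2 = _
      rw [h4]
    have hwJ : -(3 : ℤ) ^ (nu L + 1) ≤ N.wt (G.s ^ (J : ℤ)) (ε u, 1) := by
      rw [N.wt_s_pow]
      have h5 : ∀ n : ℕ, ∑ l ∈ Finset.range n, N.kap ((N.S ^ l) (ε u, 1)) ≤ 3 ^ n := by
        intro n
        induction n with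
        | zero => simp
        | succ n ih =>
          rw [Finset.sum_range_succ, hkapu]
          have h6 : (0 : ℤ) ≤ 3 ^ n := by positivity
          rw [pow_succ]
          linarith
      have := h5 J
      rw [hJ] at this ⊢
      linarith
    -- the weight of the machine
    have hwK : N.wt (G.s ^ ((i2 + i1 : ℕ) : ℤ)) (ε v0, 1) ≤ -(2 : ℤ) ^ L := by
      rw [N.wt_s_pow]
      have h5 : N.kap ((N.S ^ i1) (ε v0, 1)) ≤
          ∑ l ∈ Finset.range (i2 + i1), N.kap ((N.S ^ l) (ε v0, 1)) :=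
        Finset.single_le_sum (f := fun l => N.kap ((N.S ^ l) (ε v0, 1)))
          (fun l _ => hkap _ (hpos l)) (Finset.mem_range.2 (by omega))
      have h6 : N.kap ((N.S ^ i1) (ε v0, 1)) = 2 ^ L := by
        rw [e1]
        have hpm0 : 0 < N.p (ε mS) := N.hp _
        have h4 := coord_apply N.p N.hp (ε mS) ⟨0, hpm0⟩ (2 ^ L)
        have h3 : (N.p (ε mS) : ℤ) * 2 ^ L + (((⟨0, hpm0⟩ : Fin (N.p (ε mS))) : ℕ) : ℤ) =
            2 ^ L := by
          have h9 : (N.p (ε mS) : ℤ) = 1 := by rw [hp, hm.pm]; rfl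
          rw [h9]
          simp only [Nat.cast_zero]
          ring
        rw [h3] at h4
        show (coord N.p N.hp _).2 = _
        rw [h4]
      rw [h6] at h5
      linarith
    rw [hwc] at h
    have h7 : (2 : ℤ) ^ L ≤ m + 3 ^ (nu L + 1) := by
      omega
    exact_mod_cast h7

end Pool.Agent.DIST3
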