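import Pool.Agent.DIST3.U2
import Pool.Agent.DIST.Spec

/-!
# DIST3 module M2U (upp2): from machines to subgroups of `K2`

`net_of_total`, `run_pow` (DIST/Spec.lean). `xM = (ε v0, 1)`, `P0 = (ε u, 1)`; `S ^ i P0 = (ε u, 3 ^ i)`,
`S ^ (-(i + 1)) P0 = (ε w, 2 ^ i)` (field `ld` of `Mach`), `T ^ j P0 = (ε u, 1 + 3 j)`.
`upp2`: `upper2` with `hE1`, `hE2` from the formulas above (`2 ^ (|k| - 1) ≤ sz (S ^ k P0) ≤
2 * 3 ^ |k|`), `hK` and `hM` from `Net.upper`; the cost of the orbit of `P0` is at most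
`4 * Q` when `sz (S ^ k P0) ≤ Q`, the cost of the orbit of `xM` as `hcost` in
`machine_two_sided` (DIST/Spec.lean).
-/

namespace Pool.Agent.DIST3

open Pool.Agent.helper12.FD Pool.Agent.DIST Pool.Agent.FBC

/-! ## arithmetic -/

theorem m2u_pow_lin (E c : ℕ) (hE : 2 ≤ E) : (c + 1) * E ≤ E ^ (c + 1) := by
  induction c with
  | zero => simp
  | succ c ih =>
    rw [pow_succ]
    calc (c + 1 + 1) * E ≤ (2 * (c + 1)) * E := Nat.mul_le_mul_right _ (by omega)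
      _ = ((c + 1) * E) * 2 := by ring
      _ ≤ E ^ (c + 1) * E := Nat.mul_le_mul ih hE

theorem m2u_arith1 (D c a b : ℕ) (hD : 1 ≤ D) (h : 3 * a ≤ D ^ c * (3 * b + 2)) :
    a + 1 ≤ (D + 3) ^ (c + 1) * (b + 1) := by
  have h1 : D ^ c ≤ (D + 3) ^ c := Nat.pow_le_pow_left (by omega) _
  have h2 : 1 ≤ (D + 3) ^ c := Nat.one_le_pow _ _ (by omega)
  have h3 : 3 * a ≤ (D + 3) ^ c * (3 * b + 2) := h.trans (Nat.mul_le_mul_right _ h1)
  have h4 : a ≤ (D + 3) ^ c * (b + 1) := by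
    have : (D + 3) ^ c * (3 * b + 2) ≤ 3 * ((D + 3) ^ c * (b + 1)) := by
      nlinarith
    omega
  have h5 : (D + 3) ^ c * (b + 1) + 1 ≤ (D + 3) ^ (c + 1) * (b + 1) := by
    rw [pow_succ]
    have h6 : 1 ≤ (D + 3) ^ c * (b + 1) := Nat.one_le_iff_ne_zero.2 (by positivity)
    nlinarith
  omega

theorem m2u_arith2 (D c a b : ℕ) (hD : 1 ≤ D) (h : 2 ^ a ≤ D ^ c * (2 * 3 ^ b)) :
    a + 2 ≤ (D + 3) ^ (c + 1) * (b + 1) := by
  have h1 : D ^ c ≤ 2 ^ (D * c) := by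
    rw [pow_mul]
    exact Nat.pow_le_pow_left Nat.lt_two_pow_self.le _
  have h2 : 2 * 3 ^ b ≤ 2 ^ (1 + 2 * b) := by
    rw [pow_add, pow_mul, pow_one]
    exact Nat.mul_le_mul_left _ (Nat.pow_le_pow_left (by norm_num) _)
  have h3 : 2 ^ a ≤ 2 ^ (D * c + (1 + 2 * b)) := by
    rw [pow_add]
    exact h.trans (Nat.mul_le_mul h1 h2)
  have h4 : a ≤ D * c + (1 + 2 * b) := (Nat.pow_le_pow_iff_right (by norm_num)).1 h3
  have h5 := m2u_pow_lin (D + 3) c (by omega)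
  have h6 : D * c + 3 ≤ (D + 3) ^ (c + 1) := by
    refine le_trans ?_ h5
    nlinarith
  have h7 : 2 ≤ (D + 3) ^ (c + 1) := by omega
  have h8 : 2 * b ≤ (D + 3) ^ (c + 1) * b := Nat.mul_le_mul_right _ h7
  rw [mul_add, mul_one]
  omega

theorem T_zpow_apply (N : Net) (k : ℤ) (x : N.X) : (N.T ^ k) x = (x.1, x.2 + N.q x.1 * k) := by
  induction k using Int.induction_on generalizing x with
  | zero => simp
  | succ n ih =>
    rw [zpow_add, zpow_one, Equiv.Perm.mul_apply, ih, Net.T_apply]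
    refine Prod.ext rfl ?_
    simp only
    ring
  | pred n ih =>
    rw [zpow_sub, zpow_one, Equiv.Perm.mul_apply, ih]
    show (x.1, x.2 - N.q x.1 + N.q x.1 * (-(n : ℤ))) = _
    refine Prod.ext rfl ?_
    simp only
    ring

/-! ## the orbit of the loader -/

section loader

variable {V : Type} {M : RM V} {v0 u j mS : V} {Dm : ℕ → Prop} {nu lo Y : ℕ → ℕ}
  (hm : Mach M v0 u j mS Dm nu lo Y) {N : Net} {ε : V ≃ Fin N.m}
  (hst : ∀ a b : V × ℤ, M.Step a b → N.S (ε a.1, a.2) = (ε b.1, b.2))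

include hm hst

theorem ld_fwd (i : ℕ) : (N.S ^ i) (ε u, 1) = (ε u, 3 ^ i) := by
  induction i with
  | zero => simp
  | succ i ih =>
    rw [pow_succ', Equiv.Perm.mul_apply, ih]
    refine hst (u, 3 ^ i) (u, 3 ^ (i + 1)) ⟨3 ^ i, 0, 0, hm.eu, ?_, ?_⟩
    · rw [hm.pu]; push_cast; ring
    · rw [hm.qu, pow_succ]; push_cast; ring

theorem ld_bwd : ∃ w : V, ∀ i : ℕ, (N.S⁻¹ ^ (i + 1)) (ε u, 1) = (ε w, 2 ^ i) := by
  obtain ⟨w, κ, h1, h2, h3, h4, -⟩ := hm.ld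
  refine ⟨w, fun i => ?_⟩
  induction i with
  | zero =>
    rw [zero_add, pow_one, Equiv.Perm.inv_eq_iff_eq]
    refine (hst (w, 1) (u, 1) ⟨0, 1, 1, h4, ?_, ?_⟩).symm
    · rw [h1]; simp
    · simp
  | succ i ih =>
    rw [pow_succ', Equiv.Perm.mul_apply, ih, Equiv.Perm.inv_eq_iff_eq]
    refine (hst (w, 2 ^ (i + 1)) (w, 2 ^ i) ⟨2 ^ i, 0, 0, h3, ?_, ?_⟩).symm
    · rw [h1, pow_succ]; push_cast; ring
    · rw [h2]; simp

theorem ld_sz (k : ℤ) : 2 ^ (k.natAbs - 1) + 1 ≤ N.sz ((N.S ^ k) (ε u, 1)) ∧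
    N.sz ((N.S ^ k) (ε u, 1)) ≤ 3 ^ k.natAbs + 1 := by
  obtain ⟨l, rfl | rfl⟩ := k.eq_nat_or_neg
  · rw [zpow_natCast, ld_fwd hm hst, Int.natAbs_natCast]
    have h : N.sz ((ε u, 3 ^ l) : N.X) = 3 ^ l + 1 := by
      show ((3 : ℤ) ^ l).natAbs + 1 = _
      rw [Int.natAbs_pow]
      rfl
    rw [h]
    refine ⟨?_, le_rfl⟩
    have h1 : 2 ^ (l - 1) ≤ 3 ^ (l - 1) := Nat.pow_le_pow_left (by norm_num) _
    have h2 : 3 ^ (l - 1) ≤ 3 ^ l := Nat.pow_le_pow_right (by norm_num) (by omega)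
    omega
  · rcases Nat.eq_zero_or_pos l with rfl | hl
    · simp [Net.sz]
    · obtain ⟨i, rfl⟩ : ∃ i, l = i + 1 := ⟨l - 1, by omega⟩
      obtain ⟨w, hw⟩ := ld_bwd hm hst
      rw [zpow_neg, zpow_natCast, ← inv_pow, hw, Int.natAbs_neg, Int.natAbs_natCast]
      have h : N.sz ((ε w, 2 ^ i) : N.X) = 2 ^ i + 1 := by
        show ((2 : ℤ) ^ i).natAbs + 1 = _
        rw [Int.natAbs_pow]
        rfl
      rw [h]
      refine ⟨by simp, ?_⟩
      have h1 : 2 ^ i ≤ 3 ^ i := Nat.pow_le_pow_left (by norm_num) _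
      have h2 : 3 ^ i ≤ 3 ^ (i + 1) := Nat.pow_le_pow_right (by norm_num) (by omega)
      omega

theorem ld_inf (k : ℤ) (hk : k ≠ 0) : (N.S ^ k) (ε u, 1) ≠ (ε u, 1) := by
  have key : ∀ l : ℕ, 0 < l → (N.S ^ l) (ε u, 1) ≠ (ε u, 1) := by
    intro l hl h
    rw [ld_fwd hm hst l] at h
    have h1 : (3 : ℤ) ^ l = 1 := (Prod.mk.inj h).2
    have h2 : (1 : ℤ) < 3 ^ l := one_lt_pow₀ (by norm_num) (by omega)
    omega
  intro h
  obtain ⟨l, rfl | rfl⟩ := k.eq_nat_or_neg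
  · refine key l (by omega) ?_
    rw [← zpow_natCast]
    exact h
  · refine key l (by omega) ?_
    rw [zpow_neg, Equiv.Perm.inv_eq_iff_eq, zpow_natCast] at h
    exact h.symm

theorem ld_cost (Q : ℕ) (K : ℤ) (hK : N.sz ((N.S ^ K) (ε u, 1)) ≤ Q) :
    N.cost (ε u, 1) K ≤ 4 * Q := by
  rcases le_or_gt 0 K with h0 | h0
  · obtain ⟨i, rfl⟩ := Int.eq_ofNat_of_zero_le h0
    unfold Net.cost
    rw [if_pos (by omega), Int.natAbs_natCast]
    have h4 : ∀ l : ℕ, ∑ i ∈ Finset.range l, N.sz ((N.S ^ i) (ε u, 1)) ≤ 2 * 3 ^ l := by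
      intro l
      induction l with
      | zero => simp
      | succ l ih =>
        rw [Finset.sum_range_succ]
        have h5 : N.sz ((N.S ^ l) (ε u, 1)) = 3 ^ l + 1 := by
          rw [ld_fwd hm hst]
          show ((3 : ℤ) ^ l).natAbs + 1 = _
          rw [Int.natAbs_pow]
          rfl
        rw [h5, pow_succ 3 l]
        have h6 : 1 ≤ 3 ^ l := Nat.one_le_pow _ _ (by norm_num)
        omega
    refine (h4 i).trans ?_
    rw [zpow_natCast, ld_fwd hm hst] at hK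
    have h7 : N.sz ((ε u, 3 ^ i) : N.X) = 3 ^ i + 1 := by
      show ((3 : ℤ) ^ i).natAbs + 1 = _
      rw [Int.natAbs_pow]
      rfl
    rw [h7] at hK
    omega
  · obtain ⟨i, hi⟩ : ∃ i : ℕ, K = -((i + 1 : ℕ) : ℤ) := ⟨K.natAbs - 1, by omega⟩
    subst hi
    obtain ⟨w, hw⟩ := ld_bwd hm hst
    unfold Net.cost
    rw [if_neg (by omega), Int.natAbs_neg, Int.natAbs_natCast]
    have h4 : ∀ l : ℕ, ∑ i ∈ Finset.range l, N.sz ((N.S⁻¹ ^ (i + 1)) (ε u, 1)) + 1 ≤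
        2 * 2 ^ l := by
      intro l
      induction l with
      | zero => simp
      | succ l ih =>
        rw [Finset.sum_range_succ]
        have h5 : N.sz ((N.S⁻¹ ^ (l + 1)) (ε u, 1)) = 2 ^ l + 1 := by
          rw [hw]
          show ((2 : ℤ) ^ l).natAbs + 1 = _
          rw [Int.natAbs_pow]
          rfl
        rw [h5, pow_succ 2 l]
        have h6 : 1 ≤ 2 ^ l := Nat.one_le_pow _ _ (by norm_num)
        omega
    have h7 := h4 (i + 1)
    rw [zpow_neg, zpow_natCast, ← inv_pow, hw] at hK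
    have h8 : N.sz ((ε w, 2 ^ i) : N.X) = 2 ^ i + 1 := by
      show ((2 : ℤ) ^ i).natAbs + 1 = _
      rw [Int.natAbs_pow]
      rfl
    rw [h8] at hK
    rw [pow_succ] at h7
    omega

end loader

/-! ## the orbit of the machine -/

theorem ma_cost {V : Type} {M : RM V} {v0 u j mS : V}
    {Dm : ℕ → Prop} {nu lo Y : ℕ → ℕ} (hm : Mach M v0 u j mS Dm nu lo Y)
    {N : Net} {ε : V ≃ Fin N.m}
    (hst : ∀ a b : V × ℤ, M.Step a b → N.S (ε a.1, a.2) = (ε b.1, b.2))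
    (D : ℕ) (hD : ∀ N, Y N ≤ D ^ (N + 1)) (g : ℕ → ℕ)
    (hgN : ∀ N n, lo N ≤ n → N ≤ g n) (r : ℕ) (K : ℤ)
    (hK : N.sz ((N.S ^ K) (ε v0, 1)) ≤ 2 ^ r) :
    N.cost (ε v0, 1) K ≤ 2 ^ (r + 2) + N.m * (D ^ (g (r + 1) + 1) + 1) ^ 2 := by
  classical
  set x0 : N.X := (ε v0, 1) with hx0
  have hrun : ∀ {n : ℕ} {b : V × ℤ}, M.Run n (v0, 1) b → (N.S ^ n) x0 = (ε b.1, b.2) :=
    fun h => run_pow (a := (v0, 1)) hst h
  -- the backward orbit
  have hback1 : ∀ l : ℕ, N.S (ε v0, 2 ^ (l + 1)) = (ε v0, 2 ^ l) := by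
    intro l
    refine hst (v0, 2 ^ (l + 1)) (v0, 2 ^ l) ⟨2 ^ l, 0, 0, hm.e0, ?_, ?_⟩
    · rw [hm.p0, pow_succ]; push_cast; ring
    · rw [hm.q0]; simp
  have hback : ∀ l : ℕ, (N.S⁻¹ ^ l) x0 = (ε v0, 2 ^ l) := by
    intro l
    induction l with
    | zero => simp [x0]
    | succ l ih =>
      rw [pow_succ', Equiv.Perm.mul_apply, ih, Equiv.Perm.inv_eq_iff_eq, hback1]
  have hinf : ∀ k : ℤ, k ≠ 0 → (N.S ^ k) x0 ≠ x0 := by
    have key : ∀ l : ℕ, 0 < l → (N.S⁻¹ ^ l) x0 ≠ x0 := by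
      intro l hl h
      rw [hback l] at h
      have h1 : (2 : ℤ) ^ l = 1 := (Prod.mk.inj h).2
      have h2 : (1 : ℤ) < 2 ^ l := one_lt_pow₀ (by norm_num) (by omega)
      omega
    intro k hk h
    obtain ⟨l, rfl | rfl⟩ := k.eq_nat_or_neg
    · refine key l (by omega) ?_
      rw [inv_pow, Equiv.Perm.inv_eq_iff_eq, ← zpow_natCast]
      exact h.symm
    · refine key l (by omega) ?_
      rw [inv_pow, ← zpow_natCast, ← zpow_neg]
      exact h
  have hinj : Function.Injective fun i : ℕ => (N.S ^ i) x0 := by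
    intro i i' h
    by_contra hne
    have h1 : (N.S ^ ((i : ℤ) - i')) x0 = x0 := by
      rw [sub_eq_neg_add, zpow_add, Equiv.Perm.mul_apply, zpow_natCast, zpow_neg,
        Equiv.Perm.inv_eq_iff_eq, zpow_natCast]
      exact h
    exact hinf _ (by omega) h1
  obtain ⟨m, hmdef⟩ : ∃ m, m = N.m := ⟨_, rfl⟩
  rw [← hmdef]
  rcases le_or_gt 0 K with h0 | h0
  · obtain ⟨i, rfl⟩ := Int.eq_ofNat_of_zero_le h0
    refine le_trans ?_ (Nat.le_add_left _ _)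
    obtain ⟨b, n, h1, h2, h3⟩ := hm.ctl i
    have h4 := hrun h1
    rw [zpow_natCast, h4] at hK
    have hb1 : 1 ≤ b.2 := by
      obtain ⟨b', h5, h6, -⟩ := h3 i le_rfl
      have h7 := (hrun h5).symm.trans h4
      have h8 : b'.2 = b.2 := (Prod.mk.inj h7).2
      omega
    have h5 : lo n ≤ r + 1 := by
      have h6 : (b.2.natAbs + 1) ≤ 2 ^ r := hK
      have h7 : (2 : ℤ) ^ (lo n) ≤ 2 ^ (r + 1) := by
        have h8 : (b.2 : ℤ) + 1 ≤ 2 ^ r := by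
          have : ((b.2.natAbs + 1 : ℕ) : ℤ) ≤ ((2 ^ r : ℕ) : ℤ) := by exact_mod_cast h6
          push_cast at this
          rw [abs_of_pos (by omega)] at this
          exact this
        rw [pow_succ]
        omega
      have h9 : 2 ^ (lo n) ≤ 2 ^ (r + 1) := by exact_mod_cast h7
      exact (Nat.pow_le_pow_iff_right (by norm_num)).1 h9
    have h6 : n ≤ g (r + 1) := hgN n _ h5
    have h7 : ∀ i' ≤ i, 1 ≤ ((N.S ^ i') x0).2 ∧ ((N.S ^ i') x0).2 ≤ (Y n : ℤ) := by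
      intro i' hi'
      obtain ⟨b', h8, h9, h10⟩ := h3 i' hi'
      rw [hrun h8]
      exact ⟨h9, h10⟩
    -- the number of steps
    have h8 : i + 1 ≤ m * Y n := by
      have hcard : ((Finset.range (i + 1)).image (fun i' => (N.S ^ i') x0)).card = i + 1 := by
        rw [Finset.card_image_of_injective _ hinj, Finset.card_range]
      rw [← hcard]
      have hsub : (Finset.range (i + 1)).image (fun i' => (N.S ^ i') x0) ⊆
          (Finset.univ : Finset (Fin N.m)) ×ˢ (Finset.Icc (1 : ℤ) (Y n)) := by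
        intro y hy
        obtain ⟨i', hi', rfl⟩ := Finset.mem_image.1 hy
        have := h7 i' (by have := Finset.mem_range.1 hi'; omega)
        exact Finset.mem_product.2 ⟨Finset.mem_univ _, Finset.mem_Icc.2 this⟩
      refine (Finset.card_le_card hsub).trans ?_
      rw [Finset.card_product, Finset.card_univ, Fintype.card_fin, Int.card_Icc, ← hmdef]
      simp
    have h9 : N.cost x0 (i : ℤ) ≤ i * (Y n + 1) := by
      unfold Net.cost
      rw [if_pos (by omega), Int.natAbs_natCast]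
      calc _ ≤ ∑ _i' ∈ Finset.range i, (Y n + 1) := by
            refine Finset.sum_le_sum fun i' hi' => ?_
            have := h7 i' (by have := Finset.mem_range.1 hi'; omega)
            unfold Net.sz
            omega
        _ = _ := by rw [Finset.sum_const, Finset.card_range, smul_eq_mul]
    have h10 : Y n ≤ D ^ (g (r + 1) + 1) := by
      rcases Nat.eq_zero_or_pos D with rfl | hDpos
      · have h11 := h7 0 (Nat.zero_le _)
        have h12 := hD n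
        rw [zero_pow (by omega)] at h12
        omega
      · exact (hD n).trans (Nat.pow_le_pow_right hDpos (by omega))
    calc N.cost x0 (i : ℤ) ≤ i * (Y n + 1) := h9
      _ ≤ (m * Y n) * (Y n + 1) := Nat.mul_le_mul_right _ (by omega)
      _ ≤ (m * (D ^ (g (r + 1) + 1) + 1)) * (D ^ (g (r + 1) + 1) + 1) :=
        Nat.mul_le_mul (Nat.mul_le_mul_left _ (by omega)) (by omega)
      _ = _ := by ring
  · obtain ⟨l, hl⟩ : ∃ l : ℕ, K = -(l : ℤ) := ⟨K.natAbs, by omega⟩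
    subst hl
    refine le_trans ?_ (Nat.le_add_right _ _)
    have h1 : (N.S ^ (-(l : ℤ))) x0 = (ε v0, 2 ^ l) := by
      rw [zpow_neg, zpow_natCast, ← inv_pow, hback]
    rw [h1] at hK
    have h2 : 2 ^ l ≤ 2 ^ r := by
      have h3 : ((2 : ℤ) ^ l).natAbs + 1 ≤ 2 ^ r := hK
      rw [Int.natAbs_pow] at h3
      have h4 : (2 : ℤ).natAbs = 2 := rfl
      rw [h4] at h3
      omega
    have h3 : l ≤ r := (Nat.pow_le_pow_iff_right (by norm_num)).1 h2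
    unfold Net.cost
    rw [if_neg (by omega), Int.natAbs_neg, Int.natAbs_natCast]
    have h4 : ∀ l : ℕ, ∑ i ∈ Finset.range l, N.sz ((N.S⁻¹ ^ (i + 1)) x0) + 2 ≤ 2 ^ (l + 1) + l := by
      intro l
      induction l with
      | zero => simp
      | succ l ih =>
        rw [Finset.sum_range_succ]
        have h5 : N.sz ((N.S⁻¹ ^ (l + 1)) x0) = 2 ^ (l + 1) + 1 := by
          rw [hback]
          show ((2 : ℤ) ^ (l + 1)).natAbs + 1 = _
          rw [Int.natAbs_pow]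
          rfl
        rw [h5, pow_succ 2 (l + 1)]
        omega
    have h5 := h4 l
    have h6 : l ≤ 2 ^ l := Nat.lt_two_pow_self.le
    have h7 : 2 ^ (l + 2) ≤ 2 ^ (r + 2) := Nat.pow_le_pow_right (by norm_num) (by omega)
    rw [pow_succ] at h5
    rw [pow_succ, pow_succ] at h7
    omega

/-! ## the final estimate -/

/-- sums and products of numbers bounded by powers of two -/
theorem m2u_le (n r m D ND Γ n' : ℕ) (hr : ND * n' + 1 = r) (hND : 1 ≤ ND)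
    (hn : n ≤ n') (g1 : ℕ) (hg1 : g1 ≤ Γ) (hr1 : r + 1 ≤ Γ) :
    (n + 1) * ((n' + 1) * (2 * (4 * (ND ^ n' * 2) + (2 ^ (r + 2) + m * (D ^ (g1 + 1) + 1) ^ 2)) +
      n' * (ND ^ n' * (ND ^ n' * 2))) + n') ≤ 2 ^ ((2 * m + 4 * (D + 1) + 20) * (Γ + 1)) := by
  have hn' : n' + 1 ≤ r := by
    rw [← hr]
    nlinarith
  have a1 : n + 1 ≤ 2 ^ Γ := le_trans (by omega) Nat.lt_two_pow_self.le
  have a2 : n' + 1 ≤ 2 ^ Γ := le_trans (by omega) Nat.lt_two_pow_self.le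
  have a3 : ND ^ n' ≤ 2 ^ (Γ) := by
    calc ND ^ n' ≤ (2 ^ ND) ^ n' := Nat.pow_le_pow_left Nat.lt_two_pow_self.le _
      _ = 2 ^ (ND * n') := by rw [pow_mul]
      _ ≤ _ := Nat.pow_le_pow_right (by norm_num) (by omega)
  have a4 : 2 ^ (r + 2) ≤ 2 ^ (Γ + 1) := Nat.pow_le_pow_right (by norm_num) (by omega)
  have a5 : D ^ (g1 + 1) + 1 ≤ 2 ^ ((D + 1) * (Γ + 1)) := by
    have b1 : D ^ (g1 + 1) ≤ 2 ^ (D * (Γ + 1)) := by
      calc D ^ (g1 + 1) ≤ (2 ^ D) ^ (g1 + 1) := Nat.pow_le_pow_left Nat.lt_two_pow_self.le _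
        _ = 2 ^ (D * (g1 + 1)) := by rw [pow_mul]
        _ ≤ _ := Nat.pow_le_pow_right (by norm_num) (Nat.mul_le_mul_left _ (by omega))
    have b2 : 1 ≤ 2 ^ (D * (Γ + 1)) := Nat.one_le_two_pow
    calc _ ≤ 2 ^ (D * (Γ + 1)) * 2 := by omega
      _ ≤ 2 ^ (D * (Γ + 1)) * 2 ^ (Γ + 1) := Nat.mul_le_mul_left _ (by
        calc 2 = 2 ^ 1 := rfl
          _ ≤ _ := Nat.pow_le_pow_right (by norm_num) (by omega))
      _ = _ := by rw [← pow_add]; congr 1; ring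
  have a6 : m * (D ^ (g1 + 1) + 1) ^ 2 ≤ 2 ^ (m + 2 * ((D + 1) * (Γ + 1))) := by
    calc _ ≤ 2 ^ m * (2 ^ ((D + 1) * (Γ + 1))) ^ 2 :=
          Nat.mul_le_mul Nat.lt_two_pow_self.le (Nat.pow_le_pow_left a5 2)
      _ = _ := by rw [← pow_mul, ← pow_add]; congr 1; ring
  -- everything in terms of one number
  set Z := 2 ^ (m + 2 * ((D + 1) * (Γ + 1))) with hZ
  have z1 : 2 ^ Γ ≤ Z := by
    refine Nat.pow_le_pow_right (by norm_num) ?_
    nlinarith [Nat.zero_le (D * (Γ + 1))]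
  have z0 : 1 ≤ Z := Nat.one_le_two_pow
  set A := 2 ^ Γ with hA
  have hA1 : 1 ≤ A := Nat.one_le_two_pow
  have e1 : 2 ^ (Γ + 1) = 2 * A := by rw [pow_succ, hA]; ring
  rw [e1] at a4
  have b1 : 2 * (4 * (ND ^ n' * 2) + (2 ^ (r + 2) + m * (D ^ (g1 + 1) + 1) ^ 2)) ≤ 22 * Z := by
    omega
  have b2 : n' * (ND ^ n' * (ND ^ n' * 2)) ≤ A * (A * (A * 2)) :=
    Nat.mul_le_mul (by omega) (Nat.mul_le_mul a3 (Nat.mul_le_mul_right _ a3))
  have b3 : A * (A * (A * 2)) ≤ Z * (A * (A * 2)) := Nat.mul_le_mul_right _ z1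
  have hAA : 1 ≤ A * A := Nat.mul_pos hA1 hA1
  have b4 : 22 * Z ≤ 22 * (Z * (A * A)) := by nlinarith
  have b5 : (n' + 1) * (2 * (4 * (ND ^ n' * 2) + (2 ^ (r + 2) + m * (D ^ (g1 + 1) + 1) ^ 2)) +
      n' * (ND ^ n' * (ND ^ n' * 2))) + n' ≤ A * (24 * (Z * (A * A))) + A := by
    refine Nat.add_le_add (Nat.mul_le_mul a2 ?_) (by omega)
    have : Z * (A * (A * 2)) = 2 * (Z * (A * A)) := by ring
    omega
  have b6 : A * (24 * (Z * (A * A))) + A ≤ 25 * (A * (Z * (A * A))) := by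
    have : A * 1 ≤ A * (Z * (A * A)) := Nat.mul_le_mul_left _ (Nat.mul_pos z0 hAA)
    have e : A * (24 * (Z * (A * A))) = 24 * (A * (Z * (A * A))) := by ring
    omega
  calc _ ≤ A * (25 * (A * (Z * (A * A)))) := Nat.mul_le_mul a1 (b5.trans b6)
    _ ≤ 2 ^ 5 * (A * (A * (Z * (A * A)))) := by
      have : A * (25 * (A * (Z * (A * A)))) = 25 * (A * (A * (Z * (A * A)))) := by ring
      omega
    _ = 2 ^ (5 + (Γ + (Γ + ((m + 2 * ((D + 1) * (Γ + 1))) + (Γ + Γ))))) := by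
      rw [hA, hZ, ← pow_add, ← pow_add, ← pow_add, ← pow_add, ← pow_add]
    _ ≤ _ := by
      refine Nat.pow_le_pow_right (by norm_num) ?_
      nlinarith [Nat.zero_le (m * Γ), Nat.zero_le (D * Γ), Nat.zero_le D]

/-! ## the module -/

theorem upp2 {V : Type} [Finite V] {M : RM V} (htot : M.Total) {v0 u j mS : V}
    {Dm : ℕ → Prop} {nu lo Y : ℕ → ℕ} (hm : Mach M v0 u j mS Dm nu lo Y)
    {N : Net} {ε : V ≃ Fin N.m} (hp : ∀ v, N.p (ε v) = M.p v) (hq : ∀ v, N.q (ε v) = M.q v)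
    (hst : ∀ a b : V × ℤ, M.Step a b → N.S (ε a.1, a.2) = (ε b.1, b.2))
    (D : ℕ) (hD : ∀ L, Y L ≤ D ^ (L + 1)) (g : ℕ → ℕ) (hg : Monotone g) (hg1 : ∀ n, n ≤ g n)
    (hgN : ∀ L n, lo L ≤ n → L ≤ g n) :
    ∃ C : ℕ, ∀ n, ∀ x ∈ H2 N (ε u, 1) (ε v0, 1), W SK x n →
      W (TT N (ε u, 1) (ε v0, 1)) x (2 ^ (C * (g (2 ^ (C * n + C)) + 1))) := by
  have hD1 := N.one_le_D
  obtain ⟨c0, hc0⟩ : ∃ c0, W SG (N.rep (ε v0, 1) (ε u, 1)) c0 := by
    refine exists_W ?_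
    show _ ∈ Subgroup.closure (insert G.z Net.S1)
    rw [Net.closure_gen]
    trivial
  set E : ℕ := N.D + 3 with hE
  set C0 : ℕ := N.D * (3 + 2 * c0) + 2 + E with hC0
  refine ⟨C0 + (2 * N.m + 4 * (D + 1) + 20), fun n x hx hxn => ?_⟩
  set C : ℕ := C0 + (2 * N.m + 4 * (D + 1) + 20) with hC
  set Γ := g (2 ^ (C * n + C)) with hΓ
  obtain ⟨n', hn'⟩ : ∃ n', n' = n + 2 * E ^ (n + 1) + 2 * c0 := ⟨_, rfl⟩
  obtain ⟨r, hr⟩ : ∃ r, N.D * n' + 1 = r := ⟨_, rfl⟩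
  -- size of r
  have hr1 : r + 1 ≤ 2 ^ (C * n + C) := by
    have h1 : n ≤ E ^ (n + 1) := by
      have h2 := m2u_pow_lin E n (by omega)
      nlinarith
    have h3 : 1 ≤ E ^ (n + 1) := Nat.one_le_pow _ _ (by omega)
    have h4 : n' ≤ (3 + 2 * c0) * E ^ (n + 1) := by
      rw [hn', add_mul]
      have : 2 * c0 * 1 ≤ 2 * c0 * E ^ (n + 1) := Nat.mul_le_mul_left _ h3
      omega
    have h5 : r + 1 ≤ (N.D * (3 + 2 * c0) + 2) * E ^ (n + 1) := by
      rw [← hr, add_mul]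
      have : N.D * n' ≤ N.D * (3 + 2 * c0) * E ^ (n + 1) := by
        rw [mul_assoc]
        exact Nat.mul_le_mul_left _ h4
      omega
    refine h5.trans ?_
    calc (N.D * (3 + 2 * c0) + 2) * E ^ (n + 1)
        ≤ 2 ^ (N.D * (3 + 2 * c0) + 2) * (2 ^ E) ^ (n + 1) :=
          Nat.mul_le_mul Nat.lt_two_pow_self.le (Nat.pow_le_pow_left Nat.lt_two_pow_self.le _)
      _ = 2 ^ (N.D * (3 + 2 * c0) + 2 + E * (n + 1)) := by rw [← pow_mul, ← pow_add]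
      _ ≤ _ := by
        refine Nat.pow_le_pow_right (by norm_num) ?_
        have e1 : E * n ≤ C * n := Nat.mul_le_mul_right _ (by omega)
        have e2 : E * (n + 1) = E * n + E := by ring
        rw [e2]
        omega
  have hΓ1 : r + 1 ≤ Γ := hr1.trans (hg1 _)
  have hΓ2 : g (r + 1) ≤ Γ := hg hr1
  have hn1 : n ≤ n' := by omega
  -- the final number
  have hfin := m2u_le n r N.m D N.D Γ n' hr hD1 hn1 (g (r + 1)) hΓ2 hΓ1
  set Cst := 4 * (N.D ^ n' * 2) + (2 ^ (r + 2) + N.m * (D ^ (g (r + 1) + 1) + 1) ^ 2) with hCst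
  have hszu : N.sz ((ε u, 1) : N.X) = 2 := rfl
  have hszv : N.sz ((ε v0, 1) : N.X) = 2 := rfl
  have hcu : ∀ K : ℤ, N.sz ((N.S ^ K) (ε u, 1)) ≤ N.D ^ n' * N.sz ((ε u, 1) : N.X) →
      N.cost (ε u, 1) K ≤ Cst := by
    intro K hK
    rw [hszu] at hK
    exact (ld_cost hm hst _ K hK).trans (Nat.le_add_right _ _)
  have hcv : ∀ K : ℤ, N.sz ((N.S ^ K) (ε v0, 1)) ≤ N.D ^ n' * N.sz ((ε v0, 1) : N.X) →
      N.cost (ε v0, 1) K ≤ Cst := by
    intro K hK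
    rw [hszv] at hK
    have h1 : N.D ^ n' * 2 ≤ 2 ^ r := by
      rw [← hr, pow_succ]
      refine Nat.mul_le_mul_right _ ?_
      rw [pow_mul]
      exact Nat.pow_le_pow_left Nat.lt_two_pow_self.le _
    exact (ma_cost hm hst D hD g hgN r K (hK.trans h1)).trans (Nat.le_add_left _ _)
  have hpow : 2 ^ ((2 * N.m + 4 * (D + 1) + 20) * (Γ + 1)) ≤ 2 ^ (C * (Γ + 1)) :=
    Nat.pow_le_pow_right (by norm_num) (Nat.mul_le_mul_right _ (by omega))
  refine W_mono ?_ (hfin.trans hpow)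
  refine upper2 N (ε u, 1) (ε v0, 1) (ld_inf hm hst) E c0 (by omega) hc0 ?_ ?_ n _ ?_ ?_ hx hxn
  · intro c j k h
    rw [T_zpow_apply, T_zpow_apply] at h
    have hqu : (N.q (ε u) : ℤ) = 3 := by
      rw [hq, hm.qu]; rfl
    have h' : ((1 : ℤ) + N.q (ε u) * k).natAbs + 1 ≤
        N.D ^ c * (((1 : ℤ) + N.q (ε u) * j).natAbs + 1) := h
    rw [hqu] at h'
    refine m2u_arith1 N.D c _ _ hD1 ?_
    calc 3 * k.natAbs ≤ ((1 : ℤ) + 3 * k).natAbs + 1 := by omega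
      _ ≤ N.D ^ c * (((1 : ℤ) + 3 * j).natAbs + 1) := h'
      _ ≤ N.D ^ c * (3 * j.natAbs + 2) := Nat.mul_le_mul_left _ (by omega)
  · intro c j k h
    have h1 := (ld_sz hm hst k).1
    have h2 := (ld_sz hm hst j).2
    have h3 : 2 ^ (k.natAbs - 1) ≤ N.D ^ c * (2 * 3 ^ j.natAbs) := by
      have h4 : N.D ^ c * N.sz ((N.S ^ j) (ε u, 1)) ≤ N.D ^ c * (2 * 3 ^ j.natAbs) := by
        refine Nat.mul_le_mul_left _ ?_
        have : 1 ≤ 3 ^ j.natAbs := Nat.one_le_pow _ _ (by norm_num)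
        omega
      exact ((Nat.le_succ _).trans h1).trans (h.trans h4)
    have h5 : k.natAbs - 1 + 2 ≤ E ^ (c + 1) * (j.natAbs + 1) := m2u_arith2 N.D c _ _ hD1 h3
    exact le_trans (by omega) h5
  · intro h hh hw
    rw [← hn'] at hw
    have := N.upper (ε u, 1) hcu hw hh
    rw [hszu] at this
    exact this
  · intro h hh hw
    rw [← hn'] at hw
    have := N.upper (ε v0, 1) hcv hw hh
    rw [hszv] at this
    exact this

end Pool.Agent.DIST3
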