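import Pool.Agent.FBC.Defs

/-!
# DIST3: rudimentary relations are primitive recursive
-/

namespace Pool.Agent.DIST3

open Pool.Agent.FBC

theorem rud_primrecPred {k : ℕ} {Q : (Fin k → ℕ) → Prop} (h : Rud Q) :
    PrimrecPred (fun v : List.Vector ℕ k => Q v.get) := by
  have hg : ∀ {k : ℕ} (i : Fin k), Primrec (fun v : List.Vector ℕ k => v.get i) := fun i =>
    Primrec.vector_get.comp Primrec.id (Primrec.const i)
  induction h with
  | add i j l =>
    exact Primrec.eq.comp (Primrec.nat_add.comp (hg i) (hg j)) (hg l)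
  | mul i j l =>
    exact Primrec.eq.comp (Primrec.nat_mul.comp (hg i) (hg j)) (hg l)
  | not _ ih => exact ih.not
  | and _ _ ih ih' => exact ih.and ih'
  | @bex k Q i _ ih =>
    have h1 : PrimrecRel (fun (n : ℕ) (v : List.Vector ℕ k) =>
        Q (List.Vector.get (List.Vector.cons n v))) :=
      ih.comp (f := fun p : ℕ × List.Vector ℕ k => List.Vector.cons p.1 p.2)
        (Primrec.vector_cons.comp Primrec.fst Primrec.snd)
    have h2 := PrimrecRel.exists_mem_list h1
    have h3 : PrimrecPred (fun v : List.Vector ℕ k =>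
        ∃ x ∈ List.range (v.get i + 1), Q (List.Vector.get (List.Vector.cons x v))) :=
      h2.comp (f := fun v : List.Vector ℕ k => List.range (v.get i + 1)) (g := fun v => v)
        (Primrec.list_range.comp (Primrec.succ.comp (hg i))) Primrec.id
    refine h3.of_eq fun v => ?_
    have e : ∀ x, List.Vector.get (List.Vector.cons x v) = (Fin.cons x v.get : Fin (k + 1) → ℕ) := by
      intro x
      funext l
      refine Fin.cases ?_ (fun l => ?_) l
      · simp
      · simp
    constructor
    · rintro ⟨x, h1, h2⟩
      have h1 := List.mem_range.1 h1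
      exact ⟨x, by omega, by rw [← e]; exact h2⟩
    · rintro ⟨x, h1, h2⟩
      exact ⟨x, List.mem_range.2 (by omega), by rw [e]; exact h2⟩

theorem rud_primrecRel {R : ℕ → ℕ → Prop} (h : Rud (fun v : Fin 2 → ℕ => R (v 0) (v 1))) :
    PrimrecRel R := by
  have h1 := rud_primrecPred h
  have h2 : PrimrecPred (fun p : ℕ × ℕ => R p.1 p.2) := by
    refine (h1.comp (f := fun p : ℕ × ℕ => List.Vector.cons p.1 (List.Vector.cons p.2
      (List.Vector.nil : List.Vector ℕ 0)))
      (Primrec.vector_cons.comp Primrec.fst (Primrec.vector_cons.comp Primrec.snd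
        (Primrec.const _)))).of_eq fun p => ?_
    rfl
  exact h2

end Pool.Agent.DIST3
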