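import Pool.Agent.DIST3.Ex
import Pool.Agent.FBC.Defs

/-!
# DIST3 module RudT: the toolkit for rudimentary relations

`v i = 0` is `v i + v i = v i`; `v i = 1` is `v i * v i = v i ∧ ¬ v i = 0`; `v i = v j`: there is
`n ≤ v i` with `n = 0` and `v i + n = v j`. For `toRud` prove by induction: for every map
`ρ : ι → Fin k`, `Rud (fun v => Q (fun i => v (ρ i)))` (case `bex`:
`Option ι → Fin (k + 1)`).
-/

namespace Pool.Agent.DIST3

variable {ι κ : Type} {Q Q' : (ι → ℕ) → Prop}

theorem RudI.congr (h : RudI Q) (hQ : ∀ v, Q v ↔ Q' v) : RudI Q' := by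
  have : Q = Q' := funext fun v => propext (hQ v)
  exact this ▸ h

theorem oc_map (ρ : ι → κ) (n : ℕ) (v : κ → ℕ) :
    (fun i => oc n v (Option.map ρ i)) = oc n (fun i => v (ρ i)) := by
  funext i
  cases i <;> rfl

theorem RudI.reindex (h : RudI Q) (ρ : ι → κ) : RudI (fun v : κ → ℕ => Q (fun i => v (ρ i))) := by
  induction h generalizing κ with
  | add i j l => exact RudI.add (ρ i) (ρ j) (ρ l)
  | mul i j l => exact RudI.mul (ρ i) (ρ j) (ρ l)
  | not _ ih => exact RudI.not (ih ρ)
  | and _ _ ih1 ih2 => exact RudI.and (ih1 ρ) (ih2 ρ)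
  | bex i _ ih =>
    refine (RudI.bex (ρ i) (ih (Option.map ρ))).congr fun v => exists_congr fun n => ?_
    rw [oc_map]

theorem RudI.or (h : RudI Q) (h' : RudI Q') : RudI (fun v => Q v ∨ Q' v) :=
  (RudI.not (RudI.and (RudI.not h) (RudI.not h'))).congr fun v => by tauto

theorem RudI.imp (h : RudI Q) (h' : RudI Q') : RudI (fun v => Q v → Q' v) :=
  (RudI.not (RudI.and h (RudI.not h'))).congr fun v => by tauto

/-- bounded universal quantifier -/
theorem RudI.ball {Q : (Option ι → ℕ) → Prop} (i : ι) (h : RudI Q) :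
    RudI (fun v : ι → ℕ => ∀ n, n ≤ v i → Q (oc n v)) :=
  (RudI.not (RudI.bex i (RudI.not h))).congr fun v => by
    push Not
    rfl

theorem RudI.tt (i : ι) : RudI (fun _ : ι → ℕ => True) :=
  ((RudI.add i i i).or (RudI.not (RudI.add i i i))).congr fun v => by tauto

theorem RudI.ff (i : ι) : RudI (fun _ : ι → ℕ => False) :=
  (RudI.not (RudI.tt i)).congr fun v => by tauto

theorem RudI.bexs_fin (n : ℕ) : ∀ {ι : Type} {Q : (ι ⊕ Fin n → ℕ) → Prop} (i : ι), RudI Q →
    RudI (fun v : ι → ℕ => ∃ y : Fin n → ℕ, (∀ j, y j ≤ v i) ∧ Q (Sum.elim v y)) := by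
  induction n with
  | zero =>
    intro ι Q i h
    refine (h.reindex (Sum.elim id Fin.elim0 : ι ⊕ Fin 0 → ι)).congr fun v => ?_
    have key : ∀ y : Fin 0 → ℕ,
        (fun s => v ((Sum.elim id Fin.elim0 : ι ⊕ Fin 0 → ι) s)) = Sum.elim v y := by
      intro y
      funext s
      rcases s with s | s
      · rfl
      · exact s.elim0
    constructor
    · intro hv
      refine ⟨Fin.elim0, fun j => j.elim0, ?_⟩
      rwa [key] at hv
    · rintro ⟨y, _, hv⟩
      rwa [key y]
  | succ n ih =>
    intro ι Q i h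
    have h1 := ih (ι := Option ι) (some i) (h.reindex (Sum.elim (fun i => Sum.inl (some i))
      (Fin.cons (Sum.inl none) (fun j => Sum.inr j)) : ι ⊕ Fin (n + 1) → Option ι ⊕ Fin n))
    refine (RudI.bex i h1).congr fun v => ?_
    have key : ∀ (a : ℕ) (y : Fin n → ℕ), (fun s => Sum.elim (oc a v) y
        ((Sum.elim (fun i => Sum.inl (some i)) (Fin.cons (Sum.inl none) (fun j => Sum.inr j)) :
          ι ⊕ Fin (n + 1) → Option ι ⊕ Fin n) s)) = Sum.elim v (Fin.cons a y) := by
      intro a y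
      funext s
      rcases s with s | s
      · rfl
      · refine Fin.cases ?_ (fun j => ?_) s <;> rfl
    constructor
    · rintro ⟨a, ha, y, hy, hQ⟩
      rw [key] at hQ
      exact ⟨Fin.cons a y, fun j => Fin.cases ha hy j, hQ⟩
    · rintro ⟨y, hy, hQ⟩
      refine ⟨y 0, hy 0, Fin.tail y, fun j => hy j.succ, ?_⟩
      rw [key, Fin.cons_self_tail]
      exact hQ

/-- several bounded existential quantifiers, all bounded by the same variable -/
theorem RudI.bexs [Finite κ] {Q : (ι ⊕ κ → ℕ) → Prop} (i : ι) (h : RudI Q) :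
    RudI (fun v : ι → ℕ => ∃ y : κ → ℕ, (∀ j, y j ≤ v i) ∧ Q (Sum.elim v y)) := by
  obtain ⟨n, ⟨e⟩⟩ := Finite.exists_equiv_fin κ
  have h1 := RudI.bexs_fin n i (h.reindex (Sum.map id e))
  have key : ∀ (v : ι → ℕ) (y : Fin n → ℕ),
      (fun s => Sum.elim v y (Sum.map id e s)) = Sum.elim v (fun j => y (e j)) := by
    intro v y
    funext s
    cases s <;> rfl
  refine h1.congr fun v => ?_
  constructor
  · rintro ⟨y, hy, hQ⟩
    rw [key] at hQ
    exact ⟨_, fun j => hy _, hQ⟩
  · rintro ⟨y, hy, hQ⟩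
    refine ⟨fun j => y (e.symm j), fun j => hy _, ?_⟩
    rw [key]
    simpa using hQ

theorem RudI.zero (i : ι) : RudI (fun v : ι → ℕ => v i = 0) :=
  (RudI.add i i i).congr fun v => by omega

theorem RudI.eq (i j : ι) : RudI (fun v : ι → ℕ => v i = v j) :=
  (RudI.bex i (RudI.and (RudI.zero none) (RudI.add (some i) none (some j)))).congr fun v => by
    simp only [oc_none, oc_some]
    constructor
    · rintro ⟨n, _, rfl, h⟩
      omega
    · intro h
      exact ⟨0, Nat.zero_le _, rfl, by omega⟩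

theorem RudI.le (i j : ι) : RudI (fun v : ι → ℕ => v i ≤ v j) :=
  (RudI.bex j (RudI.add (some i) none (some j))).congr fun v => by
    simp only [oc_none, oc_some]
    constructor
    · rintro ⟨n, _, h⟩
      omega
    · intro h
      exact ⟨v j - v i, by omega, by omega⟩

theorem RudI.lt (i j : ι) : RudI (fun v : ι → ℕ => v i < v j) :=
  (RudI.not (RudI.le j i)).congr fun v => by omega

theorem RudI.one (i : ι) : RudI (fun v : ι → ℕ => v i = 1) :=
  (RudI.and (RudI.mul i i i) (RudI.not (RudI.zero i))).congr fun v => by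
    constructor
    · rintro ⟨h, h0⟩
      exact Nat.eq_of_mul_eq_mul_left (Nat.pos_of_ne_zero h0) (by omega)
    · intro h
      rw [h]
      simp

theorem RudI.const (i : ι) (c : ℕ) : RudI (fun v : ι → ℕ => v i = c) := by
  induction c generalizing ι with
  | zero => exact RudI.zero i
  | succ c ih =>
    refine (RudI.bex i (RudI.and (ih none) (RudI.bex (some i)
      (RudI.and (RudI.one none) (RudI.add (some none) none (some (some i))))))).congr fun v => ?_
    simp only [oc_none, oc_some]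
    constructor
    · rintro ⟨a, _, rfl, b, _, rfl, h⟩
      omega
    · intro h
      exact ⟨c, by omega, rfl, 1, by omega, rfl, by omega⟩

theorem RudI.toRud_aux (h : RudI Q) {k : ℕ} (ρ : ι → Fin k) :
    FBC.Rud (fun v : Fin k → ℕ => Q (fun i => v (ρ i))) := by
  induction h generalizing k with
  | add i j l => exact FBC.Rud.add (ρ i) (ρ j) (ρ l)
  | mul i j l => exact FBC.Rud.mul (ρ i) (ρ j) (ρ l)
  | not _ ih => exact FBC.Rud.not (ih ρ)
  | and _ _ ih1 ih2 => exact FBC.Rud.and (ih1 ρ) (ih2 ρ)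
  | @bex ι Q i _ ih =>
    have h1 := FBC.Rud.bex (ρ i) (ih (fun o : Option ι => o.elim 0 (fun j => (ρ j).succ)))
    have key : ∀ (n : ℕ) (v : Fin k → ℕ), (fun o : Option ι =>
        (Fin.cons n v : Fin (k + 1) → ℕ) (o.elim 0 (fun j => (ρ j).succ))) =
        oc n (fun i => v (ρ i)) := by
      intro n v
      funext o
      cases o <;> rfl
    have h2 : (fun v : Fin k → ℕ => ∃ n, n ≤ v (ρ i) ∧ Q (oc n (fun i => v (ρ i)))) =
        (fun v : Fin k → ℕ => ∃ n, n ≤ v (ρ i) ∧ Q (fun o : Option ι =>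
        (Fin.cons n v : Fin (k + 1) → ℕ) (o.elim 0 (fun j => (ρ j).succ)))) := by
      funext v
      simp only [key]
    rw [h2]
    exact h1

theorem RudI.toRud {k : ℕ} {Q : (Fin k → ℕ) → Prop} (h : RudI Q) : FBC.Rud Q :=
  h.toRud_aux id

theorem RudI.ofRud {k : ℕ} {Q : (Fin k → ℕ) → Prop} (h : FBC.Rud Q) : RudI Q := by
  induction h with
  | add i j l => exact RudI.add i j l
  | mul i j l => exact RudI.mul i j l
  | not _ ih => exact RudI.not ih
  | and _ _ ih1 ih2 => exact RudI.and ih1 ih2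
  | @bex k Q i _ ih =>
    refine (RudI.bex i (ih.reindex (Fin.cons none (fun j => some j) :
      Fin (k + 1) → Option (Fin k)))).congr fun v => exists_congr fun n =>
        and_congr_right fun _ => ?_
    have : (fun j => oc n v ((Fin.cons none (fun j => some j) : Fin (k + 1) → Option (Fin k)) j)) =
        (Fin.cons n v : Fin (k + 1) → ℕ) := by
      funext j
      refine Fin.cases ?_ (fun j => ?_) j <;> rfl
    rw [this]

end Pool.Agent.DIST3
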