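import Pool.Agent.DIST3.SR

/-!
# DIST3 module SF: closure properties of `SF`

Graph of `f + g`: `∃ a b, a = f v ∧ b = g v ∧ a + b = y` (`SR.comp`); `SF.comp`:
`∃ y, (∀ j, y j = g j v) ∧ z = f y`. `SR.eq`: `∃ y, y = f v ∧ y = g v`. `SF.div`, `SF.mod`:
`∃ a b q r, a = f v, b = g v, a = b * q + r ∧ (r < b ∨ (b = 0 ∧ q = 0))`.
-/

namespace Pool.Agent.DIST3

variable {ι κ : Type} [Fintype ι] [Fintype κ] {A B : (ι → ℕ) → Prop} {f g : (ι → ℕ) → ℕ}

theorem SF.congr (hf : SF f) (h : ∀ v, f v = g v) : SF g := by
  have : f = g := funext h
  exact this ▸ hf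

theorem SF.proj (i : ι) : SF (fun v : ι → ℕ => v i) := by
  refine ⟨SR.of_rud (RudI.eq none (some i)), 0, 0, fun v => ?_⟩
  show v i ≤ ∑ i, v i + 0
  exact (Finset.single_le_sum (fun j _ => Nat.zero_le (v j)) (Finset.mem_univ i)).trans
    (Nat.le_add_right _ _)

theorem SF.const (c : ℕ) : SF (fun _ : ι → ℕ => c) := by
  refine ⟨SR.of_rud (RudI.const none c), 0, c, fun v => ?_⟩
  show c ≤ ∑ i, v i + c
  exact Nat.le_add_left _ _

/-- change of the variables -/
private theorem sf_reindex (hf : SF f) (ρ : ι → κ) :
    SF (fun v : κ → ℕ => f (fun i => v (ρ i))) := by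
  obtain ⟨k, c, hb⟩ := hf.bd
  refine ⟨hf.gr.reindex (Option.map ρ), ?_⟩
  obtain ⟨m, e, h⟩ := ex_lin_le k (Fintype.card ι) c
  refine ⟨m, e, fun v => (hb _).trans ((ex_mono k ?_).trans (h _))⟩
  have h1 : ∑ i, v (ρ i) ≤ ∑ _i : ι, ∑ j, v j :=
    Finset.sum_le_sum fun i _ =>
      Finset.single_le_sum (f := v) (fun j _ => Nat.zero_le (v j)) (Finset.mem_univ (ρ i))
  have h2 : ∑ _i : ι, ∑ j, v j = Fintype.card ι * ∑ j, v j := by
    simp [Finset.sum_const, Finset.card_univ]
  show ∑ i, v (ρ i) + c ≤ Fintype.card ι * ∑ j, v j + c
  omega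

/-- a relation in three variables applied to two functions and the value -/
private theorem sr_gr2 {A : (Option Bool → ℕ) → Prop} (hA : SR A) (hf : SF f) (hg : SF g) :
    SR (fun v : Option ι → ℕ => A (fun o : Option Bool => match o with
      | none => v none
      | some false => f (fun i => v (some i))
      | some true => g (fun i => v (some i)))) := by
  have h := SR.comp hA (g := fun (o : Option Bool) (v : Option ι → ℕ) => match o with
      | none => v none
      | some false => f (fun i => v (some i))
      | some true => g (fun i => v (some i))) (by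
    intro o
    match o with
    | none => exact SF.proj none
    | some false => exact sf_reindex hf some
    | some true => exact sf_reindex hg some)
  exact h

private theorem sr_pair {A : (Bool → ℕ) → Prop} (hA : SR A) (hf : SF f) (hg : SF g) :
    SR (fun v : ι → ℕ => A (fun o : Bool => match o with
      | false => f v
      | true => g v)) := by
  have h := SR.comp hA (g := fun (o : Bool) (v : ι → ℕ) => match o with
      | false => f v
      | true => g v) (by
    intro o
    match o with
    | false => exact hf
    | true => exact hg)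
  exact h

theorem SF.add (hf : SF f) (hg : SF g) : SF (fun v => f v + g v) := by
  refine ⟨(sr_gr2 (SR.of_rud (RudI.add (some false) (some true) none)) hf hg).congr
    (fun v => eq_comm), ?_⟩
  obtain ⟨k, c, hk⟩ := hf.bd
  obtain ⟨l, d, hl⟩ := hg.bd
  obtain ⟨m, e, h⟩ := ex_add_le k l c d
  exact ⟨m, e, fun v => (Nat.add_le_add (hk v) (hl v)).trans (h _)⟩

theorem SF.mul (hf : SF f) (hg : SF g) : SF (fun v => f v * g v) := by
  refine ⟨(sr_gr2 (SR.of_rud (RudI.mul (some false) (some true) none)) hf hg).congr
    (fun v => eq_comm), ?_⟩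
  obtain ⟨k, c, hk⟩ := hf.bd
  obtain ⟨l, d, hl⟩ := hg.bd
  obtain ⟨m, e, h⟩ := ex_mul_le k l c d
  exact ⟨m, e, fun v => (Nat.mul_le_mul (hk v) (hl v)).trans (h _)⟩

theorem SF.comp {f : (κ → ℕ) → ℕ} (hf : SF f) {g : κ → (ι → ℕ) → ℕ} (hg : ∀ j, SF (g j)) :
    SF (fun v => f (fun j => g j v)) := by
  constructor
  · have h := SR.comp hf.gr (g := fun (o : Option κ) (v : Option ι → ℕ) => match o with
      | none => v none
      | some j => g j (fun i => v (some i))) (by
      intro o
      match o with
      | none => exact SF.proj none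
      | some j => exact sf_reindex (hg j) some)
    exact h
  · obtain ⟨k, c, hk⟩ := hf.bd
    obtain ⟨l, d, hl⟩ := ex_fin (fun v : ι → ℕ => ∑ i, v i) g (fun j => (hg j).bd)
    obtain ⟨m, e, h⟩ := ex_comp_le k l (Fintype.card κ) c d
    refine ⟨m, e, fun v => (hk _).trans ((ex_mono k ?_).trans (h _))⟩
    have h1 : ∑ j, g j v ≤ Fintype.card κ * ex l (∑ i, v i + d) := by
      calc ∑ j, g j v ≤ ∑ _j : κ, ex l (∑ i, v i + d) := Finset.sum_le_sum fun j _ => hl j v
        _ = Fintype.card κ * ex l (∑ i, v i + d) := by
          simp [Finset.sum_const, Finset.card_univ]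
    omega

theorem SR.eq (hf : SF f) (hg : SF g) : SR (fun v => f v = g v) :=
  sr_pair (SR.of_rud (RudI.eq false true)) hf hg

theorem SR.ne (hf : SF f) (hg : SF g) : SR (fun v => f v ≠ g v) :=
  sr_pair (SR.of_rud (RudI.not (RudI.eq false true))) hf hg

theorem SR.lt (hf : SF f) (hg : SF g) : SR (fun v => f v < g v) :=
  sr_pair (SR.of_rud (RudI.lt false true)) hf hg

theorem SR.le (hf : SF f) (hg : SF g) : SR (fun v => f v ≤ g v) :=
  sr_pair (SR.of_rud (RudI.le false true)) hf hg

open Classical in
theorem SF.ite (hA : SR A) (hA' : SR (fun v => ¬ A v)) (hf : SF f) (hg : SF g) :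
    SF (fun v => if A v then f v else g v) := by
  constructor
  · refine (((hA.reindex (some : ι → Option ι)).and hf.gr).or
      ((hA'.reindex (some : ι → Option ι)).and hg.gr)).congr fun v => ?_
    by_cases h : A (fun i => v (some i))
    · simp only [h, true_and, not_true_eq_false, false_and, or_false, if_true]
    · simp only [h, false_and, not_false_eq_true, true_and, false_or, if_false]
  · obtain ⟨k, c, hk⟩ := hf.bd
    obtain ⟨l, d, hl⟩ := hg.bd
    obtain ⟨m, e, h⟩ := ex_add_le k l c d
    refine ⟨m, e, fun v => le_trans ?_ (h _)⟩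
    have h1 := hk v
    have h2 := hl v
    show (if A v then f v else g v) ≤ _
    split_ifs <;> omega

/-- division as a function of two variables -/
private theorem sf_div2 : SF (fun w : Bool → ℕ => w false / w true) := by
  constructor
  · have h1 : RudI (fun u : Option Bool ⊕ Bool → ℕ =>
        u (Sum.inl (some true)) * u (Sum.inl none) = u (Sum.inr false) ∧
        (u (Sum.inr false) + u (Sum.inr true) = u (Sum.inl (some false)) ∧
        u (Sum.inr true) < u (Sum.inl (some true)))) :=
      (RudI.mul _ _ _).and ((RudI.add _ _ _).and (RudI.lt _ _))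
    have h2 := RudI.bexs (κ := Bool) (some false : Option Bool) h1
    have h3 : RudI (fun v : Option Bool → ℕ => v (some true) = 0 ∧ v none = 0) :=
      (RudI.const _ 0).and (RudI.const _ 0)
    refine (SR.of_rud (h3.or h2)).congr fun v => ?_
    simp only [Sum.elim_inl, Sum.elim_inr]
    constructor
    · rintro (⟨hb, hy⟩ | ⟨y, -, hp, ha, hr⟩)
      · rw [hb, hy, Nat.div_zero]
      · rw [← ha, ← hp, Nat.mul_add_div (by omega : 0 < v (some true)), Nat.div_eq_of_lt hr,
          Nat.add_zero]
    · intro hy
      rcases Nat.eq_zero_or_pos (v (some true)) with hb | hb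
      · left
        refine ⟨hb, ?_⟩
        rw [hy, hb, Nat.div_zero]
      · right
        refine ⟨fun b => if b then v (some false) % v (some true) else
          v (some true) * (v (some false) / v (some true)), ?_, ?_, ?_, ?_⟩
        · intro j
          cases j
          · simpa using Nat.mul_div_le (v (some false)) (v (some true))
          · simpa using Nat.mod_le (v (some false)) (v (some true))
        · simp [hy]
        · simpa using Nat.div_add_mod (v (some false)) (v (some true))
        · simpa using Nat.mod_lt (v (some false)) hb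
  · refine ⟨0, 0, fun v => ?_⟩
    show v false / v true ≤ ∑ i, v i + 0
    refine (Nat.div_le_self _ _).trans ?_
    simp

/-- the remainder as a function of two variables -/
private theorem sf_mod2 : SF (fun w : Bool → ℕ => w false % w true) := by
  constructor
  · have h1 : RudI (fun u : Option Bool ⊕ Bool → ℕ =>
        u (Sum.inl (some true)) * u (Sum.inr true) = u (Sum.inr false) ∧
        (u (Sum.inr false) + u (Sum.inl none) = u (Sum.inl (some false)) ∧
        u (Sum.inl none) < u (Sum.inl (some true)))) :=
      (RudI.mul _ _ _).and ((RudI.add _ _ _).and (RudI.lt _ _))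
    have h2 := RudI.bexs (κ := Bool) (some false : Option Bool) h1
    have h3 : RudI (fun v : Option Bool → ℕ => v (some true) = 0 ∧ v none = v (some false)) :=
      (RudI.const _ 0).and (RudI.eq _ _)
    refine (SR.of_rud (h3.or h2)).congr fun v => ?_
    simp only [Sum.elim_inl, Sum.elim_inr]
    constructor
    · rintro (⟨hb, hy⟩ | ⟨y, -, hp, ha, hr⟩)
      · rw [hb, hy, Nat.mod_zero]
      · rw [← ha, ← hp, Nat.mul_add_mod, Nat.mod_eq_of_lt hr]
    · intro hy
      rcases Nat.eq_zero_or_pos (v (some true)) with hb | hb
      · left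
        refine ⟨hb, ?_⟩
        rw [hy, hb, Nat.mod_zero]
      · right
        refine ⟨fun b => if b then v (some false) / v (some true) else
          v (some true) * (v (some false) / v (some true)), ?_, ?_, ?_, ?_⟩
        · intro j
          cases j
          · simpa using Nat.mul_div_le (v (some false)) (v (some true))
          · simpa using Nat.div_le_self (v (some false)) (v (some true))
        · simp
        · rw [hy]
          simpa using Nat.div_add_mod (v (some false)) (v (some true))
        · rw [hy]
          exact Nat.mod_lt (v (some false)) hb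
  · refine ⟨0, 0, fun v => ?_⟩
    show v false % v true ≤ ∑ i, v i + 0
    refine (Nat.mod_le _ _).trans ?_
    simp

theorem SF.div (hf : SF f) (hg : SF g) : SF (fun v => f v / g v) := by
  have h := SF.comp sf_div2 (g := fun (o : Bool) (v : ι → ℕ) => match o with
      | false => f v
      | true => g v) (by
    intro o
    match o with
    | false => exact hf
    | true => exact hg)
  exact h

theorem SF.mod (hf : SF f) (hg : SF g) : SF (fun v => f v % g v) := by
  have h := SF.comp sf_mod2 (g := fun (o : Bool) (v : ι → ℕ) => match o with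
      | false => f v
      | true => g v) (by
    intro o
    match o with
    | false => exact hf
    | true => exact hg)
  exact h

/-- definition by finitely many cases -/
theorem SF.cases (b : ℕ) (hg : SF g) {F : ℕ → (ι → ℕ) → ℕ} (hF : ∀ d, d < b → SF (F d)) :
    SF (fun v => if g v < b then F (g v) v else 0) := by
  classical
  induction b with
  | zero => exact (SF.const 0).congr fun v => by simp
  | succ b ih =>
      have h1 := ih fun d hd => hF d (by omega)
      refine (SF.ite (SR.eq hg (SF.const b)) (SR.ne hg (SF.const b)) (hF b (by omega))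
        h1).congr fun v => ?_
      by_cases h : g v = b
      · rw [if_pos h, if_pos (by omega), h]
      · rw [if_neg h]
        by_cases h' : g v < b
        · rw [if_pos h', if_pos (by omega)]
        · rw [if_neg h', if_neg (by omega)]

theorem PF.sf (hf : PF f) : SF f := by
  induction hf with
  | proj i => exact SF.proj i
  | const c => exact SF.const c
  | add _ _ h1 h2 => exact h1.add h2
  | mul _ _ h1 h2 => exact h1.mul h2

end Pool.Agent.DIST3
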