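import Pool.Agent.DIST3.ExL
import Pool.Agent.DIST3.RudT

/-!
# DIST3 module SR: closure properties of `SR` and `SF`

The slack variable `L` bounds all witnesses. `SR.ex`: the relation is
`∃ n ≤ L, R (L, n, v)`; bound: `A (n, v)` with `n ≤ ex k (∑ v + c)` holds, so `R` holds for
`L ≥ ex k' (∑ v + n + c')`, use `ex_comp_le`. `SR.comp`: `∃ y ≤ L, (graph of g_j at (y_j, v)) ∧
R_A (L, y)`. `SR.ball`: `∀ n ≤ v i, n = v i ∨ R (L, n, v)`.
-/

namespace Pool.Agent.DIST3

variable {ι κ : Type} [Fintype ι] [Fintype κ] {A B : (ι → ℕ) → Prop} {f g : (ι → ℕ) → ℕ}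

theorem SR.congr (h : SR A) (hAB : ∀ v, A v ↔ B v) : SR B := by
  have : A = B := funext fun v => propext (hAB v)
  exact this ▸ h

theorem SR.of_rud (h : RudI A) : SR A := by
  refine ⟨fun w => A (fun i => w (some i)), h.reindex some, fun L v hv => hv, 0, 0,
    fun L v hv _ => hv⟩

/-- monotone bounds -/
theorem ex_le_of_le {k k' c c' x x' : ℕ} (hk : k ≤ k') (hx : x + c ≤ x' + c') :
    ex k (x + c) ≤ ex k' (x' + c') :=
  (ex_mono k hx).trans (ex_le_ex hk _)

theorem SR.and (h : SR A) (h' : SR B) : SR (fun v => A v ∧ B v) := by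
  obtain ⟨R, hR, hs, k, c, hc⟩ := h
  obtain ⟨R', hR', hs', k', c', hc'⟩ := h'
  refine ⟨fun w => R w ∧ R' w, RudI.and hR hR', fun L v hv => ⟨hs L v hv.1, hs' L v hv.2⟩,
    k + k', c + c', fun L v hv hL => ⟨hc L v hv.1 ((ex_le_of_le (by omega) (by omega)).trans hL),
      hc' L v hv.2 ((ex_le_of_le (by omega) (by omega)).trans hL)⟩⟩

theorem SR.or (h : SR A) (h' : SR B) : SR (fun v => A v ∨ B v) := by
  obtain ⟨R, hR, hs, k, c, hc⟩ := h
  obtain ⟨R', hR', hs', k', c', hc'⟩ := h'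
  refine ⟨fun w => R w ∨ R' w, RudI.or hR hR', fun L v hv => hv.imp (hs L v) (hs' L v),
    k + k', c + c', fun L v hv hL => ?_⟩
  rcases hv with hv | hv
  · exact Or.inl (hc L v hv ((ex_le_of_le (by omega) (by omega)).trans hL))
  · exact Or.inr (hc' L v hv ((ex_le_of_le (by omega) (by omega)).trans hL))

theorem SR.tt : SR (fun _ : ι → ℕ => True) := by
  refine ⟨fun w => w none = w none, RudI.eq none none, fun _ _ _ => trivial, 0, 0,
    fun _ _ _ _ => rfl⟩

theorem SR.all_fin {n : ℕ} {A : Fin n → (ι → ℕ) → Prop} (h : ∀ a, SR (A a)) :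
    SR (fun v => ∀ a, A a v) := by
  induction n with
  | zero => exact SR.tt.congr fun v => ⟨fun _ a => a.elim0, fun _ => trivial⟩
  | succ n ih =>
    exact ((h 0).and (ih (fun a => h a.succ))).congr fun v =>
      ⟨fun hv a => Fin.cases hv.1 hv.2 a, fun hv => ⟨hv 0, fun a => hv a.succ⟩⟩

theorem SR.all {α : Type} [Finite α] {A : α → (ι → ℕ) → Prop} (h : ∀ a, SR (A a)) :
    SR (fun v => ∀ a, A a v) := by
  obtain ⟨n, ⟨e⟩⟩ := Finite.exists_equiv_fin α
  exact (SR.all_fin (fun j => h (e.symm j))).congr fun v =>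
    ⟨fun hv a => by simpa using hv (e a), fun hv j => hv _⟩

/-- the sum of a family of copies of entries of `v` -/
theorem sum_reindex_le (ρ : ι → κ) (v : κ → ℕ) :
    ∑ i, v (ρ i) ≤ Fintype.card ι * ∑ j, v j := by
  have h : ∀ i ∈ (Finset.univ : Finset ι), v (ρ i) ≤ ∑ j, v j := fun i _ =>
    Finset.single_le_sum (f := v) (fun _ _ => Nat.zero_le _) (Finset.mem_univ _)
  have := Finset.sum_le_card_nsmul _ _ _ h
  rwa [smul_eq_mul, Finset.card_univ] at this

theorem SR.reindex (h : SR A) (ρ : ι → κ) : SR (fun v : κ → ℕ => A (fun i => v (ρ i))) := by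
  obtain ⟨R, hR, hs, k, c, hc⟩ := h
  obtain ⟨m, e, hme⟩ := ex_lin_le k (Fintype.card ι) c
  refine ⟨fun w => R (fun o => w (Option.map ρ o)), hR.reindex _, fun L v hv => ?_, m, e,
    fun L v hv hL => ?_⟩
  · have hv' : R (fun o => oc L v (Option.map ρ o)) := hv
    rw [oc_map] at hv'
    exact hs L _ hv'
  · show R (fun o => oc L v (Option.map ρ o))
    rw [oc_map]
    refine hc L _ hv (le_trans ?_ hL)
    exact (ex_mono k (Nat.add_le_add_right (sum_reindex_le ρ v) c)).trans (hme _)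

/-- existential quantifiers with elementary bound for the witnesses -/
theorem SR.exs {A : (ι ⊕ κ → ℕ) → Prop} (h : SR A)
    (hb : ∃ k c : ℕ, ∀ v : ι → ℕ, (∃ y : κ → ℕ, A (Sum.elim v y)) →
      ∃ y : κ → ℕ, (∀ j, y j ≤ ex k (∑ i, v i + c)) ∧ A (Sum.elim v y)) :
    SR (fun v : ι → ℕ => ∃ y : κ → ℕ, A (Sum.elim v y)) := by
  obtain ⟨R, hR, hs, k, c, hc⟩ := h
  obtain ⟨l, d, hb⟩ := hb
  obtain ⟨m, e, hme⟩ := ex_comp_le k l (Fintype.card κ) c d
  -- variables: `none` is `L`, `some i` the variables of `v`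
  let ρ : Option (ι ⊕ κ) → Option ι ⊕ κ := fun o => o.elim (Sum.inl none)
    (Sum.elim (fun i => Sum.inl (some i)) (fun j => Sum.inr j))
  have key : ∀ (L : ℕ) (v : ι → ℕ) (y : κ → ℕ),
      (fun o => Sum.elim (oc L v) y (ρ o)) = oc L (Sum.elim v y) := by
    intro L v y
    funext o
    rcases o with _ | (o | o) <;> rfl
  have h1 := RudI.bexs (κ := κ) (none : Option ι) (hR.reindex ρ)
  refine ⟨_, h1, fun L v => ?_, m + l, e + d, fun L v => ?_⟩
  · rintro ⟨y, _, hy⟩
    rw [key] at hy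
    exact ⟨y, hs L _ hy⟩
  · intro hv hL
    obtain ⟨y, hy, hA⟩ := hb v hv
    refine ⟨y, fun j => (hy j).trans ((ex_le_of_le (by omega) (by omega)).trans hL), ?_⟩
    rw [key]
    refine hc L _ hA (le_trans ?_ hL)
    have hsum : ∑ s, (Sum.elim v y : ι ⊕ κ → ℕ) s ≤
        Fintype.card κ * ex l (∑ i, v i + d) + ∑ i, v i := by
      rw [Fintype.sum_sum_type]
      simp only [Sum.elim_inl, Sum.elim_inr]
      have h3 : ∑ j, y j ≤ Fintype.card κ * ex l (∑ i, v i + d) := by
        have := Finset.sum_le_card_nsmul (Finset.univ : Finset κ) y _ (fun j _ => hy j)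
        rwa [smul_eq_mul, Finset.card_univ] at this
      omega
    calc ex k (∑ s, (Sum.elim v y : ι ⊕ κ → ℕ) s + c)
        ≤ ex k (Fintype.card κ * ex l (∑ i, v i + d) + ∑ i, v i + c) :=
          ex_mono k (Nat.add_le_add_right hsum c)
      _ ≤ ex m (∑ i, v i + e) := hme _
      _ ≤ ex (m + l) (∑ i, v i + (e + d)) := ex_le_of_le (by omega) (by omega)

theorem SR.ex {A : (Option ι → ℕ) → Prop} (h : SR A)
    (hb : ∃ k c : ℕ, ∀ v : ι → ℕ, (∃ n, A (oc n v)) →
      ∃ n, n ≤ ex k (∑ i, v i + c) ∧ A (oc n v)) :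
    SR (fun v : ι → ℕ => ∃ n, A (oc n v)) := by
  let ρ : Option ι → ι ⊕ Unit := fun o => o.elim (Sum.inr ()) Sum.inl
  have key : ∀ (v : ι → ℕ) (y : Unit → ℕ),
      (fun o => Sum.elim v y (ρ o)) = oc (y ()) v := by
    intro v y
    funext o
    cases o <;> rfl
  have h1 := SR.exs (κ := Unit) (h.reindex ρ) (by
    obtain ⟨k, c, hb⟩ := hb
    refine ⟨k, c, fun v => ?_⟩
    rintro ⟨y, hy⟩
    rw [key] at hy
    obtain ⟨n, hn, hA⟩ := hb v ⟨_, hy⟩
    refine ⟨fun _ => n, fun _ => hn, ?_⟩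
    rw [key]
    exact hA)
  refine h1.congr fun v => ?_
  constructor
  · rintro ⟨y, hy⟩
    rw [key] at hy
    exact ⟨_, hy⟩
  · rintro ⟨n, hn⟩
    refine ⟨fun _ => n, ?_⟩
    rw [key]
    exact hn

theorem SR.ball {A : (Option ι → ℕ) → Prop} (h : SR A) (i : ι) :
    SR (fun v : ι → ℕ => ∀ n, n < v i → A (oc n v)) := by
  obtain ⟨R, hR, hs, k, c, hc⟩ := h
  obtain ⟨m, e, hme⟩ := ex_lin_le k 2 c
  let ρ : Option (Option ι) → Option (Option ι) := fun o => o.elim (some none)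
    (fun o' => o'.elim none (fun j => some (some j)))
  have key : ∀ (L n : ℕ) (v : ι → ℕ), (fun o => oc n (oc L v) (ρ o)) = oc L (oc n v) := by
    intro L n v
    funext o
    rcases o with _ | (_ | o) <;> rfl
  have h1 := RudI.ball (some i : Option ι) ((RudI.eq none (some (some i))).or (hR.reindex ρ))
  refine ⟨_, h1, fun L v hv n hn => ?_, m, e, fun L v hv hL n hn => ?_⟩
  · rcases hv n (le_of_lt hn) with h' | h'
    · exact absurd h' (Nat.ne_of_lt hn)
    · rw [key] at h'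
      exact hs L _ h'
  · rcases Nat.lt_or_ge n (v i) with hlt | hge
    · right
      rw [key]
      refine hc L _ (hv n hlt) (le_trans ?_ hL)
      refine (ex_mono k ?_).trans (hme _)
      rw [Fintype.sum_option]
      simp only [oc_none, oc_some]
      have : v i ≤ ∑ i, v i :=
        Finset.single_le_sum (f := v) (fun _ _ => Nat.zero_le _) (Finset.mem_univ _)
      omega
    · left
      have hn' : n ≤ v i := hn
      exact le_antisymm hn' hge

theorem SR.comp {A : (κ → ℕ) → Prop} (h : SR A) {g : κ → (ι → ℕ) → ℕ} (hg : ∀ j, SF (g j)) :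
    SR (fun v => A (fun j => g j v)) := by
  have h1 : SR (fun w : ι ⊕ κ → ℕ => (∀ j, w (Sum.inr j) = g j (fun i => w (Sum.inl i))) ∧
      A (fun j => w (Sum.inr j))) := by
    refine SR.and (SR.all fun j => ?_) (h.reindex Sum.inr)
    have := (hg j).gr.reindex (fun o : Option ι => o.elim (Sum.inr j : ι ⊕ κ) Sum.inl)
    exact this.congr fun v => Iff.rfl
  obtain ⟨k, c, hkc⟩ := ex_fin (fun v : ι → ℕ => ∑ i, v i) g (fun j => (hg j).bd)
  have h2 := SR.exs h1 ⟨k, c, by
    rintro v ⟨y, hy, hA⟩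
    exact ⟨y, fun j => by
      rw [show y j = g j v from hy j]
      exact hkc j v, hy, hA⟩⟩
  refine h2.congr fun v => ?_
  constructor
  · rintro ⟨y, hy, hA⟩
    have : y = fun j => g j v := funext hy
    subst this
    exact hA
  · intro hA
    exact ⟨fun j => g j v, fun j => rfl, hA⟩

end Pool.Agent.DIST3
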