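import Pool.Agent.DIST3.M2L
import Pool.Agent.DIST3.M2U
import Pool.Agent.DIST3.Fn
import Pool.Agent.DIST3.RudT
import Pool.Agent.FBC.MachB

/-!
# DIST3 module Suff: sufficiency

`rud_shift`: `R' N L' := ∃ L ≤ L', R N L ∧ L' = L + 2 * N + 2` is rudimentary (`RudT`).
`suff`: `machB R'`, `net_of_total`, `low2`, `upp2` with `g m = max m (sSup {L' | ∃ N ≤ m, R' N L'})`.
Lower bound: for `N ≤ 2 ^ n`, `R N L`, `L' = L + 2 * N + 2` one has `Dm L'`, `nu L' ≤ N`,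
`2 ^ L' ≤ m + 3 ^ (N + 1)` and `2 ^ L' ≥ 2 ^ L * 4 ^ (N + 1) ≥ 2 ^ L + 3 ^ (N + 1)`, so `L ≤ m`.
Upper bound: `g (2 ^ (C * n + C)) ≤ Fm R (C * n + C) + 4 * 2 ^ (C * n + C) + 2`. Generating sets: as
`dist_ge` in DIST/UpDist.lean and `machine_two_sided`.
-/

namespace Pool.Agent.DIST3

open Pool.Agent.helper12.FD Pool.Agent.DIST Pool.Agent.FBC

theorem rud_shift {R : ℕ → ℕ → Prop} (hR : Rud (fun v : Fin 2 → ℕ => R (v 0) (v 1))) :
    Rud (fun v : Fin 2 → ℕ => ∃ L, R (v 0) L ∧ v 1 = L + 2 * v 0 + 2) := by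
  let ρ : Fin 2 → Fin 2 ⊕ Fin 4 := ![Sum.inl 0, Sum.inr 0]
  have h1 : RudI (fun w : Fin 2 ⊕ Fin 4 → ℕ => R (w (Sum.inl 0)) (w (Sum.inr 0))) :=
    (RudI.ofRud hR).reindex ρ
  have h2 : RudI (fun w : Fin 2 ⊕ Fin 4 → ℕ => w (Sum.inl 0) + w (Sum.inl 0) = w (Sum.inr 1)) :=
    RudI.add _ _ _
  have h3 : RudI (fun w : Fin 2 ⊕ Fin 4 → ℕ => w (Sum.inr 2) = 2) := RudI.const _ _
  have h4 : RudI (fun w : Fin 2 ⊕ Fin 4 → ℕ => w (Sum.inr 0) + w (Sum.inr 1) = w (Sum.inr 3)) :=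
    RudI.add _ _ _
  have h5 : RudI (fun w : Fin 2 ⊕ Fin 4 → ℕ => w (Sum.inr 3) + w (Sum.inr 2) = w (Sum.inl 1)) :=
    RudI.add _ _ _
  have h := RudI.bexs (1 : Fin 2) (h1.and (h2.and (h3.and (h4.and h5))))
  refine RudI.toRud (h.congr fun v => ?_)
  constructor
  · rintro ⟨y, -, g1, g2, g3, g4, g5⟩
    simp only [Sum.elim_inl, Sum.elim_inr] at g1 g2 g3 g4 g5
    exact ⟨y 0, g1, by omega⟩
  · rintro ⟨L, g1, g2⟩
    refine ⟨![L, 2 * v 0, 2, L + 2 * v 0], ?_, ?_⟩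
    · intro j
      fin_cases j
      · show L ≤ v 1
        omega
      · show 2 * v 0 ≤ v 1
        omega
      · show 2 ≤ v 1
        omega
      · show L + 2 * v 0 ≤ v 1
        omega
    · refine ⟨g1, ?_, rfl, rfl, ?_⟩
      · show v 0 + v 0 = 2 * v 0
        omega
      · show L + 2 * v 0 + 2 = v 1
        omega

/-- change of generating sets, any group -/
theorem dist_change {E : Type*} [Group E] {S T S₀ T₀ : Set E} {H : Subgroup E} (hS : S.Finite)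
    (hS' : Subgroup.closure S = ⊤) (hT : T.Finite) (hT' : Subgroup.closure T = H)
    (hS₀ : S₀.Finite) (hS₀' : Subgroup.closure S₀ = ⊤) (hT₀ : T₀.Finite)
    (hT₀' : Subgroup.closure T₀ = H) :
    ∃ C : ℕ, 1 ≤ C ∧
      (∀ (h : E) (a m : ℕ), h ∈ H → W S₀ h a → (∀ L, W T₀ h L → m ≤ L) →
        m ≤ C * distortion S T H (C * a)) ∧
      (∀ U : ℕ → ℕ, Monotone U → (∀ h ∈ H, ∀ n, W S₀ h n → W T₀ h (U n)) →
        ∀ n, distortion S T H n ≤ C * U (C * n)) := by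
  obtain ⟨K, hK⟩ := exists_bound (S := S₀) (S' := S) hS₀ (fun x _ => by rw [hS']; trivial)
  obtain ⟨Q, hQ⟩ := exists_bound (S := T) (S' := T₀) hT
    (fun x hx => by
      rw [hT₀', ← hT']
      exact Subgroup.subset_closure hx)
  obtain ⟨K1, hK1⟩ := exists_bound (S := S) (S' := S₀) hS (fun x _ => by rw [hS₀']; trivial)
  obtain ⟨Q1, hQ1⟩ := exists_bound (S := T₀) (S' := T) hT₀
    (fun x hx => by
      rw [hT', ← hT₀']
      exact Subgroup.subset_closure hx)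
  refine ⟨K + Q + K1 + Q1 + 1, by omega, fun h a m hh ha hm => ?_, fun U hU hW n => ?_⟩
  · have h1 : W S h (K * a) := W_trans hK ha
    have h2 : wordLength S h ≤ (K + Q + K1 + Q1 + 1) * a :=
      (wordLength_le h1).trans (Nat.mul_le_mul_right _ (by omega))
    have h3 := le_distortion (T := T) hS hS' hh h2
    have h4 : W T h (wordLength T h) := W_wordLength (by rw [hT']; exact hh)
    have h5 := hm _ (W_trans hQ h4)
    exact h5.trans (Nat.mul_le_mul (by omega) h3)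
  · refine csSup_le' ?_
    rintro k ⟨h, h1, h2, rfl⟩
    have h3 : W S h n := W_mono (W_wordLength (by rw [hS']; trivial)) h2
    have h4 : W S₀ h (K1 * n) := W_trans hK1 h3
    have h5 : W T h (Q1 * U (K1 * n)) := W_trans hQ1 (hW h h1 _ h4)
    refine (wordLength_le h5).trans (Nat.mul_le_mul (by omega) (hU ?_))
    exact Nat.mul_le_mul_right _ (by omega)

theorem two_mul_le_pow {E : ℕ} (h : 1 ≤ E) : 2 * E ≤ 2 ^ E := by
  obtain ⟨e, rfl⟩ : ∃ e, E = e + 1 := ⟨E - 1, by omega⟩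
  have := Nat.lt_two_pow_self (n := e)
  rw [pow_succ]
  omega

theorem mul_le_pow {a b E : ℕ} (ha : a ≤ E) (hb : b ≤ E) : a * b ≤ 2 ^ 2 ^ E := by
  rcases Nat.eq_zero_or_pos E with rfl | hE
  · have : a = 0 := by omega
    subst this
    simp
  · calc a * b ≤ E * E := Nat.mul_le_mul ha hb
      _ ≤ 2 ^ E * 2 ^ E := Nat.mul_le_mul Nat.lt_two_pow_self.le Nat.lt_two_pow_self.le
      _ = 2 ^ (2 * E) := by rw [← pow_add, two_mul]
      _ ≤ 2 ^ 2 ^ E := Nat.pow_le_pow_right (by norm_num) (two_mul_le_pow hE)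

/-- the growth estimate for the upper bound -/
theorem upper_arith {C1 C3 p F z : ℕ} (h1 : C1 ≤ z) (h3 : C3 ≤ z) (hp : p ≤ z * z) (hF : F ≤ z)
    (hz : 3 ≤ z) : C1 * 2 ^ (C3 * (F + 2 * 2 ^ p + 3)) ≤ ex 7 z := by
  have e2 : p ≤ ex 2 z := hp.trans (mul_le_pow le_rfl le_rfl)
  have e3 : 2 ^ p ≤ ex 3 z := Nat.pow_le_pow_right (by norm_num) e2
  have z3 : z ≤ ex 3 z := le_ex 3 z
  have e4 : C3 * (F + 2 * 2 ^ p + 3) ≤ ex 5 z := by
    have a1 : C3 * (F + 2 * 2 ^ p + 3) ≤ ex 3 z * (4 * ex 3 z) :=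
      Nat.mul_le_mul (by omega) (by omega)
    have a2 : 4 * ex 3 z ^ 2 ≤ ex 5 z := by
      have b1 : 2 * ex 3 z ≤ 2 ^ ex 3 z := two_mul_le_pow (by omega)
      calc 4 * ex 3 z ^ 2 = (2 * ex 3 z) * (2 * ex 3 z) := by ring
        _ ≤ 2 ^ ex 3 z * 2 ^ ex 3 z := Nat.mul_le_mul b1 b1
        _ = 2 ^ (2 * ex 3 z) := by rw [← pow_add, two_mul]
        _ ≤ 2 ^ 2 ^ ex 3 z := Nat.pow_le_pow_right (by norm_num) b1
    calc _ ≤ ex 3 z * (4 * ex 3 z) := a1
      _ = 4 * ex 3 z ^ 2 := by ring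
      _ ≤ _ := a2
  have z5 : z ≤ ex 5 z := le_ex 5 z
  have e5 : 2 ^ (C3 * (F + 2 * 2 ^ p + 3)) ≤ 2 ^ ex 5 z := Nat.pow_le_pow_right (by norm_num) e4
  have e6 : C1 ≤ 2 ^ ex 5 z := (h1.trans z5).trans Nat.lt_two_pow_self.le
  calc _ ≤ 2 ^ ex 5 z * 2 ^ ex 5 z := Nat.mul_le_mul e6 e5
    _ = 2 ^ (2 * ex 5 z) := by rw [← pow_add, two_mul]
    _ ≤ 2 ^ 2 ^ ex 5 z := Nat.pow_le_pow_right (by norm_num) (two_mul_le_pow (by omega))

/-- The relation for the machine: even inputs `2 * N` have the value `8 * N + 4`, odd inputs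
`2 * N + 1` the value `L + 4 * (2 * N + 1) + 4` if `R N L`. -/
def R2 (R : ℕ → ℕ → Prop) (M L' : ℕ) : Prop :=
  (∃ N L, M = 2 * N + 1 ∧ R N L ∧ L' = L + 4 * M + 4) ∨ (∃ N, M = 2 * N ∧ L' = 4 * M + 4)

theorem rud_R2 {R : ℕ → ℕ → Prop} (hR : Rud (fun v : Fin 2 → ℕ => R (v 0) (v 1))) :
    Rud (fun v : Fin 2 → ℕ => R2 R (v 0) (v 1)) := by
  -- odd inputs
  let ρ : Fin 2 → Fin 2 ⊕ Fin 8 := ![Sum.inr 0, Sum.inr 1]
  have a1 : RudI (fun w : Fin 2 ⊕ Fin 8 → ℕ => R (w (Sum.inr 0)) (w (Sum.inr 1))) :=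
    (RudI.ofRud hR).reindex ρ
  have a2 : RudI (fun w : Fin 2 ⊕ Fin 8 → ℕ => w (Sum.inr 0) + w (Sum.inr 0) = w (Sum.inr 2)) :=
    RudI.add _ _ _
  have a3 : RudI (fun w : Fin 2 ⊕ Fin 8 → ℕ => w (Sum.inr 3) = 1) := RudI.const _ _
  have a4 : RudI (fun w : Fin 2 ⊕ Fin 8 → ℕ => w (Sum.inr 2) + w (Sum.inr 3) = w (Sum.inl 0)) :=
    RudI.add _ _ _
  have a5 : RudI (fun w : Fin 2 ⊕ Fin 8 → ℕ => w (Sum.inl 0) + w (Sum.inl 0) = w (Sum.inr 4)) :=
    RudI.add _ _ _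
  have a6 : RudI (fun w : Fin 2 ⊕ Fin 8 → ℕ => w (Sum.inr 4) + w (Sum.inr 4) = w (Sum.inr 5)) :=
    RudI.add _ _ _
  have a7 : RudI (fun w : Fin 2 ⊕ Fin 8 → ℕ => w (Sum.inr 1) + w (Sum.inr 5) = w (Sum.inr 6)) :=
    RudI.add _ _ _
  have a8 : RudI (fun w : Fin 2 ⊕ Fin 8 → ℕ => w (Sum.inr 7) = 4) := RudI.const _ _
  have a9 : RudI (fun w : Fin 2 ⊕ Fin 8 → ℕ => w (Sum.inr 6) + w (Sum.inr 7) = w (Sum.inl 1)) :=
    RudI.add _ _ _
  have ha := RudI.bexs (1 : Fin 2) (a1.and (a2.and (a3.and (a4.and (a5.and (a6.and (a7.and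
    (a8.and a9))))))))
  -- even inputs
  have b1 : RudI (fun w : Fin 2 ⊕ Fin 4 → ℕ => w (Sum.inr 0) + w (Sum.inr 0) = w (Sum.inl 0)) :=
    RudI.add _ _ _
  have b2 : RudI (fun w : Fin 2 ⊕ Fin 4 → ℕ => w (Sum.inl 0) + w (Sum.inl 0) = w (Sum.inr 1)) :=
    RudI.add _ _ _
  have b3 : RudI (fun w : Fin 2 ⊕ Fin 4 → ℕ => w (Sum.inr 1) + w (Sum.inr 1) = w (Sum.inr 2)) :=
    RudI.add _ _ _
  have b4 : RudI (fun w : Fin 2 ⊕ Fin 4 → ℕ => w (Sum.inr 3) = 4) := RudI.const _ _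
  have b5 : RudI (fun w : Fin 2 ⊕ Fin 4 → ℕ => w (Sum.inr 2) + w (Sum.inr 3) = w (Sum.inl 1)) :=
    RudI.add _ _ _
  have hb := RudI.bexs (1 : Fin 2) (b1.and (b2.and (b3.and (b4.and b5))))
  refine RudI.toRud ((ha.or hb).congr fun v => or_congr ?_ ?_)
  · constructor
    · rintro ⟨y, -, g1, g2, g3, g4, g5, g6, g7, g8, g9⟩
      simp only [Sum.elim_inl, Sum.elim_inr] at g1 g2 g3 g4 g5 g6 g7 g8 g9
      exact ⟨y 0, y 1, by omega, g1, by omega⟩
    · rintro ⟨N, L, g1, g2, g3⟩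
      refine ⟨![N, L, 2 * N, 1, 2 * v 0, 4 * v 0, L + 4 * v 0, 4], ?_, ?_⟩
      · intro j
        fin_cases j
        · show N ≤ v 1
          omega
        · show L ≤ v 1
          omega
        · show 2 * N ≤ v 1
          omega
        · show 1 ≤ v 1
          omega
        · show 2 * v 0 ≤ v 1
          omega
        · show 4 * v 0 ≤ v 1
          omega
        · show L + 4 * v 0 ≤ v 1
          omega
        · show 4 ≤ v 1
          omega
      · refine ⟨g2, ?_, rfl, ?_, ?_, ?_, rfl, rfl, ?_⟩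
        · show N + N = 2 * N
          omega
        · show 2 * N + 1 = v 0
          omega
        · show v 0 + v 0 = 2 * v 0
          omega
        · show 2 * v 0 + 2 * v 0 = 4 * v 0
          omega
        · show L + 4 * v 0 + 4 = v 1
          omega
  · constructor
    · rintro ⟨y, -, g1, g2, g3, g4, g5⟩
      simp only [Sum.elim_inl, Sum.elim_inr] at g1 g2 g3 g4 g5
      exact ⟨y 0, by omega, by omega⟩
    · rintro ⟨N, g1, g2⟩
      refine ⟨![N, 2 * v 0, 4 * v 0, 4], ?_, ?_⟩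
      · intro j
        fin_cases j
        · show N ≤ v 1
          omega
        · show 2 * v 0 ≤ v 1
          omega
        · show 4 * v 0 ≤ v 1
          omega
        · show 4 ≤ v 1
          omega
      · refine ⟨?_, ?_, ?_, rfl, ?_⟩
        · show N + N = v 0
          omega
        · show v 0 + v 0 = 2 * v 0
          omega
        · show 2 * v 0 + 2 * v 0 = 4 * v 0
          omega
        · show 4 * v 0 + 4 = v 1
          omega

theorem R2_fun {R : ℕ → ℕ → Prop} (hfun : ∀ N L L', R N L → R N L' → L = L') (M L L' : ℕ)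
    (h : R2 R M L) (h' : R2 R M L') : L = L' := by
  rcases h with ⟨a, b, h1, h2, h3⟩ | ⟨a, h1, h2⟩
  · rcases h' with ⟨c, d, h4, h5, h6⟩ | ⟨c, h4, h5⟩
    · have : a = c := by omega
      subst this
      have := hfun a b d h2 h5
      omega
    · omega
  · rcases h' with ⟨c, d, h4, h5, h6⟩ | ⟨c, h4, h5⟩
    · omega
    · omega

theorem R2_le {R : ℕ → ℕ → Prop} {M L' : ℕ} (h : R2 R M L') : M ≤ L' := by
  rcases h with ⟨a, b, h1, h2, h3⟩ | ⟨a, h1, h2⟩ <;> omega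

/-- `2 ^ L ≤ m` from the inequality for the machine -/
theorem low_arith {L L' M m : ℕ} (h1 : L + 2 * (M + 1) ≤ L') (h : 2 ^ L' ≤ m + 3 ^ (M + 1)) :
    2 ^ L ≤ m := by
  have b3 : 2 ^ L * 4 ^ (M + 1) ≤ 2 ^ L' := by
    rw [show (4 : ℕ) = 2 ^ 2 from rfl, ← pow_mul, ← pow_add]
    exact Nat.pow_le_pow_right (by norm_num) h1
  have b4 : 3 ^ (M + 1) < 4 ^ (M + 1) := Nat.pow_lt_pow_left (by norm_num) (by omega)
  have b5 : 1 ≤ 2 ^ L := Nat.one_le_two_pow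
  have b6 : 2 ^ L + 4 ^ (M + 1) ≤ 2 ^ L * 4 ^ (M + 1) + 1 := by
    have hb1 : 1 ≤ 4 ^ (M + 1) := Nat.one_le_pow _ _ (by norm_num)
    obtain ⟨a, ha⟩ : ∃ a, 2 ^ L = a + 1 := ⟨2 ^ L - 1, by omega⟩
    obtain ⟨b, hb⟩ : ∃ b, 4 ^ (M + 1) = b + 1 := ⟨4 ^ (M + 1) - 1, by omega⟩
    rw [ha, hb]
    nlinarith [Nat.zero_le (a * b)]
  omega

/-- **Exact form of the bounds.** -/
theorem suff2 {R : ℕ → ℕ → Prop} (hR : Rud (fun v : Fin 2 → ℕ => R (v 0) (v 1)))
    (hfun : ∀ N L L', R N L → R N L' → L = L') :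
    ∃ H : Subgroup K2, H.FG ∧ ∀ S T : Set K2, S.Finite → Subgroup.closure S = ⊤ → T.Finite →
      Subgroup.closure T = H → ∃ C : ℕ, 1 ≤ C ∧
        (∀ n, 2 ^ (max (2 ^ n) (Fm R n)) ≤ C * distortion S T H (C * n + C)) ∧
        (∀ n, distortion S T H n ≤
          2 ^ (C * (max (2 ^ (C * n + C)) (Fm R (C * n + C)) + 1))) := by
  have hfun' := R2_fun hfun
  obtain ⟨V, hV, M, v0, u, j, mS, Dm, nu, lo, Y, D, htot, hm, hD, hDm, hDm', hlo⟩ :=
    machB (R2 R) (rud_R2 hR) hfun'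
  obtain ⟨N, ε, hp, hq, hst⟩ := net_of_total M htot
  obtain ⟨C2, hC2⟩ := low2 htot hm hp hq hst
  -- the function `g`
  have hbdd : ∀ m, BddAbove {L' | ∃ N ≤ m, R2 R N L'} := by
    intro m
    refine (Fm_bdd hfun' m).mono ?_
    rintro L' ⟨N, h1, h2⟩
    exact ⟨N, h1.trans Nat.lt_two_pow_self.le, h2⟩
  obtain ⟨g, hg⟩ : ∃ g : ℕ → ℕ, g = fun m => max m (sSup {L' | ∃ N ≤ m, R2 R N L'}) := ⟨_, rfl⟩
  have hgm : Monotone g := by
    intro a b hab
    rw [hg]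
    refine max_le_max hab (csSup_le' ?_)
    rintro L' ⟨N, h1, h2⟩
    exact le_csSup (hbdd b) ⟨N, h1.trans hab, h2⟩
  have hg1 : ∀ n, n ≤ g n := by
    intro n
    rw [hg]
    exact le_max_left _ _
  have hgN : ∀ L n, lo L ≤ n → L ≤ g n := by
    intro L n hL
    rcases hlo L with ⟨h1, h2⟩ | ⟨h1, h2⟩
    · rw [hg]
      refine le_trans ?_ (le_max_right _ _)
      exact le_csSup (hbdd n) ⟨nu L, by omega, (hDm L h1).1⟩
    · have := hg1 n
      omega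
  have hgF : ∀ p, g (2 ^ p) ≤ Fm R p + 4 * 2 ^ p + 4 := by
    intro p
    rw [hg]
    refine max_le (by omega) (csSup_le' ?_)
    rintro L' ⟨N, h1, ⟨a, L, h2, h3, h4⟩ | ⟨a, h2, h3⟩⟩
    · have := le_Fm hfun (show a ≤ 2 ^ p by omega) h3
      omega
    · omega
  obtain ⟨C3, hC3⟩ := upp2 htot hm hp hq hst D hD g hgm hg1 hgN
  refine ⟨H2 N (ε u, 1) (ε v0, 1), H2_fg _ _ _, fun S T hS hS' hT hT' => ?_⟩
  obtain ⟨C1, hC11, hlow, hupp⟩ := dist_change hS hS' hT hT' SK_finite closure_SK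
    (TT_finite N (ε u, 1) (ε v0, 1)) rfl
  obtain ⟨C, hC⟩ : ∃ C, C = C3 * C1 + 5 * C3 + 3 * (C1 * C2) + C1 := ⟨_, rfl⟩
  refine ⟨C, by omega, fun n => ?_, fun n => ?_⟩
  · -- lower bounds
    have key : ∀ Q L L' : ℕ, Q ≤ 2 * 2 ^ n + 1 → R2 R Q L' → L + 2 * (Q + 1) ≤ L' →
        2 ^ L ≤ C * distortion S T (H2 N (ε u, 1) (ε v0, 1)) (C * n + C) := by
      intro Q L L' hQ hRL hL
      obtain ⟨h1, h2⟩ := hDm' _ _ (R2_le hRL) hRL
      obtain ⟨x, hx, hxW, hxm⟩ := hC2 _ h1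
      have h3 : Nat.log 2 (nu L' + 1) ≤ n + 2 := by
        have a1 : nu L' + 1 ≤ 2 ^ (n + 2) := by
          have := Nat.one_le_two_pow (n := n)
          rw [pow_succ, pow_succ]
          omega
        calc _ ≤ Nat.log 2 (2 ^ (n + 2)) := Nat.log_mono_right a1
          _ = n + 2 := Nat.log_pow (by norm_num) _
      have h4 : ∀ m, W (TT N (ε u, 1) (ε v0, 1)) x m → 2 ^ L ≤ m := by
        intro m hm
        refine low_arith (M := Q) hL ((hxm m hm).trans (Nat.add_le_add_left ?_ _))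
        exact Nat.pow_le_pow_right (by norm_num) (by omega)
      have h5 := hlow x _ _ hx hxW h4
      have h6 : C1 * (C2 * Nat.log 2 (nu L' + 1) + C2) ≤ C * n + C := by
        have c1 : 3 * (C1 * C2) ≤ C := by omega
        calc _ ≤ C1 * (C2 * (n + 2) + C2) :=
              Nat.mul_le_mul_left _ (Nat.add_le_add_right (Nat.mul_le_mul_left _ h3) _)
          _ = C1 * C2 * n + 3 * (C1 * C2) := by ring
          _ ≤ C * n + C := Nat.add_le_add (Nat.mul_le_mul_right _ (by omega)) c1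
      have h7 := distortion_mono (T := T) hS hS' (H2 N (ε u, 1) (ε v0, 1)) h6
      exact h5.trans (Nat.mul_le_mul (by omega) h7)
    rcases le_total (Fm R n) (2 ^ n) with hle | hle
    · rw [max_eq_left hle]
      exact key (2 * 2 ^ n) (2 ^ n) _ (by omega) (Or.inr ⟨2 ^ n, rfl, rfl⟩) (by omega)
    · rw [max_eq_right hle]
      rcases Fm_spec hfun n with h0 | ⟨N', hN', hRN⟩
      · have := Nat.one_le_two_pow (n := n)
        omega
      · exact key (2 * N' + 1) (Fm R n) _ (by omega) (Or.inl ⟨N', Fm R n, rfl, hRN, rfl⟩)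
          (by omega)
  · -- upper bound
    have hU := hupp (fun n => 2 ^ (C3 * (g (2 ^ (C3 * n + C3)) + 1)))
      (fun a b hab => Nat.pow_le_pow_right (by norm_num) (Nat.mul_le_mul_left _
        (Nat.add_le_add_right (hgm (Nat.pow_le_pow_right (by norm_num)
          (Nat.add_le_add_right (Nat.mul_le_mul_left _ hab) _))) _)))
      (fun h hh n hn => hC3 n h hh hn)
    refine (hU n).trans ?_
    obtain ⟨p, hpdef⟩ : ∃ p, p = C3 * (C1 * n) + C3 := ⟨_, rfl⟩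
    obtain ⟨γ, hγ⟩ : ∃ γ, γ = max (2 ^ (C * n + C)) (Fm R (C * n + C)) := ⟨_, rfl⟩
    have c1 : p ≤ C * n + C := by
      rw [hpdef, ← mul_assoc]
      exact Nat.add_le_add (Nat.mul_le_mul_right _ (by omega)) (by omega)
    have c2 : 2 ^ p ≤ γ := by
      rw [hγ]
      exact (Nat.pow_le_pow_right (by norm_num) c1).trans (le_max_left _ _)
    have c3 : Fm R p ≤ γ := by
      rw [hγ]
      exact (Fm_mono hfun c1).trans (le_max_right _ _)
    rw [← hγ]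
    have c4 : g (2 ^ p) + 1 ≤ 5 * (γ + 1) := by
      have := hgF p
      omega
    show C1 * 2 ^ (C3 * (g (2 ^ (C3 * (C1 * n) + C3)) + 1)) ≤ _
    rw [← hpdef]
    calc C1 * 2 ^ (C3 * (g (2 ^ p) + 1)) ≤ 2 ^ C1 * 2 ^ (C3 * (5 * (γ + 1))) :=
          Nat.mul_le_mul Nat.lt_two_pow_self.le (Nat.pow_le_pow_right (by norm_num)
            (Nat.mul_le_mul_left _ c4))
      _ = 2 ^ (C1 + 5 * C3 * (γ + 1)) := by
          rw [← pow_add]
          exact congrArg _ (by ring)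
      _ ≤ 2 ^ (C * (γ + 1)) := by
          refine Nat.pow_le_pow_right (by norm_num) ?_
          have d1 : C1 * 1 ≤ C1 * (γ + 1) := Nat.mul_le_mul_left _ (by omega)
          calc C1 + 5 * C3 * (γ + 1) ≤ C1 * (γ + 1) + 5 * C3 * (γ + 1) := by omega
            _ = (C1 + 5 * C3) * (γ + 1) := by ring
            _ ≤ C * (γ + 1) := Nat.mul_le_mul_right _ (by omega)

theorem suff {R : ℕ → ℕ → Prop} (hR : Rud (fun v : Fin 2 → ℕ => R (v 0) (v 1)))
    (hfun : ∀ N L L', R N L → R N L' → L = L') :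
    ∃ H : Subgroup K2, H.FG ∧ ∀ S T : Set K2, S.Finite → Subgroup.closure S = ⊤ → T.Finite →
      Subgroup.closure T = H →
        Preceq (Fm R) (distortion S T H) ∧
        ∃ k C : ℕ, ∀ n, distortion S T H n ≤ ex k (Fm R (C * n + C) + n + C) := by
  obtain ⟨H, hH, h⟩ := suff2 hR hfun
  refine ⟨H, hH, fun S T hS hS' hT hT' => ?_⟩
  obtain ⟨C, hC1, hA, hB⟩ := h S T hS hS' hT hT'
  refine ⟨⟨C, hC1, fun n => ?_⟩, 7, C + 3, fun n => (hB n).trans ?_⟩
  · have h1 : Fm R n ≤ max (2 ^ n) (Fm R n) := le_max_right _ _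
    have h2 := hA n
    have h3 : max (2 ^ n) (Fm R n) < 2 ^ max (2 ^ n) (Fm R n) := Nat.lt_two_pow_self
    omega
  · obtain ⟨z, hz⟩ : ∃ z, z = Fm R ((C + 3) * n + (C + 3)) + n + (C + 3) := ⟨_, rfl⟩
    have c1 : C * n + C ≤ (C + 3) * n + (C + 3) :=
      Nat.add_le_add (Nat.mul_le_mul_right _ (by omega)) (by omega)
    have c2 : C * n + C ≤ z * z := by
      calc C * n + C = C * (n + 1) := by ring
        _ ≤ z * z := Nat.mul_le_mul (by omega) (by omega)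
    have c3 : Fm R (C * n + C) ≤ z := (Fm_mono hfun c1).trans (by omega)
    have c4 := upper_arith (C1 := 1) (C3 := C) (p := C * n + C) (F := Fm R (C * n + C)) (z := z)
      (by omega) (by omega) c2 c3 (by omega)
    rw [← hz]
    rw [one_mul] at c4
    refine le_trans (Nat.pow_le_pow_right (by norm_num) (Nat.mul_le_mul_left _ ?_)) c4
    have : max (2 ^ (C * n + C)) (Fm R (C * n + C)) ≤ 2 ^ (C * n + C) + Fm R (C * n + C) :=
      max_le (Nat.le_add_right _ _) (Nat.le_add_left _ _)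
    omega

/-- **Exact distortion functions in `K2`**: if `G n = max (2 ^ n) (Fm R n)` satisfies
`2 * G n ≤ G (C * n + C)` then some distortion function is equivalent to `2 ^ G n`. -/
theorem suff_exact {R : ℕ → ℕ → Prop} (hR : Rud (fun v : Fin 2 → ℕ => R (v 0) (v 1)))
    (hfun : ∀ N L L', R N L → R N L' → L = L')
    (h2 : ∃ C : ℕ, ∀ n, 2 * max (2 ^ n) (Fm R n) ≤ max (2 ^ (C * n + C)) (Fm R (C * n + C))) :
    ∃ H : Subgroup K2, H.FG ∧ ∀ S T : Set K2, S.Finite → Subgroup.closure S = ⊤ → T.Finite →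
      Subgroup.closure T = H →
        Preceq (distortion S T H) (fun n => 2 ^ max (2 ^ n) (Fm R n)) ∧
        Preceq (fun n => 2 ^ max (2 ^ n) (Fm R n)) (distortion S T H) := by
  obtain ⟨H, hH, h⟩ := suff2 hR hfun
  refine ⟨H, hH, fun S T hS hS' hT hT' => ?_⟩
  obtain ⟨C, hC1, hA, hB⟩ := h S T hS hS' hT hT'
  obtain ⟨G, hG⟩ : ∃ G : ℕ → ℕ, G = fun n => max (2 ^ n) (Fm R n) := ⟨_, rfl⟩
  have hGm : Monotone G := by
    intro a b hab
    rw [hG]
    exact max_le_max (Nat.pow_le_pow_right (by norm_num) hab) (Fm_mono hfun hab)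
  have hG1 : ∀ n, 1 ≤ G n := by
    intro n
    rw [hG]
    exact Nat.one_le_two_pow.trans (le_max_left _ _)
  constructor
  · obtain ⟨C2, hC2⟩ := mul_le_of_double hGm (by rw [hG]; exact h2) (2 * C)
    refine ⟨C2 * C + C2 + 1, by omega, fun n => ?_⟩
    have e1 : 1 ≤ G (C * n + C) := hG1 _
    have e2 : C * (G (C * n + C) + 1) ≤ 2 * C * G (C * n + C) := by nlinarith
    have e3 := hC2 (C * n + C)
    have e4 : G (C2 * (C * n + C) + C2) ≤
        G ((C2 * C + C2 + 1) * n + (C2 * C + C2 + 1)) := hGm (by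
      have : C2 * (C * n + C) + C2 = C2 * C * n + (C2 * C + C2) := by ring
      rw [this, add_mul, add_mul]
      omega)
    have e5 : distortion S T H n ≤ 2 ^ G ((C2 * C + C2 + 1) * n + (C2 * C + C2 + 1)) := by
      refine (hB n).trans (Nat.pow_le_pow_right (by norm_num) ?_)
      have e6 : G (C * n + C) = max (2 ^ (C * n + C)) (Fm R (C * n + C)) := by rw [hG]
      rw [← e6]
      omega
    have e6 : 1 * 2 ^ G ((C2 * C + C2 + 1) * n + (C2 * C + C2 + 1)) ≤ (C2 * C + C2 + 1) *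
        2 ^ G ((C2 * C + C2 + 1) * n + (C2 * C + C2 + 1)) := Nat.mul_le_mul_right _ (by omega)
    rw [one_mul] at e6
    have e7 : ∀ m, (fun n => 2 ^ max (2 ^ n) (Fm R n)) m = 2 ^ G m := by
      intro m
      rw [hG]
    rw [e7]
    omega
  · refine ⟨C, hC1, fun n => ?_⟩
    have := hA n
    show 2 ^ max (2 ^ n) (Fm R n) ≤ _
    omega

end Pool.Agent.DIST3
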