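import Pool.Agent.DIST3.H2

/-!
# DIST3 module U2: the upper bound in `K2`, black box form

Let `g` in `H2`, `W SK g n`; reduced word `wp g0 l = g` from `red2`, normal form `alt h m = g`.
Induction along the list `m` of pairs with the statement (as `upper_aux` in `DIST/UpMain.lean`):
`of (G.t ^ j) * wp g0 l = alt h m`, `|j| + 1 ≤ E ^ e`, `wlG g0 + ∑ (wlG + 1) + e ≤ n`.
Block 1 (first copy): `h = t ^ j g0 t ^ k` (britton2, next letter `r⁻¹`, or `k = 0` at the end), so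
`g0 (T ^ k P0) = T ^ (-j) P0`, so by `hE1` `|k| + 1 ≤ E ^ (wlG g0 + 1) (|j| + 1)` and
`W SG h (|j| + wlG g0 + |k|)`. Block 2 (second copy): after sliding `t ^ k` through `r⁻¹`:
`s ^ (-k) g1 … = m …`, so `m = s ^ (-k) g1 s ^ l`, `g1 (S ^ l P0) = S ^ k P0`, `hE2`.
`z` acts trivially on `N.X`; every letter changes `sz` by at most the factor `N.D`.
-/

namespace Pool.Agent.DIST3

open Pool.Agent.helper12.FD Pool.Agent.DIST HNNExtension

variable (N : Net) (P0 xM : N.X)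

theorem act_z_fst (x : N.X) : (N.act G.z).1 x = x := by
  rw [N.act_z]; rfl

theorem sz_letterG {y : G} (hy : y ∈ SG ∨ y⁻¹ ∈ SG) (x : N.X) :
    N.sz ((N.act y).1 x) ≤ N.D * N.sz x := by
  have h0 : N.sz x ≤ N.D * N.sz x := Nat.le_mul_of_pos_left _ N.one_le_D
  rcases hy with (hy | hy) | (hy | hy)
  · rw [hy, act_z_fst]
    exact h0
  · exact N.sz_letter (Or.inl hy) x
  · rw [← inv_inv y, hy, N.act_inv_fst]
    have h1 : ((N.act G.z).1)⁻¹ x = x := by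
      rw [Equiv.Perm.inv_eq_iff_eq, act_z_fst]
    rw [h1]
    exact h0
  · exact N.sz_letter (Or.inr hy) x

/-- `comb` for all of `G` -/
theorem sz_act {g : G} {n : ℕ} (hg : W SG g n) (x : N.X) :
    N.sz ((N.act g).1 x) ≤ N.D ^ n * N.sz x := by
  refine W_induction (P := fun g n => N.sz ((N.act g).1 x) ≤ N.D ^ n * N.sz x) ?_ ?_ ?_ hg
  · rw [map_one, pow_zero, one_mul]
    exact le_refl _
  · intro y g n hy ih
    have h1 : (N.act (y * g)).1 x = (N.act y).1 ((N.act g).1 x) := by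
      rw [map_mul]; rfl
    rw [h1]
    calc N.sz ((N.act y).1 ((N.act g).1 x)) ≤ N.D * N.sz ((N.act g).1 x) := sz_letterG N hy _
      _ ≤ N.D * (N.D ^ n * N.sz x) := Nat.mul_le_mul_left _ ih
      _ = N.D ^ (n + 1) * N.sz x := by ring
  · intro g m n hmn ih
    exact ih.trans (Nat.mul_le_mul_right _ (Nat.pow_le_pow_right N.one_le_D hmn))

/-- conjugation as a homomorphism -/
noncomputable def cjH : G →* K2 :=
  (MulAut.conj rr⁻¹).toMonoidHom.comp
    ((of : G →* K2).comp (MulAut.conj (N.rep xM P0)).toMonoidHom)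

theorem cjH_apply (g : G) : cjH N P0 xM g = cj N P0 xM g := by
  simp [cjH, cj]

theorem rr_inv_s (k : ℤ) : (of (G.t ^ k) : K2) * rr⁻¹ = rr⁻¹ * of (G.s ^ k) := by
  have h := rr_t k
  rw [eq_inv_mul_iff_mul_eq, ← mul_assoc, h, mul_assoc, mul_inv_cancel, mul_one]

/-- the piece in the first copy -/
theorem piece1 {h g0 : G} {j k : ℤ} (hh : h ∈ N.HH P0) (e : h = G.t ^ j * g0 * G.t ^ k) (E : ℕ)
    (hE1 : ∀ (c : ℕ) (j k : ℤ), N.sz ((N.T ^ k) P0) ≤ N.D ^ c * N.sz ((N.T ^ j) P0) →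
      k.natAbs + 1 ≤ E ^ (c + 1) * (j.natAbs + 1)) :
    k.natAbs + 1 ≤ E ^ (wlG g0 + 1) * (j.natAbs + 1) := by
  have h1 := HH_fix N hh
  have h2 : (N.act g0⁻¹).1 ((N.T ^ (-j)) P0) = (N.T ^ k) P0 := by
    rw [N.act_inv_fst, Equiv.Perm.inv_eq_iff_eq]
    rw [e, map_mul, map_mul] at h1
    have h3 : (N.act (G.t ^ j)).1 ((N.act g0).1 ((N.act (G.t ^ k)).1 P0)) = P0 := h1
    rw [N.act_t_zpow, N.act_t_zpow] at h3
    rw [zpow_neg, Equiv.Perm.inv_eq_iff_eq]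
    exact h3.symm
  have h4 := sz_act N (W_inv (W_wlG g0)) ((N.T ^ (-j)) P0)
  rw [h2] at h4
  have h5 := hE1 _ _ _ h4
  rwa [Int.natAbs_neg] at h5

/-- the piece in the second copy -/
theorem piece2 {x g1 : G} {i k : ℤ} (hx : (N.rep xM P0)⁻¹ * x * N.rep xM P0 ∈ N.HH xM)
    (e : x = G.s ^ (-k) * g1 * G.s ^ i) (E : ℕ)
    (hE2 : ∀ (c : ℕ) (j k : ℤ), N.sz ((N.S ^ k) P0) ≤ N.D ^ c * N.sz ((N.S ^ j) P0) →
      k.natAbs + 1 ≤ E ^ (c + 1) * (j.natAbs + 1)) :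
    i.natAbs + 1 ≤ E ^ (wlG g1 + 1) * (k.natAbs + 1) := by
  have h1 := HH_fix N hx
  have hP : (N.act (N.rep xM P0)).1 xM = P0 := N.act_rep_fst xM P0
  have h0 : (N.act x).1 P0 = P0 := by
    rw [map_mul, map_mul] at h1
    have h3 : (N.act (N.rep xM P0)⁻¹).1 ((N.act x).1 ((N.act (N.rep xM P0)).1 xM)) = xM := h1
    rw [hP, N.act_inv_fst, Equiv.Perm.inv_eq_iff_eq, hP] at h3
    exact h3
  have h2 : (N.act g1⁻¹).1 ((N.S ^ k) P0) = (N.S ^ i) P0 := by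
    rw [N.act_inv_fst, Equiv.Perm.inv_eq_iff_eq]
    rw [e, map_mul, map_mul] at h0
    have h3 : (N.act (G.s ^ (-k))).1 ((N.act g1).1 ((N.act (G.s ^ i)).1 P0)) = P0 := h0
    rw [N.act_s_zpow, N.act_s_zpow, zpow_neg, Equiv.Perm.inv_eq_iff_eq] at h3
    exact h3.symm
  have h4 := sz_act N (W_inv (W_wlG g1)) ((N.S ^ k) P0)
  rw [h2] at h4
  exact hE2 _ _ _ h4

theorem upper2_aux (E c0 : ℕ) (hE : 1 ≤ E)
    (hc0 : W SG (N.rep xM P0) c0)
    (hE1 : ∀ (c : ℕ) (j k : ℤ), N.sz ((N.T ^ k) P0) ≤ N.D ^ c * N.sz ((N.T ^ j) P0) →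
      k.natAbs + 1 ≤ E ^ (c + 1) * (j.natAbs + 1))
    (hE2 : ∀ (c : ℕ) (j k : ℤ), N.sz ((N.S ^ k) P0) ≤ N.D ^ c * N.sz ((N.S ^ j) P0) →
      k.natAbs + 1 ≤ E ^ (c + 1) * (j.natAbs + 1))
    (n B : ℕ)
    (hK : ∀ h ∈ N.HH P0, W SG h (n + 2 * E ^ (n + 1) + 2 * c0) → W (ZY N P0) h B)
    (hM : ∀ h ∈ N.HH xM, W SG h (n + 2 * E ^ (n + 1) + 2 * c0) → W (ZY N xM) h B) :
    ∀ (m : List (G × G)) (l : List (ℤˣ × G)) (g0 h : G) (j : ℤ) (e : ℕ),
      Rd l → Rd (m.flatMap (fun x => [((-1 : ℤˣ), x.1), (1, x.2)])) →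
      h ∈ N.HH P0 →
      (∀ x ∈ m, (N.rep xM P0)⁻¹ * x.1 * N.rep xM P0 ∈ N.HH xM ∧ x.2 ∈ N.HH P0) →
      of (G.t ^ j) * wp g0 l = alt h m → j.natAbs + 1 ≤ E ^ e →
      wlG g0 + (l.map (fun x => wlG x.2 + 1)).sum + e ≤ n →
      W (TT N P0 xM) (alt h m) ((l.length + 1) * B) := by
  have hsub1 : ((of : G →* K2) '' (ZY N P0)) ⊆ TT N P0 xM := Set.subset_union_left
  have hsub2 : (cj N P0 xM '' (ZY N xM)) ⊆ TT N P0 xM := Set.subset_union_right
  have hof : ∀ {h : G}, W (ZY N P0) h B → W (TT N P0 xM) (of h) B := fun h =>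
    W_subset hsub1 (W_map _ h)
  have hcj : ∀ {h : G}, W (ZY N xM) h B → W (TT N P0 xM) (cj N P0 xM h) B := by
    intro h hh
    have h1 := W_map (cjH N P0 xM) hh
    rw [cjH_apply] at h1
    refine W_subset ?_ h1
    rintro _ ⟨y, hy, rfl⟩
    rw [cjH_apply]
    exact hsub2 ⟨y, hy, rfl⟩
  intro m
  induction m with
  | nil =>
    intro l g0 h j e hl _ hh _ heq hj hn
    rw [of_mul_wp] at heq
    have heq' : wp (G.t ^ j * g0) l = wp h [] := heq
    obtain ⟨h1, -, h3⟩ := britton2 hl List.isChain_nil heq'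
    have h2 : l = [] := List.map_eq_nil_iff.1 h1
    subst h2
    have h4 := h3 rfl
    show W (TT N P0 xM) (wp h []) _
    rw [wp_nil]
    have h5 : W SG h (j.natAbs + wlG g0) := by
      rw [← h4]
      exact W_mul (W_mono (W_wlG _) (wlG_t j)) (W_wlG g0)
    have h6 : E ^ e ≤ E ^ (n + 1) := Nat.pow_le_pow_right hE (by omega)
    have h7 := hof (hK h hh (W_mono h5 (by simp only [List.map_nil, List.sum_nil] at hn; omega)))
    refine W_mono h7 ?_
    simp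
  | cons x m ih =>
    intro l g0 h j e hl hr hh hm heq hj hn
    obtain ⟨x1, x2⟩ := x
    rw [of_mul_wp] at heq
    have heq' : wp (G.t ^ j * g0) l =
        wp h (((-1 : ℤˣ), x1) :: (1, x2) :: m.flatMap (fun x => [((-1 : ℤˣ), x.1), (1, x.2)])) := heq
    have hr' : Rd (((-1 : ℤˣ), x1) :: (1, x2) ::
        m.flatMap (fun x => [((-1 : ℤˣ), x.1), (1, x.2)])) := hr
    obtain ⟨h1, h2, -⟩ := britton2 hl hr' heq'
    -- the shape of `l`
    obtain ⟨g1, g2, l2, rfl⟩ : ∃ g1 g2 l2, l = ((-1 : ℤˣ), g1) :: (1, g2) :: l2 := by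
      rcases l with _ | ⟨⟨u1, g1⟩, _ | ⟨⟨u2, g2⟩, l2⟩⟩
      · simp at h1
      · simp at h1
      · simp only [List.map_cons, List.cons.injEq] at h1
        obtain ⟨e1, e2, -⟩ := h1
        subst e1 e2
        exact ⟨g1, g2, l2, rfl⟩
    have h2' := h2 (-1) (by simp)
    rw [neg_neg, mem_toSub_one] at h2'
    obtain ⟨k, hk⟩ := h2'
    have hh' : h = G.t ^ j * g0 * G.t ^ k := by
      rw [← hk, mul_inv_cancel_left]
    have hk1 := piece1 N P0 hh hh' E hE1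
    simp only [List.map_cons, List.sum_cons] at hn
    have hk2 : k.natAbs + 1 ≤ E ^ (e + (wlG g0 + 1)) := by
      calc k.natAbs + 1 ≤ E ^ (wlG g0 + 1) * (j.natAbs + 1) := hk1
        _ ≤ E ^ (wlG g0 + 1) * E ^ e := Nat.mul_le_mul_left _ hj
        _ = E ^ (e + (wlG g0 + 1)) := by rw [← pow_add]; congr 1; omega
    -- block 1
    have hW1 : W (TT N P0 xM) (of h) B := by
      apply hof
      apply hK h hh
      have h5 : W SG h (j.natAbs + wlG g0 + k.natAbs) := by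
        rw [hh']
        exact W_mul (W_mul (W_mono (W_wlG _) (wlG_t j)) (W_wlG g0)) (W_mono (W_wlG _) (wlG_t k))
      have h6 : E ^ e ≤ E ^ (n + 1) := Nat.pow_le_pow_right hE (by omega)
      have h7 : E ^ (e + (wlG g0 + 1)) ≤ E ^ (n + 1) := Nat.pow_le_pow_right hE (by omega)
      exact W_mono h5 (by omega)
    -- the rest of the equation
    have heq1 : wp (G.s ^ (-k) * g1) ((1, g2) :: l2) =
        wp x1 ((1, x2) :: m.flatMap (fun x => [((-1 : ℤˣ), x.1), (1, x.2)])) := by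
      rw [wp_cons (G.t ^ j * g0) (-1, g1), wp_cons h (-1, x1)] at heq'
      simp only [Units.val_neg, Units.val_one, zpow_neg, zpow_one] at heq'
      rw [hh', map_mul (of : G →* K2) (G.t ^ j * g0), mul_assoc (of (G.t ^ j * g0)),
        mul_right_inj, ← mul_assoc (of (G.t ^ k)), rr_inv_s, mul_assoc, mul_right_inj] at heq'
      rw [← of_mul_wp, heq', ← mul_assoc, ← map_mul, ← zpow_add, neg_add_cancel, zpow_zero,
        map_one, one_mul]
    obtain ⟨-, h3, -⟩ := britton2 hl.tail hr'.tail heq1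
    have h3' := h3 1 (by simp)
    rw [mem_toSub_neg] at h3'
    obtain ⟨i, hi⟩ := h3'
    have hx1 : x1 = G.s ^ (-k) * g1 * G.s ^ i := by
      rw [← hi, mul_inv_cancel_left]
    obtain ⟨hm1, hm2⟩ := hm (x1, x2) (List.mem_cons_self ..)
    have hi1 := piece2 N P0 xM hm1 hx1 E hE2
    have hi2 : i.natAbs + 1 ≤ E ^ (e + (wlG g0 + 1) + (wlG g1 + 1)) := by
      calc i.natAbs + 1 ≤ E ^ (wlG g1 + 1) * (k.natAbs + 1) := hi1
        _ ≤ E ^ (wlG g1 + 1) * E ^ (e + (wlG g0 + 1)) := Nat.mul_le_mul_left _ hk2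
        _ = E ^ (e + (wlG g0 + 1) + (wlG g1 + 1)) := by rw [← pow_add]; congr 1; omega
    -- block 2
    have hW2 : W (TT N P0 xM) (rr⁻¹ * of x1 * rr) B := by
      have h8 : (rr⁻¹ * of x1 * rr : K2) =
          cj N P0 xM ((N.rep xM P0)⁻¹ * x1 * N.rep xM P0) := by
        unfold cj
        congr 3
        group
      rw [h8]
      apply hcj
      apply hM _ hm1
      have h5 : W SG ((N.rep xM P0)⁻¹ * x1 * N.rep xM P0)
          (c0 + (k.natAbs + wlG g1 + i.natAbs) + c0) := by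
        refine W_mul (W_mul (W_inv hc0) ?_) hc0
        rw [hx1]
        refine W_mul (W_mul ?_ (W_wlG g1)) (W_mono (W_wlG _) (wlG_s i))
        have := W_mono (W_wlG _) (wlG_s (-k))
        rwa [Int.natAbs_neg] at this
      have h6 : E ^ (e + (wlG g0 + 1)) ≤ E ^ (n + 1) := Nat.pow_le_pow_right hE (by omega)
      have h7 : E ^ (e + (wlG g0 + 1) + (wlG g1 + 1)) ≤ E ^ (n + 1) :=
        Nat.pow_le_pow_right hE (by omega)
      exact W_mono h5 (by omega)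
    -- the rest
    have heq2 : of (G.t ^ (-i)) * wp g2 l2 = alt x2 m := by
      rw [wp_cons (G.s ^ (-k) * g1) (1, g2), wp_cons x1 (1, x2)] at heq1
      simp only [Units.val_one, zpow_one] at heq1
      rw [hx1, map_mul (of : G →* K2) (G.s ^ (-k) * g1), mul_assoc (of (G.s ^ (-k) * g1)),
        mul_right_inj, ← mul_assoc (of (G.s ^ i)), ← rr_t, mul_assoc, mul_right_inj] at heq1
      rw [heq1, ← mul_assoc, ← map_mul, ← zpow_add, neg_add_cancel, zpow_zero, map_one, one_mul]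
      rfl
    have h9 := ih l2 g2 x2 (-i) (e + (wlG g0 + 1) + (wlG g1 + 1)) hl.tail.tail hr'.tail.tail hm2
      (fun y hy => hm y (List.mem_cons_of_mem _ hy)) heq2 (by rw [Int.natAbs_neg]; exact hi2)
      (by omega)
    have h10 : alt h ((x1, x2) :: m) = of h * (rr⁻¹ * of x1 * rr) * alt x2 m :=
      alt_cons h (x1, x2) m
    rw [h10]
    refine W_mono (W_mul (W_mul hW1 hW2) h9) (le_of_eq ?_)
    simp only [List.length_cons]
    ring

theorem length_le_sum (l : List (ℤˣ × G)) : l.length ≤ (l.map (fun x => wlG x.2 + 1)).sum := by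
  induction l with
  | nil => simp
  | cons x l ih =>
    rw [List.length_cons, List.map_cons, List.sum_cons]
    omega

theorem upper2 (hS : ∀ k : ℤ, k ≠ 0 → (N.S ^ k) P0 ≠ P0) (E c0 : ℕ) (hE : 1 ≤ E)
    (hc0 : W SG (N.rep xM P0) c0)
    (hE1 : ∀ (c : ℕ) (j k : ℤ), N.sz ((N.T ^ k) P0) ≤ N.D ^ c * N.sz ((N.T ^ j) P0) →
      k.natAbs + 1 ≤ E ^ (c + 1) * (j.natAbs + 1))
    (hE2 : ∀ (c : ℕ) (j k : ℤ), N.sz ((N.S ^ k) P0) ≤ N.D ^ c * N.sz ((N.S ^ j) P0) →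
      k.natAbs + 1 ≤ E ^ (c + 1) * (j.natAbs + 1))
    (n B : ℕ)
    (hK : ∀ h ∈ N.HH P0, W SG h (n + 2 * E ^ (n + 1) + 2 * c0) → W (ZY N P0) h B)
    (hM : ∀ h ∈ N.HH xM, W SG h (n + 2 * E ^ (n + 1) + 2 * c0) → W (ZY N xM) h B)
    {g : K2} (hg : g ∈ H2 N P0 xM) (hgn : W SK g n) :
    W (TT N P0 xM) g ((n + 1) * B) := by
  obtain ⟨g0, l, h1, h2, h3⟩ := red2 hgn
  obtain ⟨h, m, h4, h5, h6, h7⟩ := normal_form N P0 xM hS hg
  have h8 := upper2_aux N P0 xM E c0 hE hc0 hE1 hE2 n B hK hM m l g0 h 0 0 h1 h7 h5 h6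
    (by rw [zpow_zero, map_one, one_mul, h2, h4]) (by simp) (by omega)
  rw [h4] at h8
  have h9 := length_le_sum l
  exact W_mono h8 (Nat.mul_le_mul_right _ (by omega))

end Pool.Agent.DIST3
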